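import Pool.Agent.H.MP_43e44c_ag.OD.Def

/-!
The center of a group ring.
-/

set_option autoImplicit false

open Finset Module

namespace Pool.MP43e44c.OD

universe u

/-- The central elements. -/
noncomputable def ctr (k : Type) [Field k] (O : Type u) [Group O] [Fintype O] :
    Submodule k (MonoidAlgebra k O) where
  carrier := {z | ∀ x, z * x = x * z}
  zero_mem' := fun x => by rw [zero_mul, mul_zero]
  add_mem' := fun {a b} ha hb x => by rw [add_mul, mul_add, ha x, hb x]
  smul_mem' := fun c z hz x => by rw [smul_mul_assoc, mul_smul_comm, hz x]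

theorem mem_ctr {k : Type} [Field k] {O : Type u} [Group O] [Fintype O] {z : MonoidAlgebra k O} :
    z ∈ ctr k O ↔ ∀ x, z * x = x * z := Iff.rfl

/-- Central elements are class functions.  (Commuting with `single h 1` for all `h` is enough:
`MonoidAlgebra.induction_linear`, `MonoidAlgebra.coeff_single_mul_apply`,
`MonoidAlgebra.coeff_mul_single_apply` or similar.) -/
theorem central_iff {R : Type*} [CommRing R] {O : Type*} [Group O] [Fintype O]
    {z : MonoidAlgebra R O} :
    (∀ x, z * x = x * z) ↔ ∀ g h : O, z.coeff (h * g * h⁻¹) = z.coeff g := by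
  constructor
  · intro hz g h
    have h1 : (z * MonoidAlgebra.single h 1).coeff (h * g) =
      (MonoidAlgebra.single h 1 * z).coeff (h * g) := by rw [hz]
    rw [MonoidAlgebra.coeff_mul_single_apply, MonoidAlgebra.coeff_single_mul_apply, mul_one,
      one_mul, inv_mul_cancel_left] at h1
    exact h1
  · intro hz x
    induction x using MonoidAlgebra.induction_linear with
    | zero => rw [mul_zero, zero_mul]
    | add a b ha hb => rw [mul_add, add_mul, ha, hb]
    | single a r =>
      apply ma_ext
      intro g
      rw [MonoidAlgebra.coeff_mul_single_apply, MonoidAlgebra.coeff_single_mul_apply, mul_comm r]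
      have h1 := hz (a⁻¹ * g) a
      rw [mul_inv_cancel_left] at h1
      rw [h1]

theorem Ctr_ofFun_mem {k : Type} [Field k] {O : Type u} [Group O] [Fintype O]
    (f : ConjClasses O → k) : ofFun (fun g => f (ConjClasses.mk g)) ∈ ctr k O := by
  rw [mem_ctr, central_iff]
  intro g h
  rw [ofFun_coeff, ofFun_coeff]
  congr 1
  rw [ConjClasses.mk_eq_mk_iff_isConj]
  exact (isConj_iff.2 ⟨h, rfl⟩).symm

/-- Class functions as central elements. -/
noncomputable def Ctr_lin (k : Type) [Field k] (O : Type u) [Group O] [Fintype O] :
    (ConjClasses O → k) →ₗ[k] ctr k O where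
  toFun f := ⟨ofFun (fun g => f (ConjClasses.mk g)), Ctr_ofFun_mem f⟩
  map_add' f f' := by
    apply Subtype.ext
    apply ma_ext
    intro g
    show (ofFun (fun g => (f + f') (ConjClasses.mk g)) : MonoidAlgebra k O).coeff g =
      (ofFun (fun g => f (ConjClasses.mk g)) : MonoidAlgebra k O).coeff g +
      (ofFun (fun g => f' (ConjClasses.mk g)) : MonoidAlgebra k O).coeff g
    rw [ofFun_coeff, ofFun_coeff, ofFun_coeff]
    rfl
  map_smul' c f := by
    apply Subtype.ext
    apply ma_ext
    intro g
    show (ofFun (fun g => (c • f) (ConjClasses.mk g)) : MonoidAlgebra k O).coeff g =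
      c * (ofFun (fun g => f (ConjClasses.mk g)) : MonoidAlgebra k O).coeff g
    rw [ofFun_coeff, ofFun_coeff]
    rfl

/-- `ctr k O` is linearly equivalent to `ConjClasses O → k` (`central_iff`, `ofFun`). -/
theorem finrank_ctr (k : Type) [Field k] (O : Type u) [Group O] [Fintype O] :
    finrank k (ctr k O) = Nat.card (ConjClasses O) := by
  classical
  have hbij : Function.Bijective (Ctr_lin k O) := by
    constructor
    · intro f f' h
      funext c
      obtain ⟨g, rfl⟩ := ConjClasses.exists_rep c
      have h1 : ((Ctr_lin k O f : ctr k O) : MonoidAlgebra k O).coeff g =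
        ((Ctr_lin k O f' : ctr k O) : MonoidAlgebra k O).coeff g := by rw [h]
      have h2 : ((Ctr_lin k O f : ctr k O) : MonoidAlgebra k O).coeff g
        = f (ConjClasses.mk g) := ofFun_coeff _ _
      have h3 : ((Ctr_lin k O f' : ctr k O) : MonoidAlgebra k O).coeff g
        = f' (ConjClasses.mk g) := ofFun_coeff _ _
      rw [h2, h3] at h1
      exact h1
    · rintro ⟨z, hz⟩
      have hz' := hz
      rw [mem_ctr, central_iff] at hz'
      choose rp hrp using fun c : ConjClasses O => ConjClasses.exists_rep c
      refine ⟨fun c => z.coeff (rp c), ?_⟩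
      apply Subtype.ext
      apply ma_ext
      intro g
      have h2 : ((Ctr_lin k O (fun c => z.coeff (rp c)) : ctr k O) : MonoidAlgebra k O).coeff g
        = z.coeff (rp (ConjClasses.mk g)) := ofFun_coeff _ _
      rw [h2]
      have h3 : IsConj g (rp (ConjClasses.mk g)) := by
        rw [← ConjClasses.mk_eq_mk_iff_isConj]
        exact (hrp _).symm
      obtain ⟨c, hc⟩ := isConj_iff.1 h3
      rw [← hc]
      exact hz' g c
  have e := LinearEquiv.ofBijective (Ctr_lin k O) hbij
  have : Finite (ConjClasses O) := Quotient.finite _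
  have : Fintype (ConjClasses O) := Fintype.ofFinite _
  rw [← LinearEquiv.finrank_eq e, Module.finrank_fintype_fun_eq_card, Nat.card_eq_fintype_card]

/-- Lift the values of the class function, one conjugacy class at a time (choose a lift
`ZMod p → ℤ` of every element of `ZMod p` once and for all, and compose). -/
theorem ctr_lift {O : Type*} [Group O] [Fintype O] (p : ℕ) {z : MonoidAlgebra (ZMod p) O}
    (hz : ∀ x, z * x = x * z) :
    ∃ c : MonoidAlgebra ℤ O, (∀ x, c * x = x * c) ∧ toP p c = z := by
  rw [central_iff] at hz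
  choose l hl using fun a : ZMod p => ZMod.intCast_surjective a
  refine ⟨ofFun fun g => l (z.coeff g), ?_, ?_⟩
  · rw [central_iff]
    intro g h
    rw [ofFun_coeff, ofFun_coeff, hz g h]
  · apply ma_ext
    intro g
    rw [toP_coeff, ofFun_coeff, hl]

theorem toP_central {O : Type*} [Group O] [Fintype O] (p : ℕ) {c : MonoidAlgebra ℤ O}
    (hc : ∀ x, c * x = x * c) (x : MonoidAlgebra (ZMod p) O) : toP p c * x = x * toP p c := by
  obtain ⟨y, rfl⟩ := toP_surj p x
  rw [← map_mul, hc, map_mul]

/-- `central_iff` on both sides. -/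
theorem toQ_central {O : Type*} [Group O] [Fintype O] {c : MonoidAlgebra ℤ O} :
    (∀ x, toQ c * x = x * toQ c) ↔ ∀ x, c * x = x * c := by
  rw [central_iff, central_iff]
  simp only [toQ_coeff, Int.cast_inj]

end Pool.MP43e44c.OD
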