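import Pool.Agent.H.MP_43e44c_ag.OD.WdB
import Pool.Agent.H.MP_43e44c_ag.OD.Ctr

/-!
Wedderburn decompositions: dimensions of the components and of their centers.
-/

set_option autoImplicit false

open Finset Module

namespace Pool.MP43e44c.OD

universe u

namespace WD

variable {k : Type} [Field k] {O : Type u} [Group O] [Fintype O] (W : WD k O)

/-- The component as a subspace of the group algebra. -/
noncomputable def algE (i : Fin W.m) : Submodule k (MonoidAlgebra k O) where
  carrier := {x | x * W.e i = x}
  zero_mem' := zero_mul _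
  add_mem' := fun {a b} ha hb => by
    show (a + b) * W.e i = a + b
    rw [add_mul, ha, hb]
  smul_mem' := fun c z hz => by
    show (c • z) * W.e i = c • z
    rw [smul_mul_assoc, hz]

/-- The center of the component as a subspace of the group algebra. -/
noncomputable def ctrE (i : Fin W.m) : Submodule k (MonoidAlgebra k O) := ctr k O ⊓ W.algE i

theorem wdC_mem_algE {i : Fin W.m} {x : MonoidAlgebra k O} :
    x ∈ W.algE i ↔ x * W.e i = x := Iff.rfl

/-- Two elements of a component with the same matrix are equal. -/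
theorem wdC_inj {i : Fin W.m} {x y : MonoidAlgebra k O} (hx : x * W.e i = x)
    (hy : y * W.e i = y) (h : W.comp i x = W.comp i y) : x = y := by
  apply W.comp_inj
  intro j
  by_cases hj : j = i
  · subst hj
    exact h
  · rw [(W.mul_e_iff i x).mp hx j hj, (W.mul_e_iff i y).mp hy j hj]

/-- `x ↦ comp i x` is a linear equivalence of `algE i` with the matrix algebra. -/
theorem finrank_algE (i : Fin W.m) : finrank k (W.algE i) = W.a i := by
  have h := LinearEquiv.finrank_eq (LinearEquiv.ofBijective
    ((W.comp i).toLinearMap.comp (W.algE i).subtype) ⟨by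
      rintro ⟨x, hx⟩ ⟨y, hy⟩ hxy
      exact Subtype.ext (W.wdC_inj hx hy hxy), by
      intro X
      obtain ⟨x, hx1, hx2⟩ := W.exists_comp i X
      exact ⟨⟨x, hx2⟩, hx1⟩⟩)
  rw [h, finrank_matrix, Fintype.card_fin, a, sq]

/-- `ctrE i` is linearly equivalent to the center of `D i` (`comp_central`, `exists_central`). -/
theorem finrank_ctrE (i : Fin W.m) : finrank k (W.ctrE i) = W.f i := by
  symm
  have hz0 : 0 < W.r i := Nat.pos_of_ne_zero (NeZero.ne (W.r i))
  let L : Subalgebra.center k (W.D i) →ₗ[k] Matrix (Fin (W.r i)) (Fin (W.r i)) (W.D i) :=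
    { toFun := fun ζ => Matrix.diagonal fun _ => (ζ : W.D i)
      map_add' := fun x y => by
        rw [Matrix.diagonal_add]
        rfl
      map_smul' := fun c x => by
        rw [← Matrix.diagonal_smul]
        rfl }
  let M : W.ctrE i →ₗ[k] Matrix (Fin (W.r i)) (Fin (W.r i)) (W.D i) :=
    (W.comp i).toLinearMap.comp (W.ctrE i).subtype
  have hL : Function.Injective L := by
    intro x y hxy
    apply Subtype.ext
    have h := congrFun (congrFun hxy ⟨0, hz0⟩) ⟨0, hz0⟩
    change (Matrix.diagonal fun _ => (x : W.D i)) _ _ = (Matrix.diagonal fun _ => (y : W.D i)) _ _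
      at h
    rwa [Matrix.diagonal_apply_eq, Matrix.diagonal_apply_eq] at h
  have hM : Function.Injective M := by
    rintro ⟨x, hx⟩ ⟨y, hy⟩ hxy
    exact Subtype.ext (W.wdC_inj hx.2 hy.2 hxy)
  have hr : LinearMap.range L = LinearMap.range M := by
    apply le_antisymm
    · rintro _ ⟨ζ, rfl⟩
      obtain ⟨z, h1, h2, h3⟩ := W.exists_central i (ζ : W.D i) fun d =>
        ((Subalgebra.mem_center_iff.mp ζ.2) d).symm
      exact ⟨⟨z, h1, h2⟩, h3⟩
    · rintro _ ⟨⟨z, h1, h2⟩, rfl⟩
      obtain ⟨ζ, h3, h4⟩ := W.comp_central i h1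
      exact ⟨⟨ζ, Subalgebra.mem_center_iff.mpr fun d => (h3 d).symm⟩, h4.symm⟩
  rw [f, ← LinearMap.finrank_range_of_inj hL, ← LinearMap.finrank_range_of_inj hM, hr]

/-- `ctr = ⨁ ctrE i` (via `z = ∑ z * e i`). -/
theorem sum_f : ∑ i, W.f i = finrank k (ctr k O) := by
  have hec : ∀ i, ∀ x, W.e i * x = x * W.e i := fun i x => W.e_comm i x
  let P : ctr k O →ₗ[k] Π i, W.ctrE i :=
    LinearMap.pi fun i =>
      { toFun := fun z => ⟨(z : MonoidAlgebra k O) * W.e i, fun x => by
            rw [mul_assoc, W.e_comm i x, ← mul_assoc, z.2 x, mul_assoc], by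
            show (z : MonoidAlgebra k O) * W.e i * W.e i = (z : MonoidAlgebra k O) * W.e i
            rw [mul_assoc, W.e_mul_self]⟩
        map_add' := fun x y => Subtype.ext (add_mul _ _ _)
        map_smul' := fun c x => Subtype.ext (smul_mul_assoc _ _ _) }
  have hP : ∀ z i, ((P z i : W.ctrE i) : MonoidAlgebra k O) = (z : MonoidAlgebra k O) * W.e i :=
    fun z i => rfl
  have hbij : Function.Bijective P := by
    constructor
    · intro x y hxy
      apply Subtype.ext
      have h1 : ∀ i, (x : MonoidAlgebra k O) * W.e i = (y : MonoidAlgebra k O) * W.e i := by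
        intro i
        rw [← hP, ← hP, hxy]
      rw [← mul_one (x : MonoidAlgebra k O), ← mul_one (y : MonoidAlgebra k O), ← W.sum_e,
        mul_sum, mul_sum]
      exact sum_congr rfl fun i _ => h1 i
    · intro v
      refine ⟨∑ i, ⟨(v i : MonoidAlgebra k O), (v i).2.1⟩, ?_⟩
      funext i
      apply Subtype.ext
      rw [hP]
      push_cast
      rw [sum_mul, sum_eq_single i]
      · exact (v i).2.2
      · intro j _ hj
        show (v j : MonoidAlgebra k O) * W.e i = 0
        rw [← (v j).2.2, mul_assoc, W.e_mul_ne hj, mul_zero]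
      · intro h
        exact absurd (mem_univ i) h
  rw [LinearEquiv.finrank_eq (LinearEquiv.ofBijective P hbij)]
  have hfin : Module.Finite k (MonoidAlgebra k O) :=
    Module.Finite.equiv (MonoidAlgebra.coeffLinearEquiv k (S := k) (M := O)).symm
  rw [finrank_pi_fintype]
  exact sum_congr rfl fun i _ => (W.finrank_ctrE i).symm

end WD

end Pool.MP43e44c.OD
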