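import Pool.Agent.H.MP_43e44c_ag.OD.DMain

/-!
Components of bounded dimension, summary.
-/

set_option autoImplicit false

open Finset Module

namespace Pool.MP43e44c.OD

universe u

/-- the logarithmic factor -/
theorem DSml_log {A B c t : ℝ} (hA : 0 ≤ A) (hc : 0 < c) (ht : A - B + c ≤ -t) :
    ∃ K : ℝ, 0 < K ∧ ∀ n : ℕ, 1 ≤ n →
      ((n : ℝ) * Real.log n) ^ A * (n : ℝ) ^ (-B) ≤ K * (n : ℝ) ^ (-t) := by
  set ε : ℝ := c / (A + 1) with hε
  have hA1 : 0 < A + 1 := by linarith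
  have hε0 : 0 < ε := div_pos hc hA1
  have hεA : ε * A ≤ c := by
    have h1 : ε * (A + 1) = c := by rw [hε]; field_simp
    nlinarith
  refine ⟨(1 / ε) ^ A, Real.rpow_pos_of_pos (by positivity) _, fun n hn => ?_⟩
  have hn1 : (1 : ℝ) ≤ n := by exact_mod_cast hn
  have hn0 : (0 : ℝ) < n := by linarith
  have hlog : 0 ≤ Real.log n := Real.log_nonneg hn1
  have h1 : Real.log n ≤ (n : ℝ) ^ ε * (1 / ε) := by
    have := Real.log_le_rpow_div hn0.le hε0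
    rwa [div_eq_mul_one_div] at this
  have h2 : Real.log n ^ A ≤ (n : ℝ) ^ c * (1 / ε) ^ A := by
    calc Real.log n ^ A ≤ ((n : ℝ) ^ ε * (1 / ε)) ^ A := Real.rpow_le_rpow hlog h1 hA
      _ = (n : ℝ) ^ (ε * A) * (1 / ε) ^ A := by
          rw [Real.mul_rpow (Real.rpow_nonneg hn0.le _) (by positivity), ← Real.rpow_mul hn0.le]
      _ ≤ (n : ℝ) ^ c * (1 / ε) ^ A := by
          refine mul_le_mul_of_nonneg_right (Real.rpow_le_rpow_of_exponent_le hn1 hεA) ?_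
          exact Real.rpow_nonneg (by positivity) _
  calc ((n : ℝ) * Real.log n) ^ A * (n : ℝ) ^ (-B)
      = (n : ℝ) ^ A * Real.log n ^ A * (n : ℝ) ^ (-B) := by rw [Real.mul_rpow hn0.le hlog]
    _ ≤ (n : ℝ) ^ A * ((n : ℝ) ^ c * (1 / ε) ^ A) * (n : ℝ) ^ (-B) := by
        refine mul_le_mul_of_nonneg_right (mul_le_mul_of_nonneg_left h2 ?_) ?_
        · exact Real.rpow_nonneg hn0.le _
        · exact Real.rpow_nonneg hn0.le _
    _ = (1 / ε) ^ A * ((n : ℝ) ^ A * (n : ℝ) ^ c * (n : ℝ) ^ (-B)) := by ring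
    _ = (1 / ε) ^ A * (n : ℝ) ^ (A - B + c) := by
        rw [← Real.rpow_add hn0, ← Real.rpow_add hn0]
        congr 2
        ring
    _ ≤ (1 / ε) ^ A * (n : ℝ) ^ (-t) := by
        refine mul_le_mul_of_nonneg_left (Real.rpow_le_rpow_of_exponent_le hn1 ht) ?_
        exact Real.rpow_nonneg (by positivity) _

/-- one pair `(r, δ)` -/
theorem DSml_dep (Δ r δ : ℕ) : ∃ C : ℝ, 0 < C ∧ (2 ≤ r → 2 ≤ δ → r ≤ Δ →
    ∀ {O : Type u} [Group O] [Fintype O] (W : WD ℚ O) (i : Fin W.m), W.r i = r →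
      finrank ℚ (W.D i) = δ → 2 ≤ Fintype.card O →
    (((badI W i).ncard : ℕ) : ℝ) ≤ C * (Fintype.card O : ℝ) ^ (-(1 + 1 / (4 * ((Δ : ℝ) + 1)))) *
      2 ^ Fintype.card O) := by
  by_cases h : 2 ≤ r ∧ 2 ≤ δ ∧ r ≤ Δ
  swap
  · exact ⟨1, one_pos, fun h1 h2 h3 => absurd ⟨h1, h2, h3⟩ h⟩
  obtain ⟨hr, hδ, hΔ⟩ := h
  obtain ⟨C, hC, H⟩ := badI_dep.{u} r δ hr hδ
  have hrR : (2 : ℝ) ≤ r := by exact_mod_cast hr
  have hδR : (2 : ℝ) ≤ δ := by exact_mod_cast hδ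
  have hΔR : (r : ℝ) ≤ Δ := by exact_mod_cast hΔ
  have hr0 : (0 : ℝ) < r := by linarith
  have hir : 1 / (r : ℝ) ≤ 1 / 2 := one_div_le_one_div_of_le (by norm_num) hrR
  have hir0 : 0 < 1 / (r : ℝ) := by positivity
  set c : ℝ := 1 / (4 * ((Δ : ℝ) + 1)) with hc
  have hc0 : 0 < c := by positivity
  have hcr : 4 * c ≤ 1 / (r : ℝ) := by
    have h1 : 4 * c = 1 / ((Δ : ℝ) + 1) := by rw [hc]; field_simp
    rw [h1]
    exact one_div_le_one_div_of_le hr0 (by linarith)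
  have hA : 0 ≤ ((r : ℝ) ^ 2 * δ - δ - 1 / r) / 2 := by
    have h1 : 4 ≤ (r : ℝ) ^ 2 := by nlinarith
    have h2 : 4 * (δ : ℝ) ≤ (r : ℝ) ^ 2 * δ := mul_le_mul_of_nonneg_right h1 (by linarith)
    linarith
  obtain ⟨K, hK, hKn⟩ := DSml_log (A := ((r : ℝ) ^ 2 * δ - δ - 1 / r) / 2)
    (B := (r : ℝ) ^ 2 * δ / 2) (c := c) (t := 1 + c) hA hc0 (by linarith)
  refine ⟨C + C * K, by positivity, fun _ _ _ => ?_⟩
  intro O _ _ W i hri hfi hO
  have h1 := H W i hri hfi hO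
  have hn1 : (1 : ℝ) ≤ Fintype.card O := by exact_mod_cast (by omega : 1 ≤ Fintype.card O)
  refine h1.trans (mul_le_mul_of_nonneg_right ?_ (by positivity))
  have h2 := hKn (Fintype.card O) (by omega)
  have h3 : (Fintype.card O : ℝ) ^ (-2 : ℝ) ≤ (Fintype.card O : ℝ) ^ (-(1 + c)) :=
    Real.rpow_le_rpow_of_exponent_le hn1 (by linarith)
  have h4 : -((r : ℝ) ^ 2 * δ) / 2 = -((r : ℝ) ^ 2 * δ / 2) := by ring
  rw [h4, mul_assoc C, add_mul, mul_assoc C K]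
  exact add_le_add (mul_le_mul_of_nonneg_left h3 hC.le) (mul_le_mul_of_nonneg_left h2 hC.le)

/-- `badI_dep` for the finitely many `(r, δ)` with `r ^ 2 δ ≤ Δ`:
`(n log n) ^ ((r²δ - δ - 1/r)/2) n ^ (- r²δ/2) = (log n) ^ (...) n ^ (- (δ + 1/r)/2)`, at most
`C n ^ (- 1 - 1/(4 r))`, with `r ≤ Δ`.  `badI_one` for `r = 1`. -/
theorem badI_small (Δ : ℕ) : ∃ C : ℝ, 0 < C ∧ ∃ c : ℝ, 0 < c ∧
    ∀ {O : Type u} [Group O] [Fintype O] (W : WD ℚ O) (i : Fin W.m),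
      2 ≤ finrank ℚ (W.D i) → 3 ≤ W.a i → W.a i ≤ Δ →
    (((badI W i).ncard : ℕ) : ℝ) ≤ C * (Fintype.card O : ℝ) ^ (-(1 + c)) *
      2 ^ Fintype.card O := by
  classical
  choose Cf hCf0 hCf using DSml_dep.{u} Δ
  obtain ⟨C1, hC1, H1⟩ := badI_one.{u} Δ
  set S : ℝ := ∑ r ∈ range (Δ + 1), ∑ δ ∈ range (Δ + 1), Cf r δ with hS
  have hS0 : 0 ≤ S := sum_nonneg fun r _ => sum_nonneg fun δ _ => (hCf0 r δ).le
  have hSle : ∀ r δ, r ≤ Δ → δ ≤ Δ → Cf r δ ≤ S := by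
    intro r δ h1 h2
    have e1 : Cf r δ ≤ ∑ δ ∈ range (Δ + 1), Cf r δ :=
      single_le_sum (f := fun δ => Cf r δ) (fun x _ => (hCf0 r x).le)
        (mem_range.2 (by omega))
    have e2 : ∑ δ ∈ range (Δ + 1), Cf r δ ≤ S :=
      single_le_sum (f := fun r => ∑ δ ∈ range (Δ + 1), Cf r δ)
        (fun x _ => sum_nonneg fun y _ => (hCf0 x y).le) (mem_range.2 (by omega))
    exact e1.trans e2
  have hc0 : (0 : ℝ) < 1 / (4 * ((Δ : ℝ) + 1)) := by positivity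
  have hc1 : (1 : ℝ) / (4 * ((Δ : ℝ) + 1)) ≤ 1 / 2 := by
    refine one_div_le_one_div_of_le (by norm_num) ?_
    have : (0 : ℝ) ≤ Δ := Nat.cast_nonneg _
    linarith
  refine ⟨C1 + 1 + S, by positivity, 1 / (4 * ((Δ : ℝ) + 1)), hc0, ?_⟩
  intro O _ _ W i h2 h3 hΔ
  have hcard : 1 ≤ Fintype.card O := Fintype.card_pos
  have hn1 : (1 : ℝ) ≤ Fintype.card O := by exact_mod_cast hcard
  have hpw : 0 ≤ (Fintype.card O : ℝ) ^ (-(1 + 1 / (4 * ((Δ : ℝ) + 1)))) :=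
    Real.rpow_nonneg (by linarith) _
  have hr0 : W.r i ≠ 0 := (W.nz i).out
  rcases Nat.lt_or_ge (Fintype.card O) 2 with hO | hO
  · have hO1 : Fintype.card O = 1 := by omega
    have e1 : (badI W i).ncard ≤ 2 ^ Fintype.card O := by
      have h := Set.ncard_le_card (badI W i)
      simpa using h
    have e2 : (((badI W i).ncard : ℕ) : ℝ) ≤ 2 ^ Fintype.card O := by exact_mod_cast e1
    rw [hO1] at e2 ⊢
    rw [Nat.cast_one, Real.one_rpow, mul_one]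
    have : (0 : ℝ) ≤ (C1 + S) * 2 ^ 1 := by positivity
    linarith
  rcases Nat.lt_or_ge (W.r i) 2 with hr | hr
  · have hr1 : W.r i = 1 := by omega
    refine (H1 W i hr1 h3 hΔ).trans ?_
    refine mul_le_mul_of_nonneg_right ?_ (by positivity)
    refine mul_le_mul (by linarith) ?_ (Real.rpow_nonneg (by linarith) _) (by positivity)
    exact Real.rpow_le_rpow_of_exponent_le hn1 (by linarith)
  · have ha : W.r i ^ 2 * finrank ℚ (W.D i) ≤ Δ := hΔ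
    have hrΔ : W.r i ≤ Δ := by
      calc W.r i = W.r i * 1 * 1 := by ring
        _ ≤ W.r i * W.r i * finrank ℚ (W.D i) := by
            exact Nat.mul_le_mul (Nat.mul_le_mul_left _ (by omega)) (by omega)
        _ = W.r i ^ 2 * finrank ℚ (W.D i) := by ring
        _ ≤ Δ := ha
    have hδΔ : finrank ℚ (W.D i) ≤ Δ := by
      refine le_trans ?_ ha
      exact Nat.le_mul_of_pos_left _ (by positivity)
    refine (hCf (W.r i) (finrank ℚ (W.D i)) hr h2 hrΔ W i rfl rfl hO).trans ?_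
    refine mul_le_mul_of_nonneg_right ?_ (by positivity)
    refine mul_le_mul_of_nonneg_right ?_ hpw
    have := hSle _ _ hrΔ hδΔ
    linarith

end Pool.MP43e44c.OD
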