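import Pool.Agent.H.MP_43e44c_ag.OD.Bel

/-!
The dimensions of the components modulo `p` below a rational component.
-/

set_option autoImplicit false

open Finset Module

namespace Pool.MP43e44c.OD

universe u

variable {O : Type u} [Group O] [Fintype O] {p : ℕ} [Fact p.Prime]

/-- Elements whose reductions are independent and are multiplied by a nonzero scalar by the
reduction of `E` remain independent after multiplication by `E`. -/
theorem bel2_descent {s : ℕ} {N : ℕ} (hN : ¬ p ∣ N) (E : MonoidAlgebra ℤ O)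
    (x : Fin s → MonoidAlgebra ℤ O)
    (hx : LinearIndependent (ZMod p) fun l => toP p (x l))
    (hE : ∀ l, toP p E * toP p (x l) = (N : ZMod p) • toP p (x l)) (k : ℕ) :
    ∀ c : Fin s → ℤ, ∑ l, c l • (E * x l) = 0 → ∀ l, (p : ℤ) ^ k ∣ c l := by
  have hp0 : (p : ℤ) ≠ 0 := by
    exact_mod_cast (Fact.out : p.Prime).ne_zero
  induction k with
  | zero => intro c _ l; simp
  | succ k ih =>
    intro c hc
    have h1 : ∀ l, (p : ℤ) ∣ c l := by
      have h2 : ∑ l, ((c l : ZMod p) * (N : ZMod p)) • toP p (x l) = 0 := by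
        have h3 := congrArg (toP p) hc
        rw [map_sum, map_zero] at h3
        rw [← h3]
        refine sum_congr rfl fun l _ => ?_
        rw [map_zsmul, map_mul, hE, mul_smul, Int.cast_smul_eq_zsmul]
      have h4 := Fintype.linearIndependent_iff.mp hx _ h2
      intro l
      have h5 := h4 l
      rcases mul_eq_zero.mp h5 with h6 | h6
      · exact (ZMod.intCast_zmod_eq_zero_iff_dvd _ _).mp h6
      · exact absurd ((ZMod.natCast_eq_zero_iff _ _).mp h6) hN
    choose d hd using h1
    have h7 : ∑ l, d l • (E * x l) = 0 := by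
      have h8 : (p : ℤ) • ∑ l, d l • (E * x l) = 0 := by
        rw [smul_sum, ← hc]
        refine sum_congr rfl fun l _ => ?_
        rw [smul_smul, ← hd]
      apply ma_ext
      intro g
      have h9 := congrArg (fun z => z.coeff g) h8
      have h10 : ((p : ℤ) • ∑ l, d l • (E * x l) : MonoidAlgebra ℤ O).coeff g
        = (p : ℤ) * (∑ l, d l • (E * x l) : MonoidAlgebra ℤ O).coeff g := rfl
      have h11 : (0 : MonoidAlgebra ℤ O).coeff g = 0 := rfl
      simp only [h10, h11] at h9
      rw [h11]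
      exact (mul_eq_zero.mp h9).resolve_left hp0
    intro l
    rw [hd, pow_succ']
    exact mul_dvd_mul_left _ (ih d h7 l)

theorem bel2_indep {s : ℕ} {N : ℕ} (hN : ¬ p ∣ N) (E : MonoidAlgebra ℤ O)
    (x : Fin s → MonoidAlgebra ℤ O)
    (hx : LinearIndependent (ZMod p) fun l => toP p (x l))
    (hE : ∀ l, toP p E * toP p (x l) = (N : ZMod p) • toP p (x l)) :
    LinearIndependent ℚ fun l => toQ (E * x l) := by
  have hp1 : 1 < (p : ℤ) := by
    exact_mod_cast (Fact.out : p.Prime).one_lt
  have h1 : LinearIndependent ℤ fun l => toQ (E * x l) := by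
    rw [Fintype.linearIndependent_iff]
    intro c hc
    have h2 : ∑ l, c l • (E * x l) = 0 := by
      apply toQ_inj
      rw [map_sum, map_zero, ← hc]
      exact sum_congr rfl fun l _ => by rw [map_zsmul]
    intro l
    by_contra h3
    have h4 := bel2_descent hN E x hx hE (c l).natAbs c h2 l
    have h5 : (p ^ (c l).natAbs) ∣ (c l).natAbs := by
      have := Int.natAbs_dvd_natAbs.mpr h4
      rwa [Int.natAbs_pow, Int.natAbs_natCast] at this
    have h6 := Nat.le_of_dvd (Int.natAbs_pos.mpr h3) h5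
    exact absurd h6 (not_le.mpr (Nat.lt_pow_self (Fact.out : p.Prime).one_lt))
  exact (LinearIndependent.iff_fractionRing ℤ ℚ).mp h1

/-- The comparison of dimensions. -/
theorem bel2_rank {N : ℕ} (hN : ¬ p ∣ N) (E : MonoidAlgebra ℤ O)
    (V : Submodule (ZMod p) (MonoidAlgebra (ZMod p) O)) (U : Submodule ℚ (MonoidAlgebra ℚ O))
    [Module.Finite (ZMod p) V] [Module.Finite ℚ U]
    (C : MonoidAlgebra ℤ O → Prop)
    (hV : ∀ v ∈ V, ∃ x, C x ∧ toP p x = v)
    (hU : ∀ x, C x → toQ (E * x) ∈ U)
    (hE : ∀ v ∈ V, toP p E * v = (N : ZMod p) • v) :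
    finrank (ZMod p) V ≤ finrank ℚ U := by
  have b := finBasis (ZMod p) V
  have h1 : ∀ l, ∃ x, C x ∧ toP p x = (b l : MonoidAlgebra (ZMod p) O) :=
    fun l => hV _ (b l).2
  choose x hx1 hx2 using h1
  have h2 : LinearIndependent (ZMod p) fun l => toP p (x l) := by
    have h3 := b.linearIndependent.map' V.subtype (Submodule.ker_subtype V)
    have h4 : (fun l => toP p (x l)) = V.subtype ∘ b := by
      funext l
      rw [hx2]
      rfl
    rw [h4]
    exact h3
  have h5 := bel2_indep hN E x h2 fun l => by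
    rw [hx2]
    exact hE _ (b l).2
  have h6 : LinearIndependent ℚ fun l => (⟨toQ (E * x l), hU _ (hx1 l)⟩ : U) := by
    apply LinearIndependent.of_comp U.subtype
    exact h5
  have h7 := h6.fintype_card_le_finrank
  rwa [Fintype.card_fin] at h7

/-- The sum of subspaces of different components. -/
theorem bel2_sum (P : WD (ZMod p) O) (S : Finset (Fin P.m))
    (A : Fin P.m → Submodule (ZMod p) (MonoidAlgebra (ZMod p) O))
    (hA : ∀ j, A j ≤ P.algE j) :
    ∃ V : Submodule (ZMod p) (MonoidAlgebra (ZMod p) O),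
      finrank (ZMod p) V = ∑ j ∈ S, finrank (ZMod p) (A j) ∧
      ∀ v ∈ V, ∃ w : Fin P.m → MonoidAlgebra (ZMod p) O, (∀ j, w j ∈ A j) ∧
        v = ∑ j ∈ S, w j := by
  classical
  have hfin : Module.Finite (ZMod p) (MonoidAlgebra (ZMod p) O) :=
    Module.Finite.equiv (MonoidAlgebra.coeffLinearEquiv (ZMod p) (S := ZMod p) (M := O)).symm
  let Φ : (Π j : S, A j) →ₗ[ZMod p] MonoidAlgebra (ZMod p) O :=
    ∑ j : S, (A j).subtype.comp (LinearMap.proj j)
  have hΦ : ∀ w, Φ w = ∑ j : S, (w j : MonoidAlgebra (ZMod p) O) := by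
    intro w
    simp [Φ]
  have hinj : Function.Injective Φ := by
    rw [injective_iff_map_eq_zero]
    intro w hw
    funext j
    apply Subtype.ext
    have h1 := congrArg (fun z => z * P.e j) hw
    simp only [zero_mul] at h1
    rw [hΦ, sum_mul, sum_eq_single j] at h1
    · have h2 : (w j : MonoidAlgebra (ZMod p) O) * P.e j = w j := hA j (w j).2
      rw [h2] at h1
      exact h1
    · intro l _ hl
      have h2 : (w l : MonoidAlgebra (ZMod p) O) * P.e l = w l := hA l (w l).2
      rw [← h2, mul_assoc, P.e_mul_ne, mul_zero]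
      intro h3
      exact hl (Subtype.ext h3)
    · intro h
      exact absurd (mem_univ j) h
  refine ⟨LinearMap.range Φ, ?_, ?_⟩
  · rw [LinearMap.finrank_range_of_inj hinj, finrank_pi_fintype]
    exact (sum_coe_sort S fun j => finrank (ZMod p) (A j))
  · rintro v ⟨w, rfl⟩
    refine ⟨fun j => if h : j ∈ S then (w ⟨j, h⟩ : MonoidAlgebra (ZMod p) O) else 0, ?_, ?_⟩
    · intro j
      by_cases h : j ∈ S
      · simp only [h, dif_pos]
        exact (w ⟨j, h⟩).2
      · simp only [h, dif_neg, not_false_eq_true]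
        exact (A j).zero_mem
    · rw [hΦ, ← sum_coe_sort S]
      refine sum_congr rfl fun j _ => ?_
      simp only [j.2, dif_pos]

/-- The reduction of `E` acts as a scalar on the components below `i`. -/
theorem bel2_scalar (W : WD ℚ O) (P : WD (ZMod p) O) (i : Fin W.m) {N : ℕ}
    (hN : ¬ p ∣ N) {E : MonoidAlgebra ℤ O} (hE : ∀ x, E * x = x * E)
    (hEN : toQ E = (N : ℚ) • W.e i) {j : Fin P.m} (hj : j ∈ J W P i)
    {v : MonoidAlgebra (ZMod p) O} (hv : v ∈ P.algE j) :
    toP p E * v = (N : ZMod p) • v := by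
  have h1 := (below_iff W P i j hN hE hEN).mp (mem_J.mp hj)
  have h2 := (P.mul_e_iff j v).mp hv
  apply P.comp_inj
  intro l
  rw [map_mul, map_smul]
  by_cases hl : l = j
  · subst hl
    rw [h1, smul_mul_assoc, one_mul]
  · rw [h2 l hl, mul_zero, smul_zero]

omit [Group O] in
theorem bel2_finite (k : Type) [Field k] (U : Submodule k (MonoidAlgebra k O)) :
    Module.Finite k U := by
  have hfin : Module.Finite k (MonoidAlgebra k O) :=
    Module.Finite.equiv (MonoidAlgebra.coeffLinearEquiv k (S := k) (M := O)).symm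
  infer_instance

theorem bel2_mem (W : WD ℚ O) (i : Fin W.m) {N : ℕ} {E : MonoidAlgebra ℤ O}
    (hEN : toQ E = (N : ℚ) • W.e i) (x : MonoidAlgebra ℤ O) : toQ (E * x) ∈ W.algE i := by
  have h1 : toQ (E * x) * W.e i = toQ (E * x) := by
    rw [map_mul, hEN, smul_mul_assoc, smul_mul_assoc, W.e_comm, mul_assoc, W.e_mul_self]
  exact h1

/-- PROOF of `≤`: choose `x_1, …, x_s` in the integral group ring such that the `toP p (x_l)` form a
basis of `⨁ j ∈ J, algE j` (`s = ∑ j ∈ J, P.a j`; `finrank_algE`, `toP_surj`).  The elements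
`E * x_l` lie in `algE i`.  They are linearly independent over `ℚ`: otherwise there are integers
`c_l`, not all divisible by `p`, with `∑ c_l E x_l = 0`; reduce: `∑ c_l • toP E * toP x_l = 0`, and
`toP E` acts on `⨁ j ∈ J, algE j` as the scalar `N ≠ 0`, so all `c_l` are `0` mod `p`. -/
theorem sum_below_a_le (hp : ¬ p ∣ Fintype.card O) (W : WD ℚ O) (P : WD (ZMod p) O)
    (i : Fin W.m) : ∑ j ∈ J W P i, P.a j ≤ W.a i := by
  obtain ⟨N, hN, E, hE, hEN⟩ := exists_E hp W i
  obtain ⟨V, hV1, hV2⟩ := bel2_sum P (J W P i) (fun j => P.algE j) fun j => le_refl _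
  have h1 : ∑ j ∈ J W P i, P.a j = finrank (ZMod p) V := by
    rw [hV1]
    exact sum_congr rfl fun j _ => (P.finrank_algE j).symm
  rw [h1, ← W.finrank_algE i]
  have := bel2_finite (ZMod p) V
  have := bel2_finite ℚ (W.algE i)
  refine bel2_rank hN E V (W.algE i) (fun _ => True) ?_ ?_ ?_
  · intro v _
    obtain ⟨x, hx⟩ := toP_surj p v
    exact ⟨x, trivial, hx⟩
  · intro x _
    exact bel2_mem W i hEN x
  · intro v hv
    obtain ⟨w, hw, rfl⟩ := hV2 v hv
    rw [mul_sum, smul_sum]
    exact sum_congr rfl fun j hj => bel2_scalar W P i hN hE hEN hj (hw j)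

/-- The same proof with central elements: choose the `x_l` central (`ctr_lift`), with images a basis
of `⨁ j ∈ J, ctrE j`. -/
theorem sum_below_f_le (hp : ¬ p ∣ Fintype.card O) (W : WD ℚ O) (P : WD (ZMod p) O)
    (i : Fin W.m) : ∑ j ∈ J W P i, P.f j ≤ W.f i := by
  obtain ⟨N, hN, E, hE, hEN⟩ := exists_E hp W i
  obtain ⟨V, hV1, hV2⟩ := bel2_sum P (J W P i) (fun j => P.ctrE j) fun j => inf_le_right
  have h1 : ∑ j ∈ J W P i, P.f j = finrank (ZMod p) V := by
    rw [hV1]
    exact sum_congr rfl fun j _ => (P.finrank_ctrE j).symm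
  rw [h1, ← W.finrank_ctrE i]
  have := bel2_finite (ZMod p) V
  have := bel2_finite ℚ (W.ctrE i)
  refine bel2_rank hN E V (W.ctrE i) (fun c => ∀ x, c * x = x * c) ?_ ?_ ?_
  · intro v hv
    obtain ⟨w, hw, rfl⟩ := hV2 v hv
    have h2 : ∑ j ∈ J W P i, w j ∈ ctr (ZMod p) O :=
      Submodule.sum_mem _ fun j _ => (hw j).1
    exact ctr_lift p h2
  · intro x hx
    refine ⟨?_, bel2_mem W i hEN x⟩
    have h3 : ∀ y, toQ (E * x) * y = y * toQ (E * x) := by
      rw [toQ_central]
      intro y
      rw [mul_assoc, hx y, ← mul_assoc, hE y, mul_assoc]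
    exact h3
  · intro v hv
    obtain ⟨w, hw, rfl⟩ := hV2 v hv
    rw [mul_sum, smul_sum]
    exact sum_congr rfl fun j hj => bel2_scalar W P i hN hE hEN hj (hw j).2

/-- Sum `sum_below_f_le` over `i`: the `J i` form a partition (`J_disjoint`, `exists_mem_J`), and
`∑ j, P.f j = card (ConjClasses O) = ∑ i, W.f i` (`sum_f`, `finrank_ctr`). -/
theorem sum_below_f (hp : ¬ p ∣ Fintype.card O) (W : WD ℚ O) (P : WD (ZMod p) O)
    (i : Fin W.m) : ∑ j ∈ J W P i, P.f j = W.f i := by
  classical
  have h1 : ∑ i, ∑ j ∈ J W P i, P.f j = ∑ i, W.f i := by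
    rw [← sum_biUnion]
    · have h2 : (univ : Finset (Fin W.m)).biUnion (J W P) = univ := by
        ext j
        simp only [mem_biUnion, mem_univ, true_and, iff_true]
        exact exists_mem_J hp W P j
      rw [h2, P.sum_f, W.sum_f, finrank_ctr, finrank_ctr]
    · intro a _ b _ hab
      exact J_disjoint hp W P hab
  exact (sum_eq_sum_iff_of_le fun i _ => sum_below_f_le hp W P i).mp h1 i (mem_univ i)

end Pool.MP43e44c.OD
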