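import Pool.Agent.H.MP_43e44c_ag.OD.Bel2

/-!
The division rings of the Wedderburn decomposition modulo `p` are finite fields.
-/

set_option autoImplicit false

open Finset Module

namespace Pool.MP43e44c.OD

universe u

variable {O : Type u} [Group O] [Fintype O] {p : ℕ} [Fact p.Prime] (P : WD (ZMod p) O)

/-- A finite-dimensional space over a finite field is finite (`Module.finite_of_finite`). -/
theorem finD (j : Fin P.m) : Finite (P.D j) :=
  Module.finite_of_finite (ZMod p)

/-- Wedderburn's little theorem (`littleWedderburn`). -/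
theorem commD (j : Fin P.m) (x y : P.D j) : x * y = y * x := by
  haveI := finD P j
  exact (littleWedderburn (P.D j)).mul_comm x y

theorem f_eq (j : Fin P.m) : P.f j = finrank (ZMod p) (P.D j) := by
  have h : Subalgebra.center (ZMod p) (P.D j) = ⊤ := by
    rw [eq_top_iff]
    intro x _
    rw [Subalgebra.mem_center_iff]
    intro y
    exact commD P j y x
  unfold WD.f
  rw [h]
  exact (Subalgebra.topEquiv (R := ZMod p) (A := P.D j)).toLinearEquiv.finrank_eq

theorem a_eq (j : Fin P.m) : P.a j = P.r j ^ 2 * P.f j := by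
  rw [f_eq]
  rfl

theorem f_pos' (j : Fin P.m) : 0 < P.f j := P.f_pos j

theorem cardD (j : Fin P.m) : Nat.card (P.D j) = p ^ P.f j := by
  rw [f_eq, Module.natCard_eq_pow_finrank (K := ZMod p), Nat.card_zmod]

theorem fp_comp_aug {P : WD (ZMod 2) O} {j : Fin P.m}
    (h : ∀ g : O, P.comp j (MonoidAlgebra.single g 1) = 1) (x : MonoidAlgebra (ZMod 2) O) :
    P.comp j x = aug x • (1 : Matrix (Fin (P.r j)) (Fin (P.r j)) (P.D j)) := by
  induction x using MonoidAlgebra.induction_linear with
  | zero =>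
    have h0 : aug (0 : MonoidAlgebra (ZMod 2) O) = 0 := by simp [aug]
    rw [map_zero, h0, zero_smul]
  | add a b ha hb =>
    have h1 : aug (a + b) = aug a + aug b := by
      unfold aug
      rw [← sum_add_distrib]
      rfl
    rw [map_add, ha, hb, h1, add_smul]
  | single a r =>
    have h1 : (MonoidAlgebra.single a r : MonoidAlgebra (ZMod 2) O)
        = r • MonoidAlgebra.single a 1 := by
      rw [MonoidAlgebra.smul_single, smul_eq_mul, mul_one]
    have h2 : aug (MonoidAlgebra.single a r : MonoidAlgebra (ZMod 2) O) = r := by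
      classical
      unfold aug
      rw [sum_eq_single a]
      · simp
      · intro b _ hb
        simp [Finsupp.single_apply, hb.symm]
      · intro h
        exact absurd (mem_univ a) h
    rw [h2, h1, map_smul, h]

/-- If `D j = ZMod 2` and `r j = 1` then the component `j` is a ring homomorphism to a ring with two
elements, so it maps every group element (a unit) to `1` and it is the augmentation; but `aug E = 0`
for `toQ E = N • e i`, since `e i * s = 0` (`NT`) and `mul_sEl`. -/
theorem not_one_one {P : WD (ZMod 2) O} (hO : Odd (Fintype.card O)) (W : WD ℚ O)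
    {i : Fin W.m} (hi : W.NT i) {j : Fin P.m} (hj : j ∈ J W P i) :
    ¬ (P.r j = 1 ∧ P.f j = 1) := by
  rintro ⟨hr, hf⟩
  have hp : ¬ 2 ∣ Fintype.card O := by
    intro h
    rcases hO with ⟨k, hk⟩
    omega
  obtain ⟨N, hN, E, hE, hEN⟩ := exists_E hp W i
  have hb : P.comp j (toP 2 E) = (N : ZMod 2) • 1 :=
    (below_iff W P i j hN hE hEN).1 (mem_J.1 hj)
  -- the component is one-dimensional
  have hdim : finrank (ZMod 2) (Matrix (Fin (P.r j)) (Fin (P.r j)) (P.D j)) = 1 := by
    rw [finrank_matrix, Fintype.card_fin, ← f_eq, hf, hr]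
  have h1 : (1 : Matrix (Fin (P.r j)) (Fin (P.r j)) (P.D j)) ≠ 0 := one_ne_zero
  have hall := (finrank_eq_one_iff_of_nonzero' _ h1).1 hdim
  have hg : ∀ g : O, P.comp j (MonoidAlgebra.single g 1) = 1 := by
    intro g
    obtain ⟨c, hc⟩ := hall (P.comp j (MonoidAlgebra.single g 1))
    have hne : P.comp j (MonoidAlgebra.single g 1) ≠ 0 := by
      intro h0
      have h2 : P.comp j (MonoidAlgebra.single g 1) * P.comp j (MonoidAlgebra.single g⁻¹ 1) = 1 := by
        rw [← map_mul, MonoidAlgebra.single_mul_single, mul_inv_cancel, one_mul]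
        exact map_one _
      rw [h0, zero_mul] at h2
      exact h1 h2.symm
    have hc0 : c ≠ 0 := by
      rintro rfl
      rw [zero_smul] at hc
      exact hne hc.symm
    have hc1 : c = 1 := by
      have key : ∀ c : ZMod 2, c ≠ 0 → c = 1 := by decide
      exact key c hc0
    rw [← hc, hc1, one_smul]
  have hz : toQ E * sEl ℚ O = 0 := by
    rw [hEN]
    apply W.comp_inj
    intro l
    rw [map_mul, map_smul, map_zero]
    by_cases hl : l = i
    · subst hl
      have h3 : W.comp l (sEl ℚ O) = 0 := hi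
      rw [h3, mul_zero]
    · rw [W.comp_e_ne hl, smul_zero, zero_mul]
  rw [mul_sEl] at hz
  have hz1 := congrArg (fun z => z.coeff (1 : O)) hz
  have hz2 : aug (toQ E) * (sEl ℚ O).coeff (1 : O) = 0 := hz1
  rw [sEl_coeff, mul_one] at hz2
  have hz3 : aug E = 0 := by
    have h4 : aug (toQ E) = ((aug E : ℤ) : ℚ) := map_aug (Int.castRingHom ℚ) E
    rw [h4] at hz2
    exact_mod_cast hz2
  have hz4 : aug (toP 2 E) = 0 := by
    have h4 : aug (toP 2 E) = ((aug E : ℤ) : ZMod 2) := map_aug (Int.castRingHom (ZMod 2)) E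
    rw [h4, hz3, Int.cast_zero]
  rw [fp_comp_aug hg, hz4, zero_smul] at hb
  have h5 : (N : ZMod 2) = 0 := by
    by_contra h6
    rcases smul_eq_zero.1 hb.symm with h7 | h7
    · exact h6 h7
    · exact h1 h7
  exact hN ((ZMod.natCast_eq_zero_iff N 2).1 h5)

/-- The set of the `j` is not empty, the sum of the dimensions is at most
`√ (a * f)` (Cauchy-Schwarz, `sum_below_a_le`, `sum_below_f`). -/
theorem J_nonempty (hp : ¬ p ∣ Fintype.card O) (W : WD ℚ O) (P : WD (ZMod p) O)
    (i : Fin W.m) : (J W P i).Nonempty := by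
  by_contra h
  rw [not_nonempty_iff_eq_empty] at h
  have h1 := sum_below_f hp W P i
  rw [h, sum_empty] at h1
  have := W.f_pos i
  omega

theorem sum_rf_sq_le (hp : ¬ p ∣ Fintype.card O) (W : WD ℚ O) (P : WD (ZMod p) O)
    (i : Fin W.m) : (∑ j ∈ J W P i, P.r j * P.f j) ^ 2 ≤ W.a i * W.f i := by
  have h1 : (∑ j ∈ J W P i, P.r j * P.f j) ^ 2 ≤
      (∑ j ∈ J W P i, P.a j) * ∑ j ∈ J W P i, P.f j := by
    refine sum_sq_le_sum_mul_sum_of_sq_eq_mul _ (fun j _ => Nat.zero_le _)
      (fun j _ => Nat.zero_le _) fun j _ => ?_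
    rw [a_eq]
    ring
  refine h1.trans ?_
  rw [sum_below_f hp W P i]
  exact Nat.mul_le_mul_right _ (sum_below_a_le hp W P i)

theorem sum_rf_pos (hp : ¬ p ∣ Fintype.card O) (W : WD ℚ O) (P : WD (ZMod p) O)
    (i : Fin W.m) : 0 < ∑ j ∈ J W P i, P.r j * P.f j := by
  refine sum_pos (fun j _ => Nat.mul_pos ?_ (f_pos' P j)) (J_nonempty hp W P i)
  exact Nat.pos_of_ne_zero (NeZero.ne (P.r j))

end Pool.MP43e44c.OD
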