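import Pool.Agent.H.MP_43e44c_ag.MQ.Step

/-!
The number of sign vectors with a given image, mod p, for families with symmetries.
-/

set_option autoImplicit false

open Finset Module

namespace Pool.MP43e44c.OD

universe u

/-- The sum of the powers of the cosines. -/
noncomputable def cosS (p : ℕ) [NeZero p] (L : ℝ) : ℝ :=
  ∑ a : ZMod p, |Real.cos (2 * Real.pi * (a.val : ℝ) / p)| ^ L

/-- The version of `fou_modp` with a target. -/
theorem stepA_fou {ι : Type*} [Fintype ι] {p : ℕ} [Fact p.Prime] {d : ℕ}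
    (A : Matrix (Fin d) ι (ZMod p)) (z : Fin d → ZMod p) :
    ({v : ι → Bool | ∀ l, ∑ i, A l i * svr (ZMod p) v i = z l}.ncard : ℝ) * (p : ℝ) ^ d
      ≤ 2 ^ Fintype.card ι * ∑ θ : Fin d → ZMod p,
        ∏ i, |Real.cos (2 * Real.pi * ((∑ l, θ l * A l i).val : ℝ) / p)| := by
  classical
  have hN : {v : ι → Bool | ∀ l, ∑ i, A l i * svr (ZMod p) v i = z l}.ncard =
      (univ.filter fun v : ι → Bool => ∀ l, ∑ i, A l i * svr (ZMod p) v i = z l).card := by
    rw [← Set.ncard_coe_finset]
    congr 1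
    ext v
    simp
  rw [hN]
  have h0 : (univ.filter fun v : ι → Bool => ∀ l, ∑ i, A l i * svr (ZMod p) v i = z l) =
      univ.filter fun v : ι → Bool => ∀ l, (∑ i, A l i * svr (ZMod p) v i - z l) = 0 := by
    apply filter_congr
    intro v _
    exact forall_congr' fun l => sub_eq_zero.symm
  rw [h0]
  have h1 : (((univ.filter fun v : ι → Bool =>
        ∀ l, (∑ i, A l i * svr (ZMod p) v i - z l) = 0).card : ℕ) :
      ℂ) * (p : ℂ) ^ d = ∑ v : ι → Bool, ∑ θ : Fin d → ZMod p,
        (ZMod.stdAddChar (∑ l, θ l * (∑ i, A l i * svr (ZMod p) v i - z l)) : ℂ) := by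
    rw [Finset.sum_congr rfl fun v _ => fou_orth (fun l => ∑ i, A l i * svr (ZMod p) v i - z l),
      ← Finset.sum_filter, sum_const, nsmul_eq_mul]
  rw [sum_comm] at h1
  have hadd : ∀ a b : ZMod p, (ZMod.stdAddChar (a + b) : ℂ) =
      ZMod.stdAddChar a * ZMod.stdAddChar b := fun a b => AddChar.map_add_eq_mul _ a b
  have h2 : ∀ θ : Fin d → ZMod p, ∑ v : ι → Bool,
      (ZMod.stdAddChar (∑ l, θ l * (∑ i, A l i * svr (ZMod p) v i - z l)) : ℂ) =
      ZMod.stdAddChar (-∑ l, θ l * z l) *
      ((∏ i, (2 * Real.cos (2 * Real.pi * ((∑ l, θ l * A l i).val : ℝ) / p)) : ℝ) : ℂ) := by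
    intro θ
    have h3 : ∀ v : ι → Bool,
        (ZMod.stdAddChar (∑ l, θ l * (∑ i, A l i * svr (ZMod p) v i - z l)) : ℂ) =
        ZMod.stdAddChar (-∑ l, θ l * z l) *
        ∏ i, ZMod.stdAddChar ((∑ l, θ l * A l i) * (if v i then 1 else -1)) := by
      intro v
      rw [← fou_sum, ← hadd]
      congr 1
      simp only [mul_sub, sum_sub_distrib]
      have h4 : ∑ l, θ l * ∑ i, A l i * svr (ZMod p) v i =
          ∑ i, (∑ l, θ l * A l i) * (if v i then 1 else -1) := by
        simp only [mul_sum, sum_mul]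
        rw [sum_comm]
        refine sum_congr rfl fun i _ => sum_congr rfl fun l _ => ?_
        unfold svr
        ring
      rw [h4]
      ring
    rw [Finset.sum_congr rfl fun v _ => h3 v, ← mul_sum]
    congr 1
    have h4 := Finset.prod_univ_sum (fun _ : ι => (Finset.univ : Finset Bool))
      (fun i b => (ZMod.stdAddChar ((∑ l, θ l * A l i) * (if b then 1 else -1)) : ℂ))
    rw [Fintype.piFinset_univ] at h4
    rw [← h4, Complex.ofReal_prod]
    refine prod_congr rfl fun i _ => ?_
    rw [← fou_cos, Fintype.sum_bool]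
    simp
  rw [Finset.sum_congr rfl fun θ _ => h2 θ] at h1
  have h5 : (((univ.filter fun v : ι → Bool =>
        ∀ l, (∑ i, A l i * svr (ZMod p) v i - z l) = 0).card : ℕ) : ℝ) * (p : ℝ) ^ d =
      ‖∑ θ : Fin d → ZMod p, ZMod.stdAddChar (-∑ l, θ l * z l) *
      ((∏ i, (2 * Real.cos (2 * Real.pi * ((∑ l, θ l * A l i).val : ℝ) / p)) : ℝ) : ℂ)‖ := by
    rw [← h1, norm_mul, norm_pow, Complex.norm_natCast, Complex.norm_natCast]
  rw [h5, mul_sum]
  refine (norm_sum_le _ _).trans (sum_le_sum fun θ _ => ?_)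
  have hn : ‖(ZMod.stdAddChar (-∑ l, θ l * z l) : ℂ)‖ = 1 := AddChar.norm_apply _ _
  rw [norm_mul, hn, one_mul, Complex.norm_real, Real.norm_eq_abs, abs_prod]
  have h6 : ∀ i, |2 * Real.cos (2 * Real.pi * ((∑ l, θ l * A l i).val : ℝ) / p)| =
      2 * |Real.cos (2 * Real.pi * ((∑ l, θ l * A l i).val : ℝ) / p)| := by
    intro i
    rw [abs_mul, abs_two]
  rw [prod_congr rfl fun i _ => h6 i, prod_mul_distrib, prod_const, card_univ]

/-- The version of `step_span` (MQ/Step.lean) for the action of the group on itself by right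
multiplication (`Γ = Oᵐᵒᵖ`, trivial cocycle), with an arbitrary target `y` instead of `0`: in
`fou_modp` (MQ/Fou.lean) the additional factor `e (- θ y / p)` has absolute value one. -/
theorem stepA {O : Type u} [Group O] [Fintype O] {p : ℕ} [Fact p.Prime]
    {E : Type*} [AddCommGroup E] [Module (ZMod p) E] [Module.Finite (ZMod p) E] (x : O → E)
    (hx : ∀ (h : O) (c : O → ZMod p), ∑ g, c g • x g = 0 → ∑ g, c g • x (g * h) = 0)
    {d : ℕ} (hd : 0 < d)
    (hspan : finrank (ZMod p) (Submodule.span (ZMod p) (Set.range x)) = d) (y : E) :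
    ({v : O → Bool | ∑ g, svr (ZMod p) v g • x g = y}.ncard : ℝ) * (p : ℝ) ^ d
      ≤ 2 ^ Fintype.card O * cosS p ((Fintype.card O : ℝ) / d) ^ d := by
  classical
  obtain ⟨f, hli, hs⟩ := step_basis x hspan
  have hco : ∀ i, ∃ c : Fin d → ZMod p, ∑ l, c l • x (f l) = x i := by
    intro i
    have h1 : x i ∈ Submodule.span (ZMod p) (Set.range fun j => x (f j)) := by
      rw [hs]
      exact Submodule.subset_span ⟨i, rfl⟩
    exact (Submodule.mem_span_range_iff_exists_fun _).1 h1
  choose A hA using hco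
  have hcomb : ∀ ε : O → ZMod p, ∑ i, ε i • x i = ∑ l, (∑ i, A i l * ε i) • x (f l) := by
    intro ε
    simp only [Finset.sum_smul]
    rw [Finset.sum_comm]
    refine Finset.sum_congr rfl fun i _ => ?_
    rw [← hA i, Finset.smul_sum]
    refine Finset.sum_congr rfl fun l _ => ?_
    rw [smul_smul, mul_comm]
  by_cases hy : ∃ z : Fin d → ZMod p, ∑ l, z l • x (f l) = y
  swap
  · have hempty : {v : O → Bool | ∑ g, svr (ZMod p) v g • x g = y} = ∅ := by
      rw [Set.eq_empty_iff_forall_notMem]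
      intro v hv
      rw [Set.mem_ofPred_eq, hcomb] at hv
      exact hy ⟨_, hv⟩
    rw [hempty, Set.ncard_empty, Nat.cast_zero, zero_mul]
    have : 0 ≤ cosS p ((Fintype.card O : ℝ) / d) :=
      sum_nonneg fun a _ => Real.rpow_nonneg (abs_nonneg _) _
    positivity
  obtain ⟨z, hz⟩ := hy
  have hset : {v : O → Bool | ∑ i, svr (ZMod p) v i • x i = y} =
      {v : O → Bool | ∀ l, ∑ i, (Matrix.of fun l i => A i l) l i * svr (ZMod p) v i = z l} := by
    ext v
    rw [Set.mem_ofPred_eq, Set.mem_ofPred_eq, hcomb]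
    constructor
    · intro h
      have h2 : ∑ l, ((∑ i, A i l * svr (ZMod p) v i) - z l) • x (f l) = 0 := by
        simp only [sub_smul, sum_sub_distrib]
        rw [h, hz, sub_self]
      intro l
      exact sub_eq_zero.1 (Fintype.linearIndependent_iff.1 hli _ h2 l)
    · intro h
      rw [← hz]
      refine Finset.sum_congr rfl fun l _ => ?_
      have h1 : ∑ i, A i l * svr (ZMod p) v i = z l := h l
      rw [h1]
  rw [hset]
  refine (stepA_fou (Matrix.of fun l i => A i l) z).trans ?_
  refine mul_le_mul_of_nonneg_left ?_ (by positivity)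
  have hfin : Fintype Oᵐᵒᵖ := Fintype.ofEquiv O MulOpposite.opEquiv
  refine fin_holder (Γ := Oᵐᵒᵖ) hd (Matrix.of fun l i => A i l) f ?_
    (φ := fun a => |Real.cos (2 * Real.pi * (a.val : ℝ) / p)|) (fun a => abs_nonneg _)
  intro g hdet
  obtain ⟨c, hc0, hc⟩ := Matrix.exists_mulVec_eq_zero_iff.2 hdet
  apply hc0
  have h1 : ∑ j, c j • x (g • f j) = 0 := by
    have h2 : ∀ j, c j • x (g • f j) = ∑ l, (c j * A (g • f j) l) • x (f l) := by
      intro j
      rw [← hA (g • f j), Finset.smul_sum]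
      refine Finset.sum_congr rfl fun l _ => ?_
      rw [smul_smul]
    rw [Finset.sum_congr rfl fun j _ => h2 j, Finset.sum_comm]
    refine Finset.sum_eq_zero fun l _ => ?_
    rw [← Finset.sum_smul]
    have h3 := congrFun hc l
    rw [Matrix.mulVec, dotProduct, Pi.zero_apply] at h3
    have h4 : ∑ j, c j * A (g • f j) l = 0 := by
      rw [← h3]
      refine Finset.sum_congr rfl fun j _ => ?_
      rw [Matrix.submatrix_apply, Matrix.of_apply, mul_comm]
      rfl
    rw [h4, zero_smul]
  have h5 := hx g.unop⁻¹ (fun i => ∑ j, if g • f j = i then c j else 0) (by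
    have h6 := step_sum (fun j => g • f j) c x (fun _ => 1)
    simp only [mul_one] at h6
    rw [h6]
    exact h1)
  have h7 := step_sum (fun j => g • f j) c (fun i => x (i * g.unop⁻¹)) (fun _ => 1)
  simp only [mul_one] at h7
  rw [h7] at h5
  have h8 : ∀ j, (g • f j) * g.unop⁻¹ = f j := by
    intro j
    rw [MulOpposite.smul_eq_mul_unop, mul_inv_cancel_right]
  simp only [h8] at h5
  funext j
  exact Fintype.linearIndependent_iff.1 hli _ h5 j

end Pool.MP43e44c.OD
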