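import Pool.Agent.H.MP_43e44c_ag.OD.StepA

/-!
Sums of powers of cosines.
-/

set_option autoImplicit false

open Finset Module

namespace Pool.MP43e44c.OD

/-- `cos x ≤ exp (- x ^ 2 / 2)` for `0 ≤ x ≤ π / 2`. -/
theorem cosS_cos_le {x : ℝ} (h0 : 0 ≤ x) (h1 : x ≤ Real.pi / 2) :
    Real.cos x ≤ Real.exp (-(x ^ 2 / 2)) := by
  have hanti : AntitoneOn (fun y : ℝ => Real.exp (y ^ 2 / 2) * Real.cos y)
      (Set.Icc 0 (Real.pi / 2)) := by
    apply antitoneOn_of_deriv_nonpos (convex_Icc _ _)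
    · exact Continuous.continuousOn (by fun_prop)
    · exact Differentiable.differentiableOn (by fun_prop)
    · intro y hy
      rw [interior_Icc] at hy
      have hd : HasDerivAt (fun y : ℝ => Real.exp (y ^ 2 / 2) * Real.cos y)
          (Real.exp (y ^ 2 / 2) * (y * Real.cos y - Real.sin y)) y := by
        have h2 : HasDerivAt (fun y : ℝ => y ^ 2 / 2) y y := by
          have := (hasDerivAt_pow 2 y).div_const 2
          simpa using this
        refine ((h2.exp).mul (Real.hasDerivAt_cos y)).congr_deriv ?_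
        ring
      rw [hd.deriv]
      have hc : 0 < Real.cos y := Real.cos_pos_of_mem_Ioo
        ⟨by linarith [hy.1, Real.pi_pos], hy.2⟩
      have ht := Real.lt_tan hy.1 hy.2
      rw [Real.tan_eq_sin_div_cos, lt_div_iff₀ hc] at ht
      exact mul_nonpos_of_nonneg_of_nonpos (Real.exp_pos _).le (by linarith)
  have h2 := hanti (Set.mem_Icc.2 ⟨le_refl 0, by positivity⟩) (Set.mem_Icc.2 ⟨h0, h1⟩) h0
  simp only [Real.cos_zero, mul_one] at h2
  have h3 : Real.exp ((0 : ℝ) ^ 2 / 2) = 1 := by norm_num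
  rw [h3] at h2
  rw [Real.exp_neg, ← one_div, le_div_iff₀ (Real.exp_pos _), mul_comm]
  exact h2

/-- The term of the sum. -/
noncomputable def cosSG (p : ℕ) (L : ℝ) (j : ℕ) : ℝ :=
  |Real.cos (Real.pi * (j : ℝ) / p)| ^ L

theorem cosSG_add {p : ℕ} (hp : 0 < p) (L : ℝ) (j : ℕ) : cosSG p L (j + p) = cosSG p L j := by
  unfold cosSG
  have hp' : (p : ℝ) ≠ 0 := by positivity
  have h1 : Real.pi * ((j + p : ℕ) : ℝ) / p = Real.pi * (j : ℝ) / p + Real.pi := by
    push_cast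
    field_simp
  rw [h1, Real.cos_add_pi, abs_neg]

theorem cosSG_sub {p : ℕ} (hp : 0 < p) (L : ℝ) {i j : ℕ} (h : i + j = p) :
    cosSG p L i = cosSG p L j := by
  unfold cosSG
  have hp' : (p : ℝ) ≠ 0 := by positivity
  have h0 : (i : ℝ) = p - j := by
    rw [← h]
    push_cast
    ring
  have h1 : Real.pi * (i : ℝ) / p = Real.pi - Real.pi * (j : ℝ) / p := by
    rw [h0]
    field_simp
  rw [h1, Real.cos_pi_sub, abs_neg]

theorem cosS_eq_sum {p : ℕ} [Fact p.Prime] (hp2 : p ≠ 2) (L : ℝ) :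
    cosS p L = ∑ j ∈ range p, cosSG p L j := by
  have hp : 0 < p := (Fact.out : p.Prime).pos
  have hp' : (p : ℝ) ≠ 0 := by positivity
  have h20 : (2 : ZMod p) ≠ 0 := by
    intro h
    have h1 : ((2 : ℕ) : ZMod p) = 0 := by exact_mod_cast h
    rw [ZMod.natCast_eq_zero_iff] at h1
    exact hp2 ((Nat.prime_dvd_prime_iff_eq (Fact.out : p.Prime) Nat.prime_two).1 h1)
  have h1 : ∀ a : ZMod p, |Real.cos (2 * Real.pi * (a.val : ℝ) / p)| ^ L
      = cosSG p L ((2 : ZMod p) * a).val := by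
    intro a
    have h2 : ((2 : ZMod p) * a).val = (2 * a.val) % p := by
      have h3 : (2 : ZMod p) * a = ((2 * a.val : ℕ) : ZMod p) := by
        push_cast
        rw [ZMod.natCast_zmod_val]
      rw [h3, ZMod.val_natCast]
    have h4 : ∀ k m : ℕ, cosSG p L (k + m * p) = cosSG p L k := by
      intro k m
      induction m with
      | zero => simp
      | succ m ih =>
        rw [show k + (m + 1) * p = (k + m * p) + p by ring, cosSG_add hp, ih]
    have h5 : cosSG p L (2 * a.val) = cosSG p L ((2 * a.val) % p) := by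
      conv_lhs => rw [← Nat.mod_add_div (2 * a.val) p, mul_comm p]
      rw [h4]
    rw [h2, ← h5]
    unfold cosSG
    congr 3
    push_cast
    ring
  unfold cosS
  rw [sum_congr rfl fun a _ => h1 a]
  refine (Equiv.sum_comp (Equiv.mulLeft₀ (2 : ZMod p) h20) fun b => cosSG p L b.val).trans ?_
  have h6 : ∑ b : ZMod p, cosSG p L b.val = ∑ j : Fin p, cosSG p L (j : ℕ) := by
    obtain ⟨n, rfl⟩ : ∃ n, p = n + 1 := ⟨p - 1, by omega⟩
    rfl
  rw [h6, Fin.sum_univ_eq_sum_range]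

/-- For odd `p` the values `|cos (2 π a / p)|`, `a ≠ 0`, are the numbers `cos (π j / p)`,
`1 ≤ j ≤ (p - 1) / 2`, each taken at most twice (exactly twice): `2 a ≡ ± j mod p`. -/
theorem cosS_eq {p : ℕ} [Fact p.Prime] (hp2 : p ≠ 2) {L : ℝ} (hL : 0 < L) :
    cosS p L ≤ 1 + 2 * ∑ j ∈ Icc 1 ((p - 1) / 2), (Real.cos (Real.pi * j / p)) ^ L := by
  have hp : 0 < p := (Fact.out : p.Prime).pos
  obtain ⟨m, hm⟩ := (Fact.out : p.Prime).odd_of_ne_two hp2
  have hm2 : (p - 1) / 2 = m := by omega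
  rw [cosS_eq_sum hp2, hm2]
  have h1 : ∑ j ∈ range p, cosSG p L j = ∑ j ∈ range (m + m + 1), cosSG p L j := by
    rw [hm, two_mul]
  rw [h1, sum_range_succ', sum_range_add]
  have h2 : cosSG p L 0 = 1 := by
    unfold cosSG
    simp
  have h3 : ∑ i ∈ range m, cosSG p L (m + i + 1) = ∑ i ∈ range m, cosSG p L (i + 1) := by
    rw [← sum_range_reflect]
    refine sum_congr rfl fun i hi => ?_
    have hi' := mem_range.1 hi
    exact cosSG_sub hp L (by omega)
  have h4 : ∑ j ∈ Icc 1 m, (Real.cos (Real.pi * j / p)) ^ L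
      = ∑ i ∈ range m, cosSG p L (i + 1) := by
    rw [← Finset.sum_image (s := range m) (g := fun i => i + 1) (f := fun j => cosSG p L j)
      (fun a _ b _ h => by simpa using h)]
    have h5 : (range m).image (fun i => i + 1) = Icc 1 m := by
      ext j
      simp only [mem_image, mem_range, mem_Icc]
      constructor
      · rintro ⟨i, hi, rfl⟩
        omega
      · intro hj
        exact ⟨j - 1, by omega, by omega⟩
    rw [h5]
    refine sum_congr rfl fun j hj => ?_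
    unfold cosSG
    rw [abs_of_nonneg]
    apply Real.cos_nonneg_of_mem_Icc
    have hj' := mem_Icc.1 hj
    have hp' : (0 : ℝ) < p := by positivity
    constructor
    · have : 0 ≤ Real.pi * (j : ℝ) / p := by positivity
      linarith [Real.pi_pos]
    · rw [div_le_div_iff₀ hp' two_pos]
      have h7 : (j : ℝ) * 2 ≤ p := by
        have : j * 2 ≤ p := by omega
        exact_mod_cast this
      nlinarith [Real.pi_pos]
  rw [h2, h3, h4]
  linarith

theorem cosS_term {p : ℕ} [Fact p.Prime] {L : ℝ} (hL : 0 < L) {j : ℕ}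
    (hj : j ∈ Icc 1 ((p - 1) / 2)) :
    (Real.cos (Real.pi * j / p)) ^ L ≤ Real.exp (-(4 * (L / p ^ 2) * (j : ℝ) ^ 2)) := by
  have hp : 0 < p := (Fact.out : p.Prime).pos
  have hp' : (0 : ℝ) < p := by positivity
  have hj' := mem_Icc.1 hj
  have h0 : 0 ≤ Real.pi * (j : ℝ) / p := by positivity
  have h1 : Real.pi * (j : ℝ) / p ≤ Real.pi / 2 := by
    rw [div_le_div_iff₀ hp' two_pos]
    have h7 : (j : ℝ) * 2 ≤ p := by
      have : j * 2 ≤ p := by omega
      exact_mod_cast this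
    nlinarith [Real.pi_pos]
  have h2 := cosS_cos_le h0 h1
  have h3 : 0 ≤ Real.cos (Real.pi * j / p) := Real.cos_nonneg_of_mem_Icc
    ⟨by linarith [Real.pi_pos], h1⟩
  refine (Real.rpow_le_rpow h3 h2 hL.le).trans ?_
  rw [← Real.exp_mul]
  apply Real.exp_le_exp.2
  have h4 : (Real.pi * (j : ℝ) / p) ^ 2 / 2 * L = (Real.pi ^ 2 / 2) * ((L / p ^ 2) * (j : ℝ) ^ 2) := by
    field_simp
  have h5 : (4 : ℝ) ≤ Real.pi ^ 2 / 2 := by nlinarith [Real.pi_gt_three]
  have h6 : 0 ≤ (L / p ^ 2) * (j : ℝ) ^ 2 := by positivity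
  nlinarith [mul_le_mul_of_nonneg_right h5 h6]

/-- `cos x ≤ exp (- x ^ 2 / 2)` for `|x| ≤ π / 2`, so with `L ≥ p ^ 2` the sum is at most
`∑_{j ≥ 1} exp (- π ^ 2 j ^ 2 L / (2 p ^ 2)) ≤ ∑_{j ≥ 1} exp (- 4.9 j L / p ^ 2)
≤ (3 / 2) exp (- 4 L / p ^ 2)`. -/
theorem cosS_le {p : ℕ} [Fact p.Prime] (hp2 : p ≠ 2) {L : ℝ} (hL : (p : ℝ) ^ 2 ≤ L) :
    cosS p L ≤ 1 + 3 * Real.exp (-(4 * L) / p ^ 2) := by
  have hp : 0 < p := (Fact.out : p.Prime).pos
  have hp' : (0 : ℝ) < p := by positivity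
  have hL0 : 0 < L := lt_of_lt_of_le (by positivity) hL
  refine (cosS_eq hp2 hL0).trans ?_
  have hy : 1 ≤ L / p ^ 2 := by
    rw [one_le_div (by positivity)]
    exact hL
  have he : Real.exp (-4 : ℝ) ≤ 1 / 3 := by
    rw [Real.exp_neg, ← one_div]
    apply one_div_le_one_div_of_le (by norm_num)
    have := Real.add_one_le_exp (4 : ℝ)
    linarith
  have h1 : ∀ j ∈ Icc 1 ((p - 1) / 2), (Real.cos (Real.pi * j / p)) ^ L
      ≤ Real.exp (-(4 * L) / p ^ 2) * (1 / 3) ^ (j - 1) := by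
    intro j hj
    refine (cosS_term hL0 hj).trans ?_
    have hj' := mem_Icc.1 hj
    have h2 : (1 / 3 : ℝ) ^ (j - 1) ≥ Real.exp (-4 : ℝ) ^ (j - 1) :=
      pow_le_pow_left₀ (Real.exp_pos _).le he _
    refine le_trans ?_ (mul_le_mul_of_nonneg_left h2 (Real.exp_pos _).le)
    rw [← Real.exp_nat_mul, ← Real.exp_add]
    apply Real.exp_le_exp.2
    have h3 : ((j - 1 : ℕ) : ℝ) = (j : ℝ) - 1 := by
      rw [Nat.cast_sub hj'.1]
      simp
    rw [h3]
    have h4 : (1 : ℝ) ≤ j := by exact_mod_cast hj'.1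
    have h5 : -(4 * L) / (p : ℝ) ^ 2 = -(4 * (L / p ^ 2)) := by ring
    rw [h5]
    have h6 : (L / p ^ 2) * ((j : ℝ) ^ 2 - 1) ≥ 1 * ((j : ℝ) ^ 2 - 1) :=
      mul_le_mul_of_nonneg_right hy (by nlinarith)
    nlinarith
  have h2 : ∑ j ∈ Icc 1 ((p - 1) / 2), (Real.cos (Real.pi * j / p)) ^ L
      ≤ Real.exp (-(4 * L) / p ^ 2) * (3 / 2) := by
    refine (sum_le_sum h1).trans ?_
    rw [← mul_sum]
    apply mul_le_mul_of_nonneg_left _ (Real.exp_pos _).le
    have h3 : ∀ m : ℕ, ∑ j ∈ Icc 1 m, (1 / 3 : ℝ) ^ (j - 1) = 3 / 2 * (1 - (1 / 3) ^ m) := by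
      intro m
      induction m with
      | zero => simp
      | succ m ih =>
        rw [sum_Icc_succ_top (by omega), ih]
        simp only [Nat.add_sub_cancel]
        rw [pow_succ]
        ring
    rw [h3]
    have : (0 : ℝ) ≤ (1 / 3) ^ ((p - 1) / 2) := by positivity
    linarith
  linarith

/-- For all `L ≥ 1` and odd primes `p ≥ √L`: the sum is at most
`1 + 2 ∑_{j ≥ 1} exp (- π ^ 2 j ^ 2 L / (2 p ^ 2)) ≤ 1 + C p / √L`. -/
theorem cosS_sup : ∃ C : ℝ, 0 < C ∧ ∀ {p : ℕ} [Fact p.Prime], p ≠ 2 → ∀ {L : ℝ}, 1 ≤ L →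
    Real.sqrt L ≤ p → cosS p L ≤ C * p / Real.sqrt L := by
  refine ⟨5, by norm_num, ?_⟩
  intro p _ hp2 L hL hLp
  have hp : 0 < p := (Fact.out : p.Prime).pos
  have hp' : (0 : ℝ) < p := by positivity
  have hL0 : 0 < L := by linarith
  have hs : 0 < Real.sqrt L := Real.sqrt_pos.2 hL0
  refine (cosS_eq hp2 hL0).trans ?_
  obtain ⟨t, ht⟩ : ∃ t : ℝ, t = Real.sqrt L / p := ⟨_, rfl⟩
  have ht0 : 0 < t := by rw [ht]; positivity
  have ht1 : t ≤ 1 := by
    rw [ht, div_le_one hp']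
    exact hLp
  have htt : L / p ^ 2 = t ^ 2 := by
    rw [ht, div_pow, Real.sq_sqrt hL0.le]
  have h1 : ∀ j ∈ Icc 1 ((p - 1) / 2), (Real.cos (Real.pi * j / p)) ^ L
      ≤ 2 / t * (1 / (1 + t * ((j : ℝ) - 1)) - 1 / (1 + t * j)) := by
    intro j hj
    refine (cosS_term hL0 hj).trans ?_
    rw [htt]
    have hj' := mem_Icc.1 hj
    have h4 : (1 : ℝ) ≤ j := by exact_mod_cast hj'.1
    have hA : 0 < 1 + t * ((j : ℝ) - 1) := by
      have : 0 ≤ t * ((j : ℝ) - 1) := mul_nonneg ht0.le (by linarith)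
      linarith
    have hB : 0 < 1 + t * (j : ℝ) := by positivity
    have h5 : 2 / t * (1 / (1 + t * ((j : ℝ) - 1)) - 1 / (1 + t * j))
        = 2 / ((1 + t * ((j : ℝ) - 1)) * (1 + t * j)) := by
      field_simp
      ring
    rw [h5, Real.exp_neg, ← one_div]
    rw [div_le_div_iff₀ (Real.exp_pos _) (by positivity)]
    have h6 := Real.add_one_le_exp (4 * t ^ 2 * (j : ℝ) ^ 2)
    have h7 : 0 ≤ t * (j : ℝ) := by positivity
    nlinarith [sq_nonneg (t * (j : ℝ) - 1), mul_nonneg ht0.le hB.le]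
  have h2 : ∑ j ∈ Icc 1 ((p - 1) / 2), (Real.cos (Real.pi * j / p)) ^ L ≤ 2 / t := by
    refine (sum_le_sum h1).trans ?_
    rw [← mul_sum]
    have h3 : ∀ m : ℕ, ∑ j ∈ Icc 1 m, (1 / (1 + t * ((j : ℝ) - 1)) - 1 / (1 + t * (j : ℝ)))
        = 1 - 1 / (1 + t * (m : ℝ)) := by
      intro m
      induction m with
      | zero => simp
      | succ m ih =>
        rw [sum_Icc_succ_top (by omega), ih]
        push_cast
        rw [add_sub_cancel_right]
        ring
    rw [h3]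
    have h4 : 0 ≤ 1 / (1 + t * (((p - 1) / 2 : ℕ) : ℝ)) := by positivity
    have h5 : (0 : ℝ) < 2 / t := by positivity
    nlinarith
  have h3 : 5 * (p : ℝ) / Real.sqrt L = 5 / t := by
    rw [ht]
    field_simp
  rw [h3]
  have h4 : (1 : ℝ) ≤ 1 / t := by
    rw [le_div_iff₀ ht0]
    linarith
  have h5 : 5 / t = 1 / t + 2 * (2 / t) := by
    field_simp
    norm_num
  rw [h5]
  linarith

end Pool.MP43e44c.OD
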