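import Pool.Agent.H.MP_43e44c_ag.OD.Link
import Pool.Agent.H.MP_43e44c_ag.OD.Fp
import Pool.Agent.H.MP_43e44c_ag.OD.CosS

/-!
Counting modulo an odd prime.
-/

set_option autoImplicit false

open Finset Module

namespace Pool.MP43e44c.OD

universe u

variable {O : Type u} [Group O] [Fintype O] {p : ℕ} [Fact p.Prime]

/-- A matrix over a finite division ring which is not a unit kills a nonzero row. -/
theorem row_kill {D : Type*} [DivisionRing D] [Finite D] {r : ℕ} (A : Matrix (Fin r) (Fin r) D)
    (hA : ¬ IsUnit A) : ∃ u : Fin r → D, u ≠ 0 ∧ Matrix.vecMul u A = 0 := by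
  classical
  by_contra hcon
  push Not at hcon
  apply hA
  have hinj : Function.Injective fun u : Fin r → D => Matrix.vecMul u A := by
    intro u v huv
    by_contra hne
    refine hcon (u - v) (sub_ne_zero.2 hne) ?_
    rw [Matrix.sub_vecMul]
    exact sub_eq_zero.2 huv
  have hsurj := Finite.surjective_of_injective hinj
  choose b hb using fun i : Fin r => hsurj (Pi.single i 1)
  let B : Matrix (Fin r) (Fin r) D := Matrix.of b
  have hBA : B * A = 1 := by
    ext i l
    have h1 : (B * A) i l = Matrix.vecMul (b i) A l := rfl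
    have h2 := congrFun (hb i) l
    rw [h1]
    refine h2.trans ?_
    rw [Matrix.one_apply, Pi.single_apply]
    simp [eq_comm]
  have hinj2 : Function.Injective fun X : Matrix (Fin r) (Fin r) D => A * X := by
    intro X Y hXY
    have h1 : B * (A * X) = B * (A * Y) := congrArg (fun Z => B * Z) hXY
    rwa [← mul_assoc, ← mul_assoc, hBA, one_mul, one_mul] at h1
  obtain ⟨C, hC⟩ := Finite.surjective_of_injective hinj2 1
  have hC' : A * C = 1 := hC
  have hBC : B = C := by
    calc B = B * (A * C) := by rw [hC', mul_one]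
      _ = C := by rw [← mul_assoc, hBA, one_mul]
  exact ⟨⟨A, C, hC', by rw [← hBC]; exact hBA⟩, rfl⟩

/-- Every row is a multiple of a given nonzero row. -/
theorem row_surj {D : Type*} [DivisionRing D] {r : ℕ} {u : Fin r → D} (hu : u ≠ 0)
    (w : Fin r → D) : ∃ M : Matrix (Fin r) (Fin r) D, Matrix.vecMul u M = w := by
  classical
  obtain ⟨i0, hi0⟩ := Function.ne_iff.1 hu
  have hi0 : u i0 ≠ 0 := hi0
  refine ⟨Matrix.of fun i l => if i = i0 then (u i0)⁻¹ * w l else 0, ?_⟩
  ext l
  show ∑ i, u i * (if i = i0 then (u i0)⁻¹ * w l else 0) = w l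
  rw [sum_eq_single i0]
  · rw [if_pos rfl, mul_inv_cancel_left₀ hi0]
  · intro b _ hb
    rw [if_neg hb, mul_zero]
  · intro h
    exact absurd (mem_univ _) h

variable (P : WD (ZMod p) O) (K : Finset (Fin P.m))

/-- The space of the tuples of rows. -/
abbrev RowE : Type u := Π j : {j // j ∈ K}, (Fin (P.r j) → P.D j)

/-- The linear map attached to a tuple of rows. -/
noncomputable def rowMap (u : RowE P K) : MonoidAlgebra (ZMod p) O →ₗ[ZMod p] RowE P K where
  toFun a := fun j => Matrix.vecMul (u j) (P.comp j a)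
  map_add' a b := by
    ext j : 1
    simp only [map_add, Matrix.vecMul_add, Pi.add_apply]
  map_smul' c a := by
    ext j : 1
    simp only [map_smul, Matrix.vecMul_smul, RingHom.id_apply, Pi.smul_apply]

theorem rowMap_surj {u : RowE P K} (hu : ∀ j, u j ≠ 0) : Function.Surjective (rowMap P K u) := by
  classical
  intro w
  choose M hM using fun j => row_surj (hu j) (w j)
  let N : Π j, Matrix (Fin (P.r j)) (Fin (P.r j)) (P.D j) := fun j =>
    if h : j ∈ K then M ⟨j, h⟩ else 0
  refine ⟨P.φ.symm N, ?_⟩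
  ext j : 1
  show Matrix.vecMul (u j) (P.comp j (P.φ.symm N)) = w j
  rw [WD.comp_apply, AlgEquiv.apply_symm_apply]
  have h1 : N j = M j := by
    show (if h : (j : Fin P.m) ∈ K then M ⟨j, h⟩ else 0) = M j
    rw [dif_pos j.2]
  rw [h1, hM]

theorem ma_eq_sum (a : MonoidAlgebra (ZMod p) O) :
    a = ∑ g, a.coeff g • MonoidAlgebra.single g (1 : ZMod p) := by
  classical
  apply ma_ext
  intro g
  rw [coeff_sum', sum_eq_single g]
  · have h1 : (a.coeff g • MonoidAlgebra.single g (1 : ZMod p)).coeff g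
        = a.coeff g * (MonoidAlgebra.single g (1 : ZMod p)).coeff g := rfl
    rw [h1]
    simp
  · intro b _ hb
    have h1 : (a.coeff b • MonoidAlgebra.single b (1 : ZMod p)).coeff g
        = a.coeff b * (MonoidAlgebra.single b (1 : ZMod p)).coeff g := rfl
    rw [h1]
    simp [hb]
  · intro h
    exact absurd (mem_univ g) h

theorem rowMap_sgnEl (u : RowE P K) (v : O → Bool) :
    ∑ g, svr (ZMod p) v g • rowMap P K u (MonoidAlgebra.single g 1)
      = rowMap P K u (sgnEl (ZMod p) v) := by
  conv_rhs => rw [ma_eq_sum (sgnEl (ZMod p) v), map_sum]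
  refine sum_congr rfl fun g _ => ?_
  rw [map_smul, sgnEl_coeff]
  rfl

theorem rowMap_sym (u : RowE P K) (h : O) (c : O → ZMod p)
    (h0 : ∑ g, c g • rowMap P K u (MonoidAlgebra.single g 1) = 0) :
    ∑ g, c g • rowMap P K u (MonoidAlgebra.single (g * h) 1) = 0 := by
  ext j : 1
  have h1 := congrFun h0 j
  rw [Finset.sum_apply] at h1 ⊢
  have h2 : ∀ g, (c g • rowMap P K u (MonoidAlgebra.single (g * h) 1)) j
      = Matrix.vecMul ((c g • rowMap P K u (MonoidAlgebra.single g 1)) j)
          (P.comp j (MonoidAlgebra.single h 1)) := by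
    intro g
    show c g • Matrix.vecMul (u j) (P.comp j (MonoidAlgebra.single (g * h) 1))
      = Matrix.vecMul (c g • Matrix.vecMul (u j) (P.comp j (MonoidAlgebra.single g 1)))
          (P.comp j (MonoidAlgebra.single h 1))
    have h3 : (MonoidAlgebra.single (g * h) (1 : ZMod p) : MonoidAlgebra (ZMod p) O)
        = MonoidAlgebra.single g 1 * MonoidAlgebra.single h 1 := by
      rw [MonoidAlgebra.single_mul_single, mul_one]
    rw [h3, map_mul, ← Matrix.vecMul_vecMul, Matrix.smul_vecMul]
  simp only [h2]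
  rw [← Matrix.sum_vecMul, h1]
  exact Matrix.zero_vecMul _

theorem rowE_finrank : finrank (ZMod p) (RowE P K) = ∑ j ∈ K, P.r j * P.f j := by
  rw [Module.finrank_pi_fintype, ← Finset.sum_coe_sort K fun j => P.r j * P.f j]
  refine sum_congr rfl fun j _ => ?_
  rw [Module.finrank_pi_fintype, sum_const, card_univ, Fintype.card_fin, smul_eq_mul, f_eq]

theorem row_span {u : RowE P K} (hu : ∀ j, u j ≠ 0) :
    finrank (ZMod p) (Submodule.span (ZMod p)
      (Set.range fun g => rowMap P K u (MonoidAlgebra.single g 1))) = ∑ j ∈ K, P.r j * P.f j := by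
  rw [← rowE_finrank]
  have h1 : Submodule.span (ZMod p)
      (Set.range fun g => rowMap P K u (MonoidAlgebra.single g 1)) = ⊤ := by
    rw [eq_top_iff]
    intro w _
    obtain ⟨a, rfl⟩ := rowMap_surj P K hu w
    rw [ma_eq_sum a, map_sum]
    refine Submodule.sum_mem _ fun g _ => ?_
    rw [map_smul]
    exact Submodule.smul_mem _ _ (Submodule.subset_span ⟨g, rfl⟩)
  rw [h1, finrank_top]

theorem row_finD (j : Fin P.m) : Finite (P.D j) := finD P j

attribute [local instance] row_finD

theorem rowE_card : Nat.card (RowE P K) = p ^ (∑ j ∈ K, P.r j * P.f j) := by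
  rw [Nat.card_pi, ← Finset.prod_pow_eq_pow_sum,
    ← Finset.prod_coe_sort K fun j => p ^ (P.r j * P.f j)]
  refine prod_congr rfl fun j _ => ?_
  rw [Nat.card_pi, prod_const, card_univ, Fintype.card_fin, cardD, ← pow_mul, mul_comm]

/-- PROOF. `E` is the product of the row spaces `Fin (P.r j) → P.D j`, `j ∈ J`, of dimension
`k = ∑ P.r j * P.f j` over `ZMod p` (`f_eq`).  For a tuple `u` of nonzero rows let
`x g = (u j ᵥ* P.comp j (single g 1))_j`.  `∑ svr v g • x g = (u j ᵥ* P.comp j (sgnEl v))_j`.  The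
`x g` span `E`: the components `P.comp j` are jointly surjective (`P.φ`), and for `u j ≠ 0` every row
is `u j ᵥ* M` for some matrix `M` (`P.D j` is a division ring).  The symmetry
`∑ c g • x (g * h) = (∑ c g • x g) * h` holds.  So by `stepA` (with `y = 0`) the number of the `v` with
`u j ᵥ* P.comp j (sgnEl v) = 0` for all `j ∈ J` is at most `2 ^ n * cosS p (n / k) ^ k / p ^ k`.  By
`link` every bad `v` is counted for some tuple `u` (a matrix over a field which is not a unit has a
nonzero row vector in its left kernel, `Matrix.exists_vecMul_eq_zero_iff`; `commD`), hence for at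
least `∏ (p ^ f_j - 1)` tuples (multiply by nonzero scalars of `P.D j`; here it is convenient to use
that `P.D j` is commutative, or to multiply from the left).  The number of all tuples is at most
`p ^ k` (`cardD`). -/
theorem badI_row (hp : ¬ p ∣ Fintype.card O) (W : WD ℚ O)
    (P : WD (ZMod p) O) (i : Fin W.m) {k : ℕ} (hk : k = ∑ j ∈ J W P i, P.r j * P.f j) :
    (((badI W i).ncard : ℕ) : ℝ) * ∏ j ∈ J W P i, ((p : ℝ) ^ P.f j - 1)
      ≤ 2 ^ Fintype.card O * cosS p ((Fintype.card O : ℝ) / k) ^ k := by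
  classical
  have hp1 : 1 < p := (Fact.out : p.Prime).one_lt
  have hp0 : (0 : ℝ) < p := by exact_mod_cast (zero_lt_one.trans hp1)
  have hkpos : 0 < k := by rw [hk]; exact sum_rf_pos hp W P i
  set K := J W P i with hK
  have hfinE : Finite (RowE P K) := inferInstance
  let _ : Fintype (RowE P K) := Fintype.ofFinite _
  set C : ℝ := 2 ^ Fintype.card O * cosS p ((Fintype.card O : ℝ) / k) ^ k with hC
  let U : Finset (RowE P K) := univ.filter fun u => ∀ j, u j ≠ 0
  let B : Finset (O → Bool) := univ.filter fun v => v ∈ badI W i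
  have hB : (badI W i).ncard = B.card := by
    rw [← Set.ncard_coe_finset]
    congr 1
    ext v
    simp [B]
  -- the count for a fixed tuple
  have h1 : ∀ u ∈ U, ((B.filter fun v => rowMap P K u (sgnEl (ZMod p) v) = 0).card : ℝ)
      * (p : ℝ) ^ k ≤ C := by
    intro u hu
    have hu' : ∀ j, u j ≠ 0 := (mem_filter.1 hu).2
    have h2 := stepA (p := p) (fun g => rowMap P K u (MonoidAlgebra.single g 1))
      (fun h c h0 => rowMap_sym P K u h c h0) hkpos (by rw [row_span P K hu', hk]) 0
    refine le_trans ?_ h2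
    gcongr
    rw [← Set.ncard_coe_finset]
    refine Set.ncard_le_ncard ?_ (Set.toFinite _)
    intro v hv
    have hv' := (mem_filter.1 (Finset.mem_coe.1 hv)).2
    show ∑ g, svr (ZMod p) v g • rowMap P K u (MonoidAlgebra.single g 1) = 0
    rw [rowMap_sgnEl]
    exact hv'
  -- the number of tuples for a fixed bad vector
  have h2 : ∀ v ∈ B, ∏ j ∈ K, ((p : ℝ) ^ P.f j - 1) ≤
      ((U.filter fun u => rowMap P K u (sgnEl (ZMod p) v) = 0).card : ℝ) := by
    intro v hv
    obtain ⟨X, hX, hXv⟩ : v ∈ badI W i := (mem_filter.1 hv).2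
    have hl : ∀ j : {j // j ∈ K}, ∃ u : Fin (P.r j) → P.D j, u ≠ 0 ∧
        Matrix.vecMul u (P.comp j (sgnEl (ZMod p) v)) = 0 := by
      intro j
      apply row_kill
      have h3 : toP p (sgnEl ℤ v) = sgnEl (ZMod p) v := map_sgnEl _ v
      rw [← h3]
      refine link hp W P (sgnEl ℤ v) i hX ?_ j.2
      have h4 : toQ (sgnEl ℤ v) = sgnEl ℚ v := map_sgnEl _ v
      rw [h4]
      exact hXv
    choose u0 hu0 hu0v using hl
    let S : Type u := Π j : {j // j ∈ K}, {x : P.D j // x ≠ 0}
    have hfinS : Finite S := inferInstanceAs (Finite (Π j : {j // j ∈ K}, {x : P.D j // x ≠ 0}))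
    let _ : Fintype S := Fintype.ofFinite _
    have hScard : (Fintype.card S : ℝ) = ∏ j ∈ K, ((p : ℝ) ^ P.f j - 1) := by
      rw [← Nat.card_eq_fintype_card]
      show ((Nat.card (Π j : {j // j ∈ K}, {x : P.D j // x ≠ 0}) : ℕ) : ℝ) = _
      rw [Nat.card_pi, ← Finset.prod_coe_sort K fun j => ((p : ℝ) ^ P.f j - 1), Nat.cast_prod]
      refine prod_congr rfl fun j _ => ?_
      have h5 : Nat.card {x : P.D j // x ≠ 0} = p ^ P.f j - 1 := by
        let _ : Fintype (P.D j) := Fintype.ofFinite _
        rw [← cardD P j, Nat.card_eq_fintype_card, Nat.card_eq_fintype_card]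
        have h9 := Fintype.card_subtype_compl fun x : P.D j => x = 0
        rw [Fintype.card_subtype_eq] at h9
        exact h9
      rw [h5, Nat.cast_sub (Nat.one_le_pow _ _ (zero_lt_one.trans hp1))]
      push_cast
      rfl
    rw [← hScard]
    have h6 : Fintype.card S ≤ (U.filter fun u => rowMap P K u (sgnEl (ZMod p) v) = 0).card := by
      rw [← card_univ]
      refine card_le_card_of_injOn (fun s => fun j => (s j : P.D j) • u0 j) ?_ ?_
      · intro s _
        simp only [coe_filter, Set.mem_ofPred_eq, U, mem_filter, mem_univ, true_and]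
        refine ⟨fun j => smul_ne_zero (s j).2 (hu0 j), ?_⟩
        ext j : 1
        show Matrix.vecMul ((s j : P.D j) • u0 j) (P.comp j (sgnEl (ZMod p) v)) = 0
        rw [Matrix.smul_vecMul, hu0v, smul_zero]
      · intro s _ t _ hst
        ext j
        have h7 : (s j : P.D j) • u0 j = (t j : P.D j) • u0 j := congrFun hst j
        exact smul_left_injective _ (hu0 j) h7
    exact_mod_cast h6
  -- double counting
  have h3 : ∑ v ∈ B, ((U.filter fun u => rowMap P K u (sgnEl (ZMod p) v) = 0).card : ℝ)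
      = ∑ u ∈ U, ((B.filter fun v => rowMap P K u (sgnEl (ZMod p) v) = 0).card : ℝ) := by
    simp only [card_filter, Nat.cast_sum]
    rw [sum_comm]
  have hCnn : 0 ≤ C := by
    have : 0 ≤ cosS p ((Fintype.card O : ℝ) / k) := by
      unfold cosS
      exact sum_nonneg fun a _ => Real.rpow_nonneg (abs_nonneg _) _
    positivity
  have hUcard : (U.card : ℝ) ≤ (p : ℝ) ^ k := by
    have h8 : U.card ≤ p ^ k := by
      rw [hk, ← rowE_card P K, Nat.card_eq_fintype_card, ← card_univ]
      exact card_le_card (filter_subset _ _)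
    exact_mod_cast h8
  have hpk : (0 : ℝ) < (p : ℝ) ^ k := by positivity
  rw [hB]
  calc (B.card : ℝ) * ∏ j ∈ K, ((p : ℝ) ^ P.f j - 1)
      = ∑ v ∈ B, ∏ j ∈ K, ((p : ℝ) ^ P.f j - 1) := by rw [sum_const, nsmul_eq_mul]
    _ ≤ ∑ v ∈ B, ((U.filter fun u => rowMap P K u (sgnEl (ZMod p) v) = 0).card : ℝ) :=
        sum_le_sum h2
    _ = ∑ u ∈ U, ((B.filter fun v => rowMap P K u (sgnEl (ZMod p) v) = 0).card : ℝ) := h3
    _ ≤ ∑ u ∈ U, C / (p : ℝ) ^ k := by
        refine sum_le_sum fun u hu => ?_
        rw [le_div_iff₀ hpk]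
        exact h1 u hu
    _ = U.card * (C / (p : ℝ) ^ k) := by rw [sum_const, nsmul_eq_mul]
    _ ≤ (p : ℝ) ^ k * (C / (p : ℝ) ^ k) := by gcongr
    _ = C := by field_simp

end Pool.MP43e44c.OD
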