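import Mathlib

/-!
A tail bound for sums of vectors with random signs.
-/

set_option autoImplicit false

open Finset Module

namespace Pool.MP43e44c.OD

theorem Hoef_sum {ι : Type*} [Fintype ι] [DecidableEq ι] (a : ι → ℝ) (ha : ∀ i, |a i| ≤ 1) (l : ℝ) :
    ∑ v : ι → Bool, Real.exp (l * ∑ i, (if v i then (1 : ℝ) else -1) * a i)
      ≤ 2 ^ Fintype.card ι * Real.exp (l ^ 2 * Fintype.card ι / 2) := by
  have h1 : ∑ v : ι → Bool, Real.exp (l * ∑ i, (if v i then (1 : ℝ) else -1) * a i)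
      = ∏ i, ∑ b : Bool, Real.exp (l * ((if b then (1 : ℝ) else -1) * a i)) := by
    rw [Finset.prod_univ_sum, Fintype.piFinset_univ]
    refine Finset.sum_congr rfl fun v _ => ?_
    rw [Finset.mul_sum, Real.exp_sum]
  have h2 : ∀ i, ∑ b : Bool, Real.exp (l * ((if b then (1 : ℝ) else -1) * a i))
      ≤ 2 * Real.exp (l ^ 2 / 2) := by
    intro i
    have h3 : ∑ b : Bool, Real.exp (l * ((if b then (1 : ℝ) else -1) * a i))
        = 2 * Real.cosh (l * a i) := by
      rw [Real.cosh_eq]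
      simp
      ring
    rw [h3]
    have h4 := Real.cosh_le_exp_half_sq (l * a i)
    have h5 : (l * a i) ^ 2 / 2 ≤ l ^ 2 / 2 := by
      rw [mul_pow]
      have h6 : (a i) ^ 2 ≤ 1 := by
        rw [← sq_abs]
        have := ha i
        have h7 := abs_nonneg (a i)
        nlinarith
      nlinarith [sq_nonneg l]
    have h6 := Real.exp_le_exp.2 h5
    linarith
  rw [h1]
  calc ∏ i, ∑ b : Bool, Real.exp (l * ((if b then (1 : ℝ) else -1) * a i))
      ≤ ∏ _i : ι, (2 * Real.exp (l ^ 2 / 2)) :=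
        Finset.prod_le_prod (fun i _ => Finset.sum_nonneg fun b _ => (Real.exp_pos _).le)
          fun i _ => h2 i
    _ = 2 ^ Fintype.card ι * Real.exp (l ^ 2 * Fintype.card ι / 2) := by
        rw [Finset.prod_const, Finset.card_univ, mul_pow, ← Real.exp_nat_mul]
        congr 2
        ring

theorem Hoef_one {ι : Type*} [Fintype ι] [Nonempty ι] (a : ι → ℝ) (ha : ∀ i, |a i| ≤ 1) {t : ℝ}
    (ht : 0 ≤ t) :
    (({v : ι → Bool | t < ∑ i, (if v i then (1 : ℝ) else -1) * a i}.ncard : ℕ) : ℝ)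
      ≤ Real.exp (-(t ^ 2) / (2 * Fintype.card ι)) * 2 ^ Fintype.card ι := by
  classical
  have hn : (0 : ℝ) < Fintype.card ι := by exact_mod_cast Fintype.card_pos
  set l : ℝ := t / Fintype.card ι with hl
  have hl0 : 0 ≤ l := by positivity
  set S : Finset (ι → Bool) := Finset.univ.filter
    (fun v => t < ∑ i, (if v i then (1 : ℝ) else -1) * a i) with hS
  have h1 : {v : ι → Bool | t < ∑ i, (if v i then (1 : ℝ) else -1) * a i} = ↑S := by
    ext v
    simp [hS]
  rw [h1, Set.ncard_coe_finset]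
  have h2 : (S.card : ℝ) * Real.exp (l * t) ≤
      2 ^ Fintype.card ι * Real.exp (l ^ 2 * Fintype.card ι / 2) := by
    refine le_trans ?_ (Hoef_sum a ha l)
    calc (S.card : ℝ) * Real.exp (l * t) = ∑ _v ∈ S, Real.exp (l * t) := by
          rw [Finset.sum_const, nsmul_eq_mul]
      _ ≤ ∑ v ∈ S, Real.exp (l * ∑ i, (if v i then (1 : ℝ) else -1) * a i) := by
          refine Finset.sum_le_sum fun v hv => Real.exp_le_exp.2 ?_
          rw [hS, Finset.mem_filter] at hv
          exact mul_le_mul_of_nonneg_left hv.2.le hl0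
      _ ≤ ∑ v : ι → Bool, Real.exp (l * ∑ i, (if v i then (1 : ℝ) else -1) * a i) :=
          Finset.sum_le_sum_of_subset_of_nonneg (Finset.subset_univ _)
            fun v _ _ => (Real.exp_pos _).le
  have h3 : Real.exp (-(t ^ 2) / (2 * Fintype.card ι)) =
      Real.exp (l ^ 2 * Fintype.card ι / 2) / Real.exp (l * t) := by
    rw [← Real.exp_sub]
    congr 1
    rw [hl]
    field_simp
    ring
  rw [h3, div_mul_eq_mul_div, le_div_iff₀ (Real.exp_pos _)]
  linarith

theorem Hoef_two {ι : Type*} [Fintype ι] [Nonempty ι] (a : ι → ℝ) (ha : ∀ i, |a i| ≤ 1) {t : ℝ}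
    (ht : 0 ≤ t) :
    (({v : ι → Bool | t < |∑ i, (if v i then (1 : ℝ) else -1) * a i|}.ncard : ℕ) : ℝ)
      ≤ 2 * Real.exp (-(t ^ 2) / (2 * Fintype.card ι)) * 2 ^ Fintype.card ι := by
  have h1 : {v : ι → Bool | t < |∑ i, (if v i then (1 : ℝ) else -1) * a i|} ⊆
      {v : ι → Bool | t < ∑ i, (if v i then (1 : ℝ) else -1) * a i} ∪
      {v : ι → Bool | t < ∑ i, (if v i then (1 : ℝ) else -1) * (-a i)} := by
    intro v hv
    simp only [Set.mem_setOf_eq, Set.mem_union] at hv ⊢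
    rcases lt_abs.1 hv with h | h
    · exact Or.inl h
    · right
      have h2 : ∑ i, (if v i then (1 : ℝ) else -1) * (-a i)
          = -∑ i, (if v i then (1 : ℝ) else -1) * a i := by
        rw [← Finset.sum_neg_distrib]
        exact Finset.sum_congr rfl fun i _ => by ring
      rw [h2]
      exact h
  have h2 := (Set.ncard_le_ncard h1 (Set.toFinite _)).trans (Set.ncard_union_le _ _)
  have h3 := Hoef_one a ha ht
  have h4 := Hoef_one (fun i => -a i) (fun i => by rw [abs_neg]; exact ha i) ht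
  have h5 : (({v : ι → Bool | t < |∑ i, (if v i then (1 : ℝ) else -1) * a i|}.ncard : ℕ) : ℝ) ≤
      (({v : ι → Bool | t < ∑ i, (if v i then (1 : ℝ) else -1) * a i}.ncard : ℕ) : ℝ) +
      (({v : ι → Bool | t < ∑ i, (if v i then (1 : ℝ) else -1) * (-a i)}.ncard : ℕ) : ℝ) := by
    exact_mod_cast h2
  linarith

/-- PROOF. Let `u_1, …, u_N'`, `N' ≤ N`, be an orthonormal basis of the span.  If
`‖∑ ε_i x_i‖ ^ 2 > N t ^ 2` then `|∑ ε_i ⟨u_l, x_i⟩| > t` for some `l`, and `|⟨u_l, x_i⟩| ≤ 1`.  For real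
numbers `|a_i| ≤ 1`: the proportion of the signs with `|∑ ε_i a_i| > t` is at most
`2 exp (- t ^ 2 / (2 n))` (Chernoff with `∏ cosh (λ a_i) ≤ exp (λ ^ 2 n / 2)`, `λ = t / n`;
`Real.cosh_le_exp_half_sq`).  The case `n = 0` or `t = 0` is trivial or easy: for `n = 0` the sum
is `0` and the set is empty. -/
theorem hoef {ι V : Type*} [Fintype ι] [NormedAddCommGroup V] [InnerProductSpace ℝ V]
    [FiniteDimensional ℝ V] (x : ι → V) (hx : ∀ i, ‖x i‖ ≤ 1) {N : ℕ}
    (hN : finrank ℝ (Submodule.span ℝ (Set.range x)) ≤ N) {t : ℝ} (ht : 0 ≤ t) :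
    (({v : ι → Bool | N * t ^ 2 < ‖∑ i, (if v i then (1 : ℝ) else -1) • x i‖ ^ 2}.ncard : ℕ) : ℝ)
      ≤ 2 * N * Real.exp (-(t ^ 2) / (2 * Fintype.card ι)) * 2 ^ Fintype.card ι := by
  classical
  rcases isEmpty_or_nonempty ι with hι | hι
  · have h1 : {v : ι → Bool | N * t ^ 2 < ‖∑ i, (if v i then (1 : ℝ) else -1) • x i‖ ^ 2} = ∅ := by
      ext v
      simp only [Set.mem_setOf_eq, Set.mem_empty_iff_false, iff_false, not_lt]
      rw [Finset.univ_eq_empty, Finset.sum_empty, norm_zero]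
      have h2 : (0 : ℝ) ≤ N * t ^ 2 := by positivity
      calc (0 : ℝ) ^ 2 = 0 := by norm_num
        _ ≤ N * t ^ 2 := h2
    rw [h1, Set.ncard_empty]
    have h2 : (0 : ℝ) ≤ 2 * N * Real.exp (-(t ^ 2) / (2 * Fintype.card ι)) *
        2 ^ Fintype.card ι := by positivity
    rw [Nat.cast_zero]
    exact h2
  · set E := Submodule.span ℝ (Set.range x) with hE
    let b := stdOrthonormalBasis ℝ E
    let y : ι → E := fun i => ⟨x i, Submodule.subset_span ⟨i, rfl⟩⟩
    have hy : ∀ i, ‖y i‖ ≤ 1 := hx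
    let a : Fin (finrank ℝ E) → ι → ℝ := fun l i => inner ℝ (b l) (y i)
    have ha : ∀ l i, |a l i| ≤ 1 := by
      intro l i
      have h1 := abs_real_inner_le_norm (b l) (y i)
      rw [b.orthonormal.1 l, one_mul] at h1
      exact h1.trans (hy i)
    have hsub : {v : ι → Bool | N * t ^ 2 < ‖∑ i, (if v i then (1 : ℝ) else -1) • x i‖ ^ 2} ⊆
        ⋃ l ∈ (Finset.univ : Finset (Fin (finrank ℝ E))),
          {v : ι → Bool | t < |∑ i, (if v i then (1 : ℝ) else -1) * a l i|} := by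
      intro v hv
      rw [Set.mem_setOf_eq] at hv
      by_contra hcon
      simp only [Finset.mem_univ, Set.iUnion_true, Set.mem_iUnion, Set.mem_setOf_eq, not_exists,
        not_lt] at hcon
      have h1 : ‖∑ i, (if v i then (1 : ℝ) else -1) • x i‖
          = ‖∑ i, (if v i then (1 : ℝ) else -1) • y i‖ := by
        have h2 : ((∑ i, (if v i then (1 : ℝ) else -1) • y i : E) : V)
            = ∑ i, (if v i then (1 : ℝ) else -1) • x i := by
          rw [Submodule.coe_sum]
          rfl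
        rw [← h2]
        rfl
      have h2 : ‖∑ i, (if v i then (1 : ℝ) else -1) • y i‖ ^ 2
          = ∑ l, ‖inner ℝ (b l) (∑ i, (if v i then (1 : ℝ) else -1) • y i)‖ ^ 2 :=
        (b.sum_sq_norm_inner_right _).symm
      have h3 : ∀ l, ‖inner ℝ (b l) (∑ i, (if v i then (1 : ℝ) else -1) • y i)‖ ^ 2 ≤ t ^ 2 := by
        intro l
        have h4 : inner ℝ (b l) (∑ i, (if v i then (1 : ℝ) else -1) • y i)
            = ∑ i, (if v i then (1 : ℝ) else -1) * a l i := by
          rw [inner_sum]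
          exact Finset.sum_congr rfl fun i _ => real_inner_smul_right _ _ _
        rw [h4, Real.norm_eq_abs]
        exact pow_le_pow_left₀ (abs_nonneg _) (hcon l) 2
      have h4 : ‖∑ i, (if v i then (1 : ℝ) else -1) • y i‖ ^ 2 ≤ N * t ^ 2 := by
        rw [h2]
        calc ∑ l, ‖inner ℝ (b l) (∑ i, (if v i then (1 : ℝ) else -1) • y i)‖ ^ 2
            ≤ ∑ _l : Fin (finrank ℝ E), t ^ 2 := Finset.sum_le_sum fun l _ => h3 l
          _ = (finrank ℝ E : ℝ) * t ^ 2 := by
              rw [Finset.sum_const, Finset.card_univ, Fintype.card_fin, nsmul_eq_mul]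
          _ ≤ N * t ^ 2 := by
              have h5 : ((finrank ℝ E : ℕ) : ℝ) ≤ N := by exact_mod_cast hN
              exact mul_le_mul_of_nonneg_right h5 (sq_nonneg t)
      rw [h1] at hv
      linarith
    have h1 := (Set.ncard_le_ncard hsub (Set.toFinite _)).trans
      (Finset.set_ncard_biUnion_le _ _)
    have h2 : (({v : ι → Bool | N * t ^ 2 <
        ‖∑ i, (if v i then (1 : ℝ) else -1) • x i‖ ^ 2}.ncard : ℕ) : ℝ) ≤
        ∑ l : Fin (finrank ℝ E),
          (({v : ι → Bool | t < |∑ i, (if v i then (1 : ℝ) else -1) * a l i|}.ncard : ℕ) : ℝ) := by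
      exact_mod_cast h1
    refine h2.trans ?_
    calc ∑ l : Fin (finrank ℝ E),
          (({v : ι → Bool | t < |∑ i, (if v i then (1 : ℝ) else -1) * a l i|}.ncard : ℕ) : ℝ)
        ≤ ∑ _l : Fin (finrank ℝ E),
          (2 * Real.exp (-(t ^ 2) / (2 * Fintype.card ι)) * 2 ^ Fintype.card ι) :=
          Finset.sum_le_sum fun l _ => Hoef_two (a l) (ha l) ht
      _ = (finrank ℝ E : ℝ) *
          (2 * Real.exp (-(t ^ 2) / (2 * Fintype.card ι)) * 2 ^ Fintype.card ι) := by
          rw [Finset.sum_const, Finset.card_univ, Fintype.card_fin, nsmul_eq_mul]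
      _ ≤ N * (2 * Real.exp (-(t ^ 2) / (2 * Fintype.card ι)) * 2 ^ Fintype.card ι) := by
          have h5 : ((finrank ℝ E : ℕ) : ℝ) ≤ N := by exact_mod_cast hN
          exact mul_le_mul_of_nonneg_right h5 (by positivity)
      _ = _ := by ring

end Pool.MP43e44c.OD
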