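import Pool.Agent.H.MP_43e44c_ag.OD.WdC

/-!
An invariant Euclidean norm on the row space of a component, and a lattice with minimum one.
-/

set_option autoImplicit false

open Finset Module

namespace Pool.MP43e44c.OD

universe u

/-- The lattice generated by the orbits of the rows `w l`. -/
def latL {O : Type u} [Group O] [Fintype O] (W : WD ℚ O) (i : Fin W.m)
    (w : Fin (W.r i) → (Fin (W.r i) → W.D i)) : AddSubgroup (Fin (W.r i) → W.D i) :=
  AddSubgroup.closure (Set.range fun x : Fin (W.r i) × O =>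
    Matrix.vecMul (w x.1) (W.comp i (MonoidAlgebra.single x.2 1)))

section LatAux

variable {O : Type u} [Group O] [Fintype O] {D : Type u} [DivisionRing D] [Algebra ℚ D]
  {r : ℕ}

/-- Every row is a multiple of a nonzero row. -/
theorem lat_row {u : Fin r → D} (hu : u ≠ 0) (x : Fin r → D) :
    ∃ A : Matrix (Fin r) (Fin r) D, Matrix.vecMul u A = x := by
  classical
  obtain ⟨k, hk⟩ := Function.ne_iff.1 hu
  have hk' : u k ≠ 0 := hk
  refine ⟨fun a c => if a = k then (u k)⁻¹ * x c else 0, ?_⟩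
  funext c
  show ∑ a, u a * (if a = k then (u k)⁻¹ * x c else 0) = x c
  rw [sum_eq_single k]
  · rw [if_pos rfl, mul_inv_cancel_left₀ hk']
  · intro b _ hb
    rw [if_neg hb, mul_zero]
  · intro h
    exact absurd (mem_univ k) h

theorem lat_vs (c : ℚ) (u : Fin r → D) (A : Matrix (Fin r) (Fin r) D) :
    Matrix.vecMul u (algebraMap ℚ D c • A) = algebraMap ℚ D c • Matrix.vecMul u A := by
  funext k
  rw [Pi.smul_apply, smul_eq_mul]
  simp only [Matrix.vecMul, dotProduct, Matrix.smul_apply, smul_eq_mul]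
  rw [mul_sum]
  refine sum_congr rfl fun a _ => ?_
  rw [← mul_assoc, ← Algebra.commutes, mul_assoc]

theorem lat_sv {k : Type*} [Field k] [Algebra k D] (c : k) (u : Fin r → D)
    (A : Matrix (Fin r) (Fin r) D) :
    Matrix.vecMul (c • u) A = c • Matrix.vecMul u A := by
  funext k
  rw [Pi.smul_apply]
  simp only [Matrix.vecMul, dotProduct, Pi.smul_apply]
  rw [smul_sum]
  exact sum_congr rfl fun a _ => smul_mul_assoc _ _ _

/-- The orbit of a nonzero row spans. -/
theorem lat_span (M : O → Matrix (Fin r) (Fin r) D)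
    (hspan : ∀ A : Matrix (Fin r) (Fin r) D, ∃ c : O → ℚ, A = ∑ g, algebraMap ℚ D (c g) • M g)
    {u : Fin r → D} (hu : u ≠ 0) (x : Fin r → D) :
    ∃ c : O → ℚ, x = ∑ g, algebraMap ℚ D (c g) • Matrix.vecMul u (M g) := by
  obtain ⟨A, hA⟩ := lat_row hu x
  obtain ⟨c, hc⟩ := hspan A
  refine ⟨c, ?_⟩
  rw [← hA, hc]
  have h1 : ∀ s : Finset O, Matrix.vecMul u (∑ g ∈ s, algebraMap ℚ D (c g) • M g) =
      ∑ g ∈ s, algebraMap ℚ D (c g) • Matrix.vecMul u (M g) := by
    intro s
    classical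
    induction s using Finset.induction_on with
    | empty => simp
    | insert a s ha ih =>
      rw [sum_insert ha, sum_insert ha, Matrix.vecMul_add, ih, lat_vs]
  exact h1 univ

/-- The basis consisting of elements of an orbit. -/
theorem lat_basis (M : O → Matrix (Fin r) (Fin r) D)
    (hspan : ∀ A : Matrix (Fin r) (Fin r) D, ∃ c : O → ℚ, A = ∑ g, algebraMap ℚ D (c g) • M g)
    {u : Fin r → D} (hu : u ≠ 0) :
    ∃ a : Fin r → O, LinearIndependent D (fun l => Matrix.vecMul u (M (a l))) := by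
  obtain ⟨κ, a, ha, hs, hli⟩ := exists_linearIndependent' D (fun g : O => Matrix.vecMul u (M g))
  have htop : Submodule.span D (Set.range fun g : O => Matrix.vecMul u (M g)) = ⊤ := by
    rw [eq_top_iff]
    intro x _
    obtain ⟨c, hc⟩ := lat_span M hspan hu x
    rw [hc]
    refine Submodule.sum_mem _ fun g _ => ?_
    exact Submodule.smul_mem _ _ (Submodule.subset_span ⟨g, rfl⟩)
  rw [htop] at hs
  let b : Basis κ D (Fin r → D) := Basis.mk hli hs.ge
  have hfin : Finite κ := Module.Finite.finite_basis b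
  have := Fintype.ofFinite κ
  have hcard : Fintype.card κ = r := by
    have h1 := Module.finrank_eq_card_basis b
    rw [Module.finrank_fin_fun] at h1
    exact h1.symm
  let e : Fin r ≃ κ := (Fintype.equivFinOfCardEq hcard).symm
  refine ⟨fun l => a (e l), ?_⟩
  exact hli.comp e e.injective

/-- The abstract form of `exists_norm`. -/
theorem lat_abs [Module.Finite ℚ D] (hr : 0 < r) (M : O → Matrix (Fin r) (Fin r) D)
    (hM : ∀ g h, M (g * h) = M g * M h) (hM1 : M 1 = 1)
    (hspan : ∀ A : Matrix (Fin r) (Fin r) D, ∃ c : O → ℚ, A = ∑ g, algebraMap ℚ D (c g) • M g) :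
    ∃ (κ : Type u) (_ : Fintype κ) (j : (Fin r → D) →ₗ[ℚ] EuclideanSpace ℝ κ)
      (w : Fin r → (Fin r → D)),
      LinearIndependent D w ∧
      (∀ (l : Fin r) (g : O), ‖j (Matrix.vecMul (w l) (M g))‖ = 1) ∧
      (∀ x ∈ AddSubgroup.closure (Set.range fun x : Fin r × O =>
        Matrix.vecMul (w x.1) (M x.2)), x ≠ 0 → 1 ≤ ‖j x‖) := by
  classical
  -- the starting vector
  let u₀ : Fin r → D := fun _ => 1
  have hu₀ : u₀ ≠ 0 := by
    intro h
    have := congrFun h ⟨0, hr⟩
    exact one_ne_zero this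
  let b := Module.finBasis ℚ (Fin r → D)
  set d := Module.finrank ℚ (Fin r → D) with hd
  -- common denominator
  let N : ℕ := ∏ x : O × Fin d, (b.repr (Matrix.vecMul u₀ (M x.1)) x.2).den
  have hN : 0 < N := prod_pos fun x _ => Rat.pos _
  have hNint : ∀ g k, ∃ z : ℤ, (z : ℚ) = (N : ℚ) * b.repr (Matrix.vecMul u₀ (M g)) k := by
    intro g k
    obtain ⟨c, hc⟩ := dvd_prod_of_mem
      (fun x : O × Fin d => (b.repr (Matrix.vecMul u₀ (M x.1)) x.2).den) (mem_univ (g, k))
    refine ⟨(c : ℤ) * (b.repr (Matrix.vecMul u₀ (M g)) k).num, ?_⟩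
    have h0 : (N : ℚ) = ((b.repr (Matrix.vecMul u₀ (M g)) k).den : ℚ) * (c : ℚ) := by
      exact_mod_cast hc
    have h1 : ((b.repr (Matrix.vecMul u₀ (M g)) k).num : ℚ) =
        (b.repr (Matrix.vecMul u₀ (M g)) k) * ((b.repr (Matrix.vecMul u₀ (M g)) k).den : ℚ) := by
      rw [Rat.mul_den_eq_num]
    push_cast
    rw [h1, h0]
    ring
  -- the lattice
  let L : AddSubgroup (Fin r → D) :=
    AddSubgroup.closure (Set.range fun g : O => Matrix.vecMul u₀ (M g))
  have hLint : ∀ x ∈ L, ∀ k, ∃ z : ℤ, (z : ℚ) = (N : ℚ) * b.repr x k := by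
    intro x hx
    induction hx using AddSubgroup.closure_induction with
    | mem x hx =>
      obtain ⟨g, rfl⟩ := hx
      exact hNint g
    | zero =>
      intro k
      exact ⟨0, by simp⟩
    | add x y _ _ hx hy =>
      intro k
      obtain ⟨z, hz⟩ := hx k
      obtain ⟨z', hz'⟩ := hy k
      refine ⟨z + z', ?_⟩
      push_cast
      rw [hz, hz', map_add, Finsupp.add_apply]
      ring
    | neg x _ hx =>
      intro k
      obtain ⟨z, hz⟩ := hx k
      refine ⟨-z, ?_⟩
      push_cast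
      rw [hz, map_neg, Finsupp.neg_apply]
      ring
  have hvv : ∀ (x : Fin r → D) (g h : O),
      Matrix.vecMul (Matrix.vecMul x (M h)) (M g) = Matrix.vecMul x (M (h * g)) := by
    intro x g h
    rw [Matrix.vecMul_vecMul, hM]
  have hLst : ∀ x ∈ L, ∀ g, Matrix.vecMul x (M g) ∈ L := by
    intro x hx
    induction hx using AddSubgroup.closure_induction with
    | mem x hx =>
      obtain ⟨h, rfl⟩ := hx
      intro g
      show Matrix.vecMul (Matrix.vecMul u₀ (M h)) (M g) ∈ L
      rw [hvv]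
      exact AddSubgroup.subset_closure ⟨h * g, rfl⟩
    | zero =>
      intro g
      rw [Matrix.zero_vecMul]
      exact zero_mem _
    | add x y _ _ hx hy =>
      intro g
      rw [Matrix.add_vecMul]
      exact add_mem (hx g) (hy g)
    | neg x _ hx =>
      intro g
      rw [Matrix.neg_vecMul]
      exact neg_mem (hx g)
  -- coordinates
  let co : (Fin r → D) → O × Fin d → ℝ := fun x y =>
    (((N : ℚ) * b.repr (Matrix.vecMul x (M y.1)) y.2 : ℚ) : ℝ)
  have hco_add : ∀ x y z, co (x + y) z = co x z + co y z := by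
    intro x y z
    simp only [co]
    rw [Matrix.add_vecMul, map_add, Finsupp.add_apply]
    push_cast
    ring
  have hco_smul : ∀ (c : ℚ) x z, co (c • x) z = (c : ℝ) * co x z := by
    intro c x z
    simp only [co]
    rw [lat_sv, map_smul, Finsupp.smul_apply, smul_eq_mul]
    push_cast
    ring
  let q : (Fin r → D) → ℝ := fun x => ∑ y, co x y ^ 2
  have hq_inv : ∀ x h, q (Matrix.vecMul x (M h)) = q x := by
    intro x h
    simp only [q]
    rw [← Equiv.sum_comp ((Equiv.mulLeft h).prodCongr (Equiv.refl (Fin d))) (fun y => co x y ^ 2)]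
    refine sum_congr rfl fun y _ => ?_
    simp only [co, Equiv.prodCongr_apply, Prod.map, Equiv.coe_mulLeft, Equiv.refl_apply]
    rw [hvv]
  have hq_nat : ∀ x ∈ L, ∃ n : ℕ, q x = n := by
    intro x hx
    have h1 : ∀ y : O × Fin d, ∃ z : ℤ, co x y = z := by
      intro y
      obtain ⟨z, hz⟩ := hLint _ (hLst x hx y.1) y.2
      refine ⟨z, ?_⟩
      simp only [co]
      rw [← hz]
      push_cast
      rfl
    choose z hz using h1
    refine ⟨∑ y, (z y).natAbs ^ 2, ?_⟩
    simp only [q]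
    push_cast
    refine sum_congr rfl fun y _ => ?_
    rw [hz y]
    have : ((z y).natAbs : ℝ) = |(z y : ℝ)| := by
      rw [← Int.cast_abs, Int.abs_eq_natAbs]
      simp
    rw [this, sq_abs]
  have hq_pos : ∀ x, x ≠ 0 → 0 < q x := by
    intro x hx
    have h1 : b.repr x ≠ 0 := by
      intro h
      exact hx (b.repr.map_eq_zero_iff.1 h)
    obtain ⟨k, hk⟩ := Finsupp.ne_iff.1 h1
    have hk' : b.repr x k ≠ 0 := hk
    have h2 : co x (1, k) ≠ 0 := by
      simp only [co]
      rw [hM1, Matrix.vecMul_one]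
      have hN' : (N : ℚ) ≠ 0 := by exact_mod_cast hN.ne'
      exact_mod_cast mul_ne_zero hN' hk'
    have h3 : co x (1, k) ^ 2 ≤ q x :=
      single_le_sum (f := fun y => co x y ^ 2) (fun y _ => sq_nonneg _) (mem_univ (1, k))
    have h4 : 0 < co x (1, k) ^ 2 := by positivity
    linarith
  have hu₀L : u₀ ∈ L := by
    have h1 : Matrix.vecMul u₀ (M 1) ∈ L := AddSubgroup.subset_closure ⟨1, rfl⟩
    rwa [hM1, Matrix.vecMul_one] at h1
  -- the minimum
  have hex : ∃ n : ℕ, ∃ x ∈ L, x ≠ 0 ∧ q x = n := by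
    obtain ⟨n, hn⟩ := hq_nat u₀ hu₀L
    exact ⟨n, u₀, hu₀L, hu₀, hn⟩
  obtain ⟨u₁, hu₁L, hu₁, hq₁⟩ := Nat.find_spec hex
  set n₀ := Nat.find hex with hn₀
  have hmin : ∀ x ∈ L, x ≠ 0 → q u₁ ≤ q x := by
    intro x hx hx0
    obtain ⟨n, hn⟩ := hq_nat x hx
    rw [hq₁, hn]
    exact_mod_cast Nat.find_min' hex ⟨x, hx, hx0, hn⟩
  have hqpos := hq_pos u₁ hu₁
  let μ : ℝ := (Real.sqrt (q u₁))⁻¹
  have hμ : 0 < μ := inv_pos.2 (Real.sqrt_pos.2 hqpos)
  have hμ2 : μ ^ 2 * q u₁ = 1 := by
    simp only [μ]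
    rw [inv_pow, Real.sq_sqrt hqpos.le]
    exact inv_mul_cancel₀ hqpos.ne'
  let j : (Fin r → D) →ₗ[ℚ] EuclideanSpace ℝ (O × Fin d) :=
    { toFun := fun x => WithLp.toLp 2 (fun y => μ * co x y)
      map_add' := by
        intro x y
        ext z
        show μ * co (x + y) z = μ * co x z + μ * co y z
        rw [hco_add]
        ring
      map_smul' := by
        intro c x
        ext z
        show μ * co (c • x) z = c • (μ * co x z)
        rw [hco_smul, Rat.smul_def]
        ring }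
  have hj : ∀ x, ‖j x‖ ^ 2 = μ ^ 2 * q x := by
    intro x
    rw [EuclideanSpace.norm_sq_eq]
    show ∑ y, ‖μ * co x y‖ ^ 2 = μ ^ 2 * q x
    simp only [q]
    rw [mul_sum]
    refine sum_congr rfl fun y _ => ?_
    rw [Real.norm_eq_abs, sq_abs, mul_pow]
  obtain ⟨a, ha⟩ := lat_basis M hspan hu₁
  refine ⟨O × Fin d, inferInstance, j, fun l => Matrix.vecMul u₁ (M (a l)), ha, ?_, ?_⟩
  · intro l g
    have h1 : ‖j (Matrix.vecMul (Matrix.vecMul u₁ (M (a l))) (M g))‖ ^ 2 = 1 := by
      rw [hj, hq_inv, hq_inv, hμ2]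
    have h2 := norm_nonneg (j (Matrix.vecMul (Matrix.vecMul u₁ (M (a l))) (M g)))
    nlinarith
  · intro x hx hx0
    have hxL : x ∈ L := by
      have hle : AddSubgroup.closure (Set.range fun x : Fin r × O =>
          Matrix.vecMul (Matrix.vecMul u₁ (M (a x.1))) (M x.2)) ≤ L := by
        rw [AddSubgroup.closure_le]
        rintro _ ⟨y, rfl⟩
        exact hLst _ (hLst _ hu₁L _) _
      exact hle hx
    have h1 : 1 ≤ ‖j x‖ ^ 2 := by
      rw [hj, ← hμ2]
      exact mul_le_mul_of_nonneg_left (hmin x hxL hx0) (by positivity)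
    have h2 := norm_nonneg (j x)
    nlinarith

end LatAux

/-- PROOF. Let `U = Fin r → D` (rows), with the right action `u g = u ᵥ* comp i (single g 1)`, and `L₀`
the additive group generated by the orbit of a nonzero `u₀`; it is stable under the group, finitely
generated, and spans `U` over `ℚ` (`comp i` is surjective and every row is `u₀ ᵥ* M`).  Choose a
`ℤ`-basis of `L₀` (`N` elements; torsion-free, finitely generated); it is a `ℚ`-basis of `U`; let
`j₀ : U → EuclideanSpace ℝ (O × Fin N)` be the map which sends `x` to the coordinates of all `x g`,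
`g ∈ O`.  It is `ℚ`-linear and injective, `‖j₀ (x g)‖ = ‖j₀ x‖` (a permutation of the coordinates), and
`‖j₀ x‖ ^ 2` is a positive integer for `x ∈ L₀`, `x ≠ 0`.  Let `u₁ ∈ L₀`, `u₁ ≠ 0`, be of minimal norm
`μ > 0`, and `j = μ⁻¹ • j₀`.  The orbit of `u₁` spans `U` over `D` (from the left) (again since every
row is `u₁ ᵥ* M`), so there are `g_l`, `l : Fin r`, such that the `w l = u₁ g_l` form a basis over
`D`.  `latL` is contained in `L₀`. -/
theorem exists_norm {O : Type u} [Group O] [Fintype O] (W : WD ℚ O) (i : Fin W.m) :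
    ∃ (κ : Type u) (_ : Fintype κ) (j : (Fin (W.r i) → W.D i) →ₗ[ℚ] EuclideanSpace ℝ κ)
      (w : Fin (W.r i) → (Fin (W.r i) → W.D i)),
      LinearIndependent (W.D i) w ∧
      (∀ (l : Fin (W.r i)) (g : O),
        ‖j (Matrix.vecMul (w l) (W.comp i (MonoidAlgebra.single g 1)))‖ = 1) ∧
      (∀ x ∈ latL W i w, x ≠ 0 → 1 ≤ ‖j x‖) := by
  classical
  have hspan : ∀ A : Matrix (Fin (W.r i)) (Fin (W.r i)) (W.D i), ∃ c : O → ℚ,
      A = ∑ g, algebraMap ℚ (W.D i) (c g) • W.comp i (MonoidAlgebra.single g 1) := by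
    intro A
    have h1 : ∃ a : MonoidAlgebra ℚ O, W.comp i a = A := by
      refine ⟨W.φ.symm (Pi.single i A), ?_⟩
      rw [WD.comp_apply, AlgEquiv.apply_symm_apply, Pi.single_eq_same]
    obtain ⟨a, ha⟩ := h1
    refine ⟨fun g => a.coeff g, ?_⟩
    have h2 : a = ∑ g, (a.coeff g) • MonoidAlgebra.single g (1 : ℚ) := by
      apply ma_ext
      intro g
      rw [coeff_sum', sum_eq_single g]
      · show a.coeff g = a.coeff g * (MonoidAlgebra.single g (1 : ℚ)).coeff g
        simp
      · intro b _ hb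
        show a.coeff b * (MonoidAlgebra.single b (1 : ℚ)).coeff g = 0
        rw [MonoidAlgebra.coeff_single, Finsupp.single_eq_of_ne' hb, mul_zero]
      · intro h
        exact absurd (mem_univ g) h
    rw [← ha]
    conv_lhs => rw [h2]
    rw [map_sum]
    refine sum_congr rfl fun g _ => ?_
    rw [map_smul]
    ext x y
    exact Algebra.smul_def _ _
  have hM : ∀ g h : O, W.comp i (MonoidAlgebra.single (g * h) 1) =
      W.comp i (MonoidAlgebra.single g 1) * W.comp i (MonoidAlgebra.single h 1) := by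
    intro g h
    rw [← map_mul, MonoidAlgebra.single_mul_single, mul_one]
  have hM1 : W.comp i (MonoidAlgebra.single (1 : O) 1) = 1 := by
    have h1 : (MonoidAlgebra.single (1 : O) 1 : MonoidAlgebra ℚ O) = 1 := rfl
    rw [h1, map_one]
  exact lat_abs (Nat.pos_of_ne_zero (NeZero.ne (W.r i)))
    (fun g : O => W.comp i (MonoidAlgebra.single g 1)) hM hM1 hspan

end Pool.MP43e44c.OD
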