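import Pool.Agent.H.MP_43e44c_ag.OD.WdC

/-!
The involution of the rational group algebra.
-/

set_option autoImplicit false

open Finset Module

namespace Pool.MP43e44c.OD

universe u

variable {O : Type u} [Group O] [Fintype O]

/-- The involution `g ↦ g⁻¹`. -/
noncomputable def star' (x : MonoidAlgebra ℚ O) : MonoidAlgebra ℚ O := ofFun fun g => x.coeff g⁻¹

theorem star'_coeff (x : MonoidAlgebra ℚ O) (g : O) : (star' x).coeff g = x.coeff g⁻¹ :=
  ofFun_coeff _ _

theorem star'_star' (x : MonoidAlgebra ℚ O) : star' (star' x) = x := by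
  apply ma_ext
  intro g
  rw [star'_coeff, star'_coeff, inv_inv]

theorem star'_add (x y : MonoidAlgebra ℚ O) : star' (x + y) = star' x + star' y := by
  apply ma_ext
  intro g
  show (star' (x + y)).coeff g = (star' x).coeff g + (star' y).coeff g
  rw [star'_coeff, star'_coeff, star'_coeff]
  rfl

theorem star'_smul (c : ℚ) (x : MonoidAlgebra ℚ O) : star' (c • x) = c • star' x := by
  apply ma_ext
  intro g
  show (star' (c • x)).coeff g = c * (star' x).coeff g
  rw [star'_coeff, star'_coeff]
  rfl

/-- `coeff_mul_left` on both sides and a change of variables. -/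
theorem star'_mul (x y : MonoidAlgebra ℚ O) : star' (x * y) = star' y * star' x := by
  apply ma_ext
  intro g
  rw [star'_coeff, coeff_mul_left, coeff_mul_left]
  simp only [star'_coeff]
  rw [← Equiv.sum_comp ((Equiv.mulLeft g⁻¹)) fun h => x.coeff h * y.coeff (h⁻¹ * g⁻¹)]
  refine sum_congr rfl fun h _ => ?_
  rw [Equiv.coe_mulLeft, mul_comm]
  congr 2 <;> group

theorem star'_one : star' (1 : MonoidAlgebra ℚ O) = 1 := by
  classical
  apply ma_ext
  intro g
  rw [star'_coeff, MonoidAlgebra.one_def, MonoidAlgebra.coeff_single, Finsupp.single_apply,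
    Finsupp.single_apply]
  simp only [eq_comm (a := (1 : O)), inv_eq_one]

/-- The coefficient of `x * star' x` at `1` is `∑ g, (x.coeff g) ^ 2`. -/
theorem eq_zero_of_mul_star' {x : MonoidAlgebra ℚ O} (h : x * star' x = 0) : x = 0 := by
  have h1 : (x * star' x).coeff 1 = ∑ g, (x.coeff g) ^ 2 := by
    rw [coeff_mul_left]
    refine sum_congr rfl fun g _ => ?_
    rw [star'_coeff, mul_one, inv_inv, sq]
  rw [h] at h1
  have h2 : (0 : MonoidAlgebra ℚ O).coeff 1 = 0 := rfl
  rw [h2] at h1
  have h3 := (sum_eq_zero_iff_of_nonneg (fun g _ => sq_nonneg (x.coeff g))).1 h1.symm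
  apply ma_ext
  intro g
  exact pow_eq_zero_iff two_ne_zero |>.1 (h3 g (mem_univ g))

theorem star'_central {z : MonoidAlgebra ℚ O} (hz : ∀ x, z * x = x * z) :
    ∀ x, star' z * x = x * star' z := by
  intro x
  rw [← star'_star' x, ← star'_mul, ← star'_mul, hz]

/-- `e := W.e i` is a central idempotent, so `e * star' e` is a central idempotent; its components
other than `i` vanish, and its component `i` is a central idempotent matrix, i.e. scalar `ζ`
(`comp_central`) with `ζ ^ 2 = ζ`, so `0` or `1`.  If it is `0`, then `e * star' e = 0` and `e = 0`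
(`eq_zero_of_mul_star'`), a contradiction to `comp i e = 1` (`W.r i ≠ 0`).  So `e * star' e = e`;
apply `star'`. -/
theorem star'_e (W : WD ℚ O) (i : Fin W.m) : star' (W.e i) = W.e i := by
  have hc1 : ∀ x, W.e i * x = x * W.e i := W.e_comm i
  have hc2 : ∀ x, star' (W.e i) * x = x * star' (W.e i) := star'_central hc1
  have hee : W.e i * W.e i = W.e i := W.e_mul_self i
  have hss : star' (W.e i) * star' (W.e i) = star' (W.e i) := by rw [← star'_mul, hee]
  have hcen : ∀ x, (W.e i * star' (W.e i)) * x = x * (W.e i * star' (W.e i)) := by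
    intro x
    rw [mul_assoc, hc2, ← mul_assoc, hc1, mul_assoc]
  have hidem : (W.e i * star' (W.e i)) * (W.e i * star' (W.e i)) = W.e i * star' (W.e i) := by
    rw [mul_assoc, ← mul_assoc (star' (W.e i)), hc2 (W.e i), mul_assoc, hss, ← mul_assoc, hee]
  obtain ⟨ζ, hζ1, hζ2⟩ := W.comp_central i hcen
  have h0 : W.e i * star' (W.e i) ≠ 0 := by
    intro h
    have h1 := eq_zero_of_mul_star' h
    have h2 := W.comp_e_self i
    rw [h1, map_zero] at h2
    have h3 := congrFun (congrFun h2 0) 0
    rw [Matrix.zero_apply, Matrix.one_apply_eq] at h3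
    exact zero_ne_one h3
  have hζζ : ζ * ζ = ζ := by
    have h1 := congrArg (W.comp i) hidem
    rw [map_mul, hζ2, Matrix.diagonal_mul_diagonal] at h1
    have h3 := congrFun (congrFun h1 0) 0
    rwa [Matrix.diagonal_apply_eq, Matrix.diagonal_apply_eq] at h3
  have hother : ∀ j, j ≠ i → W.comp j (W.e i * star' (W.e i)) = 0 := by
    intro j hj
    rw [map_mul, W.comp_e_ne hj, zero_mul]
  have hζ0 : ζ ≠ 0 := by
    intro hz
    apply h0
    apply W.comp_inj
    intro j
    rw [map_zero]
    by_cases hj : j = i
    · subst hj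
      rw [hζ2, hz]
      ext a b
      simp [Matrix.diagonal_apply]
    · exact hother j hj
  have hζone : ζ = 1 := mul_left_cancel₀ hζ0 (by rw [hζζ, mul_one])
  have hfin : W.e i * star' (W.e i) = W.e i := by
    apply W.comp_inj
    intro j
    by_cases hj : j = i
    · subst hj
      rw [hζ2, hζone, W.comp_e_self, Matrix.diagonal_one]
    · rw [hother j hj, W.comp_e_ne hj]
  have h5 := congrArg star' hfin
  rw [star'_mul, star'_star', hfin] at h5
  exact h5.symm

end Pool.MP43e44c.OD
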