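import Pool.Agent.H.MP_43e44c_ag.OD.Prim

/-!
Numerical assembly.
-/

set_option autoImplicit false

open Finset

namespace Pool.MP43e44c.OD

/-- The bounds for one component, in terms of its dimension `a` and the degree `f` of its center;
`B` is the proportion of the bad sign vectors. -/
structure Bnd (n a f : ℕ) (B : ℝ) : Prop where
  nonneg : 0 ≤ B
  two_le : 2 ≤ f
  f_le : f ≤ a
  two : B ≤ (3 / 4 : ℝ) ^ f
  odd : ∀ p : ℕ, p.Prime → p ≠ 2 → ¬ p ∣ n →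
    (p : ℝ) ^ 2 * Real.sqrt (a * f) * Real.log (6 * Real.sqrt (a * f)) ≤ n →
    B ≤ 2 * (3 / (2 * p)) ^ f

/-- Large `f`: `(3/4) ^ f ≤ n ^ (-2)` if `f ≥ 8 log n`. -/
theorem bnd_large {n a f : ℕ} {B : ℝ} (h : Bnd n a f B) (hn : 2 ≤ n)
    (hf : 8 * Real.log n ≤ f) : B ≤ (n : ℝ) ^ (-2 : ℝ) := by
  have hn0 : (0 : ℝ) < n := by
    have : 0 < n := by omega
    exact_mod_cast this
  refine h.two.trans ?_
  have h1 : (3 / 4 : ℝ) ^ f = Real.exp (f * Real.log (3 / 4)) := by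
    rw [mul_comm, Real.exp_mul, Real.exp_log (by norm_num), Real.rpow_natCast]
  rw [h1, Real.rpow_def_of_pos hn0]
  apply Real.exp_le_exp.mpr
  have h2 : Real.log (3 / 4) ≤ 3 / 4 - 1 := Real.log_le_sub_one_of_pos (by norm_num)
  have h3 : (0 : ℝ) ≤ f := Nat.cast_nonneg f
  have h4 : (f : ℝ) * Real.log (3 / 4) ≤ f * (3 / 4 - 1) := mul_le_mul_of_nonneg_left h2 h3
  linarith

/-- The prime and the estimate for `κ`. -/
theorem asm_prime {n a f : ℕ} {B : ℝ} (h : Bnd n a f B)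
    (hn₀ : ∀ κ : ℝ, 1 ≤ κ → κ ≤ Real.sqrt (8 * n * Real.log n) →
    ∃ p : ℕ, p.Prime ∧ p ≠ 2 ∧ ¬ p ∣ n ∧ (p : ℝ) ^ 2 * κ * Real.log (6 * κ) ≤ n ∧
      (n : ℝ) ≤ 1024 * (p : ℝ) ^ 2 * κ * Real.log (6 * κ)) (hn : 1 ≤ n) (ha : a ≤ n)
    (hf : (f : ℝ) ≤ 8 * Real.log n) :
    ∃ y : ℝ, 0 < y ∧ y ≤ 1 ∧ B ≤ 2 * y ^ f ∧
      y ^ 2 ≤ 2304 * Real.sqrt (a * f) * Real.log (6 * Real.sqrt (a * f)) / n := by
  have hn0 : (0 : ℝ) < n := by
    have : 0 < n := by omega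
    exact_mod_cast this
  have hf2 := h.two_le
  have hfa := h.f_le
  have hκ1 : 1 ≤ Real.sqrt (a * f) := by
    rw [Real.one_le_sqrt]
    have h1 : 1 ≤ a * f := Nat.one_le_iff_ne_zero.mpr (Nat.mul_ne_zero (by omega) (by omega))
    exact_mod_cast h1
  have hκ2 : Real.sqrt (a * f) ≤ Real.sqrt (8 * n * Real.log n) := by
    apply Real.sqrt_le_sqrt
    have h1 : (a : ℝ) ≤ n := by exact_mod_cast ha
    calc (a : ℝ) * f ≤ n * (8 * Real.log n) :=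
          mul_le_mul h1 hf (Nat.cast_nonneg f) hn0.le
      _ = 8 * n * Real.log n := by ring
  obtain ⟨p, hp, hp2, hpn, hple, hpge⟩ := hn₀ _ hκ1 hκ2
  have hp3 : 3 ≤ p := by
    have := hp.two_le
    omega
  have hp3' : (3 : ℝ) ≤ p := by exact_mod_cast hp3
  have hp0 : (0 : ℝ) < p := by linarith
  refine ⟨3 / (2 * p), by positivity, ?_, h.odd p hp hp2 hpn hple, ?_⟩
  · rw [div_le_one (by positivity)]
    linarith
  · rw [div_pow, div_le_div_iff₀ (by positivity) hn0]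
    have : (n : ℝ) * 9 ≤ 9 * (1024 * (p : ℝ) ^ 2 * Real.sqrt (a * f) *
        Real.log (6 * Real.sqrt (a * f))) := by linarith
    calc (3 : ℝ) ^ 2 * n = n * 9 := by ring
      _ ≤ _ := this
      _ = _ := by ring

theorem asm_n_rpow (n : ℝ) (hn : 0 < n) : (n ^ (-(3 / 2) : ℝ)) ^ 2 = (n ^ 3)⁻¹ := by
  rw [← Real.rpow_natCast, ← Real.rpow_mul hn.le]
  have : (-(3 / 2) : ℝ) * ((2 : ℕ) : ℝ) = -((3 : ℕ) : ℝ) := by norm_num
  rw [this, Real.rpow_neg hn.le, Real.rpow_natCast]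

/-- Middle `f`.  `κ = √(a f) ≤ √(8 n log n)`; `exists_prime_kappa` gives `p` with
`(3 / (2 p)) ^ 2 ≤ 2304 κ log (6 κ) / n`, and `3 / (2 p) ≤ 1`, so
`B ≤ 2 (3 / (2p)) ^ 3 ≤ 2 (2304 κ log (6 κ) / n) ^ (3/2)`; `κ ≤ √(8 a log n)`,
`log (6 κ) ≤ 3 log n`, `a ^ (3/4) ≤ a`. -/
theorem bnd_mid : ∃ C : ℝ, 0 < C ∧ ∃ n₀ : ℕ, ∀ {n a f : ℕ} {B : ℝ}, n₀ ≤ n → Bnd n a f B →
    a ≤ n → 3 ≤ f → (f : ℝ) < 8 * Real.log n →
    B ≤ C * a * (Real.log n) ^ 3 * (n : ℝ) ^ (-(3 / 2) : ℝ) := by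
  obtain ⟨n₀, hn₀⟩ := exists_prime_kappa
  refine ⟨2 * (2304 ^ 3 * 64 * 27), by positivity, max n₀ 3, ?_⟩
  intro n a f B hn h ha hf3 hf8
  have hnn₀ : n₀ ≤ n := le_trans (le_max_left _ _) hn
  have hn3 : 3 ≤ n := le_trans (le_max_right _ _) hn
  have hn3' : (3 : ℝ) ≤ n := by exact_mod_cast hn3
  have hn0 : (0 : ℝ) < n := by linarith
  obtain ⟨y, hy0, hy1, hBy, hy2⟩ := asm_prime h (hn₀ n hnn₀) (by omega) ha hf8.le
  have hfa := h.f_le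
  set κ := Real.sqrt (a * f) with hκ
  have hκsq : κ ^ 2 = a * f := Real.sq_sqrt (by positivity)
  have ha' : (a : ℝ) ≤ n := by exact_mod_cast ha
  have hfa' : (f : ℝ) ≤ a := by exact_mod_cast hfa
  have hf3' : (3 : ℝ) ≤ f := by exact_mod_cast hf3
  have ha3' : (3 : ℝ) ≤ a := by linarith
  have hκ1 : 1 ≤ κ := by
    rw [hκ, Real.one_le_sqrt]
    nlinarith
  have hκn : κ ≤ n := by
    rw [hκ]
    apply Real.sqrt_le_iff.mpr
    refine ⟨hn0.le, ?_⟩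
    nlinarith
  -- log n ≥ 1
  have hlog1 : 1 ≤ Real.log n := by
    rw [Real.le_log_iff_exp_le hn0]
    have := Real.exp_one_lt_d9
    linarith
  have hL0 : 0 ≤ Real.log (6 * κ) := Real.log_nonneg (by linarith)
  have hL : Real.log (6 * κ) ≤ 3 * Real.log n := by
    have h1 : 6 * κ ≤ (n : ℝ) ^ 3 := by
      have h2 : (9 : ℝ) ≤ (n : ℝ) ^ 2 := by nlinarith
      have h3 : (n : ℝ) ^ 3 = n ^ 2 * n := by ring
      rw [h3]
      nlinarith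
    have h4 := Real.log_le_log (by linarith : (0 : ℝ) < 6 * κ) h1
    rw [Real.log_pow] at h4
    exact_mod_cast h4
  -- the main estimate
  have hyf : y ^ f ≤ y ^ 3 := pow_le_pow_of_le_one hy0.le hy1 hf3
  set ℓ := Real.log n with hℓ
  set L := Real.log (6 * κ) with hLdef
  set X : ℝ := (2304 ^ 3 * 64 * 27) * a * ℓ ^ 3 * (n : ℝ) ^ (-(3 / 2) : ℝ) with hX
  have hX0 : 0 ≤ X := by positivity
  have hkey : y ^ 3 ≤ X := by
    apply le_of_sq_le_sq ?_ hX0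
    have h1 : (y ^ 3) ^ 2 = (y ^ 2) ^ 3 := by ring
    have h2 : (y ^ 2) ^ 3 ≤ (2304 * κ * L / n) ^ 3 := pow_le_pow_left₀ (by positivity) hy2 3
    have h3 : X ^ 2 = (2304 ^ 3 * 64 * 27) ^ 2 * a ^ 2 * ℓ ^ 6 * (n ^ 3 : ℝ)⁻¹ := by
      rw [hX, mul_pow, asm_n_rpow _ hn0]
      ring
    rw [h1, h3]
    refine h2.trans ?_
    rw [div_pow, div_eq_mul_inv]
    apply mul_le_mul_of_nonneg_right _ (by positivity)
    -- (2304 κ L)^3 ≤ D^2 a^2 ℓ^6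
    have h4 : κ ^ 3 ≤ 64 * a ^ 2 * ℓ ^ 2 := by
      have h5 : κ ^ 3 ≤ κ ^ 4 := pow_le_pow_right₀ hκ1 (by norm_num)
      have h6 : κ ^ 4 = (a * f) ^ 2 := by rw [← hκsq]; ring
      have h7 : ((a : ℝ) * f) ^ 2 ≤ (a * (8 * ℓ)) ^ 2 := by
        apply pow_le_pow_left₀ (by positivity)
        exact mul_le_mul_of_nonneg_left hf8.le (by positivity)
      calc κ ^ 3 ≤ κ ^ 4 := h5
        _ = (a * f) ^ 2 := h6
        _ ≤ (a * (8 * ℓ)) ^ 2 := h7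
        _ = _ := by ring
    have h8 : L ^ 3 ≤ 27 * ℓ ^ 3 := by
      calc L ^ 3 ≤ (3 * ℓ) ^ 3 := pow_le_pow_left₀ hL0 hL 3
        _ = _ := by ring
    have h9 : ℓ ^ 5 ≤ ℓ ^ 6 := pow_le_pow_right₀ hlog1 (by norm_num)
    calc (2304 * κ * L) ^ 3 = 2304 ^ 3 * (κ ^ 3 * L ^ 3) := by ring
      _ ≤ 2304 ^ 3 * ((64 * a ^ 2 * ℓ ^ 2) * (27 * ℓ ^ 3)) := by
          apply mul_le_mul_of_nonneg_left _ (by positivity)
          exact mul_le_mul h4 h8 (by positivity) (by positivity)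
      _ = (2304 ^ 3 * 64 * 27) * a ^ 2 * ℓ ^ 5 := by ring
      _ ≤ (2304 ^ 3 * 64 * 27) * a ^ 2 * ℓ ^ 6 :=
          mul_le_mul_of_nonneg_left h9 (by positivity)
      _ ≤ (2304 ^ 3 * 64 * 27) ^ 2 * a ^ 2 * ℓ ^ 6 := by
          apply mul_le_mul_of_nonneg_right _ (by positivity)
          apply mul_le_mul_of_nonneg_right _ (by positivity)
          norm_num
  calc B ≤ 2 * y ^ f := hBy
    _ ≤ 2 * X := by linarith
    _ = _ := by rw [hX]; ring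

/-- `f = 2`: with `κ = √(2 a)`, `B ≤ 2 (3 / (2p)) ^ 2 ≤ 4608 κ log (6 κ) / n`, and
`κ log (6 κ) ≤ ε a` for `a` large. -/
theorem bnd_two {ε : ℝ} (hε : 0 < ε) : ∃ Δ n₀ : ℕ, 3 ≤ Δ ∧ ∀ {n a : ℕ} {B : ℝ}, n₀ ≤ n →
    Bnd n a 2 B → a ≤ n → Δ ≤ a → B ≤ ε * a / n := by
  obtain ⟨n₀, hn₀⟩ := exists_prime_kappa
  have hc : 0 < ε / (4608 * 12) := by positivity
  have hlo := Real.isLittleO_log_id_atTop.def hc
  obtain ⟨X0, hX0⟩ := Filter.eventually_atTop.mp hlo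
  set Δ : ℕ := ⌈X0 ^ 2⌉₊ + 3 with hΔ
  refine ⟨Δ, max n₀ 3, by omega, ?_⟩
  intro n a B hn h ha hΔa
  have hnn₀ : n₀ ≤ n := le_trans (le_max_left _ _) hn
  have hn3 : 3 ≤ n := le_trans (le_max_right _ _) hn
  have hn3' : (3 : ℝ) ≤ n := by exact_mod_cast hn3
  have hn0 : (0 : ℝ) < n := by linarith
  have hlog1 : 1 ≤ Real.log n := by
    rw [Real.le_log_iff_exp_le hn0]
    have := Real.exp_one_lt_d9
    linarith
  have hf8 : ((2 : ℕ) : ℝ) ≤ 8 * Real.log n := by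
    push_cast
    linarith
  obtain ⟨y, hy0, hy1, hBy, hy2⟩ := asm_prime h (hn₀ n hnn₀) (by omega) ha hf8
  set κ := Real.sqrt (a * (2 : ℕ)) with hκ
  have hκsq : κ ^ 2 = a * (2 : ℕ) := Real.sq_sqrt (by positivity)
  have hκ0 : 0 ≤ κ := Real.sqrt_nonneg _
  have haΔ : (X0 ^ 2 : ℝ) ≤ a := by
    have h1 : X0 ^ 2 ≤ (⌈X0 ^ 2⌉₊ : ℝ) := Nat.le_ceil _
    have h2 : ⌈X0 ^ 2⌉₊ ≤ a := by omega
    have h3 : (⌈X0 ^ 2⌉₊ : ℝ) ≤ a := by exact_mod_cast h2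
    linarith
  have hκX : X0 ≤ 6 * κ := by
    have h1 : X0 ≤ κ := by
      rw [hκ]
      apply Real.le_sqrt_of_sq_le
      push_cast
      have : (0 : ℝ) ≤ a := Nat.cast_nonneg a
      linarith
    linarith
  have hlog := hX0 (6 * κ) hκX
  have hL : Real.log (6 * κ) ≤ ε / (4608 * 12) * (6 * κ) := by
    have h1 : |6 * κ| = 6 * κ := abs_of_nonneg (by linarith)
    simp only [Real.norm_eq_abs, id_eq] at hlog
    rw [h1] at hlog
    exact (le_abs_self _).trans hlog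
  have hκ2 : κ * Real.log (6 * κ) ≤ ε / 4608 * a := by
    calc κ * Real.log (6 * κ) ≤ κ * (ε / (4608 * 12) * (6 * κ)) :=
          mul_le_mul_of_nonneg_left hL hκ0
      _ = ε / (4608 * 2) * κ ^ 2 := by ring
      _ = ε / 4608 * a := by rw [hκsq]; push_cast; ring
  calc B ≤ 2 * y ^ 2 := hBy
    _ ≤ 2 * (2304 * κ * Real.log (6 * κ) / n) := by linarith
    _ = 4608 * (κ * Real.log (6 * κ)) / n := by ring
    _ ≤ 4608 * (ε / 4608 * a) / n := by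
        apply div_le_div_of_nonneg_right _ hn0.le
        linarith
    _ = ε * a / n := by ring

end Pool.MP43e44c.OD
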