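import Pool.Agent.H.MP_43e44c_ag.OD.Asm

/-!
Numerical assembly, summary.
-/

set_option autoImplicit false

open Finset Module

namespace Pool.MP43e44c.OD

theorem Asm2_log : Filter.Tendsto (fun n : ℕ => (Real.log n) ^ 3 * (n : ℝ) ^ (-(1 / 2) : ℝ))
    Filter.atTop (nhds 0) := by
  have h := (isLittleO_log_rpow_rpow_atTop (3 : ℝ) (show (0 : ℝ) < 1 / 2 by norm_num)).tendsto_div_nhds_zero
  have h2 := h.comp (tendsto_natCast_atTop_atTop (R := ℝ))
  refine h2.congr fun n => ?_
  simp only [Function.comp]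
  rw [Real.rpow_neg (Nat.cast_nonneg n), div_eq_mul_inv]
  congr 1
  exact_mod_cast Real.rpow_natCast (Real.log (n : ℝ)) 3

/-- Add up: `∑ a_i ≤ n`, at most `n` components. -/
theorem assemble {C₁ : ℝ} (hC₁ : 0 < C₁) {C₂ c₂ : ℕ → ℝ} (hC₂ : ∀ Δ, 0 < C₂ Δ)
    (hc₂ : ∀ Δ, 0 < c₂ Δ) {η : ℝ} (hη : 0 < η) :
    ∃ n₀ : ℕ, ∀ n : ℕ, n₀ ≤ n → ∀ {I : Type} [Fintype I] (a f : I → ℕ) (B : I → ℝ) (t : ℕ),
      (∑ i, a i ≤ n) → (∀ i, Bnd n (a i) (f i) (B i)) →
      (∀ i, a i = 2 → B i ≤ C₁ / n) → ({i | a i = 2}.ncard ≤ t) →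
      (∀ (Δ : ℕ) (i : I), 3 ≤ a i → a i ≤ Δ → B i ≤ C₂ Δ * (n : ℝ) ^ (-(1 + c₂ Δ))) →
      ∑ i, B i ≤ C₁ * t / n + η := by
  classical
  have hε : 0 < η / 4 := by positivity
  obtain ⟨Δ, n₁, hΔ3, hΔ⟩ := bnd_two hε
  obtain ⟨C, hC, n₂, hmid⟩ := bnd_mid
  have t1 : Filter.Tendsto (fun n : ℕ => C₂ Δ * (n : ℝ) ^ (-(c₂ Δ))) Filter.atTop (nhds 0) := by
    have h := ((tendsto_rpow_neg_atTop (hc₂ Δ)).comp
      (tendsto_natCast_atTop_atTop (R := ℝ))).const_mul (C₂ Δ)
    rw [mul_zero] at h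
    exact h
  have t2 : Filter.Tendsto (fun n : ℕ => C * ((Real.log n) ^ 3 * (n : ℝ) ^ (-(1 / 2) : ℝ)))
      Filter.atTop (nhds 0) := by
    have h := Asm2_log.const_mul C
    rw [mul_zero] at h
    exact h
  have t3 : Filter.Tendsto (fun n : ℕ => 1 / (n : ℝ)) Filter.atTop (nhds 0) :=
    tendsto_one_div_atTop_nhds_zero_nat
  obtain ⟨N, hN⟩ := Filter.eventually_atTop.mp ((t1.eventually_le_const hε).and
    ((t2.eventually_le_const hε).and (t3.eventually_le_const hε)))
  refine ⟨N + n₁ + n₂ + 2, fun n hn I _ a f B t hsum hB h2 ht hsm => ?_⟩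
  obtain ⟨e1, e2, e3⟩ := hN n (by omega)
  have hn2 : 2 ≤ n := by omega
  have hn0 : (0 : ℝ) < n := by exact_mod_cast (by omega : 0 < n)
  set L : ℝ := (Real.log n) ^ 3 * (n : ℝ) ^ (-(3 / 2) : ℝ) with hL
  have hlog : 0 ≤ Real.log n := Real.log_natCast_nonneg n
  have hL0 : 0 ≤ L := by positivity
  set D : ℝ := C₂ Δ * (n : ℝ) ^ (-(1 + c₂ Δ)) with hD
  have hD0 : 0 ≤ D := mul_nonneg (hC₂ Δ).le (Real.rpow_nonneg hn0.le _)
  set E : ℝ := (n : ℝ) ^ (-2 : ℝ) with hE
  have hE0 : 0 ≤ E := Real.rpow_nonneg hn0.le _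
  have hale : ∀ i, a i ≤ n := fun i =>
    (Finset.single_le_sum (f := a) (fun j _ => Nat.zero_le _) (Finset.mem_univ i)).trans hsum
  -- the bound of one component
  have hone : ∀ i, B i ≤ (if a i = 2 then C₁ / n else 0) +
      (η / 4 / n * a i + C * L * a i) + (D + E) := by
    intro i
    have hb := hB i
    have ha0 : (0 : ℝ) ≤ a i := Nat.cast_nonneg _
    have q1 : 0 ≤ η / 4 / n * a i := by positivity
    have q2 : 0 ≤ C * L * a i := by positivity
    have q3 : 0 ≤ (if a i = 2 then C₁ / (n : ℝ) else 0) := by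
      split_ifs
      · positivity
      · exact le_rfl
    by_cases ha2 : a i = 2
    · have h := h2 i ha2
      rw [if_pos ha2]
      linarith
    · have ha3 : 3 ≤ a i := by
        have := hb.two_le
        have := hb.f_le
        omega
      rcases Nat.lt_or_ge (f i) 3 with hf | hf
      · have hf2 : f i = 2 := by
          have := hb.two_le
          omega
        rcases Nat.lt_or_ge (a i) Δ with hlt | hge
        · have h := hsm Δ i ha3 hlt.le
          have h' : B i ≤ D := h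
          linarith
        · have hb' : Bnd n (a i) 2 (B i) := by rw [← hf2]; exact hb
          have h := hΔ (by omega) hb' (hale i) hge
          have h' : η / 4 * (a i : ℝ) / n = η / 4 / n * a i := by ring
          rw [h'] at h
          linarith
      · by_cases hfl : (f i : ℝ) < 8 * Real.log n
        · have h := hmid (by omega) hb (hale i) hf hfl
          have h' : C * (a i : ℝ) * (Real.log n) ^ 3 * (n : ℝ) ^ (-(3 / 2) : ℝ) = C * L * a i := by
            rw [hL]; ring
          rw [h'] at h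
          linarith
        · have h := bnd_large hb hn2 (not_lt.mp hfl)
          have h' : B i ≤ E := h
          linarith
  -- sums
  have hsumR : (∑ i, (a i : ℝ)) ≤ n := by exact_mod_cast hsum
  have hcard : (Fintype.card I : ℝ) ≤ n := by
    have h : Fintype.card I ≤ ∑ i, a i := by
      rw [← Finset.card_univ, Finset.card_eq_sum_ones]
      refine Finset.sum_le_sum fun i _ => ?_
      have := (hB i).two_le
      have := (hB i).f_le
      omega
    exact_mod_cast h.trans hsum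
  have s1 : ∑ i, (if a i = 2 then C₁ / (n : ℝ) else 0) ≤ C₁ * t / n := by
    rw [← Finset.sum_filter, Finset.sum_const, nsmul_eq_mul]
    have h : ((Finset.univ.filter fun i => a i = 2).card : ℝ) ≤ t := by
      have h5 : (Finset.univ.filter fun i => a i = 2).card = {i | a i = 2}.ncard := by
        rw [← Set.ncard_coe_finset]
        congr 1
        ext i
        simp
      rw [h5]
      exact_mod_cast ht
    calc ((Finset.univ.filter fun i => a i = 2).card : ℝ) * (C₁ / n) ≤ t * (C₁ / n) :=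
          mul_le_mul_of_nonneg_right h (by positivity)
      _ = C₁ * t / n := by ring
  have s2 : ∑ i, (η / 4 / n * (a i : ℝ) + C * L * a i) ≤ η / 4 + η / 4 := by
    rw [Finset.sum_add_distrib, ← Finset.mul_sum, ← Finset.mul_sum]
    have h5 : η / 4 / n * ∑ i, (a i : ℝ) ≤ η / 4 := by
      calc η / 4 / n * ∑ i, (a i : ℝ) ≤ η / 4 / n * n :=
            mul_le_mul_of_nonneg_left hsumR (by positivity)
        _ = η / 4 := by field_simp
    have h6 : C * L * ∑ i, (a i : ℝ) ≤ η / 4 := by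
      calc C * L * ∑ i, (a i : ℝ) ≤ C * L * n := mul_le_mul_of_nonneg_left hsumR (by positivity)
        _ = C * ((Real.log n) ^ 3 * (n : ℝ) ^ (-(1 / 2) : ℝ)) := by
            have h7 : (n : ℝ) ^ (-(3 / 2) : ℝ) * n = (n : ℝ) ^ (-(1 / 2) : ℝ) := by
              conv_lhs => rw [← Real.rpow_one (n : ℝ), ← Real.rpow_mul hn0.le, one_mul,
                ← Real.rpow_add hn0]
              norm_num
            rw [hL, mul_assoc, mul_assoc, h7]
        _ ≤ η / 4 := e2
    linarith
  have s3 : ∑ _i : I, (D + E) ≤ η / 4 + η / 4 := by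
    rw [Finset.sum_const, Finset.card_univ, nsmul_eq_mul]
    have h5 : (Fintype.card I : ℝ) * (D + E) ≤ n * (D + E) :=
      mul_le_mul_of_nonneg_right hcard (by positivity)
    have h6 : (n : ℝ) * D ≤ η / 4 := by
      have h7 : (n : ℝ) * D = C₂ Δ * (n : ℝ) ^ (-(c₂ Δ)) := by
        have h8 : (n : ℝ) * (n : ℝ) ^ (-(1 + c₂ Δ)) = (n : ℝ) ^ (-(c₂ Δ)) := by
          conv_lhs => rw [← Real.rpow_one (n : ℝ), ← Real.rpow_mul hn0.le, one_mul,
            ← Real.rpow_add hn0]
          congr 1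
          ring
        rw [hD, ← h8]
        ring
      rw [h7]
      exact e1
    have h7 : (n : ℝ) * E ≤ η / 4 := by
      have h8 : (n : ℝ) * E = 1 / n := by
        rw [hE, Real.rpow_neg hn0.le]
        have h9 : (n : ℝ) ^ (2 : ℝ) = (n : ℝ) ^ 2 := by exact_mod_cast Real.rpow_natCast (n : ℝ) 2
        rw [h9]
        field_simp
      rw [h8]
      exact e3
    linarith
  have htot := Finset.sum_le_sum fun i (_ : i ∈ (Finset.univ : Finset I)) => hone i
  rw [Finset.sum_add_distrib, Finset.sum_add_distrib] at htot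
  linarith

end Pool.MP43e44c.OD
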