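import Pool.Agent.H.MP_43e44c_ag.OD.Nil

/-!
The components modulo `p` below a rational component.
-/

set_option autoImplicit false

open Finset Module

namespace Pool.MP43e44c.OD

universe u

variable {O : Type u} [Group O] [Fintype O] {p : ℕ} [Fact p.Prime]

/-- The components modulo `p` below `i`. -/
noncomputable def J (W : WD ℚ O) (P : WD (ZMod p) O) (i : Fin W.m) : Finset (Fin P.m) := by
  classical
  exact univ.filter fun j => Below W P i j

theorem mem_J {W : WD ℚ O} {P : WD (ZMod p) O} {i : Fin W.m} {j : Fin P.m} :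
    j ∈ J W P i ↔ Below W P i j := by
  classical
  unfold J
  simp

theorem Bel_one_ne (P : WD (ZMod p) O) (j : Fin P.m) {N : ℕ} (hN : ¬ p ∣ N) :
    (N : ZMod p) • (1 : Matrix (Fin (P.r j)) (Fin (P.r j)) (P.D j)) ≠ 0 := by
  intro h
  have h1 : (N : ZMod p) ≠ 0 := fun h' => hN ((ZMod.natCast_eq_zero_iff _ _).1 h')
  have h2 := (smul_eq_zero.1 h).resolve_left h1
  have h3 := congrFun (congrFun h2 ⟨0, Nat.pos_of_ne_zero (NeZero.ne (P.r j))⟩)
    ⟨0, Nat.pos_of_ne_zero (NeZero.ne (P.r j))⟩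
  rw [Matrix.one_apply_eq, Matrix.zero_apply] at h3
  exact one_ne_zero h3

theorem Bel_natsmul (N : ℕ) (x : MonoidAlgebra ℤ O) :
    toP p ((N : ℤ) • x) = (N : ZMod p) • toP p x := by
  rw [map_zsmul, ← Int.cast_smul_eq_zsmul (ZMod p), Int.cast_natCast]

theorem Bel_natsmulQ (N : ℕ) (x : MonoidAlgebra ℤ O) :
    toQ ((N : ℤ) • x) = (N : ℚ) • toQ x := by
  rw [map_zsmul, ← Int.cast_smul_eq_zsmul ℚ, Int.cast_natCast]

theorem Bel_sq (W : WD ℚ O) (i : Fin W.m) {N : ℕ} {E : MonoidAlgebra ℤ O}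
    (hEN : toQ E = (N : ℚ) • W.e i) : E * E = (N : ℤ) • E := by
  apply toQ_inj
  rw [map_mul, Bel_natsmulQ, hEN, smul_mul_smul_comm, W.e_mul_self, smul_smul]

/-- The component of `E` is zero or the scalar `N`. -/
theorem Bel_dich (W : WD ℚ O) (P : WD (ZMod p) O) (i : Fin W.m) (j : Fin P.m) {N : ℕ}
    {E : MonoidAlgebra ℤ O} (hE : ∀ x, E * x = x * E)
    (hEN : toQ E = (N : ℚ) • W.e i) :
    P.comp j (toP p E) = 0 ∨ P.comp j (toP p E) = (N : ZMod p) • 1 := by
  obtain ⟨ζ, -, hζ⟩ := P.comp_central j (toP_central p hE)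
  have h1 := congrArg (fun x => P.comp j (toP p x)) (Bel_sq W i hEN)
  simp only [map_mul, Bel_natsmul, map_smul] at h1
  rw [hζ, Matrix.diagonal_mul_diagonal] at h1
  have h2 := congrFun (congrFun h1 ⟨0, Nat.pos_of_ne_zero (NeZero.ne (P.r j))⟩)
    ⟨0, Nat.pos_of_ne_zero (NeZero.ne (P.r j))⟩
  rw [Matrix.diagonal_apply_eq, Matrix.smul_apply, Matrix.diagonal_apply_eq] at h2
  have h3 : (ζ - (N : ZMod p) • 1) * ζ = 0 := by
    rw [sub_mul, h2, smul_mul_assoc, one_mul, sub_self]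
  rcases mul_eq_zero.1 h3 with h4 | h4
  · right
    rw [hζ, sub_eq_zero.1 h4]
    ext a b
    rw [Matrix.smul_apply, Matrix.diagonal_apply, Matrix.one_apply]
    split_ifs
    · rfl
    · rw [smul_zero]
  · left
    rw [hζ, h4]
    exact Matrix.diagonal_zero

/-- Let `toQ E = N • e i`, `E` central, `N` prime to `p`.  `toP p E` is central with
`(toP p E) ^ 2 = N • toP p E` (`toQ_inj`), so its component `j` is a scalar `ζ` with `ζ ^ 2 = N ζ`,
i.e. `ζ = 0` or `ζ = N`.  If `x` is as in `Below`, then `N • x = E * x` (`toQ_inj`), so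
`N • comp j x = comp j E * comp j x` and `comp j E ≠ 0`.  Conversely `E * e i = E`. -/
theorem below_iff (W : WD ℚ O) (P : WD (ZMod p) O) (i : Fin W.m) (j : Fin P.m) {N : ℕ}
    (hN : ¬ p ∣ N) {E : MonoidAlgebra ℤ O} (hE : ∀ x, E * x = x * E)
    (hEN : toQ E = (N : ℚ) • W.e i) :
    Below W P i j ↔ P.comp j (toP p E) = (N : ZMod p) • 1 := by
  constructor
  · rintro ⟨x, hx, hne⟩
    refine (Bel_dich W P i j hE hEN).resolve_left fun h0 => hne ?_
    have h1 : E * x = (N : ℤ) • x := by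
      apply toQ_inj
      rw [map_mul, Bel_natsmulQ, hEN, smul_mul_assoc, W.e_comm, hx]
    have h2 := congrArg (fun x => P.comp j (toP p x)) h1
    simp only [map_mul, Bel_natsmul, map_smul] at h2
    rw [h0, zero_mul] at h2
    have h3 : (N : ZMod p) ≠ 0 := fun h' => hN ((ZMod.natCast_eq_zero_iff _ _).1 h')
    exact (smul_eq_zero.1 h2.symm).resolve_left h3
  · intro h
    refine ⟨E, ?_, ?_⟩
    · rw [hEN, smul_mul_assoc, W.e_mul_self]
    · rw [h]
      exact Bel_one_ne P j hN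

theorem not_below_iff (W : WD ℚ O) (P : WD (ZMod p) O) (i : Fin W.m) (j : Fin P.m) {N : ℕ}
    (hN : ¬ p ∣ N) {E : MonoidAlgebra ℤ O} (hE : ∀ x, E * x = x * E)
    (hEN : toQ E = (N : ℚ) • W.e i) :
    ¬ Below W P i j ↔ P.comp j (toP p E) = 0 := by
  rw [below_iff W P i j hN hE hEN]
  constructor
  · intro h
    exact (Bel_dich W P i j hE hEN).resolve_right h
  · intro h h'
    rw [h] at h'
    exact Bel_one_ne P j hN h'.symm

/-- The product of the elements `toP p E` for two different `i` vanishes. -/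
theorem J_disjoint (hp : ¬ p ∣ Fintype.card O) (W : WD ℚ O) (P : WD (ZMod p) O)
    {i i' : Fin W.m} (h : i ≠ i') : Disjoint (J W P i) (J W P i') := by
  rw [Finset.disjoint_left]
  intro j hj hj'
  rw [mem_J] at hj hj'
  obtain ⟨N, hN, E, hE, hEN⟩ := exists_E hp W i
  obtain ⟨N', hN', E', hE', hEN'⟩ := exists_E hp W i'
  rw [below_iff W P i j hN hE hEN] at hj
  rw [below_iff W P i' j hN' hE' hEN'] at hj'
  have h1 : E * E' = 0 := by
    apply toQ_inj
    rw [map_mul, hEN, hEN', smul_mul_smul_comm, W.e_mul_ne h, smul_zero, map_zero]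
  have h2 := congrArg (fun x => P.comp j (toP p x)) h1
  simp only [map_mul, map_zero] at h2
  rw [hj, hj', smul_mul_smul_comm, mul_one, ← Nat.cast_mul] at h2
  refine Bel_one_ne P j (N := N * N') ?_ h2
  intro h3
  rcases (Fact.out : p.Prime).dvd_mul.1 h3 with h4 | h4
  · exact hN h4
  · exact hN' h4

/-- `∑ i, e i = 1`, so with `N = ∏ N_i`, `∑ i, (N / N_i) • E_i = N • 1`. -/
theorem exists_mem_J (hp : ¬ p ∣ Fintype.card O) (W : WD ℚ O) (P : WD (ZMod p) O)
    (j : Fin P.m) : ∃ i, j ∈ J W P i := by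
  classical
  by_contra hne
  push Not at hne
  choose N hN E hE hEN using fun i => exists_E hp W i
  have h0 : ∀ i, P.comp j (toP p (E i)) = 0 := by
    intro i
    rw [← not_below_iff W P i j (hN i) (hE i) (hEN i), ← mem_J]
    exact hne i
  have h1 : ∑ i, ((∏ k ∈ univ.erase i, N k : ℕ) : ℤ) • E i = ((∏ k, N k : ℕ) : ℤ) • 1 := by
    apply toQ_inj
    rw [map_sum, Bel_natsmulQ, map_one, ← W.sum_e, smul_sum]
    refine sum_congr rfl fun i _ => ?_
    rw [Bel_natsmulQ, hEN, smul_smul, ← Nat.cast_mul, mul_comm, mul_prod_erase univ N (mem_univ i)]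
  have h2 := congrArg (fun x => P.comp j (toP p x)) h1
  simp only [map_sum, Bel_natsmul, map_smul, map_one, h0, smul_zero, sum_const_zero] at h2
  refine Bel_one_ne P j (N := ∏ k, N k) ?_ h2.symm
  intro h3
  rw [Prime.dvd_finsetProd_iff (Fact.out : p.Prime).prime] at h3
  obtain ⟨i, -, h4⟩ := h3
  exact hN i h4

end Pool.MP43e44c.OD
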