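import Pool.Agent.H.MP_43e44c_ag.OD.Pack

/-!
Lattice points in subspaces over a division ring.
-/

set_option autoImplicit false

open Finset Module

namespace Pool.MP43e44c.OD

section

variable {r δ : ℕ} {D : Type*} [DivisionRing D] [Algebra ℚ D] [Module.Finite ℚ D]
  {κ : Type*} [Fintype κ]
  (j : (Fin r → D) →ₗ[ℚ] EuclideanSpace ℝ κ) (L : AddSubgroup (Fin r → D))

/-- The lattice points of a subspace in a ball. -/
def pts (S : Submodule D (Fin r → D)) (R : ℝ) : Set (Fin r → D) :=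
  {x | x ∈ L ∧ x ∈ S ∧ ‖j x‖ ≤ R}

omit [Fintype κ] in
/-- The real span of the image of a subspace. -/
theorem CntA_span (hD : finrank ℚ D = δ) {S : Submodule D (Fin r → D)} {m : ℕ}
    (hS : finrank D S ≤ m) :
    ∃ E : Submodule ℝ (EuclideanSpace ℝ κ), finrank ℝ E ≤ m * δ ∧ ∀ x ∈ S, j x ∈ E := by
  classical
  have h1 : finrank ℚ D * finrank D S = finrank ℚ S := Module.finrank_mul_finrank ℚ D S
  have hfin : Module.Finite ℚ S := Module.Finite.trans D S
  let b := Module.finBasis ℚ S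
  refine ⟨Submodule.span ℝ (Set.range fun i => j (b i : Fin r → D)), ?_, ?_⟩
  · have h2 := finrank_range_le_card (R := ℝ) fun i => j (b i : Fin r → D)
    refine h2.trans ?_
    rw [Fintype.card_fin, ← h1, hD, mul_comm]
    exact Nat.mul_le_mul_right _ hS
  · intro x hx
    have h3 : (⟨x, hx⟩ : S) = ∑ i, b.repr ⟨x, hx⟩ i • b i := (b.sum_repr ⟨x, hx⟩).symm
    have h4 : x = ∑ i, b.repr ⟨x, hx⟩ i • (b i : Fin r → D) := by
      have h5 := congrArg S.subtype h3
      rw [map_sum] at h5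
      exact h5
    rw [h4, map_sum]
    refine Submodule.sum_mem _ fun i _ => ?_
    rw [map_smul, ← Rat.cast_smul_eq_qsmul ℝ]
    exact Submodule.smul_mem _ _ (Submodule.subset_span ⟨i, rfl⟩)

/-- The real span of `j '' S` has dimension at most `m * δ` (it is spanned by the images of a
`ℚ`-basis of `S`, `Module.finrank_mul_finrank`); `pack`.  The images `j x`, `x ∈ T`, are pairwise
different as `s > 0`. -/
theorem card_sep_le (hD : finrank ℚ D = δ) {S : Submodule D (Fin r → D)} {m : ℕ}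
    (hS : finrank D S ≤ m) {s R : ℝ} (hs : 0 < s) (hR : 0 ≤ R) (T : Finset (Fin r → D))
    (hT : ∀ x ∈ T, x ∈ S ∧ ‖j x‖ ≤ R)
    (hsep : ∀ x ∈ T, ∀ y ∈ T, x ≠ y → s ≤ ‖j x - j y‖) :
    (T.card : ℝ) ≤ (1 + 2 * R / s) ^ (m * δ) := by
  classical
  obtain ⟨E, hE, hSE⟩ := CntA_span j hD hS
  have hinj : Set.InjOn j T := by
    intro x hx y hy hxy
    by_contra hne
    have h1 := hsep x hx y hy hne
    rw [hxy, sub_self, norm_zero] at h1
    linarith
  rw [← card_image_of_injOn hinj]
  refine pack E hE hs hR _ ?_ ?_ ?_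
  · intro z hz
    obtain ⟨x, hx, rfl⟩ := mem_image.1 hz
    exact hSE x (hT x hx).1
  · intro z hz
    obtain ⟨x, hx, rfl⟩ := mem_image.1 hz
    exact (hT x hx).2
  · intro z hz w hw hzw
    obtain ⟨x, hx, rfl⟩ := mem_image.1 hz
    obtain ⟨y, hy, rfl⟩ := mem_image.1 hw
    exact hsep x hx y hy fun h => hzw (by rw [h])

variable {j L} (hL : ∀ x ∈ L, x ≠ 0 → 1 ≤ ‖j x‖)
include hL

theorem CntA_finset (hD : finrank ℚ D = δ) {S : Submodule D (Fin r → D)} {m : ℕ}
    (hS : finrank D S ≤ m) {R : ℝ} (hR : 0 ≤ R) (T : Finset (Fin r → D))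
    (hT : (T : Set (Fin r → D)) ⊆ pts j L S R) : (T.card : ℝ) ≤ (1 + 2 * R) ^ (m * δ) := by
  have h1 := card_sep_le j hD hS one_pos hR T (fun x hx => ⟨(hT hx).2.1, (hT hx).2.2⟩)
    (fun x hx y hy hxy => by
      rw [← map_sub]
      exact hL _ (L.sub_mem (hT hx).1 (hT hy).1) (sub_ne_zero.2 hxy))
  simpa using h1

/-- `card_sep_le` with `s = 1` (differences of elements of `L` are in `L`): every finite subset of
`pts` has at most that many elements. -/
theorem pts_finite (S : Submodule D (Fin r → D)) (R : ℝ) : (pts j L S R).Finite := by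
  by_contra hinf
  have hinf : (pts j L S R).Infinite := hinf
  obtain ⟨x, hx⟩ := hinf.nonempty
  have hR : 0 ≤ R := (norm_nonneg _).trans hx.2.2
  obtain ⟨n, hn⟩ := exists_nat_gt ((1 + 2 * R) ^ (finrank D S * finrank ℚ D))
  obtain ⟨T, hT, hTc⟩ := hinf.exists_subset_card_eq n
  have h1 := CntA_finset hL rfl le_rfl hR T hT
  rw [hTc] at h1
  linarith

theorem pts_card_le (hD : finrank ℚ D = δ) {S : Submodule D (Fin r → D)} {m : ℕ}
    (hS : finrank D S ≤ m) {R : ℝ} (hR : 0 ≤ R) :
    ((pts j L S R).ncard : ℝ) ≤ (1 + 2 * R) ^ (m * δ) := by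
  rw [Set.ncard_eq_toFinset_card _ (pts_finite hL S R)]
  exact CntA_finset hL hD hS hR _ (by simp)

/-- PROOF. Let `T` be a maximal subset of `pts j L S R` whose elements have pairwise distance `≥ s`
(`‖j x - j y‖`); every `y ∈ pts j L S R` has distance `< s` to some `x ∈ T`, and then
`y - x ∈ pts j L S s`.  So `card pts R ≤ card T * card pts s`. -/
theorem pts_local (hD : finrank ℚ D = δ) {S : Submodule D (Fin r → D)} {m : ℕ}
    (hS : finrank D S ≤ m) {s R : ℝ} (hs : 0 < s) (hR : 0 ≤ R) :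
    ((pts j L S R).ncard : ℝ) ≤ (1 + 2 * R / s) ^ (m * δ) * (pts j L S s).ncard := by
  classical
  rw [Set.ncard_eq_toFinset_card _ (pts_finite hL S R),
    Set.ncard_eq_toFinset_card _ (pts_finite hL S s)]
  set A := (pts_finite hL S R).toFinset with hA
  set B := (pts_finite hL S s).toFinset with hB
  let Q : Finset (Finset (Fin r → D)) :=
    A.powerset.filter fun T => ∀ x ∈ T, ∀ y ∈ T, x ≠ y → s ≤ ‖j x - j y‖
  have hQ : Q.Nonempty := ⟨∅, by simp [Q]⟩
  obtain ⟨T, hTQ, hTmax⟩ := exists_max_image Q Finset.card hQ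
  have hTA : T ⊆ A := mem_powerset.1 (mem_filter.1 hTQ).1
  have hTsep := (mem_filter.1 hTQ).2
  have hmemA : ∀ x ∈ A, x ∈ L ∧ x ∈ S ∧ ‖j x‖ ≤ R := fun x hx => by
    rw [hA, Set.Finite.mem_toFinset] at hx
    exact hx
  have hcov : ∀ y ∈ A, ∃ x ∈ T, ‖j y - j x‖ < s := by
    intro y hy
    by_contra hcon
    push Not at hcon
    have hyT : y ∉ T := by
      intro h
      have := hcon y h
      rw [sub_self, norm_zero] at this
      linarith
    have h1 : insert y T ∈ Q := by
      refine mem_filter.2 ⟨mem_powerset.2 (insert_subset hy hTA), ?_⟩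
      intro x hx z hz hxz
      rcases mem_insert.1 hx with rfl | hx'
      · rcases mem_insert.1 hz with rfl | hz'
        · exact absurd rfl hxz
        · exact hcon z hz'
      · rcases mem_insert.1 hz with rfl | hz'
        · rw [norm_sub_rev]
          exact hcon x hx'
        · exact hTsep x hx' z hz' hxz
    have h2 := hTmax _ h1
    rw [card_insert_of_notMem hyT] at h2
    omega
  choose! c hcT hcs using hcov
  have hTc : (T.card : ℝ) ≤ (1 + 2 * R / s) ^ (m * δ) :=
    card_sep_le j hD hS hs hR T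
      (fun x hx => ⟨(hmemA x (hTA hx)).2.1, (hmemA x (hTA hx)).2.2⟩) hTsep
  have h3 : A.card ≤ (T ×ˢ B).card := by
    refine card_le_card_of_injOn (fun y => (c y, y - c y)) ?_ ?_
    · intro y hy
      have hy' : y ∈ A := hy
      have h4 := hmemA y hy'
      have h5 := hmemA (c y) (hTA (hcT y hy'))
      refine Finset.mem_coe.2 (mem_product.2 ⟨hcT y hy', ?_⟩)
      rw [hB, Set.Finite.mem_toFinset]
      refine ⟨L.sub_mem h4.1 h5.1, S.sub_mem h4.2.1 h5.2.1, ?_⟩
      rw [map_sub]
      exact (hcs y hy').le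
    · intro y _ z _ hyz
      simp only [Prod.mk.injEq] at hyz
      have h6 := hyz.2
      rw [hyz.1] at h6
      exact sub_left_injective h6
  rw [card_product] at h3
  calc (A.card : ℝ) ≤ (T.card : ℝ) * B.card := by exact_mod_cast h3
    _ ≤ _ := by gcongr

/-- PROOF. Greedy choice: for `l < m` let `y_1, …, y_l ∈ pts j L S s` be linearly independent over `D`;
their span `S'` has dimension `l ≤ m - 1`, so `pts j L S' s` has at most
`(1 + 2 s) ^ ((m - 1) * δ)` elements (`pts_card_le`, monotone in `l` since `1 + 2 s ≥ 1`), so there is an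
element of `pts j L S s` outside of `S'`. -/
theorem pts_span (hD : finrank ℚ D = δ) {S : Submodule D (Fin r → D)} {m : ℕ} (hm : 1 ≤ m)
    (hS : finrank D S = m) {s : ℝ} (hs : 0 < s)
    (h : (1 + 2 * s) ^ ((m - 1) * δ) < ((pts j L S s).ncard : ℝ)) :
    ∃ y : Fin m → (Fin r → D), (∀ l, y l ∈ L ∧ ‖j (y l)‖ ≤ s) ∧
      Submodule.span D (Set.range y) = S := by
  classical
  have h1 : ∀ l : ℕ, l ≤ m → ∃ y : Fin l → (Fin r → D), (∀ i, y i ∈ pts j L S s) ∧
      LinearIndependent D y := by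
    intro l
    induction l with
    | zero => exact fun _ => ⟨Fin.elim0, fun i => i.elim0, linearIndependent_empty_type⟩
    | succ l ih =>
      intro hl
      obtain ⟨y, hy, hli⟩ := ih (by omega)
      set S' := Submodule.span D (Set.range y) with hS'
      have h2 : finrank D S' ≤ l := by
        have := finrank_range_le_card (R := D) y
        rwa [Fintype.card_fin] at this
      have h3 := pts_card_le hL hD h2 hs.le
      have h4 : (1 + 2 * s) ^ (l * δ) ≤ (1 + 2 * s) ^ ((m - 1) * δ) := by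
        refine pow_le_pow_right₀ (by linarith) (Nat.mul_le_mul_right _ (by omega))
      have h5 : (pts j L S' s).ncard < (pts j L S s).ncard := by
        have : ((pts j L S' s).ncard : ℝ) < ((pts j L S s).ncard : ℝ) := by linarith
        exact_mod_cast this
      obtain ⟨x, hx, hx'⟩ := Set.exists_mem_notMem_of_ncard_lt_ncard h5 (pts_finite hL S' s)
      have hxS' : x ∉ S' := fun h6 => hx' ⟨hx.1, h6, hx.2.2⟩
      refine ⟨Fin.snoc y x, ?_, ?_⟩
      · intro i
        refine Fin.lastCases ?_ (fun i => ?_) i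
        · rw [Fin.snoc_last]
          exact hx
        · rw [Fin.snoc_castSucc]
          exact hy i
      · exact linearIndependent_finSnoc.2 ⟨hli, hxS'⟩
  obtain ⟨y, hy, hli⟩ := h1 m le_rfl
  refine ⟨y, fun l => ⟨(hy l).1, (hy l).2.2⟩, ?_⟩
  refine Submodule.eq_of_le_of_finrank_eq ?_ ?_
  · rw [Submodule.span_le]
    rintro _ ⟨i, rfl⟩
    exact (hy i).2.1
  · rw [finrank_span_eq_card hli, Fintype.card_fin, hS]

/-- The rich subspaces are determined by `m`-tuples of elements of `pts j L ⊤ s`. -/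
theorem rich_card (hD : finrank ℚ D = δ) {m : ℕ} (hm : 1 ≤ m) {s : ℝ} (hs : 0 < s) :
    {S : Submodule D (Fin r → D) | finrank D S = m ∧
      (1 + 2 * s) ^ ((m - 1) * δ) < ((pts j L S s).ncard : ℝ)}.Finite ∧
    (({S : Submodule D (Fin r → D) | finrank D S = m ∧
      (1 + 2 * s) ^ ((m - 1) * δ) < ((pts j L S s).ncard : ℝ)}.ncard : ℕ) : ℝ)
      ≤ (1 + 2 * s) ^ (r * δ * m) := by
  classical
  set X : Set (Submodule D (Fin r → D)) := {S | finrank D S = m ∧
      (1 + 2 * s) ^ ((m - 1) * δ) < ((pts j L S s).ncard : ℝ)} with hX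
  have h1 : ∀ S ∈ X, ∃ y : Fin m → (Fin r → D), (∀ l, y l ∈ L ∧ ‖j (y l)‖ ≤ s) ∧
      Submodule.span D (Set.range y) = S := fun S hS => pts_span hL hD hm hS.1 hs hS.2
  choose! c hc1 hc2 using h1
  let A := (pts_finite hL (⊤ : Submodule D (Fin r → D)) s).toFinset
  let Y : Finset (Fin m → (Fin r → D)) := Fintype.piFinset fun _ => A
  have hmaps : Set.MapsTo c X Y := by
    intro S hS
    refine Finset.mem_coe.2 (Fintype.mem_piFinset.2 fun l => ?_)
    rw [Set.Finite.mem_toFinset]
    exact ⟨(hc1 S hS l).1, Submodule.mem_top, (hc1 S hS l).2⟩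
  have hinj : Set.InjOn c X := by
    intro S hS T hT hST
    rw [← hc2 S hS, ← hc2 T hT, hST]
  have hfin : X.Finite := Set.Finite.of_injOn hmaps hinj Y.finite_toSet
  refine ⟨hfin, ?_⟩
  have h2 : X.ncard ≤ Y.card := by
    rw [← Set.ncard_coe_finset]
    exact Set.ncard_le_ncard_of_injOn c hmaps hinj Y.finite_toSet
  have h3 : Y.card = A.card ^ m := by
    rw [Fintype.card_piFinset]
    simp
  have h4 : (A.card : ℝ) ≤ (1 + 2 * s) ^ (r * δ) := by
    have h5 := pts_card_le hL hD (S := ⊤) (m := r) (by rw [finrank_top]; simp) hs.le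
    rwa [Set.ncard_eq_toFinset_card _ (pts_finite hL _ s)] at h5
  calc (X.ncard : ℝ) ≤ (Y.card : ℝ) := by exact_mod_cast h2
    _ = (A.card : ℝ) ^ m := by rw [h3]; push_cast; rfl
    _ ≤ ((1 + 2 * s) ^ (r * δ)) ^ m := by gcongr
    _ = _ := by rw [← pow_mul]

end

end Pool.MP43e44c.OD
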