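import Pool.Agent.H.MP_43e44c_ag.OD.CntA

/-!
The number of dependent tuples of lattice vectors.
-/

set_option autoImplicit false

open Finset Module

namespace Pool.MP43e44c.OD

section

variable {r δ : ℕ} {D : Type*} [DivisionRing D] [Algebra ℚ D] [Module.Finite ℚ D]
  {κ : Type*} [Fintype κ]
  {j : (Fin r → D) →ₗ[ℚ] EuclideanSpace ℝ κ} {L : AddSubgroup (Fin r → D)}

omit [Module.Finite ℚ D] in
theorem CntB_mem {S : Submodule D (Fin r → D)} {R : ℝ} {x : Fin r → D} :
    x ∈ pts j L S R ↔ x ∈ L ∧ x ∈ S ∧ ‖j x‖ ≤ R := Iff.rfl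

/-- The set of tuples of lattice points is finite. -/
theorem CntB_finite (hL : ∀ x ∈ L, x ≠ 0 → 1 ≤ ‖j x‖) (R : ℝ) :
    {y : Fin r → (Fin r → D) | (∀ l, y l ∈ L ∧ ‖j (y l)‖ ≤ R) ∧
      ¬ LinearIndependent D y}.Finite := by
  have h1 : (Set.univ.pi (fun _ : Fin r => pts j L ⊤ R)).Finite :=
    Set.Finite.pi (fun _ => pts_finite hL ⊤ R)
  refine h1.subset ?_
  intro y hy
  rw [Set.mem_univ_pi]
  intro l
  exact ⟨(hy.1 l).1, Submodule.mem_top, (hy.1 l).2⟩

/-- A dependent tuple has an entry in the span of the others. -/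
theorem CntB_dep {y : Fin r → (Fin r → D)} (h : ¬ LinearIndependent D y) :
    ∃ l, y l ∈ Submodule.span D (Set.range (fun i : {i : Fin r // i ≠ l} => y i)) := by
  rw [linearIndependent_iff_notMem_span] at h
  push Not at h
  obtain ⟨l, hl⟩ := h
  refine ⟨l, ?_⟩
  have : y '' (Set.univ \ {l}) = Set.range (fun i : {i : Fin r // i ≠ l} => y i) := by
    ext v
    constructor
    · rintro ⟨i, hi, rfl⟩
      exact ⟨⟨i, hi.2⟩, rfl⟩
    · rintro ⟨i, rfl⟩
      exact ⟨i.1, ⟨Set.mem_univ _, i.2⟩, rfl⟩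
  rwa [this] at hl

theorem CntB_finrank {l : Fin r} (b : {i : Fin r // i ≠ l} → (Fin r → D)) :
    finrank D (Submodule.span D (Set.range b)) ≤ r - 1 := by
  have h := finrank_range_le_card (R := D) b
  have h2 : Fintype.card {i : Fin r // i ≠ l} = r - 1 := by simp
  rw [h2] at h
  exact h

open Classical in
/-- The counting of dependent tuples, with a bound for the number of points in all but finitely
many subspaces. -/
theorem CntB_count (hL : ∀ x ∈ L, x ≠ 0 → 1 ≤ ‖j x‖) (hD : finrank ℚ D = δ) {R : ℝ}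
    (hR : 1 ≤ R) {b1 : ℝ} (hb1 : 0 ≤ b1) {Q : Set (Submodule D (Fin r → D))} (hQ : Q.Finite)
    (hQ1 : ∀ S : Submodule D (Fin r → D), finrank D S ≤ r - 1 → S ∉ Q →
      ((pts j L S R).ncard : ℝ) ≤ b1)
    (hQ2 : ∀ S ∈ Q, finrank D S ≤ r - 1) :
    (({y : Fin r → (Fin r → D) | (∀ l, y l ∈ L ∧ ‖j (y l)‖ ≤ R) ∧
        ¬ LinearIndependent D y}.ncard : ℕ) : ℝ) ≤
      r * (((1 + 2 * R) ^ (r * δ)) ^ (r - 1) * b1) +
        (Q.ncard : ℝ) * ((1 + 2 * R) ^ ((r - 1) * δ)) ^ r := by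
  have hfin := CntB_finite (j := j) (L := L) hL R
  rw [Set.ncard_eq_toFinset_card _ hfin]
  set P : Finset (Fin r → D) := (pts_finite hL ⊤ R).toFinset with hP
  have hPc : (P.card : ℝ) ≤ (1 + 2 * R) ^ (r * δ) := by
    have h := pts_card_le (j := j) hL hD (S := ⊤) (m := r) (by simp) (R := R) (by linarith)
    rwa [Set.ncard_eq_toFinset_card _ (pts_finite hL ⊤ R)] at h
  let PS : Submodule D (Fin r → D) → Finset (Fin r → D) := fun S => (pts_finite hL S R).toFinset
  have hPS : ∀ S, (PS S).card = (pts j L S R).ncard := by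
    intro S
    rw [Set.ncard_eq_toFinset_card _ (pts_finite hL S R)]
  let f : (l : Fin r) → (Fin r → (Fin r → D)) → ({i : Fin r // i ≠ l} → (Fin r → D)) :=
    fun l y i => y i
  let A : Fin r → Finset (Fin r → (Fin r → D)) := fun l =>
    hfin.toFinset.filter (fun y => y l ∈ Submodule.span D (Set.range (f l y)) ∧
      Submodule.span D (Set.range (f l y)) ∉ Q)
  let B : Submodule D (Fin r → D) → Finset (Fin r → (Fin r → D)) := fun S =>
    Fintype.piFinset (fun _ => PS S)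
  have hcover : hfin.toFinset ⊆ (Finset.univ.biUnion A) ∪ (hQ.toFinset.biUnion B) := by
    intro y hy
    have hy' := (Set.Finite.mem_toFinset hfin).1 hy
    obtain ⟨l, hl⟩ := CntB_dep hy'.2
    rw [Finset.mem_union, Finset.mem_biUnion, Finset.mem_biUnion]
    by_cases hS : Submodule.span D (Set.range (f l y)) ∈ Q
    · right
      refine ⟨_, (Set.Finite.mem_toFinset hQ).2 hS, ?_⟩
      rw [Fintype.mem_piFinset]
      intro i
      refine (Set.Finite.mem_toFinset _).2 ⟨(hy'.1 i).1, ?_, (hy'.1 i).2⟩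
      by_cases hi : i = l
      · rw [hi]; exact hl
      · exact Submodule.subset_span ⟨⟨i, hi⟩, rfl⟩
    · left
      exact ⟨l, Finset.mem_univ _, Finset.mem_filter.2 ⟨hy, hl, hS⟩⟩
  have hA : ∀ l, ((A l).card : ℝ) ≤ ((1 + 2 * R) ^ (r * δ)) ^ (r - 1) * b1 := by
    intro l
    have h1 : (A l).card ≤ ⌊b1⌋₊ * ((A l).image (f l)).card := by
      refine Finset.card_le_mul_card_image (A l) ⌊b1⌋₊ ?_
      intro b hb
      obtain ⟨y0, hy0, hy0b⟩ := Finset.mem_image.1 hb
      have hbQ : Submodule.span D (Set.range b) ∉ Q := by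
        rw [← hy0b]
        exact (Finset.mem_filter.1 hy0).2.2
      have h2 : (((A l).filter (fun y => f l y = b)).card : ℝ) ≤ b1 := by
        refine le_trans ?_ (hQ1 (Submodule.span D (Set.range b)) (CntB_finrank b) hbQ)
        rw [← hPS]
        norm_cast
        refine Finset.card_le_card_of_injOn (fun y => y l) ?_ ?_
        · intro y hy
          have hy' := Finset.mem_filter.1 (Finset.mem_coe.1 hy)
          have hy2 := Finset.mem_filter.1 hy'.1
          have hy3 := (Set.Finite.mem_toFinset hfin).1 hy2.1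
          refine (Set.Finite.mem_toFinset _).2 ⟨(hy3.1 l).1, ?_, (hy3.1 l).2⟩
          rw [← hy'.2]
          exact hy2.2.1
        · intro y hy z hz hyz
          have hy' := (Finset.mem_filter.1 (Finset.mem_coe.1 hy)).2
          have hz' := (Finset.mem_filter.1 (Finset.mem_coe.1 hz)).2
          funext i
          by_cases hi : i = l
          · rw [hi]; exact hyz
          · have := congrFun (hy'.trans hz'.symm) ⟨i, hi⟩
            exact this
      exact Nat.le_floor h2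
    have h3 : ((A l).image (f l)).card ≤ P.card ^ (r - 1) := by
      have h4 : (A l).image (f l) ⊆ Fintype.piFinset (fun _ : {i : Fin r // i ≠ l} => P) := by
        intro b hb
        obtain ⟨y0, hy0, hy0b⟩ := Finset.mem_image.1 hb
        rw [Fintype.mem_piFinset]
        intro i
        have hy3 := (Set.Finite.mem_toFinset hfin).1 (Finset.mem_filter.1 hy0).1
        rw [← hy0b]
        exact (Set.Finite.mem_toFinset _).2 ⟨(hy3.1 i).1, Submodule.mem_top, (hy3.1 i).2⟩
      refine (Finset.card_le_card h4).trans ?_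
      rw [Fintype.card_piFinset]
      simp
    have h5 : ((A l).card : ℝ) ≤ (⌊b1⌋₊ : ℝ) * ((P.card : ℝ) ^ (r - 1)) := by
      have : (A l).card ≤ ⌊b1⌋₊ * P.card ^ (r - 1) := h1.trans (Nat.mul_le_mul_left _ h3)
      exact_mod_cast this
    refine h5.trans ?_
    rw [mul_comm]
    refine mul_le_mul ?_ (Nat.floor_le hb1) (Nat.cast_nonneg _) (by positivity)
    exact pow_le_pow_left₀ (Nat.cast_nonneg _) hPc _
  have hB : ∀ S ∈ hQ.toFinset, ((B S).card : ℝ) ≤ ((1 + 2 * R) ^ ((r - 1) * δ)) ^ r := by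
    intro S hS
    have hS' := (Set.Finite.mem_toFinset hQ).1 hS
    have h1 : (B S).card = (PS S).card ^ r := by
      show (Fintype.piFinset (fun _ => PS S)).card = _
      rw [Fintype.card_piFinset]
      simp
    rw [h1, Nat.cast_pow]
    refine pow_le_pow_left₀ (Nat.cast_nonneg _) ?_ _
    rw [hPS]
    exact pts_card_le (j := j) hL hD (hQ2 S hS') (by linarith)
  calc ((hfin.toFinset.card : ℕ) : ℝ)
      ≤ (((Finset.univ.biUnion A) ∪ (hQ.toFinset.biUnion B)).card : ℝ) := by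
        exact_mod_cast Finset.card_le_card hcover
    _ ≤ ((Finset.univ.biUnion A).card : ℝ) + ((hQ.toFinset.biUnion B).card : ℝ) := by
        exact_mod_cast Finset.card_union_le _ _
    _ ≤ (∑ l : Fin r, ((A l).card : ℝ)) + ∑ S ∈ hQ.toFinset, ((B S).card : ℝ) := by
        refine add_le_add ?_ ?_
        · exact_mod_cast Finset.card_biUnion_le
        · exact_mod_cast Finset.card_biUnion_le
    _ ≤ (∑ l : Fin r, ((1 + 2 * R) ^ (r * δ)) ^ (r - 1) * b1) +
          ∑ S ∈ hQ.toFinset, ((1 + 2 * R) ^ ((r - 1) * δ)) ^ r :=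
        add_le_add (Finset.sum_le_sum (fun l _ => hA l)) (Finset.sum_le_sum hB)
    _ = _ := by
        rw [Finset.sum_const, Finset.sum_const, Finset.card_univ, Fintype.card_fin,
          nsmul_eq_mul, nsmul_eq_mul, Set.ncard_eq_toFinset_card _ hQ]

end

/-- PROOF. Let `K = 9 ^ r`, `s = K * R ^ (1 / (r δ))`.

Case `s ≤ R`.  Call a subspace `S` of dimension `r - 1` rich if
`ncard (pts j L S R) > R ^ ((r-1) δ - 1/r)`.  If `S` is rich then by `pts_local` (`m = r - 1`)
`ncard (pts j L S s) > R ^ ((r-1)δ - 1/r) / (3 R / s) ^ ((r-1) δ) = s ^ ((r-1) δ) R ^ (-1/r) 3 ^ (-(r-1)δ)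
≥ (3 s) ^ ((r-2) δ) ≥ (1 + 2 s) ^ ((r-2) δ)` as `s ^ δ ≥ 3 ^ ((2 r - 3) δ) R ^ (1/r)`.  So by `rich_card`
there are at most `(1 + 2 s) ^ (r δ (r-1)) ≤ (3 K) ^ (r δ (r-1)) R ^ (r - 1)` rich subspaces.
A dependent tuple `y` has an `l` such that `y l` is in the span `S` of the other `y`'s
(`finrank S ≤ r - 1`).  If `ncard (pts j L S R) ≤ R ^ ((r-1)δ - 1/r)`, there are for given `l` at most
`(1 + 2 R) ^ (r δ (r-1)) * R ^ ((r-1)δ - 1/r)` such tuples; this includes all `S` with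
`finrank S ≤ r - 2` up to a constant, as `(1 + 2R) ^ ((r-2)δ) ≤ 3 ^ ((r-2) δ) R ^ ((r-1)δ - 1/r)`.
Otherwise `finrank S = r - 1` and `S` is rich, and all `y l` are in `S`: at most
`(3K) ^ (r δ (r-1)) R ^ (r-1) * ((3 R) ^ ((r-1)δ)) ^ r` tuples.  Both are at most
`C R ^ (r ^ 2 δ - δ - 1/r)`, because `r - 1 + r (r-1) δ ≤ r ^ 2 δ - δ - 1/r` for `r, δ ≥ 2`.

Case `s > R`.  Then `R ≤ K ^ 2` (as `R ^ (1 - 1/(r δ)) ≤ K` and `1 - 1/(r δ) ≥ 3/4`), the number of all
tuples is at most `(1 + 2R) ^ (r δ r) ≤ (3 K ^ 2) ^ (r ^ 2 δ)`, and `R ≥ 1`. -/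
theorem count_dep.{u, v} (r δ : ℕ) (hr : 2 ≤ r) (hδ : 2 ≤ δ) : ∃ C : ℝ, 0 < C ∧
    ∀ {D : Type u} [DivisionRing D] [Algebra ℚ D] [Module.Finite ℚ D]
      {κ : Type v} [Fintype κ]
      (j : (Fin r → D) →ₗ[ℚ] EuclideanSpace ℝ κ) (L : AddSubgroup (Fin r → D)),
      finrank ℚ D = δ → (∀ x ∈ L, x ≠ 0 → 1 ≤ ‖j x‖) → ∀ {R : ℝ}, 1 ≤ R →
      {y : Fin r → (Fin r → D) | (∀ l, y l ∈ L ∧ ‖j (y l)‖ ≤ R) ∧
        ¬ LinearIndependent D y}.Finite ∧
      (({y : Fin r → (Fin r → D) | (∀ l, y l ∈ L ∧ ‖j (y l)‖ ≤ R) ∧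
        ¬ LinearIndependent D y}.ncard : ℕ) : ℝ)
        ≤ C * R ^ ((r : ℝ) ^ 2 * δ - δ - 1 / r) := by
  obtain ⟨a, rfl⟩ : ∃ a, r = a + 2 := ⟨r - 2, by omega⟩
  have ha0 : (0 : ℝ) ≤ a := Nat.cast_nonneg a
  have hd2 : (2 : ℝ) ≤ δ := by exact_mod_cast hδ
  have hr1 : a + 2 - 1 = a + 1 := by omega
  have hK1 : (1 : ℝ) ≤ 9 ^ (a + 2) := one_le_pow₀ (by norm_num)
  generalize hKdef : (9 : ℝ) ^ (a + 2) = K at hK1
  have hK0 : (0 : ℝ) < K := by linarith
  refine ⟨(a + 2 : ℕ) * 3 ^ ((a + 2) * δ * (a + 1) + a * δ) +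
      (3 * K) ^ ((a + 2) * δ * (a + 1)) * 3 ^ ((a + 1) * δ * (a + 2)) +
      (a + 2 : ℕ) * (3 * K ^ 2) ^ ((a + 2) * δ * (a + 2)), by positivity, ?_⟩
  intro D _ _ _ κ _ j L hD hL R hR
  refine ⟨CntB_finite hL R, ?_⟩
  have hR0 : (0 : ℝ) < R := by linarith
  have hrcast : ((a + 2 : ℕ) : ℝ) = (a : ℝ) + 2 := by push_cast; ring
  have hinv : 1 / ((a + 2 : ℕ) : ℝ) ≤ 1 := by
    rw [hrcast, div_le_one (by linarith)]
    linarith
  have hinv0 : 0 ≤ 1 / ((a + 2 : ℕ) : ℝ) := by positivity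
  have hE0 : 0 ≤ ((a + 2 : ℕ) : ℝ) ^ 2 * δ - δ - 1 / ((a + 2 : ℕ) : ℝ) := by
    have h1 : (2 : ℝ) ≤ ((a + 2 : ℕ) : ℝ) := by rw [hrcast]; linarith
    have h2 : (4 : ℝ) ≤ ((a + 2 : ℕ) : ℝ) ^ 2 := by nlinarith
    have h3 : (4 : ℝ) * δ ≤ ((a + 2 : ℕ) : ℝ) ^ 2 * δ :=
      mul_le_mul_of_nonneg_right h2 (by linarith)
    linarith
  have hRE : 1 ≤ R ^ (((a + 2 : ℕ) : ℝ) ^ 2 * δ - δ - 1 / ((a + 2 : ℕ) : ℝ)) :=
    Real.one_le_rpow hR hE0
  have h3R : 1 + 2 * R ≤ 3 * R := by linarith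
  have hrd : (0 : ℝ) < ((a + 2 : ℕ) : ℝ) * δ := by positivity
  obtain ⟨u, hu⟩ : ∃ u : ℝ, u = 1 / (((a + 2 : ℕ) : ℝ) * δ) := ⟨_, rfl⟩
  have hu0 : 0 ≤ u := by rw [hu]; positivity
  have hu2 : u ≤ 1 / 2 := by
    rw [hu]
    apply one_div_le_one_div_of_le (by norm_num)
    rw [hrcast]
    nlinarith
  have hRu1 : 1 ≤ R ^ u := Real.one_le_rpow hR hu0
  obtain ⟨s, hs⟩ : ∃ s : ℝ, s = K * R ^ u := ⟨_, rfl⟩
  have hs1 : 1 ≤ s := by
    rw [hs]
    exact one_le_mul_of_one_le_of_one_le hK1 hRu1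
  have hs0 : 0 < s := by linarith
  by_cases hsR : s ≤ R
  · -- the main case
    have hb1 : (0 : ℝ) ≤ 3 ^ (a * δ) * R ^ (((a : ℝ) + 1) * δ - 1 / ((a + 2 : ℕ) : ℝ)) := by
      positivity
    obtain ⟨hQf, hQc⟩ := rich_card (j := j) hL hD (m := a + 1) (by omega) (s := s) hs0
    have hsδ : s ^ δ = K ^ δ * R ^ (1 / ((a + 2 : ℕ) : ℝ)) := by
      rw [hs, mul_pow]
      congr 1
      rw [← Real.rpow_natCast, ← Real.rpow_mul hR0.le]
      congr 1
      rw [hu]
      field_simp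
    have hR1r : 0 < R ^ (1 / ((a + 2 : ℕ) : ℝ)) := Real.rpow_pos_of_pos hR0 _
    have hmain := CntB_count (j := j) (L := L) hL hD hR hb1 hQf (by
      intro S hS hSQ
      rw [hr1] at hS
      rcases Nat.lt_or_ge (finrank D S) (a + 1) with hlt | hge
      · -- small dimension
        refine (pts_card_le (j := j) hL hD (m := a) (by omega) hR0.le).trans ?_
        calc (1 + 2 * R) ^ (a * δ) ≤ (3 * R) ^ (a * δ) :=
              pow_le_pow_left₀ (by linarith) h3R _
          _ = 3 ^ (a * δ) * R ^ ((a : ℝ) * δ) := by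
              rw [mul_pow]
              congr 1
              rw [← Real.rpow_natCast]
              push_cast
              rfl
          _ ≤ _ := by
              refine mul_le_mul_of_nonneg_left ?_ (by positivity)
              refine Real.rpow_le_rpow_of_exponent_le hR ?_
              nlinarith
      · have hfr : finrank D S = a + 1 := le_antisymm hS hge
        have hns : ((pts j L S s).ncard : ℝ) ≤ (1 + 2 * s) ^ ((a + 1 - 1) * δ) := by
          by_contra hcon
          exact hSQ ⟨hfr, not_le.1 hcon⟩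
        rw [Nat.add_sub_cancel] at hns
        have hloc := pts_local (j := j) hL hD (m := a + 1) hS (s := s) (R := R) hs0 hR0.le
        have h1 : 1 + 2 * R / s ≤ 3 * R / s := by
          have : 1 ≤ R / s := by rwa [le_div_iff₀ hs0, one_mul]
          have h2 : 2 * R / s = 2 * (R / s) := by ring
          have h3 : 3 * R / s = 3 * (R / s) := by ring
          rw [h2, h3]; linarith
        have h0 : 0 ≤ 1 + 2 * R / s := by positivity
        have h3s : 1 + 2 * s ≤ 3 * s := by linarith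
        calc ((pts j L S R).ncard : ℝ)
            ≤ (1 + 2 * R / s) ^ ((a + 1) * δ) * (pts j L S s).ncard := hloc
          _ ≤ (3 * R / s) ^ ((a + 1) * δ) * (3 * s) ^ (a * δ) := by
              refine mul_le_mul (pow_le_pow_left₀ h0 h1 _) ?_ (Nat.cast_nonneg _)
                (by positivity)
              exact hns.trans (pow_le_pow_left₀ (by linarith) h3s _)
          _ = (9 ^ (a * δ) * 3 ^ δ) * (R ^ ((a + 1) * δ) / s ^ δ) := by
              have e1 : (a + 1) * δ = a * δ + δ := by ring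
              rw [e1, pow_add, pow_add]
              have e2 : (9 : ℝ) ^ (a * δ) = 3 ^ (a * δ) * 3 ^ (a * δ) := by
                rw [← mul_pow]; norm_num
              rw [e2, div_pow, div_pow, mul_pow, mul_pow, mul_pow]
              have hsne : s ^ (a * δ) ≠ 0 := by positivity
              have hsne2 : s ^ δ ≠ 0 := by positivity
              field_simp
          _ ≤ K ^ δ * (R ^ ((a + 1) * δ) / s ^ δ) := by
              refine mul_le_mul_of_nonneg_right ?_ (by positivity)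
              rw [← hKdef, ← pow_mul]
              calc (9 : ℝ) ^ (a * δ) * 3 ^ δ ≤ 9 ^ (a * δ) * 9 ^ (2 * δ) := by
                    refine mul_le_mul_of_nonneg_left ?_ (by positivity)
                    calc (3 : ℝ) ^ δ ≤ 9 ^ δ := pow_le_pow_left₀ (by norm_num) (by norm_num) _
                      _ ≤ 9 ^ (2 * δ) := pow_le_pow_right₀ (by norm_num) (by omega)
                _ = 9 ^ ((a + 2) * δ) := by rw [← pow_add]; ring_nf
          _ = R ^ (((a : ℝ) + 1) * δ - 1 / ((a + 2 : ℕ) : ℝ)) := by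
              rw [hsδ, Real.rpow_sub hR0]
              have e1 : R ^ (((a : ℝ) + 1) * δ) = R ^ ((a + 1) * δ) := by
                rw [← Real.rpow_natCast R ((a + 1) * δ)]
                push_cast
                rfl
              rw [e1]
              field_simp
          _ ≤ _ := by
              refine le_mul_of_one_le_left (by positivity) ?_
              exact one_le_pow₀ (by norm_num))
      (by
        intro S hS
        rw [hr1]
        exact le_of_eq hS.1)
    rw [hr1] at hmain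
    refine hmain.trans ?_
    have hT1 : (((a + 2 : ℕ) : ℝ)) * (((1 + 2 * R) ^ ((a + 2) * δ)) ^ (a + 1) *
        (3 ^ (a * δ) * R ^ (((a : ℝ) + 1) * δ - 1 / ((a + 2 : ℕ) : ℝ)))) ≤
        ((a + 2 : ℕ) * 3 ^ ((a + 2) * δ * (a + 1) + a * δ)) *
          R ^ (((a + 2 : ℕ) : ℝ) ^ 2 * δ - δ - 1 / ((a + 2 : ℕ) : ℝ)) := by
      rw [mul_assoc]
      refine mul_le_mul_of_nonneg_left ?_ (by positivity)
      calc ((1 + 2 * R) ^ ((a + 2) * δ)) ^ (a + 1) *
            (3 ^ (a * δ) * R ^ (((a : ℝ) + 1) * δ - 1 / ((a + 2 : ℕ) : ℝ)))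
          ≤ ((3 * R) ^ ((a + 2) * δ)) ^ (a + 1) *
            (3 ^ (a * δ) * R ^ (((a : ℝ) + 1) * δ - 1 / ((a + 2 : ℕ) : ℝ))) := by
            refine mul_le_mul_of_nonneg_right ?_ hb1
            exact pow_le_pow_left₀ (by positivity) (pow_le_pow_left₀ (by linarith) h3R _) _
        _ = 3 ^ ((a + 2) * δ * (a + 1) + a * δ) * (R ^ ((a + 2) * δ * (a + 1)) *
              R ^ (((a : ℝ) + 1) * δ - 1 / ((a + 2 : ℕ) : ℝ))) := by
            rw [← pow_mul, mul_pow, pow_add]
            ring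
        _ = _ := by
            congr 1
            rw [← Real.rpow_natCast R ((a + 2) * δ * (a + 1)), ← Real.rpow_add hR0]
            congr 1
            push_cast
            ring
    have hT2 : (({S : Submodule D (Fin (a + 2) → D) | finrank D S = a + 1 ∧
          (1 + 2 * s) ^ ((a + 1 - 1) * δ) < ((pts j L S s).ncard : ℝ)}.ncard : ℕ) : ℝ) *
          ((1 + 2 * R) ^ ((a + 1) * δ)) ^ (a + 2) ≤
        ((3 * K) ^ ((a + 2) * δ * (a + 1)) * 3 ^ ((a + 1) * δ * (a + 2))) *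
          R ^ (((a + 2 : ℕ) : ℝ) ^ 2 * δ - δ - 1 / ((a + 2 : ℕ) : ℝ)) := by
      have h3s : 1 + 2 * s ≤ 3 * s := by linarith
      have hRu : (R ^ u) ^ ((a + 2) * δ * (a + 1)) = R ^ ((a : ℝ) + 1) := by
        rw [← Real.rpow_natCast (R ^ u), ← Real.rpow_mul hR0.le]
        congr 1
        rw [hu]
        push_cast
        have : ((a : ℝ) + 2) * δ ≠ 0 := by positivity
        field_simp
      calc _ ≤ (1 + 2 * s) ^ ((a + 2) * δ * (a + 1)) *
              ((1 + 2 * R) ^ ((a + 1) * δ)) ^ (a + 2) :=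
            mul_le_mul_of_nonneg_right hQc (by positivity)
        _ ≤ (3 * s) ^ ((a + 2) * δ * (a + 1)) * ((3 * R) ^ ((a + 1) * δ)) ^ (a + 2) := by
            refine mul_le_mul (pow_le_pow_left₀ (by linarith) h3s _) ?_ (by positivity)
              (by positivity)
            exact pow_le_pow_left₀ (by positivity) (pow_le_pow_left₀ (by linarith) h3R _) _
        _ = ((3 * K) ^ ((a + 2) * δ * (a + 1)) * 3 ^ ((a + 1) * δ * (a + 2))) *
              ((R ^ u) ^ ((a + 2) * δ * (a + 1)) * R ^ ((a + 1) * δ * (a + 2))) := by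
            rw [hs, ← pow_mul, mul_pow, mul_pow, mul_pow, mul_pow]
            ring
        _ ≤ _ := by
            refine mul_le_mul_of_nonneg_left ?_ (by positivity)
            rw [hRu, ← Real.rpow_natCast R ((a + 1) * δ * (a + 2)), ← Real.rpow_add hR0]
            refine Real.rpow_le_rpow_of_exponent_le hR ?_
            have hle : 1 / ((a + 2 : ℕ) : ℝ) ≤ 1 := hinv
            push_cast at hle ⊢
            nlinarith [mul_nonneg ha0 (by linarith : (0 : ℝ) ≤ (δ : ℝ) - 2)]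
    calc _ ≤ ((a + 2 : ℕ) * 3 ^ ((a + 2) * δ * (a + 1) + a * δ)) *
          R ^ (((a + 2 : ℕ) : ℝ) ^ 2 * δ - δ - 1 / ((a + 2 : ℕ) : ℝ)) +
          ((3 * K) ^ ((a + 2) * δ * (a + 1)) * 3 ^ ((a + 1) * δ * (a + 2))) *
          R ^ (((a + 2 : ℕ) : ℝ) ^ 2 * δ - δ - 1 / ((a + 2 : ℕ) : ℝ)) := add_le_add hT1 hT2
      _ ≤ _ := by
          rw [← add_mul]
          refine mul_le_mul_of_nonneg_right ?_ (by positivity)
          have : (0 : ℝ) ≤ (a + 2 : ℕ) * (3 * K ^ 2) ^ ((a + 2) * δ * (a + 2)) := by positivity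
          linarith
  · -- the case of small `R`
    have hRK : R ≤ K ^ 2 := by
      have h1 : R < K * R ^ (1 / 2 : ℝ) := by
        refine (not_le.1 hsR).trans_le ?_
        rw [hs]
        exact mul_le_mul_of_nonneg_left (Real.rpow_le_rpow_of_exponent_le hR hu2) hK0.le
      have h2 : R = R ^ (1 / 2 : ℝ) * R ^ (1 / 2 : ℝ) := by
        rw [← Real.rpow_add hR0]; norm_num
      have h3 : 0 < R ^ (1 / 2 : ℝ) := Real.rpow_pos_of_pos hR0 _
      have h4 : R ^ (1 / 2 : ℝ) < K := by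
        by_contra hcon
        have : K * R ^ (1 / 2 : ℝ) ≤ R ^ (1 / 2 : ℝ) * R ^ (1 / 2 : ℝ) :=
          mul_le_mul_of_nonneg_right (not_lt.1 hcon) h3.le
        rw [← h2] at this
        linarith
      rw [h2, pow_two]
      exact mul_le_mul h4.le h4.le h3.le hK0.le
    have hmain := CntB_count (j := j) (L := L) hL hD hR (b1 := (1 + 2 * R) ^ ((a + 2) * δ))
      (by positivity) Set.finite_empty (by
        intro S hS _
        refine (pts_card_le (j := j) hL hD (m := a + 2) ?_ hR0.le)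
        omega)
      (by simp)
    rw [hr1] at hmain
    refine hmain.trans ?_
    rw [Set.ncard_empty, Nat.cast_zero, zero_mul, add_zero, ← pow_succ, ← pow_mul]
    calc ((a + 2 : ℕ) : ℝ) * (1 + 2 * R) ^ ((a + 2) * δ * (a + 1 + 1))
        ≤ ((a + 2 : ℕ) : ℝ) * (3 * K ^ 2) ^ ((a + 2) * δ * (a + 2)) := by
          refine mul_le_mul_of_nonneg_left ?_ (by positivity)
          exact pow_le_pow_left₀ (by positivity) (by linarith) _
      _ ≤ _ := by
          refine le_trans ?_ (le_mul_of_one_le_right (by positivity) hRE)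
          have : (0 : ℝ) ≤ (a + 2 : ℕ) * 3 ^ ((a + 2) * δ * (a + 1) + a * δ) +
            (3 * K) ^ ((a + 2) * δ * (a + 1)) * 3 ^ ((a + 1) * δ * (a + 2)) := by positivity
          linarith

end Pool.MP43e44c.OD
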