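import Pool.Agent.H.MP_43e44c_ag.OD.Two2
import Pool.Agent.H.MP_43e44c_ag.OD.Sup

/-!
The components of dimension two: cubic characters.
-/

set_option autoImplicit false

open Finset Module

namespace Pool.MP43e44c.OD

universe u

/-- An odd number with totient at most two divides three. -/
theorem cub_totient {d : ℕ} (hd : Odd d) (h : d.totient ≤ 2) : d ∣ 3 := by
  have h0 : 0 < d := hd.pos
  by_contra hnd
  have h4 : 4 ≤ d := by
    by_contra h4
    have : d = 1 ∨ d = 2 ∨ d = 3 := by omega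
    rcases this with rfl | rfl | rfl
    · exact hnd (one_dvd 3)
    · exact absurd hd (by decide)
    · exact hnd (dvd_refl 3)
  have h5 : 5 ≤ d := by
    rcases hd with ⟨k, hk⟩
    omega
  have hsub : ({1, 2, d - 1} : Finset ℕ) ⊆ (range d).filter d.Coprime := by
    intro a ha
    rw [mem_insert, mem_insert, mem_singleton] at ha
    rw [mem_filter, mem_range]
    rcases ha with rfl | rfl | rfl
    · exact ⟨by omega, Nat.coprime_one_right d⟩
    · exact ⟨by omega, (Nat.coprime_two_left.mpr hd).symm⟩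
    · refine ⟨by omega, ?_⟩
      have h6 : Nat.Coprime (d - 1 + 1) (d - 1) := by
        rw [Nat.coprime_comm]
        exact Nat.coprime_self_add_right.mpr (Nat.coprime_one_right _)
      rwa [Nat.sub_add_cancel (by omega : 1 ≤ d)] at h6
  have hc := card_le_card hsub
  have h7 : ({1, 2, d - 1} : Finset ℕ).card = 3 := by
    rw [card_eq_three]
    exact ⟨1, 2, d - 1, by omega, by omega, by omega, rfl⟩
  rw [h7] at hc
  have h8 : ((range d).filter d.Coprime).card = d.totient := rfl
  omega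

/-- In a field of degree two over `ℚ` (a division ring of dimension two is commutative) a root of unity
of odd order has order `1` or `3`: `IsPrimitiveRoot.totient_le_degree_minpoly`. -/
theorem pow_three_eq_one {D : Type u} [DivisionRing D] [Algebra ℚ D] [Module.Finite ℚ D]
    (hD : finrank ℚ D = 2) {x : D} {m : ℕ} (hm : Odd m) (hx : x ^ m = 1) : x ^ 3 = 1 := by
  have hint : IsIntegral ℚ x := Algebra.IsIntegral.isIntegral x
  have hirr := minpoly.irreducible hint
  have hdvd : minpoly ℚ x ∣ ∏ i ∈ m.divisors, Polynomial.cyclotomic i ℚ := by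
    rw [Polynomial.prod_cyclotomic_eq_X_pow_sub_one hm.pos]
    apply minpoly.dvd
    simp [hx]
  obtain ⟨d, hd, hdd⟩ := (hirr.prime.dvd_finset_prod_iff _).1 hdvd
  have hdpos : 0 < d := Nat.pos_of_mem_divisors hd
  have hcirr := Polynomial.cyclotomic.irreducible_rat hdpos
  have hass : Associated (minpoly ℚ x) (Polynomial.cyclotomic d ℚ) :=
    hirr.associated_of_dvd hcirr hdd
  have hdeg : (Polynomial.cyclotomic d ℚ).natDegree ≤ 2 := by
    rw [← Polynomial.natDegree_eq_of_degree_eq (Polynomial.degree_eq_degree_of_associated hass),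
      ← hD]
    exact minpoly.natDegree_le x
  rw [Polynomial.natDegree_cyclotomic] at hdeg
  have hodd : Odd d := hm.of_dvd_nat (Nat.dvd_of_mem_divisors hd)
  have h3 := cub_totient hodd hdeg
  have h4 : minpoly ℚ x ∣ (Polynomial.X ^ 3 - 1 : Polynomial ℚ) := by
    refine hdd.trans ?_
    refine (Polynomial.cyclotomic.dvd_X_pow_sub_one d ℚ).trans ?_
    obtain ⟨k, hk⟩ := h3
    rw [hk, pow_mul]
    have := sub_dvd_pow_sub_pow ((Polynomial.X : Polynomial ℚ) ^ d) 1 k
    rwa [one_pow] at this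
  obtain ⟨q, hq⟩ := h4
  have h5 := congrArg (Polynomial.aeval x) hq
  rw [map_mul, minpoly.aeval, zero_mul] at h5
  simp only [map_sub, map_pow, Polynomial.aeval_X, map_one] at h5
  exact sub_eq_zero.1 h5

section Cubic

variable {D : Type u} [DivisionRing D] [Algebra ℚ D]

theorem cub_sq {w : D} (h3 : w ^ 3 = 1) (h1 : w ≠ 1) : w ^ 2 + w + 1 = 0 := by
  have h : (w - 1) * (w ^ 2 + w + 1) = 0 := by
    have h4 : (w - 1) * (w ^ 2 + w + 1) = w ^ 3 - 1 := by noncomm_ring
    rw [h4, h3, sub_self]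
  rcases mul_eq_zero.mp h with h2 | h2
  · exact absurd (sub_eq_zero.mp h2) h1
  · exact h2

theorem cub_smul_one {a : ℚ} (h : a • (1 : D) = 0) : a = 0 := by
  rcases smul_eq_zero.mp h with h2 | h2
  · exact h2
  · exact absurd h2 one_ne_zero

theorem cub_irr {w : D} (h3 : w ^ 3 = 1) (h1 : w ≠ 1) {a b : ℚ}
    (h : a • (1 : D) + b • w = 0) : a = 0 ∧ b = 0 := by
  have hb : b = 0 := by
    by_contra hb
    have h2 : w = (b⁻¹ * (-a)) • (1 : D) := by
      have h3 : b • w = (-a) • (1 : D) := by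
        rw [neg_smul]
        exact eq_neg_of_add_eq_zero_right h
      calc w = b⁻¹ • (b • w) := by rw [smul_smul, inv_mul_cancel₀ hb, one_smul]
        _ = _ := by rw [h3, smul_smul]
    have h4 : w ^ 3 = ((b⁻¹ * (-a)) ^ 3) • (1 : D) := by
      conv_lhs => rw [h2]
      rw [smul_pow, one_pow]
    have h5 : (b⁻¹ * (-a)) ^ 3 = 1 := by
      rw [h3] at h4
      have h6 : (1 - (b⁻¹ * (-a)) ^ 3) • (1 : D) = 0 := by
        rw [sub_smul, one_smul, ← h4, sub_self]
      have h7 := cub_smul_one h6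
      linarith
    have h6 : b⁻¹ * (-a) = 1 := by
      have h7 : (b⁻¹ * (-a) - 1) * ((b⁻¹ * (-a)) ^ 2 + b⁻¹ * (-a) + 1) = 0 := by
        linear_combination h5
      rcases mul_eq_zero.mp h7 with h8 | h8
      · linarith
      · nlinarith [sq_nonneg (b⁻¹ * (-a) + 1 / 2)]
    exact h1 (by rw [h2, h6, one_smul])
  subst hb
  rw [zero_smul, add_zero] at h
  exact ⟨cub_smul_one h, rfl⟩

theorem cub_span [Module.Finite ℚ D] (hD : finrank ℚ D = 2) {w : D} (h3 : w ^ 3 = 1)
    (h1 : w ≠ 1) (z : D) : ∃ a b : ℚ, z = a • (1 : D) + b • w := by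
  have hli : LinearIndependent ℚ ![(1 : D), w] := by
    rw [LinearIndependent.pair_iff]
    intro s t hst
    exact cub_irr h3 h1 hst
  have h2 := hli.span_eq_top_of_card_eq_finrank (by simp [hD])
  have h4 : z ∈ Submodule.span ℚ (Set.range ![(1 : D), w]) := by
    rw [h2]
    trivial
  rw [Matrix.range_cons, Matrix.range_cons, Matrix.range_empty, Set.union_empty] at h4
  have h5 : ({(1 : D)} ∪ {w} : Set D) = {1, w} := rfl
  rw [h5, Submodule.mem_span_pair] at h4
  obtain ⟨a, b, hab⟩ := h4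
  exact ⟨a, b, hab.symm⟩

theorem cub_three [Module.Finite ℚ D] (hD : finrank ℚ D = 2) {w : D} (h3 : w ^ 3 = 1)
    (h1 : w ≠ 1) {z : D} (hz : z ^ 3 = 1) : z = 1 ∨ z = w ∨ z = w ^ 2 := by
  by_cases hz1 : z = 1
  · exact Or.inl hz1
  right
  have e1 := cub_sq h3 h1
  have e2 := cub_sq hz hz1
  have hw2 : w ^ 2 = -w - 1 := by
    rw [← sub_eq_zero, ← e1]
    abel
  obtain ⟨a, b, hab⟩ := cub_span hD h3 h1 z
  have h4 : z ^ 2 = (a ^ 2 - b ^ 2) • (1 : D) + (2 * a * b - b ^ 2) • w := by
    have h5 : z ^ 2 = (a ^ 2) • (1 : D) + (2 * a * b) • w + (b ^ 2) • w ^ 2 := by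
      rw [hab, sq, sq w, add_mul, mul_add, mul_add]
      simp only [smul_mul_smul_comm, one_mul, mul_one]
      rw [← sq, ← sq, mul_comm b a]
      module
    rw [h5, hw2]
    module
  have h6 : (a ^ 2 - b ^ 2 + a + 1) • (1 : D) + (2 * a * b - b ^ 2 + b) • w = 0 := by
    rw [← e2, h4]
    conv_rhs => rw [hab]
    module
  obtain ⟨h7, h8⟩ := cub_irr h3 h1 h6
  have h9 : b * (2 * a - b + 1) = 0 := by linear_combination h8
  rcases mul_eq_zero.mp h9 with hb | hb
  · subst hb
    nlinarith [sq_nonneg (a + 1 / 2)]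
  · have hb' : b = 2 * a + 1 := by linarith
    subst hb'
    have h10 : a * (a + 1) = 0 := by linear_combination (-1 / 3 : ℚ) * h7
    rcases mul_eq_zero.mp h10 with ha | ha
    · left
      rw [hab, ha]
      simp
    · right
      have ha' : a = -1 := by linarith
      rw [hab, ha', hw2]
      norm_num
      module

variable {O : Type u} [Group O]

/-- The restriction of a representation to the group. -/
noncomputable def cub_chi (f : MonoidAlgebra ℚ O →ₐ[ℚ] D) : O →* D :=
  (f : MonoidAlgebra ℚ O →* D).comp (MonoidAlgebra.of ℚ O)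

theorem cub_chi_apply (f : MonoidAlgebra ℚ O →ₐ[ℚ] D) (g : O) :
    cub_chi f g = f (MonoidAlgebra.single g 1) := rfl

variable [Fintype O]

theorem cub_apply (f : MonoidAlgebra ℚ O →ₐ[ℚ] D) (x : MonoidAlgebra ℚ O) :
    f x = ∑ g, x.coeff g • cub_chi f g := by
  have h1 : x = ∑ g, x.coeff g • (MonoidAlgebra.single g (1 : ℚ)) := by
    apply ma_ext
    intro g
    rw [coeff_sum', sum_eq_single g]
    · have h2 : (x.coeff g • (MonoidAlgebra.single g (1 : ℚ))).coeff g =
          x.coeff g * (MonoidAlgebra.single g (1 : ℚ)).coeff g := rfl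
      rw [h2, MonoidAlgebra.coeff_single, Finsupp.single_eq_same, mul_one]
    · intro b _ hb
      have h2 : (x.coeff b • (MonoidAlgebra.single b (1 : ℚ))).coeff g =
          x.coeff b * (MonoidAlgebra.single b (1 : ℚ)).coeff g := rfl
      rw [h2, MonoidAlgebra.coeff_single, Finsupp.single_eq_of_ne hb.symm, mul_zero]
    · intro h
      exact absurd (mem_univ g) h
  conv_lhs => rw [h1]
  rw [map_sum]
  exact sum_congr rfl fun g _ => by rw [map_smul, cub_chi_apply]

theorem cub_cube [Module.Finite ℚ D] (hD : finrank ℚ D = 2) (hO : Odd (Fintype.card O))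
    (f : MonoidAlgebra ℚ O →ₐ[ℚ] D) (g : O) : cub_chi f g ^ 3 = 1 :=
  pow_three_eq_one hD hO (by rw [← map_pow, pow_card_eq_one, map_one])

theorem cub_ne [Module.Finite ℚ D] (hD : finrank ℚ D = 2)
    {f : MonoidAlgebra ℚ O →ₐ[ℚ] D} (hf : Function.Surjective f) : ∃ c, cub_chi f c ≠ 1 := by
  by_contra hne
  push Not at hne
  have h1 : finrank ℚ D ≤ 1 := by
    refine finrank_le_one (1 : D) fun w => ?_
    obtain ⟨x, rfl⟩ := hf w
    refine ⟨∑ g, x.coeff g, ?_⟩
    rw [cub_apply, sum_smul]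
    exact sum_congr rfl fun g _ => by rw [hne]
  omega

theorem cub_pow_ne {w : D} (h3 : w ^ 3 = 1) (h1 : w ≠ 1) : w ^ 2 ≠ 1 ∧ w ^ 2 ≠ w := by
  constructor
  · intro h
    apply h1
    calc w = w ^ 2 * w := by rw [h, one_mul]
      _ = w ^ 3 := by rw [← pow_succ]
      _ = 1 := h3
  · intro h
    apply h1
    have h2 : w * (w - 1) = 0 := by rw [mul_sub, mul_one, ← sq, h, sub_self]
    rcases mul_eq_zero.mp h2 with h4 | h4
    · rw [h4] at h3
      simp at h3
    · exact sub_eq_zero.mp h4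

theorem cub_index [Module.Finite ℚ D] (hD : finrank ℚ D = 2) (hO : Odd (Fintype.card O))
    {f : MonoidAlgebra ℚ O →ₐ[ℚ] D} (hf : Function.Surjective f) :
    (cub_chi f).ker.index = 3 := by
  obtain ⟨c, hc⟩ := cub_ne hD hf
  have h3 := cub_cube hD hO f
  obtain ⟨hn1, hn2⟩ := cub_pow_ne (h3 c) hc
  have hker : (cub_chi f).ker = (cub_chi f).toHomUnits.ker := by
    ext g
    rw [MonoidHom.mem_ker, MonoidHom.mem_ker, Units.ext_iff]
    rfl
  rw [hker, Subgroup.index_ker]
  have hset : ((cub_chi f).toHomUnits.range : Set Dˣ) =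
      {1, (cub_chi f).toHomUnits c, (cub_chi f).toHomUnits c ^ 2} := by
    ext z
    constructor
    · rintro ⟨g, rfl⟩
      rcases cub_three hD (h3 c) hc (h3 g) with h | h | h
      · exact Or.inl (Units.ext h)
      · exact Or.inr (Or.inl (Units.ext h))
      · exact Or.inr (Or.inr (Units.ext h))
    · rintro (h | h | h)
      · exact ⟨1, by rw [map_one, h]⟩
      · exact ⟨c, h.symm⟩
      · exact ⟨c ^ 2, by rw [map_pow]; exact h.symm⟩
  have hcard : Nat.card (cub_chi f).toHomUnits.range =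
      ((cub_chi f).toHomUnits.range : Set Dˣ).ncard := rfl
  rw [hcard, hset, Set.ncard_eq_three]
  refine ⟨1, _, _, ?_, ?_, ?_, rfl⟩
  · intro h
    exact hc (congrArg Units.val h).symm
  · intro h
    exact hn1 (congrArg Units.val h).symm
  · intro h
    exact hn2 (congrArg Units.val h).symm

theorem cub_mem (f : MonoidAlgebra ℚ O →ₐ[ℚ] D) (c g : O) (k : ℕ) :
    (c ^ k)⁻¹ * g ∈ (cub_chi f).ker ↔ cub_chi f g = cub_chi f c ^ k := by
  rw [MonoidHom.mem_ker]
  have h1 : cub_chi f c ^ k * cub_chi f ((c ^ k)⁻¹ * g) = cub_chi f g := by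
    rw [← map_pow, ← map_mul, mul_inv_cancel_left]
  have h2 : cub_chi f (c ^ k)⁻¹ * cub_chi f c ^ k = 1 := by
    rw [← map_pow, ← map_mul, inv_mul_cancel, map_one]
  constructor
  · intro h
    rw [← h1, h, mul_one]
  · intro h
    rw [map_mul, h, h2]

/-- The sums of the coefficients over the cosets. -/
noncomputable def cub_S (H : Subgroup O) (c : O) (k : ℕ) (x : MonoidAlgebra ℚ O) : ℚ :=
  open Classical in ∑ g, if (c ^ k)⁻¹ * g ∈ H then x.coeff g else 0

theorem cub_f [Module.Finite ℚ D] (hD : finrank ℚ D = 2) (hO : Odd (Fintype.card O))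
    (f : MonoidAlgebra ℚ O →ₐ[ℚ] D) {c : O} (hc : cub_chi f c ≠ 1) (x : MonoidAlgebra ℚ O) :
    f x = cub_S (cub_chi f).ker c 0 x • (1 : D) + cub_S (cub_chi f).ker c 1 x • cub_chi f c +
      cub_S (cub_chi f).ker c 2 x • cub_chi f c ^ 2 := by
  classical
  have h3 := cub_cube hD hO f
  obtain ⟨hn1, hn2⟩ := cub_pow_ne (h3 c) hc
  rw [cub_apply]
  unfold cub_S
  rw [sum_smul, sum_smul, sum_smul, ← sum_add_distrib, ← sum_add_distrib]
  refine sum_congr rfl fun g _ => ?_
  have m0 := cub_mem f c g 0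
  have m1 := cub_mem f c g 1
  have m2 := cub_mem f c g 2
  rw [pow_zero (cub_chi f c)] at m0
  rw [pow_one (cub_chi f c)] at m1
  rcases cub_three hD (h3 c) hc (h3 g) with h | h | h
  · have n0 := m0.2 h
    have n1 : ¬ ((c ^ 1)⁻¹ * g ∈ (cub_chi f).ker) := fun hh => hc ((m1.1 hh).symm.trans h)
    have n2 : ¬ ((c ^ 2)⁻¹ * g ∈ (cub_chi f).ker) := fun hh => hn1 ((m2.1 hh).symm.trans h)
    rw [if_pos n0, if_neg n1, if_neg n2, h, zero_smul, zero_smul, add_zero, add_zero]
  · have n0 : ¬ ((c ^ 0)⁻¹ * g ∈ (cub_chi f).ker) := fun hh => hc (h.symm.trans (m0.1 hh))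
    have n1 := m1.2 h
    have n2 : ¬ ((c ^ 2)⁻¹ * g ∈ (cub_chi f).ker) := fun hh => hn2 ((m2.1 hh).symm.trans h)
    rw [if_neg n0, if_pos n1, if_neg n2, h, zero_smul, zero_smul, add_zero, zero_add]
  · have n0 : ¬ ((c ^ 0)⁻¹ * g ∈ (cub_chi f).ker) := fun hh => hn1 (h.symm.trans (m0.1 hh))
    have n1 : ¬ ((c ^ 1)⁻¹ * g ∈ (cub_chi f).ker) := fun hh => hn2 (h.symm.trans (m1.1 hh))
    have n2 := m2.2 h
    rw [if_neg n0, if_neg n1, if_pos n2, h, zero_smul, zero_smul, add_zero, zero_add]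

/-- The kernel of the representation is determined by the kernel of the character. -/
theorem cub_zero [Module.Finite ℚ D] (hD : finrank ℚ D = 2) (hO : Odd (Fintype.card O))
    (f : MonoidAlgebra ℚ O →ₐ[ℚ] D) {c : O} (hc : cub_chi f c ≠ 1) (x : MonoidAlgebra ℚ O) :
    f x = 0 ↔ cub_S (cub_chi f).ker c 0 x = cub_S (cub_chi f).ker c 2 x ∧
      cub_S (cub_chi f).ker c 1 x = cub_S (cub_chi f).ker c 2 x := by
  have h3 := cub_cube hD hO f c
  have e1 := cub_sq h3 hc
  have hw2 : cub_chi f c ^ 2 = -cub_chi f c - 1 := by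
    rw [← sub_eq_zero, ← e1]
    abel
  rw [cub_f hD hO f hc x, hw2]
  have e2 : cub_S (cub_chi f).ker c 0 x • (1 : D) + cub_S (cub_chi f).ker c 1 x • cub_chi f c +
      cub_S (cub_chi f).ker c 2 x • (-cub_chi f c - 1) =
      (cub_S (cub_chi f).ker c 0 x - cub_S (cub_chi f).ker c 2 x) • (1 : D) +
      (cub_S (cub_chi f).ker c 1 x - cub_S (cub_chi f).ker c 2 x) • cub_chi f c := by
    module
  rw [e2]
  constructor
  · intro h
    obtain ⟨h5, h6⟩ := cub_irr h3 hc h
    exact ⟨sub_eq_zero.1 h5, sub_eq_zero.1 h6⟩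
  · rintro ⟨h5, h6⟩
    rw [h5, h6, sub_self, zero_smul, zero_smul, add_zero]

end Cubic

/-- A component of size one as a representation on the division ring. -/
noncomputable def cub_hom {O : Type u} [Group O] [Fintype O] (W : WD ℚ O) (i : Fin W.m)
    (hr : W.r i = 1) : MonoidAlgebra ℚ O →ₐ[ℚ] W.D i :=
  AlgHom.ofLinearMap
    { toFun := fun x => W.comp i x 0 0
      map_add' := fun x y => by rw [map_add]; rfl
      map_smul' := fun c x => by rw [map_smul]; rfl }
    (by
      show W.comp i 1 0 0 = 1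
      rw [map_one, Matrix.one_apply_eq])
    (by
      intro x y
      show W.comp i (x * y) 0 0 = W.comp i x 0 0 * W.comp i y 0 0
      haveI : Subsingleton (Fin (W.r i)) := by rw [hr]; infer_instance
      rw [map_mul, Matrix.mul_apply, Fintype.sum_subsingleton _ (0 : Fin (W.r i))])

theorem cub_hom_apply {O : Type u} [Group O] [Fintype O] (W : WD ℚ O) (i : Fin W.m)
    (hr : W.r i = 1) (x : MonoidAlgebra ℚ O) : cub_hom W i hr x = W.comp i x 0 0 := rfl

theorem cub_hom_surj {O : Type u} [Group O] [Fintype O] (W : WD ℚ O) (i : Fin W.m)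
    (hr : W.r i = 1) : Function.Surjective (cub_hom W i hr) := by
  intro d
  refine ⟨W.φ.symm (Pi.single i (Matrix.of fun _ _ => d)), ?_⟩
  rw [cub_hom_apply, WD.comp_apply, AlgEquiv.apply_symm_apply, Pi.single_eq_same]
  rfl

theorem cub_dim {O : Type u} [Group O] [Fintype O] (W : WD ℚ O) {i : Fin W.m}
    (h : W.a i = 2) : W.r i = 1 ∧ finrank ℚ (W.D i) = 2 := by
  have h1 : W.r i ^ 2 * finrank ℚ (W.D i) = 2 := h
  have h2 : W.r i = 1 := by
    have h3 : 0 < W.r i := Nat.pos_of_ne_zero (NeZero.ne _)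
    by_contra h4
    have h5 : 2 ≤ W.r i := by omega
    have h6 : 4 ≤ W.r i ^ 2 := by nlinarith
    have h7 : 0 < finrank ℚ (W.D i) := by
      by_contra h8
      have : finrank ℚ (W.D i) = 0 := by omega
      rw [this] at h1
      omega
    nlinarith
  rw [h2] at h1
  exact ⟨h2, by omega⟩

/-- PROOF. Let `W.a i = 2`.  Then `W.r i = 1` and `finrank ℚ (W.D i) = 2`.  Let
`ρ g = W.comp i (single g 1) 0 0 : W.D i`, multiplicative, `ρ g ^ 3 = 1` (`pow_three_eq_one`), with values
in the three cube roots of unity of the field `W.D i`; `ρ` is not constant `1` since `comp i` is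
surjective onto a two-dimensional algebra.  So its kernel `H i` has index `3`.  The map `i ↦ H i` is
injective: if `H i = H i' =: H` then `O / H` has order `3`, fix `c ∉ H`; the kernel of
`x ↦ W.comp i x` is the set of the `x` such that the sums `x_0, x_1, x_2` of the coefficients of `x`
over the three cosets `H, cH, c^2 H` are equal (because `1, ρ c` is a basis of the field and
`1 + ρ c + ρ c ^ 2 = 0`), which depends on `H` only.  But for `i ≠ i'` the kernels are different
(`W.e i`). -/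
theorem card_two_le {O : Type u} [Group O] [Fintype O] (hO : Odd (Fintype.card O)) (W : WD ℚ O) :
    {i : Fin W.m | W.a i = 2}.ncard ≤ {H : Subgroup O | H.index = 3}.ncard := by
  classical
  refine Set.ncard_le_ncard_of_injOn
    (fun i => if hr : W.r i = 1 then (cub_chi (cub_hom W i hr)).ker else ⊥) ?_ ?_
    (Set.toFinite _)
  · intro i hi
    obtain ⟨hr, hD⟩ := cub_dim W hi
    show (if hr : W.r i = 1 then (cub_chi (cub_hom W i hr)).ker else ⊥).index = 3
    rw [dif_pos hr]
    exact cub_index hD hO (cub_hom_surj W i hr)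
  · intro i hi i' hi' heq
    obtain ⟨hr, hD⟩ := cub_dim W hi
    obtain ⟨hr', hD'⟩ := cub_dim W hi'
    by_contra hne
    simp only [dif_pos hr, dif_pos hr'] at heq
    obtain ⟨c, hc⟩ := cub_ne hD (cub_hom_surj W i hr)
    have hc' : cub_chi (cub_hom W i' hr') c ≠ 1 := by
      intro h
      have h2 : c ∈ (cub_chi (cub_hom W i' hr')).ker := h
      rw [← heq] at h2
      exact hc h2
    have h0 : cub_hom W i' hr' (W.e i) = 0 := by
      rw [cub_hom_apply, WD.comp_apply]
      unfold WD.e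
      rw [AlgEquiv.apply_symm_apply, Pi.single_eq_of_ne (Ne.symm hne)]
      rfl
    have h1 : cub_hom W i hr (W.e i) = 1 := by
      rw [cub_hom_apply, WD.comp_apply]
      unfold WD.e
      rw [AlgEquiv.apply_symm_apply, Pi.single_eq_same, Matrix.one_apply_eq]
    rw [cub_zero hD' hO _ hc', ← heq, ← cub_zero hD hO _ hc, h1] at h0
    exact one_ne_zero h0

end Pool.MP43e44c.OD
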