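import Pool.Agent.H.MP_43e44c_ag.OD.CntB
import Pool.Agent.H.MP_43e44c_ag.OD.Lat
import Pool.Agent.H.MP_43e44c_ag.OD.Cub2
import Pool.Agent.H.MP_43e44c_ag.OD.Hoef

/-!
Components of bounded dimension.
-/

set_option autoImplicit false

open Finset Module

namespace Pool.MP43e44c.OD

universe u

/-- The real span of vectors in the image of a rational space. -/
theorem dm_span {U κ ι : Type*} [AddCommGroup U] [Module ℚ U] [Module.Finite ℚ U] [Fintype κ]
    (j : U →ₗ[ℚ] EuclideanSpace ℝ κ) (m : ι → U) :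
    finrank ℝ (Submodule.span ℝ (Set.range fun g => j (m g))) ≤ finrank ℚ U := by
  let b := Module.finBasis ℚ U
  have h1 : Submodule.span ℝ (Set.range fun g => j (m g)) ≤
      Submodule.span ℝ (Set.range fun k => j (b k)) := by
    rw [Submodule.span_le]
    rintro _ ⟨g, rfl⟩
    show j (m g) ∈ Submodule.span ℝ (Set.range fun k => j (b k))
    rw [← b.sum_repr (m g), map_sum]
    refine Submodule.sum_mem _ fun k _ => ?_
    rw [map_smul, ← Rat.cast_smul_eq_qsmul ℝ]
    exact Submodule.smul_mem _ _ (Submodule.subset_span ⟨k, rfl⟩)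
  refine (Submodule.finrank_mono h1).trans ?_
  have h2 := finrank_range_le_card (R := ℝ) (fun k => j (b k))
  rw [Fintype.card_fin] at h2
  exact h2

section

variable {O : Type u} [Group O] [Fintype O] (W : WD ℚ O) (i : Fin W.m)
  (w : Fin (W.r i) → (Fin (W.r i) → W.D i))

/-- The translates of the rows. -/
noncomputable def dm_m (l : Fin (W.r i)) (g : O) : Fin (W.r i) → W.D i :=
  Matrix.vecMul (w l) (W.comp i (MonoidAlgebra.single g 1))

/-- The rows of the matrix of a sign vector in the basis `w`. -/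
noncomputable def dm_y (v : O → Bool) (l : Fin (W.r i)) : Fin (W.r i) → W.D i :=
  Matrix.vecMul (w l) (W.comp i (sgnEl ℚ v))

theorem dm_y_eq (v : O → Bool) (l : Fin (W.r i)) :
    dm_y W i w v l = ∑ g, if v g then dm_m W i w l g else - dm_m W i w l g := by
  let A : MonoidAlgebra ℚ O →+ (Fin (W.r i) → W.D i) :=
    { toFun := fun x => Matrix.vecMul (w l) (W.comp i x)
      map_zero' := by rw [map_zero, Matrix.vecMul_zero]
      map_add' := fun x y => by rw [map_add, Matrix.vecMul_add] }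
  show A (sgnEl ℚ v) = _
  unfold sgnEl
  rw [map_sum]
  refine sum_congr rfl fun g _ => ?_
  by_cases h : v g
  · rw [if_pos h, if_pos h]
    rfl
  · rw [if_neg h, if_neg h]
    have h1 : (MonoidAlgebra.single g (-1 : ℚ)) = -MonoidAlgebra.single g (1 : ℚ) := by
      apply ma_ext
      intro k
      show (MonoidAlgebra.single g (-1 : ℚ)).coeff k = -((MonoidAlgebra.single g (1 : ℚ)).coeff k)
      rw [MonoidAlgebra.coeff_single, MonoidAlgebra.coeff_single, Finsupp.single_neg]
      rfl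
    rw [h1, map_neg]
    rfl

theorem dm_mem (v : O → Bool) (l : Fin (W.r i)) : dm_y W i w v l ∈ latL W i w := by
  rw [dm_y_eq]
  refine sum_mem fun g _ => ?_
  have h1 : dm_m W i w l g ∈ latL W i w := AddSubgroup.subset_closure ⟨(l, g), rfl⟩
  split_ifs
  · exact h1
  · exact neg_mem h1

theorem dm_j {κ : Type u} [Fintype κ] (j : (Fin (W.r i) → W.D i) →ₗ[ℚ] EuclideanSpace ℝ κ)
    (v : O → Bool) (l : Fin (W.r i)) :
    j (dm_y W i w v l) = ∑ g, (if v g then (1 : ℝ) else -1) • j (dm_m W i w l g) := by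
  rw [dm_y_eq, map_sum]
  refine sum_congr rfl fun g _ => ?_
  by_cases h : v g
  · rw [if_pos h, if_pos h, one_smul]
  · rw [if_neg h, if_neg h, map_neg, neg_smul, one_smul]

variable {w}

theorem dm_top (hw : LinearIndependent (W.D i) w) :
    Submodule.span (W.D i) (Set.range w) = ⊤ := by
  apply hw.span_eq_top_of_card_eq_finrank
  rw [Module.finrank_fin_fun, Fintype.card_fin]

theorem dm_exp (hw : LinearIndependent (W.D i) w) (u : Fin (W.r i) → W.D i) :
    ∃ c : Fin (W.r i) → W.D i, ∑ l, c l • w l = u := by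
  have h1 : u ∈ Submodule.span (W.D i) (Set.range w) := by
    rw [dm_top W i hw]
    trivial
  rwa [Submodule.mem_span_range_iff_exists_fun] at h1

theorem dm_vec (c : Fin (W.r i) → W.D i) (Z : Matrix (Fin (W.r i)) (Fin (W.r i)) (W.D i)) :
    Matrix.vecMul (∑ l, c l • w l) Z = ∑ l, c l • Matrix.vecMul (w l) Z := by
  rw [Matrix.sum_vecMul]
  exact sum_congr rfl fun l _ => Matrix.smul_vecMul _ _ _

/-- A bad vector gives a dependent tuple. -/
theorem dm_bad (hw : LinearIndependent (W.D i) w) {v : O → Bool} (hv : v ∈ badI W i) :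
    ¬ LinearIndependent (W.D i) (dm_y W i w v) := by
  obtain ⟨X, hX, hXZ⟩ := hv
  have h1 : ∃ k, X k ≠ 0 := by
    by_contra h
    push Not at h
    exact hX (by ext a b; rw [h a]; rfl)
  obtain ⟨k, hk⟩ := h1
  obtain ⟨c, hc⟩ := dm_exp W i hw (X k)
  intro hli
  have h2 : ∑ l, c l • dm_y W i w v l = 0 := by
    unfold dm_y
    rw [← dm_vec, hc]
    have h3 : Matrix.vecMul (X k) (W.comp i (sgnEl ℚ v)) = (X * W.comp i (sgnEl ℚ v)) k := by
      funext b
      rfl
    rw [h3, hXZ]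
    rfl
  have h4 := Fintype.linearIndependent_iff.1 hli c h2
  apply hk
  rw [← hc]
  exact sum_eq_zero fun l _ => by rw [h4 l, zero_smul]

/-- The rows determine the matrix. -/
theorem dm_inj (hw : LinearIndependent (W.D i) w) {v v' : O → Bool}
    (h : dm_y W i w v = dm_y W i w v') :
    W.comp i (sgnEl ℚ v) = W.comp i (sgnEl ℚ v') := by
  have h1 : ∀ u : Fin (W.r i) → W.D i, Matrix.vecMul u (W.comp i (sgnEl ℚ v)) =
      Matrix.vecMul u (W.comp i (sgnEl ℚ v')) := by
    intro u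
    obtain ⟨c, rfl⟩ := dm_exp W i hw u
    rw [dm_vec, dm_vec]
    exact sum_congr rfl fun l _ => by
      have := congrFun h l
      unfold dm_y at this
      rw [this]
  ext a b
  have h2 := congrFun (h1 (Pi.single a 1)) b
  rwa [Matrix.single_one_vecMul, Matrix.single_one_vecMul] at h2

end

theorem dm_exp_log {n : ℝ} (hn : 2 ≤ n) :
    Real.exp (-(Real.sqrt (4 * n * Real.log n) ^ 2) / (2 * n)) = n ^ (-2 : ℝ) := by
  have h0 : 0 < n := by linarith
  have h1 : 0 ≤ Real.log n := Real.log_nonneg (by linarith)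
  rw [Real.sq_sqrt (by positivity), Real.rpow_def_of_pos h0]
  congr 1
  field_simp
  ring

theorem dm_pow {n c : ℝ} (hn : 0 < n) (a : ℕ) :
    (c * Real.sqrt (a / n)) ^ a = (c * Real.sqrt a) ^ a * n ^ (-(a : ℝ) / 2) := by
  have h1 : Real.sqrt ((a : ℝ) / n) = Real.sqrt a * n ^ (-(1 : ℝ) / 2) := by
    rw [Real.sqrt_div (Nat.cast_nonneg a), div_eq_mul_inv]
    congr 1
    rw [Real.sqrt_eq_rpow, ← Real.rpow_neg hn.le]
    norm_num
  rw [h1, ← mul_assoc, mul_pow _ (n ^ (-(1 : ℝ) / 2)), ← Real.rpow_natCast (n ^ (-(1 : ℝ) / 2)),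
    ← Real.rpow_mul hn.le]
  congr 2
  ring

/-- PROOF. `a = W.a i = r ^ 2 δ`.  Take `j, w` from `exists_norm`, `y_l(v) = w l ᵥ* comp i (sgnEl v)`
`= ∑ ± w l ᵥ* comp i (single g 1) ∈ latL`.  If `v` is bad, some row `u ≠ 0` has
`u ᵥ* comp i (sgnEl v) = 0`; as the `w l` are a basis over `D i`, `u = ∑ λ_l w l`, and
`∑ λ_l y_l(v) = 0`, so `y(v)` is linearly dependent.  The vectors `x g = j (w l ᵥ* ...)` have norm one
and span a space of dimension at most `N = r δ = finrank ℚ (Fin r → D)`.  With `t ^ 2 = 4 n log n`: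
by `hoef`, `‖j (y_l(v))‖ ^ 2 ≤ R ^ 2 := N t ^ 2` for all `l`, except for at most
`r * 2 N n ^ (-2) * 2 ^ n` vectors `v`.  For the other bad `v`, `y(v)` is in the set of `count_dep`
(`R ≥ 1` for `n ≥ 2`), and for a given `y` there is at most one matrix `Z` with `w l ᵥ* Z = y l` for
all `l`, so at most `(C √(a / n)) ^ a * 2 ^ n` vectors `v` (`sup_comp`). -/
theorem badI_dep (r δ : ℕ) (hr : 2 ≤ r) (hδ : 2 ≤ δ) : ∃ C : ℝ, 0 < C ∧
    ∀ {O : Type u} [Group O] [Fintype O] (W : WD ℚ O) (i : Fin W.m), W.r i = r →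
      finrank ℚ (W.D i) = δ → 2 ≤ Fintype.card O →
    (((badI W i).ncard : ℕ) : ℝ) ≤ (C * (Fintype.card O : ℝ) ^ (-2 : ℝ) +
      C * ((Fintype.card O : ℝ) * Real.log (Fintype.card O)) ^
        (((r : ℝ) ^ 2 * δ - δ - 1 / r) / 2) *
        (Fintype.card O : ℝ) ^ (-((r : ℝ) ^ 2 * δ) / 2)) * 2 ^ Fintype.card O := by
  classical
  obtain ⟨C1, hC1, hcd⟩ := count_dep.{u, u} r δ hr hδ
  obtain ⟨C2, hC2, hsup⟩ := sup_comp.{u}
  set e : ℝ := (r : ℝ) ^ 2 * δ - δ - 1 / r with he
  set N : ℕ := r * δ with hN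
  set a : ℕ := r ^ 2 * δ with ha
  set C3 : ℝ := C1 * (4 * N : ℝ) ^ (e / 2) * (C2 * Real.sqrt a) ^ a with hC3
  have hNpos : (4 : ℝ) ≤ N := by
    have : 4 ≤ r * δ := by nlinarith
    exact_mod_cast this
  have hapos : (0 : ℝ) < a := by
    have : 0 < r ^ 2 * δ := by positivity
    exact_mod_cast this
  have hC3p : 0 < C3 := by
    have h1 : (0 : ℝ) < 4 * N := by linarith
    have h2 : 0 < Real.sqrt (a : ℝ) := Real.sqrt_pos.2 hapos
    positivity
  have hrN : (0 : ℝ) ≤ r * (2 * N) := by positivity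
  refine ⟨r * (2 * N) + C3, by linarith, ?_⟩
  intro O _ _ W i hri hδi hn
  have hai : W.a i = a := by
    unfold WD.a
    rw [hri, hδi]
  set n : ℝ := (Fintype.card O : ℝ) with hnd
  have hn2 : (2 : ℝ) ≤ n := by
    rw [hnd]
    exact_mod_cast hn
  have hn0 : 0 < n := by linarith
  have hlog : 0 < Real.log n := Real.log_pos (by linarith)
  have hlog2 : (1 / 2 : ℝ) ≤ Real.log n := by
    have h1 := Real.log_two_gt_d9
    have h2 := Real.log_le_log (by norm_num) hn2
    linarith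
  obtain ⟨κ, hκ, j, w, hw, hj1, hj2⟩ := exists_norm W i
  have hfr : finrank ℚ (Fin (W.r i) → W.D i) = N := by
    rw [Module.finrank_pi_fintype]
    simp only [sum_const, card_univ, Fintype.card_fin, smul_eq_mul]
    rw [hri, hδi]
  set t : ℝ := Real.sqrt (4 * n * Real.log n) with ht
  have ht2 : t ^ 2 = 4 * n * Real.log n := Real.sq_sqrt (by positivity)
  set R : ℝ := Real.sqrt (N * t ^ 2) with hR
  have hR1 : 1 ≤ R := by
    rw [hR, ht2]
    rw [Real.one_le_sqrt]
    nlinarith [mul_le_mul hn2 hlog2 (by norm_num) hn0.le]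
  -- the vectors with a long row
  have hS : ∀ l, ((univ.filter fun v : O → Bool =>
      N * t ^ 2 < ‖j (dm_y W i w v l)‖ ^ 2).card : ℝ) ≤ 2 * N * n ^ (-2 : ℝ) *
        2 ^ Fintype.card O := by
    intro l
    have h1 := hoef (fun g : O => j (dm_m W i w l g)) (fun g => (hj1 l g).le) (N := N)
      ((dm_span j (dm_m W i w l)).trans hfr.le) (t := t) (Real.sqrt_nonneg _)
    rw [← hnd, ht, dm_exp_log hn2, ← ht] at h1
    have h2 : ({v : O → Bool | N * t ^ 2 < ‖∑ g, (if v g then (1 : ℝ) else -1) •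
        (fun g : O => j (dm_m W i w l g)) g‖ ^ 2}.ncard : ℕ) =
        (univ.filter fun v : O → Bool => N * t ^ 2 < ‖j (dm_y W i w v l)‖ ^ 2).card := by
      rw [← Set.ncard_coe_finset]
      congr 1
      ext v
      simp only [Set.mem_ofPred_eq, coe_filter, mem_univ, true_and]
      rw [dm_j]
    rw [h2] at h1
    exact h1
  set Yd : Set (Fin (W.r i) → (Fin (W.r i) → W.D i)) :=
    {y | (∀ l, y l ∈ latL W i w ∧ ‖j (y l)‖ ≤ R) ∧ ¬ LinearIndependent (W.D i) y} with hYd
  have hYc : Yd.Finite ∧ ((Yd.ncard : ℕ) : ℝ) ≤ C1 * R ^ e := by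
    clear_value e
    subst hri
    exact hcd j (latL W i w) hδi hj2 hR1
  set TF : Finset (O → Bool) := univ.filter fun v => dm_y W i w v ∈ Yd with hTF
  have hT : (TF.card : ℝ) ≤ (C1 * R ^ e) * ((C2 * Real.sqrt (a / n)) ^ a *
      2 ^ Fintype.card O) := by
    have h1 := card_eq_sum_card_image (dm_y W i w) TF
    have h2 : (TF.card : ℝ) ≤ ∑ y ∈ TF.image (dm_y W i w), ((C2 * Real.sqrt (a / n)) ^ a *
        2 ^ Fintype.card O) := by
      rw [h1]
      push_cast
      refine sum_le_sum fun y hy => ?_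
      obtain ⟨v0, hv0, rfl⟩ := mem_image.1 hy
      have h3 := hsup W i (W.comp i (sgnEl ℚ v0))
      rw [hai] at h3
      refine le_trans ?_ h3
      rw [← Set.ncard_coe_finset]
      have h4 : ((TF.filter fun v => dm_y W i w v = dm_y W i w v0 : Finset (O → Bool)) :
          Set (O → Bool)) ⊆ {v | W.comp i (sgnEl ℚ v) = W.comp i (sgnEl ℚ v0)} := by
        intro v hv
        rw [mem_coe, mem_filter] at hv
        exact dm_inj W i hw hv.2
      exact_mod_cast Set.ncard_le_ncard h4 (Set.toFinite _)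
    rw [sum_const, nsmul_eq_mul] at h2
    refine h2.trans (mul_le_mul_of_nonneg_right ?_ (by positivity))
    refine le_trans ?_ hYc.2
    rw [← Set.ncard_coe_finset]
    have h5 : ((TF.image (dm_y W i w) : Finset _) : Set _) ⊆ Yd := by
      intro y hy
      rw [mem_coe, mem_image] at hy
      obtain ⟨v, hv, rfl⟩ := hy
      exact (mem_filter.1 hv).2
    exact_mod_cast Set.ncard_le_ncard h5 hYc.1
  -- the bad vectors
  have hsub : badI W i ⊆ ((univ.biUnion (fun l => univ.filter fun v : O → Bool =>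
      N * t ^ 2 < ‖j (dm_y W i w v l)‖ ^ 2) ∪ TF : Finset (O → Bool)) : Set (O → Bool)) := by
    intro v hv
    rw [mem_coe, mem_union]
    by_cases h1 : ∃ l, N * t ^ 2 < ‖j (dm_y W i w v l)‖ ^ 2
    · obtain ⟨l, hl⟩ := h1
      left
      exact mem_biUnion.2 ⟨l, mem_univ l, mem_filter.2 ⟨mem_univ v, hl⟩⟩
    · right
      push Not at h1
      refine mem_filter.2 ⟨mem_univ v, fun l => ⟨dm_mem W i w v l, ?_⟩, dm_bad W i hw hv⟩
      exact Real.le_sqrt_of_sq_le (h1 l)
  have hcard : (((badI W i).ncard : ℕ) : ℝ) ≤ (r * (2 * N * n ^ (-2 : ℝ) *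
      2 ^ Fintype.card O)) + (C1 * R ^ e) * ((C2 * Real.sqrt (a / n)) ^ a *
      2 ^ Fintype.card O) := by
    have h1 := Set.ncard_le_ncard hsub (Set.toFinite _)
    rw [Set.ncard_coe_finset] at h1
    have h2 := (h1.trans (card_union_le _ _))
    have h3 : (((univ.biUnion (fun l => univ.filter fun v : O → Bool =>
        N * t ^ 2 < ‖j (dm_y W i w v l)‖ ^ 2)).card : ℕ) : ℝ) ≤
        r * (2 * N * n ^ (-2 : ℝ) * 2 ^ Fintype.card O) := by
      have h4 : (((univ.biUnion (fun l => univ.filter fun v : O → Bool =>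
          N * t ^ 2 < ‖j (dm_y W i w v l)‖ ^ 2)).card : ℕ) : ℝ) ≤
          ∑ l, ((univ.filter fun v : O → Bool =>
            N * t ^ 2 < ‖j (dm_y W i w v l)‖ ^ 2).card : ℝ) := by
        exact_mod_cast card_biUnion_le
      refine h4.trans ((sum_le_sum fun l _ => hS l).trans ?_)
      rw [sum_const, card_univ, Fintype.card_fin, hri, nsmul_eq_mul]
    have h5 : (((badI W i).ncard : ℕ) : ℝ) ≤ (((univ.biUnion (fun l => univ.filter
        fun v : O → Bool => N * t ^ 2 < ‖j (dm_y W i w v l)‖ ^ 2)).card : ℕ) : ℝ) +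
        (TF.card : ℝ) := by
      exact_mod_cast h2
    linarith
  refine hcard.trans ?_
  have hRe : R ^ e = (4 * N : ℝ) ^ (e / 2) * (n * Real.log n) ^ (e / 2) := by
    rw [hR, ht2, Real.sqrt_eq_rpow, ← Real.rpow_mul (by positivity),
      ← Real.mul_rpow (by positivity) (by positivity)]
    congr 1
    · ring
    · ring
  have hpa := dm_pow (c := C2) hn0 a
  rw [hRe, hpa]
  have hae : (-(a : ℝ) / 2) = -((r : ℝ) ^ 2 * δ) / 2 := by
    rw [ha]
    push_cast
    ring
  rw [hae]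
  set A := (n * Real.log n) ^ (e / 2) with hA
  set B := n ^ (-((r : ℝ) ^ 2 * δ) / 2) with hB
  set G := n ^ (-2 : ℝ) with hG
  have hAp : 0 ≤ A := by positivity
  have hBp : 0 ≤ B := by positivity
  have hGp : 0 ≤ G := by positivity
  have h2p : (0 : ℝ) ≤ 2 ^ Fintype.card O := by positivity
  have e1 : r * (2 * N * G * 2 ^ Fintype.card O) + C1 * ((4 * N : ℝ) ^ (e / 2) * A) *
      ((C2 * Real.sqrt a) ^ a * B * 2 ^ Fintype.card O) =
      (r * (2 * N) * G + C3 * A * B) * 2 ^ Fintype.card O := by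
    rw [hC3]
    ring
  rw [e1]
  refine mul_le_mul_of_nonneg_right ?_ h2p
  have h6 : r * (2 * N) * G ≤ (r * (2 * N) + C3) * G :=
    mul_le_mul_of_nonneg_right (by linarith) hGp
  have h7 : C3 * A * B ≤ (r * (2 * N) + C3) * A * B :=
    mul_le_mul_of_nonneg_right (mul_le_mul_of_nonneg_right (by linarith) hAp) hBp
  linarith

end Pool.MP43e44c.OD
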