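import Mathlib

/-!
Group algebras of finite groups of odd order: definitions.
-/

set_option autoImplicit false

open Finset Module

namespace Pool.MP43e44c.OD

universe u

/-- The element of the group ring attached to a vector of signs. -/
noncomputable def sgnEl (R : Type*) [CommRing R] {O : Type*} [Group O] [Fintype O]
    (v : O → Bool) : MonoidAlgebra R O :=
  ∑ g, MonoidAlgebra.single g (if v g then (1 : R) else -1)

/-- The element of the group ring attached to a vector of zeros and ones. -/
noncomputable def bEl (R : Type*) [CommRing R] {O : Type*} [Group O] [Fintype O]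
    (v : O → Bool) : MonoidAlgebra R O :=
  ∑ g, MonoidAlgebra.single g (if v g then (0 : R) else 1)

/-- The sum of the group elements. -/
noncomputable def sEl (R : Type*) [CommRing R] (O : Type*) [Group O] [Fintype O] :
    MonoidAlgebra R O :=
  ∑ g, MonoidAlgebra.single g (1 : R)

section Basic

variable {R S : Type*} [CommRing R] [CommRing S] {O : Type*} [Group O]

theorem coeff_sum' {ι : Type*} (s : Finset ι) (f : ι → MonoidAlgebra R O) (g : O) :
    (∑ i ∈ s, f i).coeff g = ∑ i ∈ s, (f i).coeff g := by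
  classical
  induction s using Finset.induction_on with
  | empty => simp
  | insert a s ha ih => rw [sum_insert ha, sum_insert ha, ← ih]; rfl

variable [Fintype O]

theorem sgnEl_coeff (v : O → Bool) (g : O) :
    (sgnEl R v).coeff g = if v g then (1 : R) else -1 := by
  classical
  unfold sgnEl
  rw [coeff_sum', sum_eq_single g]
  · simp
  · intro b _ hb
    simp [Finsupp.single_apply, hb]
  · intro h
    exact absurd (mem_univ g) h

theorem bEl_coeff (v : O → Bool) (g : O) :
    (bEl R v).coeff g = if v g then (0 : R) else 1 := by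
  classical
  unfold bEl
  rw [coeff_sum', sum_eq_single g]
  · simp
  · intro b _ hb
    simp [Finsupp.single_apply, hb]
  · intro h
    exact absurd (mem_univ g) h

theorem sEl_coeff (g : O) : (sEl R O).coeff g = (1 : R) := by
  classical
  unfold sEl
  rw [coeff_sum', sum_eq_single g]
  · simp
  · intro b _ hb
    simp [Finsupp.single_apply, hb]
  · intro h
    exact absurd (mem_univ g) h

theorem ma_ext {x y : MonoidAlgebra R O} (h : ∀ g, x.coeff g = y.coeff g) : x = y := by
  ext g
  exact h g

theorem sgnEl_eq (v : O → Bool) : sgnEl R v = sEl R O - (2 : R) • bEl R v := by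
  apply ma_ext
  intro g
  have h1 : (sEl R O - (2 : R) • bEl R v).coeff g
      = (sEl R O).coeff g - 2 * (bEl R v).coeff g := rfl
  rw [h1, sgnEl_coeff, sEl_coeff, bEl_coeff]
  by_cases h : v g <;> simp [h]
  norm_num

theorem map_sgnEl (f : R →+* S) (v : O → Bool) :
    MonoidAlgebra.mapRingHom O f (sgnEl R v) = sgnEl S v := by
  apply ma_ext
  intro g
  rw [MonoidAlgebra.coeff_mapRingHom, sgnEl_coeff, sgnEl_coeff]
  by_cases h : v g <;> simp [h]

theorem map_bEl (f : R →+* S) (v : O → Bool) :
    MonoidAlgebra.mapRingHom O f (bEl R v) = bEl S v := by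
  apply ma_ext
  intro g
  rw [MonoidAlgebra.coeff_mapRingHom, bEl_coeff, bEl_coeff]
  by_cases h : v g <;> simp [h]

theorem map_sEl (f : R →+* S) :
    MonoidAlgebra.mapRingHom O f (sEl R O) = sEl S O := by
  apply ma_ext
  intro g
  rw [MonoidAlgebra.coeff_mapRingHom, sEl_coeff, sEl_coeff, map_one]

/-- The augmentation. -/
noncomputable def aug (x : MonoidAlgebra R O) : R := ∑ g, x.coeff g

theorem coeff_mul_left (x y : MonoidAlgebra R O) (g : O) :
    (x * y).coeff g = ∑ h, x.coeff h * y.coeff (h⁻¹ * g) := by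
  classical
  induction x using MonoidAlgebra.induction_linear with
  | zero => simp
  | add a b ha hb =>
    rw [add_mul]
    have h1 : (a * y + b * y).coeff g = (a * y).coeff g + (b * y).coeff g := rfl
    rw [h1, ha, hb, ← sum_add_distrib]
    refine sum_congr rfl fun h _ => ?_
    have h2 : (a + b).coeff h = a.coeff h + b.coeff h := rfl
    rw [h2, add_mul]
  | single a r =>
    rw [sum_eq_single a]
    · rw [MonoidAlgebra.coeff_single, Finsupp.single_eq_same, MonoidAlgebra.coeff_single_mul_apply]
    · intro b _ hb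
      rw [MonoidAlgebra.coeff_single, Finsupp.single_eq_of_ne' hb.symm, zero_mul]
    · intro h
      exact absurd (mem_univ a) h

theorem aug_mul (x y : MonoidAlgebra R O) : aug (x * y) = aug x * aug y := by
  unfold aug
  simp only [coeff_mul_left]
  rw [sum_comm, sum_mul]
  refine sum_congr rfl fun h _ => ?_
  rw [← mul_sum]
  congr 1
  exact Equiv.sum_comp (Equiv.mulLeft h⁻¹) fun g => y.coeff g

theorem mul_sEl (x : MonoidAlgebra R O) : x * sEl R O = aug x • sEl R O := by
  apply ma_ext
  intro g
  have h1 : (aug x • sEl R O).coeff g = aug x * (sEl R O).coeff g := rfl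
  rw [h1, coeff_mul_left, sEl_coeff, mul_one]
  unfold aug
  exact sum_congr rfl fun h _ => by rw [sEl_coeff, mul_one]

theorem sEl_mul (x : MonoidAlgebra R O) : sEl R O * x = aug x • sEl R O := by
  apply ma_ext
  intro g
  have h1 : (aug x • sEl R O).coeff g = aug x * (sEl R O).coeff g := rfl
  rw [h1, coeff_mul_left, sEl_coeff, mul_one]
  unfold aug
  rw [← Equiv.sum_comp ((Equiv.inv O).trans (Equiv.mulRight g)) fun h => x.coeff h]
  exact sum_congr rfl fun h _ => by rw [sEl_coeff, one_mul]; rfl

theorem map_coeff (f : R →+* S) (x : MonoidAlgebra R O) (g : O) :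
    (MonoidAlgebra.mapRingHom O f x).coeff g = f (x.coeff g) := MonoidAlgebra.coeff_mapRingHom _ _ _

theorem map_aug (f : R →+* S) (x : MonoidAlgebra R O) :
    aug (MonoidAlgebra.mapRingHom O f x) = f (aug x) := by
  unfold aug
  rw [map_sum]
  exact sum_congr rfl fun g _ => map_coeff f x g

end Basic

section Red

variable {O : Type*} [Group O]

/-- The inclusion of the integral group ring. -/
noncomputable def toQ : MonoidAlgebra ℤ O →+* MonoidAlgebra ℚ O :=
  MonoidAlgebra.mapRingHom O (Int.castRingHom ℚ)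

/-- The reduction modulo `p`. -/
noncomputable def toP (p : ℕ) : MonoidAlgebra ℤ O →+* MonoidAlgebra (ZMod p) O :=
  MonoidAlgebra.mapRingHom O (Int.castRingHom (ZMod p))

theorem toQ_coeff (x : MonoidAlgebra ℤ O) (g : O) : (toQ x).coeff g = (x.coeff g : ℚ) :=
  MonoidAlgebra.coeff_mapRingHom _ _ _

theorem toP_coeff (p : ℕ) (x : MonoidAlgebra ℤ O) (g : O) :
    (toP p x).coeff g = (x.coeff g : ZMod p) := MonoidAlgebra.coeff_mapRingHom _ _ _

variable [Fintype O]

theorem toQ_inj : Function.Injective (toQ : MonoidAlgebra ℤ O →+* MonoidAlgebra ℚ O) := by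
  intro x y h
  apply ma_ext
  intro g
  have h1 := congrArg (fun z => z.coeff g) h
  simp only [toQ_coeff] at h1
  exact_mod_cast h1

/-- An element with given coefficients. -/
noncomputable def ofFun {R : Type*} [CommRing R] (f : O → R) : MonoidAlgebra R O :=
  ∑ g, MonoidAlgebra.single g (f g)

theorem ofFun_coeff {R : Type*} [CommRing R] (f : O → R) (g : O) : (ofFun f).coeff g = f g := by
  classical
  unfold ofFun
  rw [coeff_sum', sum_eq_single g]
  · simp
  · intro b _ hb
    simp [hb]
  · intro h
    exact absurd (mem_univ g) h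

theorem toP_surj (p : ℕ) : Function.Surjective
    (toP p : MonoidAlgebra ℤ O →+* MonoidAlgebra (ZMod p) O) := by
  intro y
  have h : ∀ g, ∃ a : ℤ, (a : ZMod p) = y.coeff g := fun g => ZMod.intCast_surjective _
  choose a ha using h
  refine ⟨ofFun a, ?_⟩
  apply ma_ext
  intro g
  rw [toP_coeff, ofFun_coeff, ha]

theorem toP_eq_zero {p : ℕ} {x : MonoidAlgebra ℤ O} (h : toP p x = 0) :
    ∃ y : MonoidAlgebra ℤ O, x = (p : ℤ) • y := by
  have h1 : ∀ g, ∃ a : ℤ, x.coeff g = (p : ℤ) * a := by
    intro g
    have h2 := congrArg (fun z => z.coeff g) h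
    simp only [toP_coeff] at h2
    have h3 : (0 : MonoidAlgebra (ZMod p) O).coeff g = 0 := rfl
    rw [h3, ZMod.intCast_zmod_eq_zero_iff_dvd] at h2
    exact h2
  choose a ha using h1
  refine ⟨ofFun a, ?_⟩
  apply ma_ext
  intro g
  have h2 : ((p : ℤ) • ofFun a : MonoidAlgebra ℤ O).coeff g = (p : ℤ) * (ofFun a).coeff g := rfl
  rw [ha, h2, ofFun_coeff]

/-- A rational element has an integral multiple. -/
theorem exists_int_mul (x : MonoidAlgebra ℚ O) : ∃ N : ℕ, 0 < N ∧ ∃ y : MonoidAlgebra ℤ O,
    toQ y = (N : ℚ) • x := by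
  refine ⟨∏ g, (x.coeff g).den, prod_pos fun g _ => (x.coeff g).pos, ?_⟩
  have h : ∀ g, ∃ a : ℤ, (a : ℚ) = ((∏ h, (x.coeff h).den : ℕ) : ℚ) * x.coeff g := by
    intro g
    obtain ⟨c, hc⟩ := dvd_prod_of_mem (fun h => (x.coeff h).den) (mem_univ g)
    refine ⟨(c : ℤ) * (x.coeff g).num, ?_⟩
    rw [hc]
    have h1 : (x.coeff g).num = (x.coeff g) * ((x.coeff g).den : ℚ) := by
      rw [Rat.mul_den_eq_num]
    push_cast
    rw [h1]
    ring
  choose a ha using h
  refine ⟨ofFun a, ?_⟩
  apply ma_ext
  intro g
  have h2 : (((∏ h, (x.coeff h).den : ℕ) : ℚ) • x).coeff g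
    = ((∏ h, (x.coeff h).den : ℕ) : ℚ) * x.coeff g := rfl
  rw [toQ_coeff, ofFun_coeff, h2, ha]

end Red

/-- A Wedderburn decomposition of the group algebra. -/
structure WD (k : Type) [Field k] (O : Type u) [Group O] [Fintype O] where
  /-- the number of components -/
  m : ℕ
  /-- the division rings -/
  D : Fin m → Type u
  /-- the sizes -/
  r : Fin m → ℕ
  dr : ∀ i, DivisionRing (D i)
  al : ∀ i, Algebra k (D i)
  fin : ∀ i, Module.Finite k (D i)
  nz : ∀ i, NeZero (r i)
  /-- the isomorphism -/
  φ : MonoidAlgebra k O ≃ₐ[k] (Π i, Matrix (Fin (r i)) (Fin (r i)) (D i))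

namespace WD

variable {k : Type} [Field k] {O : Type u} [Group O] [Fintype O] (W : WD k O)

instance (i : Fin W.m) : DivisionRing (W.D i) := W.dr i
instance (i : Fin W.m) : Algebra k (W.D i) := W.al i
instance (i : Fin W.m) : Module.Finite k (W.D i) := W.fin i
instance (i : Fin W.m) : NeZero (W.r i) := W.nz i

/-- The components of the Wedderburn decomposition. -/
noncomputable def comp (i : Fin W.m) :
    MonoidAlgebra k O →ₐ[k] Matrix (Fin (W.r i)) (Fin (W.r i)) (W.D i) :=
  (Pi.evalAlgHom k (fun i => Matrix (Fin (W.r i)) (Fin (W.r i)) (W.D i)) i).comp W.φ.toAlgHom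

/-- The central idempotents. -/
noncomputable def e (i : Fin W.m) : MonoidAlgebra k O := W.φ.symm (Pi.single i 1)

/-- The dimension of a component. -/
noncomputable def a (i : Fin W.m) : ℕ := W.r i ^ 2 * finrank k (W.D i)

/-- The dimension of the center of a component. -/
noncomputable def f (i : Fin W.m) : ℕ := finrank k (Subalgebra.center k (W.D i))

/-- The component is nontrivial. -/
def NT (i : Fin W.m) : Prop := W.comp i (sEl k O) = 0

theorem comp_apply (i : Fin W.m) (x : MonoidAlgebra k O) : W.comp i x = W.φ x i := rfl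

end WD

/-- The sign vectors which are bad for a component. -/
def badI {O : Type u} [Group O] [Fintype O] (W : WD ℚ O) (i : Fin W.m) : Set (O → Bool) :=
  {v | ∃ X : Matrix (Fin (W.r i)) (Fin (W.r i)) (W.D i), X ≠ 0 ∧
    X * W.comp i (sgnEl ℚ v) = 0}

/-- The component `j` modulo `p` lies below the component `i`. -/
def Below {p : ℕ} [Fact p.Prime] {O : Type u} [Group O] [Fintype O] (W : WD ℚ O)
    (P : WD (ZMod p) O) (i : Fin W.m) (j : Fin P.m) : Prop :=
  ∃ x : MonoidAlgebra ℤ O, toQ x * W.e i = toQ x ∧ P.comp j (toP p x) ≠ 0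

end Pool.MP43e44c.OD
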