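import Pool.Agent.H.MP_43e44c_ag.OD.FldA

/-!
Cubic subfields.
-/

set_option autoImplicit false

open Finset Module NumberField

namespace Pool.MP43e44c.OD

/-- The subgroup generated by `H` and the central involution `c`. -/
def FldC_sup {G : Type*} [Group G] (H : Subgroup G) (c : G) (hcc : c * c = 1)
    (hcen : ∀ g, c * g = g * c) : Subgroup G where
  carrier := {g | g ∈ H ∨ c * g ∈ H}
  one_mem' := Or.inl H.one_mem
  mul_mem' := by
    rintro a b (ha | ha) (hb | hb)
    · exact Or.inl (H.mul_mem ha hb)
    · refine Or.inr ?_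
      have h1 := H.mul_mem ha hb
      have h2 : c * (a * b) = a * (c * b) := by
        rw [← mul_assoc, hcen a, mul_assoc]
      rw [h2]
      exact h1
    · refine Or.inr ?_
      have h1 := H.mul_mem ha hb
      rw [← mul_assoc]
      exact h1
    · refine Or.inl ?_
      have h1 := H.mul_mem ha hb
      have h2 : c * a * (c * b) = a * b := by
        rw [hcen a, mul_assoc, ← mul_assoc c c b, hcc, one_mul]
      rw [h2] at h1
      exact h1
  inv_mem' := by
    rintro a (ha | ha)
    · exact Or.inl (H.inv_mem ha)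
    · refine Or.inr ?_
      have h1 := H.inv_mem ha
      have h3 : c⁻¹ = c := inv_eq_of_mul_eq_one_right hcc
      rw [mul_inv_rev, h3, ← hcen] at h1
      exact h1

theorem FldC_mem_sup {G : Type*} [Group G] {H : Subgroup G} {c : G} {hcc : c * c = 1}
    {hcen : ∀ g, c * g = g * c} {g : G} :
    g ∈ FldC_sup H c hcc hcen ↔ g ∈ H ∨ c * g ∈ H := Iff.rfl

theorem FldC_index {G : Type*} [Group G] (O : Subgroup G) (hO : O.index = 2) {c : G}
    (hc : c ∉ O) (hcc : c * c = 1) (hcen : ∀ g, c * g = g * c) (H : Subgroup O)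
    (hH : H.index = 3) : (FldC_sup (H.map O.subtype) c hcc hcen).index = 3 := by
  set H₁ : Subgroup G := H.map O.subtype with hH₁
  have hle1 : H₁ ≤ O := Subgroup.map_subtype_le H
  have hle2 : H₁ ≤ FldC_sup H₁ c hcc hcen := fun g hg => Or.inl hg
  have hcH : c ∉ H₁ := fun h => hc (hle1 h)
  have h1 : H₁.relIndex (FldC_sup H₁ c hcc hcen) = 2 := by
    unfold Subgroup.relIndex
    rw [Subgroup.index_eq_two_iff_exists_notMem_and']
    refine ⟨⟨c, Or.inr (by rw [hcc]; exact H₁.one_mem)⟩, ?_, ?_⟩
    · rw [Subgroup.mem_subgroupOf]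
      exact hcH
    · rintro ⟨b, hb | hb⟩
      · right
        rw [Subgroup.mem_subgroupOf]
        exact hb
      · left
        rw [Subgroup.mem_subgroupOf]
        exact hb
  have h2 := Subgroup.relIndex_mul_index hle1
  have h3 := Subgroup.relIndex_mul_index hle2
  have h4 : H₁.relIndex O = 3 := by
    unfold Subgroup.relIndex
    have h5 : H₁.subgroupOf O = H := by
      ext x
      rw [Subgroup.mem_subgroupOf, hH₁, Subgroup.mem_map]
      constructor
      · rintro ⟨y, hy, hxy⟩
        have : y = x := Subtype.ext hxy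
        rw [← this]
        exact hy
      · intro hx
        exact ⟨x, hx, rfl⟩
    rw [h5, hH]
  rw [h1] at h3
  rw [h4, hO] at h2
  omega

theorem FldC_inj {G : Type*} [Group G] (O : Subgroup G) {c : G}
    (hc : c ∉ O) (hcc : c * c = 1) (hcen : ∀ g, c * g = g * c) {H H' : Subgroup O}
    (h : FldC_sup (H.map O.subtype) c hcc hcen = FldC_sup (H'.map O.subtype) c hcc hcen) :
    H = H' := by
  have key : ∀ {A B : Subgroup O}, FldC_sup (A.map O.subtype) c hcc hcen =
      FldC_sup (B.map O.subtype) c hcc hcen → A ≤ B := by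
    intro A B hAB x hx
    have h1 : (x : G) ∈ FldC_sup (A.map O.subtype) c hcc hcen :=
      Or.inl (Subgroup.mem_map.2 ⟨x, hx, rfl⟩)
    rw [hAB, FldC_mem_sup] at h1
    rcases h1 with h1 | h1
    · obtain ⟨y, hy, hxy⟩ := Subgroup.mem_map.1 h1
      have : y = x := Subtype.ext hxy
      rw [← this]
      exact hy
    · exfalso
      have h2 : c * (x : G) ∈ O := Subgroup.map_subtype_le B h1
      exact hc ((Subgroup.mul_mem_cancel_right O x.2).1 h2)
  exact le_antisymm (key h) (key h.symm)

/-- The Galois closure of a Galois field is the field. -/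
theorem FldC_equiv (K : Type*) [Field K] [NumberField K] [IsGalois ℚ K] :
    Nonempty (GC K ≃ₐ[ℚ] K) := by
  haveI : IsNormalClosure ℚ K K := by
    refine ⟨fun x => Normal.splits inferInstance x, ?_⟩
    rw [eq_top_iff]
    intro x _
    have h1 : x ∈ IntermediateField.adjoin ℚ ((minpoly ℚ x).rootSet K) := by
      apply IntermediateField.subset_adjoin
      rw [Polynomial.mem_rootSet]
      exact ⟨minpoly.ne_zero (Algebra.IsIntegral.isIntegral x), minpoly.aeval ℚ x⟩
    exact (le_iSup (fun x : K => IntermediateField.adjoin ℚ ((minpoly ℚ x).rootSet K)) x) h1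
  exact ⟨IsNormalClosure.equiv (F := ℚ) (K := K)⟩

/-- PROOF. For `H ≤ O` of index `3` let `H' = H ⊔ ⟨c⟩ ≤ GG K`, of index `3` in `GG K`
(`H' ⊓ O = H`, so `H ↦ H'` is injective).  The fixed field of `H'` in `GC K` has degree `3`
(`IntermediateField.finrank_fixedField_eq_card` and the tower law, or
`IsGalois` correspondence `IsGalois.intermediateFieldEquivSubgroup`), and `GC K` is isomorphic to
`K` (`K` is Galois), so `IntermediateField ℚ (GC K) ≃ IntermediateField ℚ K`
(`IntermediateField.intermediateFieldMap` or `.map`, degrees are preserved). -/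
theorem cubic_le.{u} {K : Type u} [Field K] [NumberField K] [IsCMField K] [IsGalois ℚ K]
    {n : ℕ} (hK : finrank ℚ K = 2 * n) (O : Subgroup (GG K)) (hO : O.index = 2) {c : GG K}
    (hc : c ∉ O) (hcc : c * c = 1) (hcen : ∀ g, c * g = g * c) :
    {H : Subgroup O | H.index = 3}.ncard ≤
      {F : IntermediateField ℚ K | finrank ℚ F = 3}.ncard := by
  obtain ⟨e⟩ := FldC_equiv K
  haveI : FiniteDimensional ℚ (GC K) := e.symm.toLinearEquiv.finiteDimensional
  have hfin : Finite (IntermediateField ℚ K) := by
    rw [← Field.exists_primitive_element_iff_finite_intermediateField]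
    exact ⟨inferInstance, Field.exists_primitive_element ℚ K⟩
  refine Set.ncard_le_ncard_of_injOn
    (fun H : Subgroup O => (IntermediateField.fixedField
      (FldC_sup (H.map O.subtype) c hcc hcen)).map (e : GC K →ₐ[ℚ] K)) ?_ ?_ (Set.toFinite _)
  · intro H hH
    have h1 := FldC_index O hO hc hcc hcen H hH
    set S := FldC_sup (H.map O.subtype) c hcc hcen with hS
    show finrank ℚ ((IntermediateField.fixedField S).map (e : GC K →ₐ[ℚ] K)) = 3
    have h2 : finrank ℚ ((IntermediateField.fixedField S).map (e : GC K →ₐ[ℚ] K)) =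
        finrank ℚ (IntermediateField.fixedField S) :=
      ((IntermediateField.fixedField S).equivMap (e : GC K →ₐ[ℚ] K)).toLinearEquiv.finrank_eq.symm
    rw [h2]
    have h3 := IntermediateField.finrank_fixedField_eq_card S
    have h4 := finrank_mul_finrank ℚ (IntermediateField.fixedField S) (GC K)
    have h5 : Nat.card (GG K) = finrank ℚ (GC K) := IsGalois.card_aut_eq_finrank ℚ (GC K)
    have h6 := Subgroup.card_mul_index S
    rw [h3, ← h5, ← h6, h1] at h4
    have h7 : 0 < Nat.card S := Nat.card_pos
    rw [mul_comm] at h4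
    exact Nat.eq_of_mul_eq_mul_left h7 h4
  · intro H _ H' _ hHH
    have h1 := IntermediateField.map_injective (e : GC K →ₐ[ℚ] K) hHH
    have h2 : FldC_sup (H.map O.subtype) c hcc hcen = FldC_sup (H'.map O.subtype) c hcc hcen := by
      rw [← IntermediateField.fixingSubgroup_fixedField (FldC_sup (H.map O.subtype) c hcc hcen),
        h1, IntermediateField.fixingSubgroup_fixedField]
    exact FldC_inj O hc hcc hcen h2

end Pool.MP43e44c.OD
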