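import Pool.Agent.H.MP_43e44c_ag.OD.Uni
import Pool.Agent.H.MP_43e44c_ag.OD.BMain
import Pool.Agent.H.MP_43e44c_ag.OD.DSml
import Pool.Agent.H.MP_43e44c_ag.OD.Asm2
import Pool.Agent.H.MP_43e44c_ag.OD.FldC

/-!
Galois CM fields of odd half degree: the upper bound.
-/

set_option autoImplicit false

open Finset Module NumberField

namespace Pool.MP43e44c.OD

/-- The augmentation of a vector of signs is odd. -/
theorem fin_aug_ne {O : Type} [Group O] [Fintype O] (hO : Odd (Fintype.card O)) (v : O → Bool) :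
    aug (sgnEl ℚ v) ≠ 0 := by
  intro h
  have h1 : aug (sgnEl ℚ v) = ((aug (sgnEl ℤ v) : ℤ) : ℚ) := by
    rw [← map_sgnEl (Int.castRingHom ℚ) v, map_aug]
    rfl
  have h2 : aug (sgnEl ℤ v) = 0 := by
    rw [h] at h1
    exact_mod_cast h1.symm
  have h3 : aug (sgnEl (ZMod 2) v) = 0 := by
    rw [← map_sgnEl (Int.castRingHom (ZMod 2)) v, map_aug, h2, map_zero]
  have h4 : aug (sgnEl (ZMod 2) v) = (Fintype.card O : ZMod 2) := by
    unfold aug
    have h5 : ∀ g : O, (sgnEl (ZMod 2) v).coeff g = 1 := by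
      intro g
      rw [sgnEl_coeff]
      by_cases hv : v g
      · rw [if_pos hv]
      · rw [if_neg hv]
        decide
    simp only [h5]
    simp
  rw [h3] at h4
  have h6 : ((Fintype.card O : ℕ) : ZMod 2) = 0 := h4.symm
  rw [ZMod.natCast_eq_zero_iff] at h6
  obtain ⟨k, hk⟩ := hO
  omega

/-- `x * sgnEl v = 0` with `x ≠ 0`: `aug (sgnEl v)` is odd, so `aug x = 0` (`aug_mul`), so
`x * s = 0`, and a component `i` with `comp i x ≠ 0` has `comp i s = 0`, because `comp i s` is a scalar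
(`s` central, `comp_central`) with `comp i x * comp i s = 0`. -/
theorem badV_subset {O : Type} [Group O] [Fintype O] (hO : Odd (Fintype.card O)) (W : WD ℚ O) :
    badV O ⊆ ⋃ i ∈ {i : Fin W.m | W.NT i}, badI W i := by
  rintro v ⟨x, hx, hxv⟩
  have h1 : aug x = 0 := by
    have h2 := aug_mul x (sgnEl ℚ v)
    rw [hxv] at h2
    have h3 : aug (0 : MonoidAlgebra ℚ O) = 0 := by
      unfold aug
      exact sum_eq_zero fun g _ => rfl
    rw [h3] at h2
    rcases mul_eq_zero.1 h2.symm with h4 | h4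
    · exact h4
    · exact absurd h4 (fin_aug_ne hO v)
  have h5 : ∃ i, W.comp i x ≠ 0 := by
    by_contra hne
    push Not at hne
    apply hx
    apply W.comp_inj
    intro i
    rw [hne i, map_zero]
  obtain ⟨i, hi⟩ := h5
  have h6 : W.NT i := by
    by_contra hni
    apply hi
    rw [comp_of_not_NT W hni x, h1, zero_smul]
  rw [Set.mem_iUnion₂]
  refine ⟨i, h6, W.comp i x, hi, ?_⟩
  rw [← map_mul, hxv, map_zero]

/-- The number of the elements of a union. -/
theorem fin_ncard_union {α ι : Type} [Finite α] [Fintype ι] (s : ι → Set α) (t : Set α)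
    (h : t ⊆ ⋃ i, s i) : t.ncard ≤ ∑ i, (s i).ncard := by
  classical
  haveI := Fintype.ofFinite α
  have h1 : t.ncard ≤ (⋃ i, s i).ncard := Set.ncard_le_ncard h (Set.toFinite _)
  refine h1.trans ?_
  have h2 : (⋃ i, s i) = ((Finset.univ.biUnion fun i => (s i).toFinset : Finset α) : Set α) := by
    ext x
    simp
  rw [h2, Set.ncard_coe_finset]
  refine Finset.card_biUnion_le.trans ?_
  refine sum_le_sum fun i _ => ?_
  rw [Set.ncard_eq_toFinset_card' (s i)]

/-- The group theoretic form: `assemble` with `I = {i // W.NT i}`; `badI_le_A`, `badI_le_B`,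
`two_le_f`, `badI_two`, `card_two_le`, `badI_small` (`f ≤ finrank ℚ (D i)`). -/
theorem group_upper : ∃ C : ℝ, 0 < C ∧ ∀ η : ℝ, 0 < η → ∃ n₀ : ℕ,
    ∀ {O : Type} [Group O] [Fintype O], Odd (Fintype.card O) → n₀ ≤ Fintype.card O →
    (((badV O).ncard : ℕ) : ℝ) ≤ (C * ({H : Subgroup O | H.index = 3}.ncard : ℕ) /
      Fintype.card O + η) * 2 ^ Fintype.card O := by
  classical
  obtain ⟨C₁, hC₁, h2⟩ := badI_two.{0}
  choose C₂ hC₂ c₂ hc₂ hsmall using badI_small.{0}
  refine ⟨C₁, hC₁, ?_⟩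
  intro η hη
  obtain ⟨n₀, hn₀⟩ := assemble hC₁ hC₂ hc₂ hη
  refine ⟨n₀, ?_⟩
  intro O _ _ hO hn
  have hcard : Fintype.card O ≠ 0 := by
    obtain ⟨k, hk⟩ := hO
    omega
  obtain ⟨W⟩ := exists_wd ℚ O (by exact_mod_cast hcard)
  have h2n : (0 : ℝ) < 2 ^ Fintype.card O := by positivity
  set n := Fintype.card O with hndef
  let I := {i : Fin W.m // W.NT i}
  let B : I → ℝ := fun i => ((badI W i.1).ncard : ℝ) / 2 ^ n
  have hBmul : ∀ i : I, B i * 2 ^ n = ((badI W i.1).ncard : ℝ) := fun i =>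
    div_mul_cancel₀ _ h2n.ne'
  have hBle : ∀ (i : I) (y : ℝ), ((badI W i.1).ncard : ℝ) ≤ y * 2 ^ n → B i ≤ y := by
    intro i y hy
    exact (div_le_iff₀ h2n).2 hy
  have key := hn₀ n hn (I := I) (fun i => W.a i.1) (fun i => W.f i.1) B
    ({H : Subgroup O | H.index = 3}.ncard) ?_ ?_ ?_ ?_ ?_
  · have h3 : (badV O).ncard ≤ ∑ i : I, (badI W i.1).ncard := by
      apply fin_ncard_union
      intro v hv
      have h4 := badV_subset hO W hv
      rw [Set.mem_iUnion₂] at h4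
      obtain ⟨i, hi, hvi⟩ := h4
      exact Set.mem_iUnion.2 ⟨⟨i, hi⟩, hvi⟩
    have h5 : ((badV O).ncard : ℝ) ≤ ∑ i : I, ((badI W i.1).ncard : ℝ) := by exact_mod_cast h3
    refine h5.trans ?_
    have h6 : ∑ i : I, ((badI W i.1).ncard : ℝ) = (∑ i, B i) * 2 ^ n := by
      rw [sum_mul]
      exact sum_congr rfl fun i _ => (hBmul i).symm
    rw [h6]
    exact mul_le_mul_of_nonneg_right key h2n.le
  · -- the sum of the dimensions
    have h3 : ∑ i : I, W.a i.1 = ∑ i ∈ univ.filter (fun i : Fin W.m => W.NT i), W.a i :=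
      (Finset.sum_subtype_eq_sum_filter (s := univ) (p := fun i => W.NT i) (f := W.a)).symm ▸ by
        rw [Finset.subtype_univ]
    rw [h3, hndef, ← W.sum_a]
    exact sum_le_sum_of_subset (filter_subset _ _)
  · intro i
    refine ⟨by positivity, two_le_f hO W i.2, W.f_le_a i.1, ?_, ?_⟩
    · exact hBle i _ (badI_le_A hO W i.2)
    · intro p hp hp2 hpn hle
      haveI : Fact p.Prime := ⟨hp⟩
      exact hBle i _ (badI_le_B hp2 hpn W i.1 hle)
  · intro i hi
    exact hBle i _ (h2 W i.1 hi)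
  · refine le_trans ?_ (card_two_le hO W)
    rw [← Set.ncard_image_of_injective {i : I | W.a i.1 = 2} Subtype.val_injective]
    apply Set.ncard_le_ncard _ (Set.toFinite _)
    rintro _ ⟨i, hi, rfl⟩
    exact hi
  · intro Δ i h3 hΔ
    apply hBle
    exact hsmall Δ W i.1 ((two_le_f hO W i.2).trans (W.f_le_finrank i.1)) h3 hΔ

theorem odd_upper.{u} : ∃ C : ℝ, 0 < C ∧ ∀ η : ℝ, 0 < η → ∃ n₀ : ℕ,
    ∀ {K : Type u} [Field K] [NumberField K] [IsCMField K] [IsGalois ℚ K] {n : ℕ},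
    finrank ℚ K = 2 * n → Odd n → n₀ ≤ n →
    ({Φ : Finset (K →+* ℂ) | IsCMType Φ ∧ ¬ HodgeRingGeneratedByDivisors Φ}.ncard : ℝ)
      ≤ (C * {F : IntermediateField ℚ K | finrank ℚ F = 3}.ncard / n + η) * 2 ^ n := by
  obtain ⟨C, hC, hmain⟩ := group_upper
  refine ⟨C, hC, ?_⟩
  intro η hη
  obtain ⟨n₀, hn₀⟩ := hmain η hη
  refine ⟨n₀, ?_⟩
  intro K _ _ _ _ n hK hn hnn
  obtain ⟨O, hfin, hcard, hidx, ⟨c, hc, hcc, hcen⟩, hle⟩ := field_red hK hn
  have h1 := hn₀ (O := O) (by rw [hcard]; exact hn) (by rw [hcard]; exact hnn)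
  rw [hcard] at h1
  have h2 := cubic_le hK O hidx hc hcc hcen
  have h3 : ({H : Subgroup O | H.index = 3}.ncard : ℝ) ≤
      ({F : IntermediateField ℚ K | finrank ℚ F = 3}.ncard : ℝ) := by exact_mod_cast h2
  have h4 : ({Φ : Finset (K →+* ℂ) | IsCMType Φ ∧ ¬ HodgeRingGeneratedByDivisors Φ}.ncard : ℝ) ≤
      ((badV O).ncard : ℝ) := by exact_mod_cast hle
  refine h4.trans (h1.trans ?_)
  apply mul_le_mul_of_nonneg_right _ (by positivity)
  have h5 : C * ({H : Subgroup O | H.index = 3}.ncard : ℝ) / n ≤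
      C * ({F : IntermediateField ℚ K | finrank ℚ F = 3}.ncard : ℝ) / n := by
    apply div_le_div_of_nonneg_right _ (Nat.cast_nonneg n)
    exact mul_le_mul_of_nonneg_left h3 hC.le
  linarith

end Pool.MP43e44c.OD
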