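import Pool.Agent.H.MP_43e44c_ag.Count2
import Pool.Agent.H.MP_43e44c_ag.OD.Def

/-!
Galois CM fields of odd half degree: reduction to the group algebra of a group of odd order.
-/

set_option autoImplicit false

open Finset Module NumberField

namespace Pool.MP43e44c.OD

/-- The kernel of the sign of the left regular representation (`MulAction.toPermHom G G`,
`Equiv.Perm.sign`): multiplication by the involution `c` is a product of `n` disjoint transpositions,
so its sign is `(-1) ^ n = -1`. -/
theorem exists_compl {G : Type*} [Group G] [Fintype G] {n : ℕ} (hn : Odd n)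
    (hG : Fintype.card G = 2 * n) {c : G} (hc : c ≠ 1) (hcc : c * c = 1) :
    ∃ O : Subgroup G, O.index = 2 ∧ c ∉ O := by
  classical
  let s : G →* ℤˣ := Equiv.Perm.sign.comp (MulAction.toPermHom G G)
  have hsc : s c = -1 := by
    have h1 : (orderOf (MulAction.toPermHom G G c)) = 2 := by
      refine orderOf_eq_prime ?_ ?_
      · rw [sq, ← map_mul, hcc, map_one]
      · intro h
        have h2 := congrArg (fun σ : Equiv.Perm G => σ 1) h
        simp only [MulAction.toPermHom_apply, MulAction.toPerm_apply, smul_eq_mul, mul_one,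
          Equiv.Perm.one_apply] at h2
        exact hc h2
    obtain ⟨m, hm⟩ := Equiv.Perm.cycleType_prime_order (h1.symm ▸ Nat.prime_two)
    have h3 := Equiv.Perm.sum_cycleType (MulAction.toPermHom G G c)
    have h4 : (MulAction.toPermHom G G c).support = univ := by
      ext g
      simp only [Equiv.Perm.mem_support, MulAction.toPermHom_apply, MulAction.toPerm_apply,
        smul_eq_mul, mem_univ, iff_true]
      intro h
      exact hc (mul_eq_right.1 h)
    rw [hm, h4, card_univ, hG, Multiset.sum_replicate, h1, smul_eq_mul] at h3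
    have h5 : m + 1 = n := by omega
    have h6 : Equiv.Perm.sign (MulAction.toPermHom G G c) = -1 := by
      rw [Equiv.Perm.sign_of_cycleType', hm, h1, Multiset.map_replicate, Multiset.prod_replicate,
        h5]
      rw [show (-(-1 : ℤˣ) ^ 2) = -1 by norm_num]
      exact hn.neg_one_pow
    exact h6
  refine ⟨s.ker, ?_, ?_⟩
  · rw [Subgroup.index_ker]
    have h7 : s.range = ⊤ := by
      rw [MonoidHom.range_eq_top]
      intro u
      rcases Int.units_eq_one_or u with rfl | rfl
      · exact ⟨1, map_one s⟩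
      · exact ⟨c, hsc⟩
    rw [h7, Nat.card_congr (Subgroup.topEquiv (G := ℤˣ)).toEquiv, Nat.card_eq_fintype_card]
    rfl
  · intro h
    rw [MonoidHom.mem_ker, hsc] at h
    exact absurd h (by decide)

/-- The set of the sign vectors annihilated by a nonzero element. -/
def badV (O : Type*) [Group O] [Fintype O] : Set (O → Bool) :=
  {v | ∃ x : MonoidAlgebra ℚ O, x ≠ 0 ∧ x * sgnEl ℚ v = 0}

section FldAAux

variable {K : Type*} [Field K] [NumberField K]

/-- Complex conjugation in the Galois group of the Galois closure. -/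
theorem fldA_exists_c (K : Type*) [Field K] [NumberField K] :
    ∃ c : GG K, ∀ φ : K →+* ℂ, c • φ = ComplexEmbedding.conjugate φ := by
  refine ⟨(Complex.conjAe.restrictScalars ℚ).restrictNormal (GC K), fun φ => ?_⟩
  ext x
  rw [smul_apply, ComplexEmbedding.conjugate_coe_eq, ← coe_lft φ x]
  exact AlgEquiv.restrictNormal_commutes (Complex.conjAe.restrictScalars ℚ) (GC K) (lft φ x)

theorem fldA_finrank [IsGalois ℚ K] : finrank ℚ (GC K) = finrank ℚ K := by
  obtain ⟨φ⟩ : Nonempty (K →+* ℂ) := inferInstance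
  have h1 : finrank ℚ K ≤ finrank ℚ (GC K) :=
    LinearMap.finrank_le_finrank_of_injective (f := (lft φ).toLinearMap) (lft φ).injective
  let ψ : GC K →ₐ[ℚ] K := IsNormalClosure.lift (F := ℚ) (K := K)
    fun x : K => Normal.splits inferInstance x
  have h2 : finrank ℚ (GC K) ≤ finrank ℚ K :=
    LinearMap.finrank_le_finrank_of_injective (f := ψ.toLinearMap) ψ.injective
  exact le_antisymm h2 h1

theorem fldA_card [IsGalois ℚ K] : Fintype.card (GG K) = Fintype.card (K →+* ℂ) := by
  rw [NumberField.Embeddings.card K ℂ, ← fldA_finrank (K := K),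
    ← IsGalois.card_aut_eq_finrank ℚ (GC K), Nat.card_eq_fintype_card]

theorem fldA_bij [IsGalois ℚ K] (x₀ : K →+* ℂ) :
    Function.Bijective fun g : GG K => g • x₀ := by
  rw [Fintype.bijective_iff_surjective_and_card]
  exact ⟨fun x => exists_smul_eq x₀ x, fldA_card⟩

end FldAAux

/-- PROOF. `X = (K →+* ℂ)`, `G = GG K`, which acts simply transitively on `X` (`K` is Galois:
`exists_smul_eq`; `card X = 2 n = card G`).  Complex conjugation of `ℂ` preserves `GC K` (it is the
image of `K` under every embedding) and gives `c : G` with `c • x = conj x` for all `x`; by `hcgK` (in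
MQ/CMr.lean or SB) `c` is central, `c * c = 1`, `c ≠ 1`.  Let `O` be as in `exists_compl`;
`Nat.card O = n`; every element of `G` is `h` or `h * c` with `h ∈ O` in a unique way.  Fix `x₀`.  For a
CM type `Φ` let `v h = decide (h⁻¹ • x₀ ∈ Φ)`, `h : O`; this map is injective on CM types.  If `Φ` is bad
there is `f ≠ 0` in `lat G conj Φ` (`bad_subset_lat`); `x = ∑ h, f (h • x₀) • h ≠ 0`, and
`(x * sgnEl v).coeff g = ∑_h f (h • x₀) sg Φ (g⁻¹ h • x₀) = (1/2) ∑_{h ∈ G} f (h • x₀) sg Φ (g⁻¹ h • x₀)
= 0`. -/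
theorem field_red.{u} {K : Type u} [Field K] [NumberField K] [IsCMField K] [IsGalois ℚ K] {n : ℕ}
    (hK : finrank ℚ K = 2 * n) (hn : Odd n) :
    ∃ (O : Subgroup (GG K)) (_ : Fintype O), Fintype.card O = n ∧ O.index = 2 ∧
      (∃ c : GG K, c ∉ O ∧ c * c = 1 ∧ ∀ g, c * g = g * c) ∧
      {Φ : Finset (K →+* ℂ) | IsCMType Φ ∧ ¬ HodgeRingGeneratedByDivisors Φ}.ncard ≤
        (badV O).ncard := by
  classical
  obtain ⟨x₀⟩ : Nonempty (K →+* ℂ) := inferInstance
  obtain ⟨c, hc⟩ := fldA_exists_c K
  have hbij := fldA_bij x₀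
  have hcomm : ∀ g : GG K, c * g = g * c := by
    intro g
    apply hbij.1
    show (c * g) • x₀ = (g * c) • x₀
    rw [mul_smul, mul_smul, hc, hc, hcgK]
  have hcc : c * c = 1 := by
    apply hbij.1
    show (c * c) • x₀ = (1 : GG K) • x₀
    rw [mul_smul, hc, hc, conj_conj, one_smul]
  have hc1 : c ≠ 1 := by
    intro h
    have h1 := hc x₀
    rw [h, one_smul] at h1
    exact conj_ne x₀ h1.symm
  have hcardX : Fintype.card (K →+* ℂ) = 2 * n := by rw [NumberField.Embeddings.card K ℂ, hK]
  have hcardG : Fintype.card (GG K) = 2 * n := by rw [fldA_card, hcardX]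
  obtain ⟨O, hO2, hcO⟩ := exists_compl hn hcardG hc1 hcc
  have fO : Fintype O := Fintype.ofFinite O
  have hcardO : Fintype.card O = n := by
    have h1 := O.card_mul_index
    rw [hO2, Nat.card_eq_fintype_card, Nat.card_eq_fintype_card, hcardG] at h1
    omega
  have hgc : ∀ g : GG K, g ∉ O → g * c ∈ O := by
    intro g hg
    rw [Subgroup.mul_mem_iff_of_index_two hO2]
    exact ⟨fun h => absurd h hg, fun h => absurd h hcO⟩
  -- every embedding or its conjugate is a translate by an element of `O`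
  have hcase : ∀ x : K →+* ℂ, (∃ h : O, (h : GG K) • x₀ = x) ∨
      ∃ h : O, (h : GG K) • x₀ = ComplexEmbedding.conjugate x := by
    intro x
    obtain ⟨g, hg⟩ := exists_smul_eq x₀ x
    by_cases hgO : g ∈ O
    · exact Or.inl ⟨⟨g, hgO⟩, hg⟩
    · refine Or.inr ⟨⟨g * c, hgc g hgO⟩, ?_⟩
      show (g * c) • x₀ = _
      rw [mul_smul, hc, hcgK, hg]
  let Θ : O × Bool → (K →+* ℂ) := fun p =>
    if p.2 then (p.1 : GG K) • x₀ else ComplexEmbedding.conjugate ((p.1 : GG K) • x₀)
  have hΘ : Function.Bijective Θ := by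
    rw [Fintype.bijective_iff_surjective_and_card]
    constructor
    · intro x
      rcases hcase x with ⟨h, hh⟩ | ⟨h, hh⟩
      · exact ⟨(h, true), hh⟩
      · refine ⟨(h, false), ?_⟩
        show ComplexEmbedding.conjugate ((h : GG K) • x₀) = x
        rw [hh, conj_conj]
    · rw [Fintype.card_prod, hcardO, Fintype.card_bool, hcardX, mul_comm]
  refine ⟨O, fO, hcardO, hO2, ⟨c, hcO, hcc, hcomm⟩, ?_⟩
  refine Set.ncard_le_ncard_of_injOn
    (fun Φ (h : O) => decide (((h⁻¹ : O) : GG K) • x₀ ∈ Φ)) ?_ ?_ (Set.toFinite _)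
  · intro Φ hΦ
    obtain ⟨hCM, f, ⟨hf1, hf2⟩, hf0⟩ := bad_subset_lat hΦ
    refine ⟨ofFun fun h : O => (f ((h : GG K) • x₀) : ℚ), ?_, ?_⟩
    · intro h0
      apply hf0
      have h1 : ∀ h : O, f ((h : GG K) • x₀) = 0 := by
        intro h
        have h2 := congrArg (fun z => z.coeff h) h0
        simp only [ofFun_coeff] at h2
        have h3 : (0 : MonoidAlgebra ℚ O).coeff h = 0 := rfl
        rw [h3] at h2
        exact_mod_cast h2
      funext x
      rcases hcase x with ⟨h, hh⟩ | ⟨h, hh⟩
      · rw [← hh, h1]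
        rfl
      · have h2 := h1 h
        rw [hh, hf1, neg_eq_zero] at h2
        rw [h2]
        rfl
    · apply ma_ext
      intro g
      have h3 : (0 : MonoidAlgebra ℚ O).coeff g = 0 := rfl
      rw [h3, coeff_mul_left]
      have h4 : ∀ h : O, (ofFun fun h : O => (f ((h : GG K) • x₀) : ℚ)).coeff h *
          (sgnEl ℚ fun h : O => decide (((h⁻¹ : O) : GG K) • x₀ ∈ Φ)).coeff (h⁻¹ * g) =
          ((f ((h : GG K) • x₀) * sg Φ (((g⁻¹ : O) : GG K) • (h : GG K) • x₀) : ℤ) : ℚ) := by
        intro h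
        rw [ofFun_coeff, sgnEl_coeff]
        have h5 : (((h⁻¹ * g)⁻¹ : O) : GG K) • x₀ = ((g⁻¹ : O) : GG K) • (h : GG K) • x₀ := by
          rw [← mul_smul, mul_inv_rev, inv_inv]
          rfl
        rw [h5]
        by_cases h6 : ((g⁻¹ : O) : GG K) • (h : GG K) • x₀ ∈ Φ
        · rw [sg_mem h6, if_pos (decide_eq_true h6)]
          push_cast
          ring
        · rw [sg_notMem h6, if_neg (fun h7 => h6 (of_decide_eq_true h7))]
          push_cast
          ring
      rw [sum_congr rfl fun h _ => h4 h, ← Int.cast_sum]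
      have h5 := hf2 ((g⁻¹ : O) : GG K)
      rw [← Fintype.sum_bijective Θ hΘ (fun p => f (Θ p) * sg Φ (((g⁻¹ : O) : GG K) • Θ p)) _
        (fun _ => rfl), Fintype.sum_prod_type] at h5
      have h6 : ∀ h : O, ∑ b : Bool, f (Θ (h, b)) * sg Φ (((g⁻¹ : O) : GG K) • Θ (h, b)) =
          2 * (f ((h : GG K) • x₀) * sg Φ (((g⁻¹ : O) : GG K) • (h : GG K) • x₀)) := by
        intro h
        have h7 : Θ (h, true) = (h : GG K) • x₀ := rfl
        have h8 : Θ (h, false) = ComplexEmbedding.conjugate ((h : GG K) • x₀) := rfl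
        rw [Fintype.sum_bool, h7, h8, hf1, hcgK, sg_conj hCM]
        ring
      rw [sum_congr rfl fun h _ => h6 h, ← mul_sum] at h5
      have h7 := (mul_eq_zero.1 h5).resolve_left two_ne_zero
      rw [h7, Int.cast_zero]
  · intro Φ hΦ Φ' hΦ' heq
    have hCM := hΦ.1
    have hCM' := hΦ'.1
    have h1 : ∀ h : O, ((h : GG K) • x₀ ∈ Φ ↔ (h : GG K) • x₀ ∈ Φ') := by
      intro h
      have h2 := congrFun heq h⁻¹
      simp only [inv_inv, decide_eq_decide] at h2
      exact h2
    ext x
    rcases hcase x with ⟨h, hh⟩ | ⟨h, hh⟩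
    · rw [← hh]
      exact h1 h
    · rw [hCM x, hCM' x, ← hh, h1 h]

end Pool.MP43e44c.OD
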