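import Pool.Agent.H.MP_43e44c_ag.OD.Bel2

/-!
Singular components modulo `p`.
-/

set_option autoImplicit false

open Finset Module

namespace Pool.MP43e44c.OD

universe u

variable {O : Type u} [Group O] [Fintype O] {p : ℕ} [Fact p.Prime]

section Aux

/-- The lattice of the integral elements of a component which are annihilated by `b`. -/
private def linkK (W : WD ℚ O) (b : MonoidAlgebra ℤ O) (i : Fin W.m) :
    Submodule ℤ (MonoidAlgebra ℤ O) where
  carrier := {x | toQ x * W.e i = toQ x ∧ x * b = 0}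
  zero_mem' := ⟨by rw [map_zero, zero_mul], zero_mul b⟩
  add_mem' := fun {x y} hx hy => ⟨by rw [map_add, add_mul, hx.1, hy.1], by
    rw [add_mul, hx.2, hy.2, add_zero]⟩
  smul_mem' := fun c x hx => ⟨by
    have h1 : toQ (c • x) = c • toQ x := map_zsmul toQ c x
    rw [h1, smul_mul_assoc, hx.1], by rw [smul_mul_assoc, hx.2, smul_zero]⟩

omit [Fact p.Prime] in
private theorem link_smul_inj {x y : MonoidAlgebra ℤ O} (hp0 : p ≠ 0)
    (h : (p : ℤ) • x = (p : ℤ) • y) : x = y := by
  apply ma_ext
  intro g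
  have h1 := congrArg (fun z => z.coeff g) h
  have h2 : ((p : ℤ) • x).coeff g = (p : ℤ) * x.coeff g := rfl
  have h3 : ((p : ℤ) • y).coeff g = (p : ℤ) * y.coeff g := rfl
  simp only [h2, h3] at h1
  exact mul_left_cancel₀ (Nat.cast_ne_zero.2 hp0) h1

omit [Fact p.Prime] in
private theorem link_zsmul {k : Type*} [CommRing k] (n : ℕ) (x : MonoidAlgebra k O) :
    ((n : ℕ) : ℤ) • x = (n : k) • x := by
  apply ma_ext
  intro g
  have h1 : (((n : ℕ) : ℤ) • x).coeff g = ((n : ℕ) : ℤ) • x.coeff g := rfl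
  have h2 : ((n : k) • x).coeff g = (n : k) * x.coeff g := rfl
  rw [h1, h2, zsmul_eq_mul, Int.cast_natCast]

/-- The linear equivalence with the functions. -/
private noncomputable def linkEquiv (O : Type u) [Group O] [Fintype O] :
    MonoidAlgebra ℤ O ≃ₗ[ℤ] (O → ℤ) where
  toFun x := fun g => x.coeff g
  map_add' x y := rfl
  map_smul' c x := rfl
  invFun f := ofFun f
  left_inv x := ma_ext fun g => ofFun_coeff _ _
  right_inv f := funext fun g => ofFun_coeff _ _

private theorem link_aeval {W : WD ℚ O} {b : MonoidAlgebra ℤ O} {i : Fin W.m}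
    (T : linkK W b i →ₗ[ℤ] linkK W b i) (w : MonoidAlgebra ℚ O)
    (hT : ∀ x : linkK W b i, toQ (T x : MonoidAlgebra ℤ O) = w * toQ (x : MonoidAlgebra ℤ O))
    (F : Polynomial ℤ) (x : linkK W b i) :
    toQ ((Polynomial.aeval T F x : linkK W b i) : MonoidAlgebra ℤ O)
      = Polynomial.aeval w F * toQ (x : MonoidAlgebra ℤ O) := by
  induction F using Polynomial.induction_on' with
  | add P Q hP hQ =>
    rw [map_add, map_add, LinearMap.add_apply, Submodule.coe_add, map_add, hP, hQ, add_mul]
  | monomial n a =>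
    have hpow : ∀ m : ℕ, toQ (((T ^ m) x : linkK W b i) : MonoidAlgebra ℤ O)
        = w ^ m * toQ (x : MonoidAlgebra ℤ O) := by
      intro m
      induction m with
      | zero => rw [pow_zero, pow_zero, one_mul]; rfl
      | succ m ih =>
        rw [pow_succ' T, Module.End.mul_apply, hT, ih, pow_succ' w, mul_assoc]
    rw [Polynomial.aeval_monomial, Polynomial.aeval_monomial, Module.End.mul_apply]
    have h1 : (algebraMap ℤ (Module.End ℤ (linkK W b i)) a) ((T ^ n) x) = a • ((T ^ n) x) := rfl
    rw [h1, Submodule.coe_smul]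
    have h2 : toQ (a • (((T ^ n) x : linkK W b i) : MonoidAlgebra ℤ O))
        = a • toQ (((T ^ n) x : linkK W b i) : MonoidAlgebra ℤ O) := map_zsmul toQ _ _
    rw [h2, hpow, eq_intCast, zsmul_eq_mul, mul_assoc]

end Aux

/-- PROOF. Let `K` be the additive group of the `x` in the integral group ring with
`toQ x * e i = toQ x` and `x * b = 0`.  It is a left ideal, finitely generated over `ℤ`, and `x ∈ K` if
`p • x ∈ K`; it contains some `x₀` with `comp i (toQ x₀) ≠ 0` (a multiple of a lift of `X`,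
`exists_comp`, `exists_int_mul`).  Suppose `P.comp j (toP p b)` is a unit.  For `x ∈ K`,
`comp j (toP x) * comp j (toP b) = 0`, so `comp j (toP x) = 0`, so `P.e j * toP x = 0`.  Let `c` be a
central lift of `P.e j` (`ctr_lift`).  `toP (c * x) = 0`, so `c * x = p • y` (`toP_eq_zero`) with
`y ∈ K`.  So `T x = y` defines a `ℤ`-linear endomorphism of `K` with `p • T x = c * x`.  As `K` is
finitely generated, there is a monic integer polynomial `F` with `F(T) = 0`
(`LinearMap.exists_monic_aeval_eq_zero` / `Module.End` integrality).  Let `z = (1/p) • toQ c * e i`.  By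
induction on powers `toQ (T ^ m x) = ((1/p) • toQ c) ^ m * toQ x`, so
`aeval ((1/p) • toQ c) F * toQ x = 0` for `x ∈ K`.  Its component `i` is (scalar) * (comp i (toQ x₀)),
where the scalar `ζ = F(ζ_c)`, `ζ_c` in the center of `D i` (`comp_central`), so `ζ = 0`, and
`z * aeval z F = 0` (component `i`: `0`; the other components: `0` as `z` vanishes there); i.e.
`aeval z (X * F) = 0`.  By `exists_prime_to` there are `N` prime to `p` and a central `d` with
`toQ d = N • z`.  With `toQ E = N' • e i` (`exists_E`): `p • toQ d = N • toQ c * e i`, so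
`(p N') • d = N • c * E` (`toQ_inj`) and, modulo `p`, `N • (P.e j * toP E) = 0`, so
`P.comp j (toP E) = 0`, a contradiction to `hj` (`not_below_iff`). -/
theorem link (hp : ¬ p ∣ Fintype.card O) (W : WD ℚ O) (P : WD (ZMod p) O)
    (b : MonoidAlgebra ℤ O) (i : Fin W.m) {X : Matrix (Fin (W.r i)) (Fin (W.r i)) (W.D i)}
    (hX : X ≠ 0) (hXb : X * W.comp i (toQ b) = 0) {j : Fin P.m} (hj : j ∈ J W P i) :
    ¬ IsUnit (P.comp j (toP p b)) := by
  intro hu
  have hp0 : p ≠ 0 := (Fact.out : p.Prime).ne_zero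
  have hpQ : (p : ℚ) ≠ 0 := Nat.cast_ne_zero.2 hp0
  -- the lattice
  have hK : ∀ x : MonoidAlgebra ℤ O, x ∈ linkK W b i ↔
      toQ x * W.e i = toQ x ∧ x * b = 0 := fun x => Iff.rfl
  have h1 : ∀ x ∈ linkK W b i, P.comp j (toP p x) = 0 := by
    intro x hx
    have h2 : P.comp j (toP p x) * P.comp j (toP p b) = 0 := by
      rw [← map_mul, ← map_mul, ((hK x).1 hx).2, map_zero, map_zero]
    obtain ⟨u, hu'⟩ := hu
    rw [← hu'] at h2
    exact (Units.mul_left_eq_zero u).1 h2
  obtain ⟨c, hc, hcP⟩ := ctr_lift p (z := P.e j) (P.e_comm j)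
  have h3 : ∀ x ∈ linkK W b i, ∃ y : MonoidAlgebra ℤ O, c * x = (p : ℤ) • y := by
    intro x hx
    apply toP_eq_zero
    rw [map_mul, hcP]
    apply P.comp_inj
    intro l
    rw [map_mul, map_zero]
    by_cases hl : l = j
    · subst hl
      rw [h1 x hx, mul_zero]
    · rw [P.comp_e_ne hl, zero_mul]
  have h4 : ∀ x : linkK W b i, ∃ y : linkK W b i,
      c * (x : MonoidAlgebra ℤ O) = (p : ℤ) • (y : MonoidAlgebra ℤ O) := by
    intro x
    obtain ⟨y, hy⟩ := h3 x x.2
    refine ⟨⟨y, ?_⟩, hy⟩
    rw [hK]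
    obtain ⟨hx1, hx2⟩ := (hK x).1 x.2
    constructor
    · have h5 : toQ c * toQ (x : MonoidAlgebra ℤ O) = (p : ℚ) • toQ y := by
        rw [← map_mul, hy]
        have : toQ ((p : ℤ) • y) = (p : ℤ) • toQ y := map_zsmul toQ _ _
        rw [this]
        rw [zsmul_eq_mul, Algebra.smul_def]
        simp
      have h6 : (p : ℚ) • (toQ y * W.e i) = (p : ℚ) • toQ y := by
        rw [← smul_mul_assoc, ← h5, mul_assoc, hx1]
      exact smul_right_injective _ hpQ h6
    · apply link_smul_inj (p := p) hp0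
      rw [smul_zero, ← smul_mul_assoc, ← hy, mul_assoc, hx2, mul_zero]
  choose T₀ hT₀ using h4
  let T : linkK W b i →ₗ[ℤ] linkK W b i :=
    { toFun := T₀
      map_add' := fun x y => by
        apply Subtype.ext
        apply link_smul_inj (p := p) hp0
        rw [← hT₀, Submodule.coe_add, Submodule.coe_add, mul_add, smul_add, hT₀, hT₀]
      map_smul' := fun a x => by
        apply Subtype.ext
        apply link_smul_inj (p := p) hp0
        rw [← hT₀, RingHom.id_apply, Submodule.coe_smul, Submodule.coe_smul, mul_smul_comm, hT₀,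
          smul_comm] }
  have hfin0 : Module.Finite ℤ (MonoidAlgebra ℤ O) := Module.Finite.equiv (linkEquiv O).symm
  have hfin : Module.Finite ℤ (linkK W b i) := inferInstance
  obtain ⟨F, hF, hF0⟩ := LinearMap.exists_monic_and_aeval_eq_zero ℤ T
  -- the central element
  set w : MonoidAlgebra ℚ O := (p : ℚ)⁻¹ • toQ c with hw
  have hcQ : ∀ x, toQ c * x = x * toQ c := toQ_central.2 hc
  have hwc : ∀ x, w * x = x * w := by
    intro x
    rw [hw, smul_mul_assoc, mul_smul_comm, hcQ]
  have hTw : ∀ x : linkK W b i, toQ (T x : MonoidAlgebra ℤ O)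
      = w * toQ (x : MonoidAlgebra ℤ O) := by
    intro x
    have h5 : toQ c * toQ (x : MonoidAlgebra ℤ O) = (p : ℚ) • toQ (T x : MonoidAlgebra ℤ O) := by
      rw [← map_mul, hT₀ x]
      have : toQ ((p : ℤ) • (T₀ x : MonoidAlgebra ℤ O))
          = (p : ℤ) • toQ (T₀ x : MonoidAlgebra ℤ O) := map_zsmul toQ _ _
      rw [this, zsmul_eq_mul, Algebra.smul_def]
      simp [T]
    rw [hw, smul_mul_assoc, h5, smul_smul, inv_mul_cancel₀ hpQ, one_smul]
  have hFw : ∀ x : linkK W b i,
      Polynomial.aeval w F * toQ (x : MonoidAlgebra ℤ O) = 0 := by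
    intro x
    rw [← link_aeval T w hTw F x, hF0]
    simp
  -- the element of the lattice
  obtain ⟨x', hx'1, hx'2⟩ := W.exists_comp i X
  obtain ⟨N, hN, y', hy'⟩ := exists_int_mul x'
  have hNQ : (N : ℚ) ≠ 0 := Nat.cast_ne_zero.2 hN.ne'
  have hy'K : y' ∈ linkK W b i := by
    rw [hK]
    constructor
    · rw [hy', smul_mul_assoc, hx'2]
    · apply toQ_inj
      rw [map_mul, hy', map_zero, smul_mul_assoc]
      have : x' * toQ b = 0 := by
        apply W.comp_inj
        intro l
        rw [map_mul, map_zero]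
        by_cases hl : l = i
        · subst hl
          rw [hx'1, hXb]
        · rw [(W.mul_e_iff i x').1 hx'2 l hl, zero_mul]
      rw [this, smul_zero]
  have hpow_comm : ∀ (z : MonoidAlgebra ℚ O), (∀ x, z * x = x * z) → ∀ (G : Polynomial ℤ) (x),
      Polynomial.aeval z G * x = x * Polynomial.aeval z G := by
    intro z hz G x
    have h5 : Commute z x := hz x
    induction G using Polynomial.induction_on' with
    | add P Q hP hQ => rw [map_add, add_mul, mul_add, hP, hQ]
    | monomial n a =>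
      rw [Polynomial.aeval_monomial, eq_intCast]
      have h6 : Commute ((a : MonoidAlgebra ℚ O) * z ^ n) x :=
        (Int.cast_commute a x).mul_left (h5.pow_left n)
      exact h6
  have h7 : W.comp i (Polynomial.aeval w F) = 0 := by
    obtain ⟨ζ, -, hζ⟩ := W.comp_central i (hpow_comm w hwc F)
    have h8 := congrArg (W.comp i) (hFw ⟨y', hy'K⟩)
    rw [map_mul, map_zero, hζ] at h8
    have h9 : W.comp i (toQ y') = (N : ℚ) • X := by rw [hy', map_smul, hx'1]
    simp only at h8
    rw [h9] at h8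
    obtain ⟨a, b', hab⟩ : ∃ a b', X a b' ≠ 0 := by
      by_contra hcon
      push Not at hcon
      exact hX (Matrix.ext fun a b' => hcon a b')
    have h10 := congrFun (congrFun h8 a) b'
    rw [Matrix.diagonal_mul, Matrix.zero_apply, Matrix.smul_apply] at h10
    have h11 : ζ = 0 := by
      rcases mul_eq_zero.1 h10 with h12 | h12
      · exact h12
      · exfalso
        rcases smul_eq_zero.1 h12 with h13 | h13
        · exact hNQ h13
        · exact hab h13
    rw [hζ, h11]
    exact Matrix.diagonal_zero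
  set z : MonoidAlgebra ℚ O := w * W.e i with hz
  have hzc : ∀ x, z * x = x * z := by
    intro x
    rw [hz, mul_assoc, W.e_comm, ← mul_assoc, hwc, mul_assoc]
  have hzi : W.comp i z = W.comp i w := by rw [hz, map_mul, W.comp_e_self, mul_one]
  have h14 : Polynomial.aeval z (Polynomial.X * F) = 0 := by
    apply W.comp_inj
    intro l
    rw [map_mul, Polynomial.aeval_X, map_mul, map_zero]
    by_cases hl : l = i
    · subst hl
      have h15 : ∀ G : Polynomial ℤ,
          W.comp l (Polynomial.aeval z G) = W.comp l (Polynomial.aeval w G) := by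
        intro G
        induction G using Polynomial.induction_on' with
        | add P Q hP hQ => rw [map_add, map_add, map_add, map_add, hP, hQ]
        | monomial n a =>
          rw [Polynomial.aeval_monomial, Polynomial.aeval_monomial, map_mul, map_mul, map_pow,
            map_pow, hzi]
      rw [h15, h7, mul_zero]
    · rw [hz, map_mul, W.comp_e_ne hl, mul_zero, zero_mul]
  obtain ⟨N₁, hN₁, d, hd, hdz⟩ := exists_prime_to hp hzc (Polynomial.X * F)
    (Polynomial.monic_X.mul hF) h14
  obtain ⟨N₂, hN₂, E, hE, hEN⟩ := exists_E hp W i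
  have h16 : ((p * N₂ : ℕ) : ℤ) • d = (N₁ : ℤ) • (c * E) := by
    apply toQ_inj
    have e1 : toQ (((p * N₂ : ℕ) : ℤ) • d) = ((p * N₂ : ℕ) : ℤ) • toQ d := map_zsmul toQ _ _
    have e2 : toQ ((N₁ : ℤ) • (c * E)) = (N₁ : ℤ) • toQ (c * E) := map_zsmul toQ _ _
    rw [e1, e2, map_mul, hdz, hEN, hz, hw]
    rw [link_zsmul (k := ℚ), link_zsmul (k := ℚ)]
    rw [smul_mul_assoc, mul_smul_comm, smul_smul, smul_smul, smul_smul]
    congr 1
    push_cast
    field_simp
  have h17 : P.comp j (toP p E) = 0 := by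
    have e1 : P.comp j (toP p (((p * N₂ : ℕ) : ℤ) • d))
        = P.comp j (toP p ((N₁ : ℤ) • (c * E))) := by rw [h16]
    have e2 : toP p (((p * N₂ : ℕ) : ℤ) • d) = ((p * N₂ : ℕ) : ℤ) • toP p d :=
      map_zsmul (toP p) _ _
    have e3 : toP p ((N₁ : ℤ) • (c * E)) = (N₁ : ℤ) • toP p (c * E) := map_zsmul (toP p) _ _
    rw [e2, e3, map_mul, hcP] at e1
    rw [link_zsmul (k := ZMod p), link_zsmul (k := ZMod p), map_smul, map_smul,
      map_mul, P.comp_e_self, one_mul] at e1
    have e4 : ((p * N₂ : ℕ) : ZMod p) = 0 := by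
      rw [Nat.cast_mul, ZMod.natCast_self, zero_mul]
    rw [e4, zero_smul] at e1
    rcases smul_eq_zero.1 e1.symm with h18 | h18
    · exact absurd ((ZMod.natCast_eq_zero_iff _ _).1 h18) hN₁
    · exact h18
  exact (not_below_iff W P i j hN₂ hE hEN).2 h17 (mem_J.1 hj)

end Pool.MP43e44c.OD
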