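import Pool.Agent.H.MP_43e44c_ag.OD.WdC

/-!
Central elements modulo `p`.
-/

set_option autoImplicit false

open Finset Module

namespace Pool.MP43e44c.OD

universe u

variable {O : Type u} [Group O] [Fintype O]

/-- Use a Wedderburn decomposition over `ZMod p` (`exists_wd`): every component of `z` is a scalar `ζ`
(`comp_central`) with `ζ ^ k = 0`, so `0`. -/
theorem nil_central {p : ℕ} [Fact p.Prime] (hp : ¬ p ∣ Fintype.card O)
    {z : MonoidAlgebra (ZMod p) O} (hz : ∀ x, z * x = x * z) {k : ℕ} (hk : z ^ k = 0) : z = 0 := by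
  have hc : (Fintype.card O : ZMod p) ≠ 0 := by
    intro h
    exact hp ((ZMod.natCast_eq_zero_iff _ _).1 h)
  obtain ⟨W⟩ := exists_wd (ZMod p) O hc
  apply W.comp_inj
  intro j
  rw [map_zero]
  obtain ⟨ζ, -, hζ⟩ := W.comp_central j hz
  have h1 := congrArg (W.comp j) hk
  rw [map_pow, hζ, map_zero, Matrix.diagonal_pow] at h1
  have h2 := congrFun (congrFun h1 ⟨0, Nat.pos_of_ne_zero (NeZero.ne (W.r j))⟩)
    ⟨0, Nat.pos_of_ne_zero (NeZero.ne (W.r j))⟩
  rw [Matrix.diagonal_apply_eq, Matrix.zero_apply, Pi.pow_apply] at h2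
  rw [hζ, eq_zero_of_pow_eq_zero h2]
  exact Matrix.diagonal_zero

theorem Nil_aeval_P {p : ℕ} [Fact p.Prime] (c : MonoidAlgebra ℤ O) (Q : Polynomial ℤ) :
    toP p (Polynomial.aeval c Q) = Polynomial.aeval (toP p c) Q :=
  (Polynomial.aeval_algHom_apply (toP p : MonoidAlgebra ℤ O →+* _).toIntAlgHom c Q).symm

theorem Nil_aeval_Q (c : MonoidAlgebra ℤ O) (Q : Polynomial ℤ) :
    toQ (Polynomial.aeval c Q) = Polynomial.aeval (toQ c) Q :=
  (Polynomial.aeval_algHom_apply (toQ : MonoidAlgebra ℤ O →+* _).toIntAlgHom c Q).symm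

/-- PROOF. Let `N` be the least positive integer such that `N • z` is integral (`exists_int_mul`),
`toQ c = N • z`.  `c` is central (`toQ_central`).  Suppose `p ∣ N`.  Multiply `P(z) = 0` (degree `m`) by
`N ^ m`: `c ^ m + N a_1 c ^ (m-1) + ... + N ^ m a_m = 0` in the integral group ring (`toQ_inj`), so
`(toP p c) ^ m = 0` and `toP p c = 0` (`nil_central`, `toP_central`), `c = p • y` (`toP_eq_zero`), and
`toQ y = (N / p) • z`, a contradiction to the minimality.  (If `m = 0` then `P = 1` and `1 = 0` in the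
group ring, impossible.) -/
theorem exists_prime_to {p : ℕ} [Fact p.Prime] (hp : ¬ p ∣ Fintype.card O)
    {z : MonoidAlgebra ℚ O} (hz : ∀ x, z * x = x * z) (P : Polynomial ℤ) (hP : P.Monic)
    (h0 : Polynomial.aeval z P = 0) :
    ∃ N : ℕ, ¬ p ∣ N ∧ ∃ c : MonoidAlgebra ℤ O, (∀ x, c * x = x * c) ∧ toQ c = (N : ℚ) • z := by
  classical
  have hex : ∃ N : ℕ, 0 < N ∧ ∃ y : MonoidAlgebra ℤ O, toQ y = (N : ℚ) • z := exists_int_mul z
  obtain ⟨hN0, c, hc⟩ := Nat.find_spec hex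
  set N := Nat.find hex with hN
  have hcc : ∀ x, c * x = x * c := by
    rw [← toQ_central]
    intro x
    rw [hc, smul_mul_assoc, hz, mul_smul_comm]
  refine ⟨N, ?_, c, hcc, hc⟩
  intro hpN
  obtain ⟨N', hN'⟩ := hpN
  have hQ : Polynomial.aeval c (P.scaleRoots (N : ℤ)) = 0 := by
    apply toQ_inj
    rw [Nil_aeval_Q, map_zero]
    have h1 := Polynomial.scaleRoots_aeval_eq_zero (r := (N : ℤ)) h0
    have h2 : (algebraMap ℤ (MonoidAlgebra ℚ O)) (N : ℤ) * z = toQ c := by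
      rw [hc, map_natCast, ← nsmul_eq_mul, Nat.cast_smul_eq_nsmul]
    rw [h2] at h1
    exact h1
  have hP1 : toP p c ^ P.natDegree = 0 := by
    have h1 := congrArg (toP p) hQ
    rw [Nil_aeval_P, map_zero, Polynomial.aeval_eq_sum_range, Polynomial.natDegree_scaleRoots,
      sum_range_succ, Polynomial.coeff_scaleRoots, Nat.sub_self, pow_zero, mul_one,
      hP.coeff_natDegree, one_smul] at h1
    rw [sum_eq_zero, zero_add] at h1
    · exact h1
    · intro i hi
      rw [mem_range] at hi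
      rw [Polynomial.coeff_scaleRoots, ← Int.cast_smul_eq_zsmul (ZMod p)]
      have h2 : ((P.coeff i * (N : ℤ) ^ (P.natDegree - i) : ℤ) : ZMod p) = 0 := by
        rw [ZMod.intCast_zmod_eq_zero_iff_dvd]
        refine Dvd.dvd.mul_left (Dvd.dvd.pow ?_ (by omega)) _
        exact ⟨(N' : ℤ), by rw [hN']; push_cast; ring⟩
      rw [h2, zero_smul]
  have h2 := nil_central hp (toP_central p hcc) hP1
  obtain ⟨y, hy⟩ := toP_eq_zero h2
  have hp0 : 0 < p := (Fact.out : p.Prime).pos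
  have hp1 : 1 < p := (Fact.out : p.Prime).one_lt
  have hN'0 : 0 < N' := by
    rcases Nat.eq_zero_or_pos N' with h | h
    · rw [h, mul_zero] at hN'
      omega
    · exact h
  have hlt : N' < N := by
    rw [hN']
    exact lt_mul_of_one_lt_left hN'0 hp1
  have h3 : ¬ (0 < N' ∧ ∃ y : MonoidAlgebra ℤ O, toQ y = (N' : ℚ) • z) := Nat.find_min hex hlt
  apply h3
  refine ⟨hN'0, y, ?_⟩
  have hpq : (p : ℚ) ≠ 0 := by exact_mod_cast hp0.ne'
  have h4 : (p : ℚ) • toQ y = (p : ℚ) • ((N' : ℚ) • z) := by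
    rw [smul_smul]
    have h5 : ((p : ℚ) * (N' : ℚ)) = (N : ℚ) := by
      rw [hN']
      push_cast
      ring
    rw [h5, ← hc, hy, map_zsmul, ← Int.cast_smul_eq_zsmul ℚ, Int.cast_natCast]
  exact smul_right_injective _ hpq h4

/-- `exists_prime_to` with `P = X ^ 2 - X`. -/
theorem exists_E {p : ℕ} [Fact p.Prime] (hp : ¬ p ∣ Fintype.card O) (W : WD ℚ O)
    (i : Fin W.m) :
    ∃ N : ℕ, ¬ p ∣ N ∧ ∃ E : MonoidAlgebra ℤ O, (∀ x, E * x = x * E) ∧
      toQ E = (N : ℚ) • W.e i := by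
  refine exists_prime_to hp (fun x => W.e_comm i x) (Polynomial.X ^ 2 - Polynomial.X) ?_ ?_
  · exact Polynomial.monic_X_pow_sub (by rw [Polynomial.degree_X]; norm_num)
  · rw [map_sub, map_pow, Polynomial.aeval_X, pow_two, W.e_mul_self, sub_self]

end Pool.MP43e44c.OD
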