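import Mathlib

/-!
Separated sets in balls, and a tail bound for sums of vectors with random signs.
-/

set_option autoImplicit false

open Finset Module

namespace Pool.MP43e44c.OD

theorem Pack_aux {H : Type*} [NormedAddCommGroup H] [NormedSpace ℝ H] [FiniteDimensional ℝ H]
    {s R : ℝ} (hs : 0 < s) (hR : 0 ≤ R) (S : Finset H) (hSR : ∀ x ∈ S, ‖x‖ ≤ R)
    (hsep : ∀ x ∈ S, ∀ y ∈ S, x ≠ y → s ≤ ‖x - y‖) :
    (S.card : ℝ) ≤ (1 + 2 * R / s) ^ finrank ℝ H := by
  borelize H
  let μ : MeasureTheory.Measure H := MeasureTheory.Measure.addHaar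
  have ha : 0 < s / 2 := by positivity
  have hc : 0 < R + s / 2 := by positivity
  set A := ⋃ c ∈ S, Metric.ball (c : H) (s / 2) with hA
  have D : Set.Pairwise (S : Set H) (Function.onFun Disjoint fun c => Metric.ball c (s / 2)) := by
    rintro c hc d hd hcd
    apply Metric.ball_disjoint_ball
    rw [dist_eq_norm]
    have := hsep c hc d hd hcd
    linarith
  have A_subset : A ⊆ Metric.ball (0 : H) (R + s / 2) := by
    refine Set.iUnion₂_subset fun x hx => ?_
    apply Metric.ball_subset_ball'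
    rw [dist_zero_right]
    have := hSR x hx
    linarith
  have I : ((S.card : ENNReal) * ENNReal.ofReal ((s / 2) ^ finrank ℝ H)) *
      μ (Metric.ball 0 1) ≤
      ENNReal.ofReal ((R + s / 2) ^ finrank ℝ H) * μ (Metric.ball 0 1) := by
    calc ((S.card : ENNReal) * ENNReal.ofReal ((s / 2) ^ finrank ℝ H)) * μ (Metric.ball 0 1)
        = μ A := by
          rw [hA, MeasureTheory.measure_biUnion_finset D fun c _ => measurableSet_ball]
          simp only [μ.addHaar_ball_of_pos _ ha]
          simp only [Finset.sum_const, nsmul_eq_mul, mul_assoc]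
      _ ≤ μ (Metric.ball (0 : H) (R + s / 2)) := MeasureTheory.measure_mono A_subset
      _ = ENNReal.ofReal ((R + s / 2) ^ finrank ℝ H) * μ (Metric.ball 0 1) := by
          rw [μ.addHaar_ball_of_pos _ hc]
  have J := (ENNReal.mul_le_mul_iff_left
    (Metric.measure_ball_pos μ (0 : H) zero_lt_one).ne' MeasureTheory.measure_ball_lt_top.ne).1 I
  have K : (S.card : ℝ) * (s / 2) ^ finrank ℝ H ≤ (R + s / 2) ^ finrank ℝ H := by
    have J2 := ENNReal.toReal_le_of_le_ofReal (pow_nonneg hc.le _) J
    rw [ENNReal.toReal_mul, ENNReal.toReal_ofReal (pow_nonneg ha.le _)] at J2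
    simpa using J2
  have h5 : (1 + 2 * R / s) = (R + s / 2) / (s / 2) := by
    field_simp
    ring
  rw [h5, div_pow, le_div_iff₀ (pow_pos ha _)]
  exact K

/-- Volume comparison in `E`: the balls of radius `s / 2` around the points of `S` (inside `E`) are
disjoint and contained in the ball of radius `R + s / 2`.  (See SB/Net.lean of the same problem, or
`Besicovitch.card_le_of_separated`, for the pattern; `MeasureTheory.Measure.addHaar_ball`.)  If
`finrank E < m` use `1 ≤ 1 + 2 R / s`. -/
theorem pack {V : Type*} [NormedAddCommGroup V] [InnerProductSpace ℝ V] [FiniteDimensional ℝ V]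
    (E : Submodule ℝ V) {m : ℕ} (hm : finrank ℝ E ≤ m) {s R : ℝ} (hs : 0 < s) (hR : 0 ≤ R)
    (S : Finset V) (hSE : ∀ x ∈ S, x ∈ E) (hSR : ∀ x ∈ S, ‖x‖ ≤ R)
    (hsep : ∀ x ∈ S, ∀ y ∈ S, x ≠ y → s ≤ ‖x - y‖) : (S.card : ℝ) ≤ (1 + 2 * R / s) ^ m := by
  classical
  have h1 : (S.subtype (fun x => x ∈ E)).card = S.card := by
    rw [Finset.card_subtype, Finset.filter_true_of_mem hSE]
  have h2 := Pack_aux (H := E) hs hR (S.subtype (fun x => x ∈ E))
    (fun x hx => by
      rw [Finset.mem_subtype] at hx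
      exact hSR x hx)
    (fun x hx y hy hxy => by
      rw [Finset.mem_subtype] at hx hy
      exact hsep x hx y hy (fun h => hxy (Subtype.ext h)))
  rw [h1] at h2
  refine h2.trans (pow_le_pow_right₀ ?_ hm)
  have h3 : 0 ≤ 2 * R / s := by positivity
  linarith

end Pool.MP43e44c.OD
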