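import Mathlib

/-!
Primes which do not divide `n`.
-/

set_option autoImplicit false

open Finset

namespace Pool.MP43e44c.OD

/-- PROOF. Let `N_l = ⌊x / 2 ^ (l + 1)⌋₊`, `0 ≤ l ≤ 4`.  By Bertrand (`Nat.exists_prime_lt_and_le_two_mul`)
there is a prime `p_l` with `N_l < p_l ≤ 2 N_l ≤ x / 2 ^ l`.  `p_l > x / 2 ^ (l + 1) ≥ x / 32 ≥ 3`.
`2 N_{l+1} ≤ N_l`, so the `p_l` are different.  If all five divide `n`, so does their product, which is
greater than `(x / 32) ^ 5 > n`, a contradiction to `n ≥ 1`. -/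
theorem exists_prime_ndvd {n : ℕ} (hn : 1 ≤ n) {x : ℝ} (hx : 96 ≤ x)
    (h : (n : ℝ) < (x / 32) ^ 5) :
    ∃ p : ℕ, p.Prime ∧ p ≠ 2 ∧ ¬ p ∣ n ∧ x / 32 ≤ p ∧ (p : ℝ) ≤ x := by
  classical
  have hx0 : 0 ≤ x := by linarith
  obtain ⟨N, hN⟩ : ∃ N : ℕ → ℕ, ∀ l, N l = ⌊x / 2 ^ (l + 1)⌋₊ := ⟨_, fun l => rfl⟩
  have hpow : ∀ l : ℕ, l < 5 → x / 32 ≤ x / 2 ^ (l + 1) := by
    intro l hl
    have h1 : (2 : ℝ) ^ (l + 1) ≤ 2 ^ 5 := pow_le_pow_right₀ (by norm_num) (by omega)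
    apply div_le_div_of_nonneg_left hx0 (by positivity)
    linarith
  have hN3 : ∀ l : ℕ, l < 5 → 3 ≤ N l := by
    intro l hl
    rw [hN]
    apply Nat.le_floor
    have := hpow l hl
    push_cast
    linarith
  have hP : ∀ l : ℕ, l < 5 → ∃ p : ℕ, p.Prime ∧ N l < p ∧ p ≤ 2 * N l := by
    intro l hl
    exact Nat.exists_prime_lt_and_le_two_mul (N l) (by have := hN3 l hl; omega)
  have hP' : ∀ l : ℕ, ∃ p : ℕ, l < 5 → (p.Prime ∧ N l < p ∧ p ≤ 2 * N l) := by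
    intro l
    by_cases hl : l < 5
    · obtain ⟨p, hp⟩ := hP l hl
      exact ⟨p, fun _ => hp⟩
    · exact ⟨0, fun h => absurd h hl⟩
  choose P hPP using hP'
  have hNle : ∀ l : ℕ, (N l : ℝ) ≤ x / 2 ^ (l + 1) := by
    intro l
    rw [hN]
    exact Nat.floor_le (by positivity)
  have hlow : ∀ l : ℕ, l < 5 → x / 32 < P l := by
    intro l hl
    have h1 : x / 2 ^ (l + 1) < (N l : ℝ) + 1 := by
      rw [hN]
      exact Nat.lt_floor_add_one _
    have h2 : (N l : ℝ) + 1 ≤ P l := by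
      exact_mod_cast (hPP l hl).2.1
    linarith [hpow l hl]
  have hup : ∀ l : ℕ, l < 5 → (P l : ℝ) ≤ x := by
    intro l hl
    have h1 : (P l : ℝ) ≤ 2 * N l := by exact_mod_cast (hPP l hl).2.2
    have h2 : x / 2 ^ (l + 1) ≤ x / 2 := by
      apply div_le_div_of_nonneg_left hx0 (by norm_num)
      rw [pow_succ]
      have : (1 : ℝ) ≤ 2 ^ l := one_le_pow₀ (by norm_num)
      linarith
    linarith [hNle l]
  have hdec : ∀ l : ℕ, l + 1 < 5 → P (l + 1) < P l := by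
    intro l hl
    have h1 : 2 * N (l + 1) ≤ N l := by
      rw [hN l]
      apply Nat.le_floor
      have h2 := hNle (l + 1)
      have h3 : x / 2 ^ (l + 1 + 1) * 2 = x / 2 ^ (l + 1) := by
        rw [pow_succ 2 (l + 1)]
        field_simp
      push_cast
      linarith
    have h2 := (hPP (l + 1) hl).2.2
    have h3 := (hPP l (by omega)).2.1
    omega
  by_contra hcon
  push Not at hcon
  have hdvd : ∀ l : ℕ, l < 5 → P l ∣ n := by
    intro l hl
    by_contra hnd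
    have h1 := hcon (P l) (hPP l hl).1 (by
      have := hN3 l hl
      have := (hPP l hl).2.1
      omega) hnd (hlow l hl).le
    exact absurd (hup l hl) (not_le.2 h1)
  have h01 := hdec 0 (by norm_num)
  have h12 := hdec 1 (by norm_num)
  have h23 := hdec 2 (by norm_num)
  have h34 := hdec 3 (by norm_num)
  norm_num at h01 h12 h23 h34
  have hprod : P 0 * (P 1 * (P 2 * (P 3 * P 4))) ∣ n := by
    have hc : ∀ i j : ℕ, i < 5 → j < 5 → P i ≠ P j → Nat.Coprime (P i) (P j) := fun i j hi hj hne =>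
      (Nat.coprime_primes (hPP i hi).1 (hPP j hj).1).2 hne
    refine Nat.Coprime.mul_dvd_of_dvd_of_dvd ?_ (hdvd 0 (by norm_num)) ?_
    · refine Nat.Coprime.mul_right (hc 0 1 (by norm_num) (by norm_num) (by omega)) ?_
      refine Nat.Coprime.mul_right (hc 0 2 (by norm_num) (by norm_num) (by omega)) ?_
      exact Nat.Coprime.mul_right (hc 0 3 (by norm_num) (by norm_num) (by omega))
        (hc 0 4 (by norm_num) (by norm_num) (by omega))
    refine Nat.Coprime.mul_dvd_of_dvd_of_dvd ?_ (hdvd 1 (by norm_num)) ?_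
    · refine Nat.Coprime.mul_right (hc 1 2 (by norm_num) (by norm_num) (by omega)) ?_
      exact Nat.Coprime.mul_right (hc 1 3 (by norm_num) (by norm_num) (by omega))
        (hc 1 4 (by norm_num) (by norm_num) (by omega))
    refine Nat.Coprime.mul_dvd_of_dvd_of_dvd ?_ (hdvd 2 (by norm_num)) ?_
    · exact Nat.Coprime.mul_right (hc 2 3 (by norm_num) (by norm_num) (by omega))
        (hc 2 4 (by norm_num) (by norm_num) (by omega))
    exact Nat.Coprime.mul_dvd_of_dvd_of_dvd (hc 3 4 (by norm_num) (by norm_num) (by omega))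
      (hdvd 3 (by norm_num)) (hdvd 4 (by norm_num))
  have hle := Nat.le_of_dvd (by omega) hprod
  have hle' : (P 0 : ℝ) * (P 1 * (P 2 * (P 3 * P 4))) ≤ n := by exact_mod_cast hle
  have hy : 0 ≤ x / 32 := by positivity
  have hbig : (x / 32) ^ 5 ≤ (P 0 : ℝ) * (P 1 * (P 2 * (P 3 * P 4))) := by
    have e : (x / 32) ^ 5 = (x / 32) * ((x / 32) * ((x / 32) * ((x / 32) * (x / 32)))) := by ring
    rw [e]
    have g0 := (hlow 0 (by norm_num)).le
    have g1 := (hlow 1 (by norm_num)).le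
    have g2 := (hlow 2 (by norm_num)).le
    have g3 := (hlow 3 (by norm_num)).le
    have g4 := (hlow 4 (by norm_num)).le
    gcongr
  linarith

/-- `exists_prime_ndvd` with `x = √(n / (κ log (6 κ)))`; `κ ≤ √(8 n log n)`, so
`x ^ 2 ≥ √n / (C (log n) ^ 2)` and `(x / 32) ^ 5 > n` for large `n`. -/
theorem exists_prime_kappa : ∃ n₀ : ℕ, ∀ n : ℕ, n₀ ≤ n → ∀ κ : ℝ, 1 ≤ κ →
    κ ≤ Real.sqrt (8 * n * Real.log n) →
    ∃ p : ℕ, p.Prime ∧ p ≠ 2 ∧ ¬ p ∣ n ∧ (p : ℝ) ^ 2 * κ * Real.log (6 * κ) ≤ n ∧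
      (n : ℝ) ≤ 1024 * (p : ℝ) ^ 2 * κ * Real.log (6 * κ) := by
  have hev1 : ∀ᶠ t : ℝ in Filter.atTop, Real.log t ≤ (1 / 8) * t ^ ((1 : ℝ) / 100) := by
    have h1 := (isLittleO_log_rpow_atTop (show (0 : ℝ) < 1 / 100 by norm_num)).bound
      (show (0 : ℝ) < 1 / 8 by norm_num)
    filter_upwards [h1, Filter.eventually_ge_atTop (1 : ℝ)] with t ht ht1
    have h2 := le_trans (le_abs_self _) ht
    rwa [Real.norm_of_nonneg (Real.rpow_nonneg (by linarith) _)] at h2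
  have hev2 : ∀ᶠ t : ℝ in Filter.atTop, (3 : ℝ) ≤ t ^ ((1 : ℝ) / 100) :=
    (tendsto_rpow_atTop (show (0 : ℝ) < 1 / 100 by norm_num)).eventually
      (Filter.eventually_ge_atTop 3)
  have hev := tendsto_natCast_atTop_atTop.eventually (hev1.and hev2)
  obtain ⟨n₀, hn₀⟩ := Filter.eventually_atTop.1 hev
  refine ⟨max n₀ 1, fun n hn κ hκ hκ2 => ?_⟩
  obtain ⟨hlog, h3⟩ := hn₀ n ((le_max_left _ _).trans hn)
  have hn1 : 1 ≤ n := (le_max_right _ _).trans hn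
  obtain ⟨y, hy⟩ : ∃ y : ℝ, y = (n : ℝ) ^ ((1 : ℝ) / 100) := ⟨_, rfl⟩
  rw [← hy] at hlog h3
  have hyn : y ^ 100 = n := by
    rw [hy, ← Real.rpow_natCast, ← Real.rpow_mul (Nat.cast_nonneg n)]
    norm_num
  have hy1 : 1 ≤ y := by linarith
  have hy0 : 0 < y := by linarith
  have hn0 : (0 : ℝ) < n := by exact_mod_cast hn1
  have hκ0 : 0 < κ := by linarith
  -- `κ ≤ y ^ 51`
  have hκy : κ ≤ y ^ 51 := by
    refine hκ2.trans ?_
    apply Real.sqrt_le_iff.2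
    refine ⟨by positivity, ?_⟩
    calc 8 * (n : ℝ) * Real.log n ≤ 8 * (n : ℝ) * (1 / 8 * y) :=
          mul_le_mul_of_nonneg_left hlog (by positivity)
      _ = y ^ 101 := by rw [← hyn]; ring
      _ ≤ y ^ 102 := pow_le_pow_right₀ hy1 (by norm_num)
      _ = (y ^ 51) ^ 2 := by ring
  have h6 : 6 * κ ≤ n := by
    have h1 : (6 : ℝ) ≤ y ^ 2 := by nlinarith
    calc 6 * κ ≤ y ^ 2 * y ^ 51 := mul_le_mul h1 hκy hκ0.le (by positivity)
      _ = y ^ 53 := by ring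
      _ ≤ y ^ 100 := pow_le_pow_right₀ hy1 (by norm_num)
      _ = n := hyn
  have hl0 : 1 ≤ Real.log (6 * κ) := by
    rw [Real.le_log_iff_exp_le (by positivity)]
    have := Real.exp_one_lt_d9
    linarith
  have hl1 : Real.log (6 * κ) ≤ y := by
    have h1 := Real.log_le_log (by positivity) h6
    linarith
  obtain ⟨Q, hQ⟩ : ∃ Q : ℝ, Q = κ * Real.log (6 * κ) := ⟨_, rfl⟩
  have hQ0 : 0 < Q := by rw [hQ]; positivity
  have hQy : Q ≤ y ^ 52 := by
    rw [hQ]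
    calc κ * Real.log (6 * κ) ≤ y ^ 51 * y := mul_le_mul hκy hl1 (by linarith) (by positivity)
      _ = y ^ 52 := by ring
  obtain ⟨x, hx⟩ : ∃ x : ℝ, x = Real.sqrt (n / Q) := ⟨_, rfl⟩
  have hx2 : x ^ 2 = n / Q := by
    rw [hx, Real.sq_sqrt (by positivity)]
  have hxy : y ^ 24 ≤ x := by
    rw [hx]
    apply Real.le_sqrt_of_sq_le
    rw [le_div_iff₀ hQ0]
    calc (y ^ 24) ^ 2 * Q ≤ (y ^ 24) ^ 2 * y ^ 52 :=
          mul_le_mul_of_nonneg_left hQy (by positivity)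
      _ = y ^ 100 := by ring
      _ = n := hyn
  have hx0 : 0 < x := lt_of_lt_of_le (by positivity) hxy
  have h96 : 96 ≤ x := by
    have h1 : (3 : ℝ) ^ 24 ≤ y ^ 24 := pow_le_pow_left₀ (by norm_num) h3 24
    have h2 : (96 : ℝ) ≤ 3 ^ 24 := by norm_num
    linarith
  have h5 : (n : ℝ) < (x / 32) ^ 5 := by
    have h1 : (y ^ 24 / 32) ^ 5 ≤ (x / 32) ^ 5 := by gcongr
    refine lt_of_lt_of_le ?_ h1
    have h2 : (y ^ 24 / 32) ^ 5 = y ^ 100 * (y ^ 20 / 32 ^ 5) := by ring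
    rw [h2, hyn]
    have h4 : (3 : ℝ) ^ 20 ≤ y ^ 20 := pow_le_pow_left₀ (by norm_num) h3 20
    have h7 : (1 : ℝ) < y ^ 20 / 32 ^ 5 := by
      rw [lt_div_iff₀ (by norm_num)]
      have h8 : (1 : ℝ) * 32 ^ 5 < 3 ^ 20 := by norm_num
      linarith
    nlinarith
  obtain ⟨p, hp, hp2, hpn, hlo, hhi⟩ := exists_prime_ndvd hn1 h96 h5
  refine ⟨p, hp, hp2, hpn, ?_, ?_⟩
  · have h1 : (p : ℝ) ^ 2 ≤ x ^ 2 := pow_le_pow_left₀ (Nat.cast_nonneg p) hhi 2
    rw [hx2, le_div_iff₀ hQ0, hQ] at h1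
    linarith
  · have h1 : (x / 32) ^ 2 ≤ (p : ℝ) ^ 2 := pow_le_pow_left₀ (by positivity) hlo 2
    have h2 : x ^ 2 ≤ 1024 * (p : ℝ) ^ 2 := by nlinarith
    rw [hx2, div_le_iff₀ hQ0, hQ] at h2
    linarith

end Pool.MP43e44c.OD
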