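import Pool.Agent.H.MP_43e44c_ag.OD.FldA
import Pool.Agent.H.MP_43e44c_ag.NA.Main

/-!
Galois CM fields of odd half degree: cubic subfields and cyclic sextic subfields.
-/

set_option autoImplicit false

open Finset Module NumberField

namespace Pool.MP43e44c.OD

/-- A subgroup of index three in a group with a central involution whose order is twice an odd number
contains the involution and meets a complement of the involution in a normal subgroup with cyclic
quotient of order six. -/
theorem sext_group {G : Type*} [Group G] [Fintype G] {n : ℕ} (hn : Odd n)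
    (hG : Fintype.card G = 2 * n) {c : G} (hc : c ≠ 1) (hcc : c * c = 1)
    (hcen : ∀ g, g * c = c * g) {O : Subgroup G} (hO : O.index = 2) (hcO : c ∉ O)
    {H : Subgroup G} (hH : H.index = 3) :
    (H ⊓ O).Normal ∧ (H ⊓ O).index = 6 ∧ (∀ _ : (H ⊓ O).Normal, IsCyclic (G ⧸ (H ⊓ O))) ∧
      H = (H ⊓ O) ⊔ Subgroup.zpowers c := by
  classical
  have hOn : O.Normal := Subgroup.normal_of_index_eq_two hO
  -- the involution is in `H`
  have hcH : c ∈ H := by
    by_contra hcH
    -- `H` has even order
    have h1 := H.card_mul_index
    rw [hH, Nat.card_eq_fintype_card (α := G), hG] at h1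
    have h2 : 2 ∣ Nat.card H := by
      have : 2 ∣ Nat.card H * 3 := by rw [h1]; exact dvd_mul_right 2 n
      exact (Nat.Coprime.dvd_mul_right (by norm_num)).1 this
    haveI : Fact (Nat.Prime 2) := ⟨Nat.prime_two⟩
    obtain ⟨x, hx⟩ := exists_prime_orderOf_dvd_card' (G := H) 2 h2
    -- `x` and `c` generate a subgroup of order four
    set K : Subgroup G := Subgroup.closure {(x : G), c} with hK
    have hx2 : (x : G) * x = 1 := by
      have := pow_orderOf_eq_one x
      rw [hx, pow_two] at this
      exact congrArg Subtype.val this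
    have hx1 : (x : G) ≠ 1 := by
      intro h
      have : x = 1 := Subtype.ext h
      rw [this, orderOf_one] at hx
      omega
    have hxc : (x : G) ≠ c := fun h => hcH (h ▸ x.2)
    -- a subgroup of order four
    let V : Subgroup G :=
      { carrier := {1, (x : G), c, (x : G) * c}
        one_mem' := by simp
        mul_mem' := by
          have e1 := hcen (x : G)
          rintro a b ha hb
          simp only [Set.mem_insert_iff, Set.mem_singleton_iff] at ha hb ⊢
          have f1 : (x : G) * ((x : G) * c) = c := by rw [← mul_assoc, hx2, one_mul]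
          have f2 : c * ((x : G) * c) = x := by rw [e1, ← mul_assoc, hcc, one_mul]
          have f3 : (x : G) * c * (x : G) = c := by rw [mul_assoc, ← e1, f1]
          have f4 : (x : G) * c * c = x := by rw [mul_assoc, hcc, mul_one]
          have f5 : (x : G) * c * ((x : G) * c) = 1 := by rw [← mul_assoc, f3, hcc]
          have f6 : c * (x : G) = x * c := e1.symm
          rcases ha with rfl | rfl | rfl | rfl <;> rcases hb with rfl | rfl | rfl | rfl <;>
            simp [hx2, hcc, f1, f2, f3, f4, f5, f6]
        inv_mem' := by
          rintro a ha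
          simp only [Set.mem_insert_iff, Set.mem_singleton_iff] at ha ⊢
          have g1 : (x : G)⁻¹ = x := inv_eq_of_mul_eq_one_left hx2
          have g2 : c⁻¹ = c := inv_eq_of_mul_eq_one_left hcc
          have g3 : ((x : G) * c)⁻¹ = x * c := by rw [mul_inv_rev, g1, g2, hcen]
          rcases ha with rfl | rfl | rfl | rfl
          · simp
          · simp [g1]
          · simp [g2]
          · simp [g3] }
    have hV : Nat.card V = 4 := by
      have h3 : ((V : Set G)) = (({1, (x : G), c, (x : G) * c} : Finset G) : Set G) := by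
        simp [V]
      have h4 : ({1, (x : G), c, (x : G) * c} : Finset G).card = 4 := by
        rw [Finset.card_insert_of_notMem, Finset.card_insert_of_notMem,
          Finset.card_insert_of_notMem, Finset.card_singleton]
        · rw [Finset.mem_singleton]
          intro h5
          apply hx1
          have : (x : G) * c = 1 * c := by rw [one_mul]; exact h5.symm
          exact mul_right_cancel this
        · rw [Finset.mem_insert, Finset.mem_singleton, not_or]
          refine ⟨hxc, fun h5 => hc ?_⟩
          have : (x : G) * 1 = x * c := by rw [mul_one]; exact h5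
          exact (mul_left_cancel this).symm
        · rw [Finset.mem_insert, Finset.mem_insert, Finset.mem_singleton, not_or, not_or]
          refine ⟨hx1.symm, hc.symm, fun h5 => hxc ?_⟩
          have : (x : G) * c = c * c := by rw [hcc]; exact h5.symm
          exact mul_right_cancel this
      have h5 : Nat.card V = (V : Set G).ncard := rfl
      rw [h5, h3, Set.ncard_coe_finset, h4]
    have h6 := V.card_subgroup_dvd_card
    rw [hV, Nat.card_eq_fintype_card, hG] at h6
    obtain ⟨k, hk⟩ := hn
    omega
  have hindex : (H ⊓ O).index = 6 := by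
    have h1 : 3 ∣ (H ⊓ O).index := hH ▸ Subgroup.index_dvd_of_le inf_le_left
    have h2 : 2 ∣ (H ⊓ O).index := hO ▸ Subgroup.index_dvd_of_le inf_le_right
    have h3 : 6 ∣ (H ⊓ O).index := by
      have := Nat.Coprime.mul_dvd_of_dvd_of_dvd (by norm_num : Nat.Coprime 3 2) h1 h2
      simpa using this
    have h4 : (H ⊓ O).index ≤ H.index * O.index := Subgroup.index_inf_le
    rw [hH, hO] at h4
    have h5 : (H ⊓ O).index ≠ 0 := Subgroup.index_ne_zero_of_finite
    obtain ⟨k, hk⟩ := h3
    have : k ≠ 0 := by rintro rfl; omega
    omega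
  have hsplit : ∀ g : G, g ∈ O ∨ g * c ∈ O := by
    intro g
    by_cases hg : g ∈ O
    · exact Or.inl hg
    · right
      rw [Subgroup.mul_mem_iff_of_index_two hO]
      exact ⟨fun h => absurd h hg, fun h => absurd h hcO⟩
  have hcardO : Nat.card O = n := by
    have h1 := O.card_mul_index
    rw [hO, Nat.card_eq_fintype_card (α := G), hG] at h1
    omega
  have hnormO : ((H ⊓ O).subgroupOf O).Normal := by
    have h1 : ((H ⊓ O).subgroupOf O).index = 3 := by
      have h2 : (H ⊓ O).relIndex O * O.index = (H ⊓ O).index :=
        Subgroup.relIndex_mul_index inf_le_right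
      rw [hindex, hO] at h2
      have h3 : (H ⊓ O).relIndex O = ((H ⊓ O).subgroupOf O).index := rfl
      rw [← h3]; omega
    apply Subgroup.normal_of_index_eq_minFac_card
    rw [h1, hcardO]
    have h3 : 3 ∣ n := by
      have := ((H ⊓ O).subgroupOf O).index_dvd_card
      rw [h1, hcardO] at this
      exact this
    have h4 : n.minFac ≤ 3 := Nat.minFac_le_of_dvd (by norm_num) h3
    have h5 : n ≠ 1 := by rintro rfl; omega
    have h6 : n.minFac.Prime := Nat.minFac_prime h5
    have h7 := h6.two_le
    have h8 : n.minFac ≠ 2 := by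
      intro h9
      have := Nat.minFac_dvd n
      rw [h9] at this
      obtain ⟨k, hk⟩ := hn
      omega
    omega
  have hnorm : (H ⊓ O).Normal := by
    constructor
    intro x hx g
    have hx' : (⟨x, hx.2⟩ : O) ∈ (H ⊓ O).subgroupOf O := by
      rw [Subgroup.mem_subgroupOf]; exact hx
    have key : ∀ o : G, o ∈ O → o * x * o⁻¹ ∈ H ⊓ O := by
      intro o ho
      have := hnormO.conj_mem _ hx' ⟨o, ho⟩
      rw [Subgroup.mem_subgroupOf] at this
      exact this
    rcases hsplit g with hg | hg
    · exact key g hg
    · have h1 := key _ hg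
      have h2 : g * c * x * (g * c)⁻¹ = g * x * g⁻¹ := by
        rw [mul_inv_rev, mul_assoc g c x, ← hcen x]
        group
      rwa [h2] at h1
  refine ⟨hnorm, hindex, fun _ => ?_, ?_⟩
  · -- an element of order six in the quotient
    haveI : Fact (Nat.Prime 3) := ⟨Nat.prime_three⟩
    have hcard : Nat.card (G ⧸ (H ⊓ O)) = 6 := by rw [← Subgroup.index_eq_card, hindex]
    obtain ⟨q, hq⟩ := exists_prime_orderOf_dvd_card' (G := G ⧸ (H ⊓ O)) 3 (by
      rw [hcard]; norm_num)
    have hcq : orderOf (QuotientGroup.mk' (H ⊓ O) c) = 2 := by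
      apply orderOf_eq_prime
      · rw [← map_pow, pow_two, hcc, map_one]
      · intro h2
        exact hcO ((QuotientGroup.eq_one_iff c).1 h2).2
    have hcom : Commute q (QuotientGroup.mk' (H ⊓ O) c) := by
      obtain ⟨g, rfl⟩ := QuotientGroup.mk_surjective q
      show (QuotientGroup.mk' (H ⊓ O) g) * _ = _ * (QuotientGroup.mk' (H ⊓ O) g)
      rw [← map_mul, ← map_mul, hcen]
    have h6 : orderOf (q * QuotientGroup.mk' (H ⊓ O) c) = 6 := by
      rw [hcom.orderOf_mul_eq_mul_orderOf_of_coprime (by rw [hq, hcq]; norm_num), hq, hcq]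
    exact isCyclic_of_orderOf_eq_card (q * QuotientGroup.mk' (H ⊓ O) c) (by rw [h6, hcard])
  · apply le_antisymm
    · intro h hh
      rcases hsplit h with h1 | h1
      · exact (le_sup_left : H ⊓ O ≤ _) ⟨hh, h1⟩
      · have h2 : h * c ∈ H ⊓ O := ⟨H.mul_mem hh hcH, h1⟩
        have h3 : h = h * c * c := by rw [mul_assoc, hcc, mul_one]
        rw [h3]
        exact Subgroup.mul_mem_sup h2 (Subgroup.mem_zpowers c)
    · rw [sup_le_iff]
      exact ⟨inf_le_left, by rw [Subgroup.zpowers_le]; exact hcH⟩

/-- The number of cubic subfields is at most the number of cyclic sextic non-real subfields. -/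
theorem cubic_le_sext {K : Type*} [Field K] [NumberField K] [IsCMField K] [IsGalois ℚ K] {n : ℕ}
    (hK : finrank ℚ K = 2 * n) (hn : Odd n) :
    {F : IntermediateField ℚ K | finrank ℚ F = 3}.ncard ≤ (NA.fourSixG K).ncard := by
  classical
  obtain ⟨φ⟩ : Nonempty (K →+* ℂ) := inferInstance
  obtain ⟨c, hcc, hcen, -, hc'⟩ := NA.exists_c φ
  have hG : Fintype.card (K ≃ₐ[ℚ] K) = 2 * n := NA.card_aut hK
  have hfin := NA.finite_intermediateField (K := K)
  have hc1 : c ≠ 1 := by
    rintro rfl
    have h1 := hc' φ
    have h2 : ComplexEmbedding.IsReal φ := by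
      rw [ComplexEmbedding.isReal_iff, h1]
      rfl
    exact IsTotallyComplex.complexEmbedding_not_isReal φ h2
  obtain ⟨O, hO, hcO⟩ := exists_compl hn hG hc1 hcc
  refine Set.ncard_le_ncard_of_injOn
    (fun F => IntermediateField.fixedField (F.fixingSubgroup ⊓ O)) ?_ ?_ (Set.toFinite _)
  · intro F hF
    have hF' : F.fixingSubgroup.index = 3 := by rw [NA.index_eq]; exact hF
    obtain ⟨h1, h2, h3, h4⟩ := sext_group hn hG hc1 hcc hcen hO hcO hF'
    set N := F.fixingSubgroup ⊓ O with hN
    have h5 : finrank ℚ (IntermediateField.fixedField N) = 6 := by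
      rw [← NA.index_eq, IntermediateField.fixingSubgroup_fixedField, h2]
    have h6 : IsCyclic ((IntermediateField.fixedField N) ≃ₐ[ℚ] (IntermediateField.fixedField N)) :=
      (MulEquiv.isCyclic (IsGalois.normalAutEquivQuotient N)).1 (h3 h1)
    refine ⟨?_, h6, ?_, Or.inr h5⟩
    · have e : (DivisionRing.toRatAlgebra : Algebra ℚ (IntermediateField.fixedField N))
          = (IntermediateField.fixedField N).algebra' := Subsingleton.elim _ _
      have h7 : @IsGalois ℚ _ (IntermediateField.fixedField N) _
          (IntermediateField.fixedField N).algebra' := IsGalois.of_fixedField_normal_subgroup N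
      rw [← e] at h7
      exact h7
    · by_contra hcon
      push Not at hcon
      apply hcO
      have h8 : c ∈ (IntermediateField.fixedField N).fixingSubgroup := by
        rw [IntermediateField.mem_fixingSubgroup_iff]
        intro x hx
        apply φ.injective
        have h9 : φ (c x) = (ComplexEmbedding.conjugate φ) x := by rw [hc' φ]; rfl
        rw [h9, ComplexEmbedding.conjugate_coe_eq]
        exact Complex.conj_eq_iff_im.2 (hcon x hx φ)
      rw [IntermediateField.fixingSubgroup_fixedField] at h8
      exact h8.2
  · intro F hF F' hF' h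
    have hF1 : F.fixingSubgroup.index = 3 := by rw [NA.index_eq]; exact hF
    have hF2 : F'.fixingSubgroup.index = 3 := by rw [NA.index_eq]; exact hF'
    obtain ⟨-, -, -, h4⟩ := sext_group hn hG hc1 hcc hcen hO hcO hF1
    obtain ⟨-, -, -, h4'⟩ := sext_group hn hG hc1 hcc hcen hO hcO hF2
    have h5 : F.fixingSubgroup ⊓ O = F'.fixingSubgroup ⊓ O := by
      have h6 := congrArg IntermediateField.fixingSubgroup h
      simp only [IntermediateField.fixingSubgroup_fixedField] at h6
      exact h6
    have h7 : F.fixingSubgroup = F'.fixingSubgroup := by rw [h4, h4', h5]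
    rw [← IsGalois.fixedField_fixingSubgroup F, h7, IsGalois.fixedField_fixingSubgroup F']

end Pool.MP43e44c.OD
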