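import Mathlib

/-!
The proportion of the singular matrices over a finite field.
-/

set_option autoImplicit false

open Finset

namespace Pool.MP43e44c.OD

/-- The proportion of the singular matrices of size `d` over a field with `q` elements. -/
noncomputable def sg (d q : ℕ) : ℝ := 1 - ∏ k ∈ range d, (1 - ((q : ℝ)⁻¹) ^ (k + 1))

/-- `Matrix.card_GL_field`. -/
theorem sg_card (F : Type*) [Field F] [Finite F] (d : ℕ) :
    (({M : Matrix (Fin d) (Fin d) F | ¬ IsUnit M}.ncard : ℕ) : ℝ)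
      = sg d (Nat.card F) * (Nat.card F : ℝ) ^ (d ^ 2) := by
  classical
  have : Fintype F := Fintype.ofFinite F
  have hq : 0 < Nat.card F := Nat.card_pos
  set q : ℕ := Nat.card F with hqd
  have hq' : (q : ℝ) ≠ 0 := by
    have : (0 : ℝ) < q := by exact_mod_cast hq
    exact this.ne'
  -- total
  have htot : Nat.card (Matrix (Fin d) (Fin d) F) = q ^ (d ^ 2) := by
    show Nat.card (Fin d → Fin d → F) = q ^ (d ^ 2)
    rw [Nat.card_fun, Nat.card_fun, Nat.card_eq_fintype_card (α := Fin d), Fintype.card_fin,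
      ← pow_mul, sq]
  have hunit : ({M : Matrix (Fin d) (Fin d) F | IsUnit M}.ncard : ℕ) = Nat.card
      (Matrix.GeneralLinearGroup (Fin d) F) := by
    rw [← Nat.card_coe_set_eq]
    refine Nat.card_congr (Equiv.symm ?_)
    exact Equiv.ofBijective (fun u => ⟨u.1, u.isUnit⟩) ⟨fun a b h => Units.ext (congrArg
      Subtype.val h), fun M => by
        obtain ⟨u, hu⟩ := M.2
        exact ⟨u, Subtype.ext hu⟩⟩
  have hcompl : {M : Matrix (Fin d) (Fin d) F | ¬ IsUnit M}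
      = {M : Matrix (Fin d) (Fin d) F | IsUnit M}ᶜ := rfl
  have h1 : ({M : Matrix (Fin d) (Fin d) F | IsUnit M}.ncard : ℕ)
      + ({M : Matrix (Fin d) (Fin d) F | ¬ IsUnit M}.ncard : ℕ) = q ^ (d ^ 2) := by
    rw [hcompl, Set.ncard_add_ncard_compl, htot]
  have h2 : ((({M : Matrix (Fin d) (Fin d) F | IsUnit M}.ncard : ℕ) : ℕ) : ℝ)
      = (q : ℝ) ^ (d ^ 2) * ∏ k ∈ range d, (1 - ((q : ℝ)⁻¹) ^ (k + 1)) := by
    rw [hunit, Matrix.card_GL_field, Nat.cast_prod, ← Finset.prod_range (fun i =>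
      (((Fintype.card F) ^ d - (Fintype.card F) ^ i : ℕ) : ℝ)), ← Finset.prod_range_reflect]
    have h3 : (q : ℝ) ^ (d ^ 2) = ∏ _k ∈ range d, (q : ℝ) ^ d := by
      rw [Finset.prod_const, Finset.card_range, ← pow_mul, sq]
    rw [h3, ← Finset.prod_mul_distrib]
    refine Finset.prod_congr rfl fun k hk => ?_
    rw [Finset.mem_range] at hk
    have h4 : Fintype.card F = q := by rw [hqd, Nat.card_eq_fintype_card]
    rw [h4, Nat.cast_sub (Nat.pow_le_pow_right hq (by omega))]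
    push_cast
    have h5 : (q : ℝ) ^ d = (q : ℝ) ^ (d - 1 - k) * (q : ℝ) ^ (k + 1) := by
      rw [← pow_add]
      congr 1
      omega
    rw [mul_sub, mul_one]
    congr 1
    rw [h5, mul_assoc, ← mul_pow, mul_inv_cancel₀ hq', one_pow, mul_one]
  have h3 : ((({M : Matrix (Fin d) (Fin d) F | ¬ IsUnit M}.ncard : ℕ) : ℕ) : ℝ)
      = (q : ℝ) ^ (d ^ 2) - ((({M : Matrix (Fin d) (Fin d) F | IsUnit M}.ncard : ℕ) : ℕ) : ℝ) := by
    have := congrArg (fun n : ℕ => (n : ℝ)) h1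
    push_cast at this
    linarith
  rw [h3, h2]
  unfold sg
  ring

theorem Sg_factor (q : ℕ) (hq : 1 ≤ q) (k : ℕ) :
    0 ≤ 1 - ((q : ℝ)⁻¹) ^ (k + 1) ∧ 1 - ((q : ℝ)⁻¹) ^ (k + 1) ≤ 1 := by
  have h1 : (1 : ℝ) ≤ q := by exact_mod_cast hq
  have h2 : (0 : ℝ) ≤ (q : ℝ)⁻¹ := by positivity
  have h3 : (q : ℝ)⁻¹ ≤ 1 := inv_le_one_of_one_le₀ h1
  have h4 : ((q : ℝ)⁻¹) ^ (k + 1) ≤ 1 := pow_le_one₀ h2 h3
  have h5 : 0 ≤ ((q : ℝ)⁻¹) ^ (k + 1) := pow_nonneg h2 _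
  constructor <;> linarith

theorem Sg_prod (q : ℕ) (hq : 1 ≤ q) (d : ℕ) :
    0 ≤ ∏ k ∈ range d, (1 - ((q : ℝ)⁻¹) ^ (k + 1)) ∧
      ∏ k ∈ range d, (1 - ((q : ℝ)⁻¹) ^ (k + 1)) ≤ 1 :=
  ⟨Finset.prod_nonneg fun k _ => (Sg_factor q hq k).1,
    Finset.prod_le_one (fun k _ => (Sg_factor q hq k).1) fun k _ => (Sg_factor q hq k).2⟩

theorem sg_nonneg (d q : ℕ) (hq : 1 ≤ q) : 0 ≤ sg d q := by
  unfold sg
  linarith [(Sg_prod q hq d).2]

theorem Sg_succ (d q : ℕ) (hq : 1 ≤ q) : sg (d + 1) q ≤ sg d q + ((q : ℝ)⁻¹) ^ (d + 1) := by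
  unfold sg
  rw [Finset.prod_range_succ]
  have h1 := Sg_prod q hq d
  have h2 : (0 : ℝ) ≤ ((q : ℝ)⁻¹) ^ (d + 1) := by positivity
  nlinarith [mul_le_mul_of_nonneg_right h1.2 h2]

theorem Sg_geom (q : ℕ) (hq : 2 ≤ q) (d : ℕ) :
    sg d q ≤ (1 / ((q : ℝ) - 1)) * (1 - ((q : ℝ)⁻¹) ^ d) := by
  have h1 : (2 : ℝ) ≤ q := by exact_mod_cast hq
  have h2 : (q : ℝ) - 1 ≠ 0 := by linarith
  have h3 : (q : ℝ) ≠ 0 := by linarith
  induction d with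
  | zero => simp [sg]
  | succ d ih =>
    refine (Sg_succ d q (by omega)).trans ?_
    have h4 : (1 / ((q : ℝ) - 1)) * (1 - ((q : ℝ)⁻¹) ^ (d + 1)) =
        (1 / ((q : ℝ) - 1)) * (1 - ((q : ℝ)⁻¹) ^ d) + ((q : ℝ)⁻¹) ^ (d + 1) := by
      rw [pow_succ]
      field_simp
      ring
    rw [h4]
    linarith

theorem Sg_two (d : ℕ) (hd : 1 ≤ d) :
    1 / 4 + ((2 : ℝ)⁻¹) ^ (d + 1) ≤ ∏ k ∈ range d, (1 - ((2 : ℝ)⁻¹) ^ (k + 1)) := by
  induction d, hd using Nat.le_induction with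
  | base => norm_num
  | succ d hd ih =>
    rw [Finset.prod_range_succ]
    set a : ℝ := ((2 : ℝ)⁻¹) ^ (d + 1) with ha
    have h1 : a ≤ 1 / 4 := by
      rw [ha]
      calc ((2 : ℝ)⁻¹) ^ (d + 1) ≤ ((2 : ℝ)⁻¹) ^ 2 :=
            pow_le_pow_of_le_one (by norm_num) (by norm_num) (by omega)
        _ = 1 / 4 := by norm_num
    have h2 : 0 ≤ a := by positivity
    have h3 : ((2 : ℝ)⁻¹) ^ (d + 1 + 1) = a / 2 := by
      rw [pow_succ, ← ha]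
      ring
    rw [h3]
    have h4 : (1 / 4 + a) * (1 - a) ≤ (∏ k ∈ range d, (1 - ((2 : ℝ)⁻¹) ^ (k + 1))) * (1 - a) :=
      mul_le_mul_of_nonneg_right ih (by linarith)
    refine le_trans ?_ h4
    nlinarith

/-- For `q = 2`: `∏_{k=1}^{d} (1 - 2^{-k}) ≥ 1/4 + 2^{-(d+1)}` by induction (`d ≥ 1`).  For
`q = 2 ^ f`, `f ≥ 2`: `1 - ∏_{k=1}^{d} (1 - q^{-k}) ≤ ∑_{k=1}^{d} q^{-k} ≤ 1 / (q - 1)`, and
`1 / (2 ^ f - 1) ≤ (3/4) ^ f`. -/
theorem sg_le (d f : ℕ) (hf : 1 ≤ f) (h : ¬ (d = 1 ∧ f = 1)) :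
    sg d (2 ^ f) ≤ (3 / 4 : ℝ) ^ f := by
  rcases Nat.lt_or_ge f 2 with h1 | h1
  · have h2 : f = 1 := by omega
    subst h2
    rcases Nat.eq_zero_or_pos d with h3 | h3
    · subst h3
      norm_num [sg]
    · have h4 := Sg_two d h3
      have h5 : (0 : ℝ) ≤ ((2 : ℝ)⁻¹) ^ (d + 1) := by positivity
      unfold sg
      have h6 : (((2 ^ 1 : ℕ) : ℝ)) = 2 := by norm_num
      rw [h6, pow_one]
      linarith
  · have hq : 2 ≤ 2 ^ f := by
      calc 2 = 2 ^ 1 := rfl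
        _ ≤ 2 ^ f := Nat.pow_le_pow_right (by norm_num) hf
    have h2 := Sg_geom (2 ^ f) hq d
    have hqr : (2 : ℝ) ≤ ((2 ^ f : ℕ) : ℝ) := by exact_mod_cast hq
    have h3 : (0 : ℝ) ≤ ((((2 ^ f : ℕ) : ℝ))⁻¹) ^ d := by positivity
    have h4 : (0 : ℝ) < 1 / ((((2 ^ f : ℕ) : ℝ)) - 1) := by
      apply one_div_pos.2
      linarith
    have h5 : sg d (2 ^ f) ≤ 1 / ((((2 ^ f : ℕ) : ℝ)) - 1) := by
      refine h2.trans ?_
      nlinarith
    refine h5.trans ?_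
    rw [div_le_iff₀ (by linarith)]
    push_cast
    have h6 : (3 / 4 : ℝ) ^ f * (2 ^ f - 1) = (3 / 2) ^ f - (3 / 4) ^ f := by
      rw [mul_sub, mul_one, ← mul_pow]
      norm_num
    rw [h6]
    have h7 : (3 / 2 : ℝ) ^ 2 ≤ (3 / 2) ^ f := pow_le_pow_right₀ (by norm_num) h1
    have h8 : (3 / 4 : ℝ) ^ f ≤ (3 / 4) ^ 2 := pow_le_pow_of_le_one (by norm_num) (by norm_num) h1
    norm_num at h7 h8
    linarith

end Pool.MP43e44c.OD
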