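import Pool.Agent.H.MP_43e44c_ag.OD.Inv

/-!
Symmetric and antisymmetric central elements for groups of odd order.
-/

set_option autoImplicit false

open Finset Module

namespace Pool.MP43e44c.OD

universe u

/-- The symmetric central elements. -/
noncomputable def Zp (O : Type u) [Group O] [Fintype O] : Submodule ℚ (MonoidAlgebra ℚ O) where
  carrier := {z | (∀ x, z * x = x * z) ∧ star' z = z}
  zero_mem' := ⟨fun x => by rw [zero_mul, mul_zero], by
    apply ma_ext; intro g; rw [star'_coeff]; rfl⟩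
  add_mem' := fun {a b} ha hb => ⟨fun x => by rw [add_mul, mul_add, ha.1 x, hb.1 x], by
    rw [star'_add, ha.2, hb.2]⟩
  smul_mem' := fun c z hz => ⟨fun x => by rw [smul_mul_assoc, mul_smul_comm, hz.1 x], by
    rw [star'_smul, hz.2]⟩

/-- The antisymmetric central elements. -/
noncomputable def Zm (O : Type u) [Group O] [Fintype O] : Submodule ℚ (MonoidAlgebra ℚ O) where
  carrier := {z | (∀ x, z * x = x * z) ∧ star' z = -z}
  zero_mem' := ⟨fun x => by rw [zero_mul, mul_zero], by
    apply ma_ext; intro g; rw [star'_coeff, neg_zero]; rfl⟩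
  add_mem' := fun {a b} ha hb => ⟨fun x => by rw [add_mul, mul_add, ha.1 x, hb.1 x], by
    rw [star'_add, ha.2, hb.2]; abel⟩
  smul_mem' := fun c z hz => ⟨fun x => by rw [smul_mul_assoc, mul_smul_comm, hz.1 x], by
    rw [star'_smul, hz.2, smul_neg]⟩

/-- If `h g h⁻¹ = g⁻¹` then `h ^ 2` commutes with `g`; `h` is a power of `h ^ 2` (odd order), so
`g = g⁻¹`, `g ^ 2 = 1`, `g = 1`. -/
theorem eq_one_of_conj_inv {O : Type u} [Group O] [Fintype O] (hO : Odd (Fintype.card O))
    {g h : O} (hg : h * g * h⁻¹ = g⁻¹) : g = 1 := by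
  obtain ⟨k, hk⟩ := hO
  have h1 : Commute (h ^ 2) g := by
    have h2 : h * g⁻¹ * h⁻¹ = g := by
      have h3 := congrArg (fun t => t⁻¹) hg
      simp only [mul_inv_rev, inv_inv] at h3
      rw [← mul_assoc] at h3
      exact h3
    have h4 : h * (h * g * h⁻¹) * h⁻¹ = g := by rw [hg, h2]
    have h5 : h ^ 2 * g = (h * (h * g * h⁻¹) * h⁻¹) * h ^ 2 := by
      rw [pow_two]
      group
    rw [h4] at h5
    exact h5
  have h2 : Commute h g := by
    have h3 : Commute ((h ^ 2) ^ (k + 1)) g := h1.pow_left _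
    have h4 : (h ^ 2) ^ (k + 1) = h := by
      rw [← pow_mul, show 2 * (k + 1) = (2 * k + 1) + 1 by ring, pow_succ, ← hk, pow_card_eq_one,
        one_mul]
    rwa [h4] at h3
  have h3 : g = g⁻¹ := by
    have h4 : h * g = g * h := h2
    rw [h4, mul_assoc, mul_inv_cancel, mul_one] at hg
    exact hg
  have h4 : g ^ 2 = 1 := by
    rw [pow_two]
    nth_rw 1 [h3]
    exact inv_mul_cancel g
  have h5 : g ^ (2 * k + 1) = 1 := by rw [← hk, pow_card_eq_one]
  rw [pow_succ, pow_mul, h4, one_pow, one_mul] at h5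
  exact h5

section

variable {O : Type u} [Group O] [Fintype O]

/-- the coefficients of a central element are constant on classes -/
theorem Two1_central_coeff {z : MonoidAlgebra ℚ O} (hz : ∀ x, z * x = x * z) (g h : O) :
    z.coeff (h * g * h⁻¹) = z.coeff g := by
  have h1 := congrArg (fun t => t.coeff (h * g)) (hz (MonoidAlgebra.single h 1))
  simp only [MonoidAlgebra.coeff_mul_single_apply, MonoidAlgebra.coeff_single_mul_apply,
    mul_one, one_mul, inv_mul_cancel_left] at h1
  exact h1

/-- an element whose coefficients are constant on classes is central -/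
theorem Two1_central_of {z : MonoidAlgebra ℚ O} (hz : ∀ g h, z.coeff (h * g * h⁻¹) = z.coeff g)
    (x : MonoidAlgebra ℚ O) : z * x = x * z := by
  apply ma_ext
  intro g
  rw [coeff_mul_left, coeff_mul_left]
  rw [← Equiv.sum_comp ((Equiv.inv O).trans (Equiv.mulLeft g))
    fun h => z.coeff h * x.coeff (h⁻¹ * g)]
  refine sum_congr rfl fun k _ => ?_
  simp only [Equiv.trans_apply, Equiv.inv_apply, Equiv.coe_mulLeft, mul_inv_rev, inv_inv]
  rw [mul_assoc k g⁻¹ g, inv_mul_cancel, mul_one, mul_comm]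
  congr 1
  have := hz (k⁻¹ * g) k
  rw [mul_inv_cancel_left] at this
  exact this

/-- the sign function -/
theorem Two1_sign (hO : Odd (Fintype.card O)) : ∃ s : O → ℚ, (∀ g h, s (h * g * h⁻¹) = s g) ∧
    (∀ g, s g⁻¹ = - s g) ∧ ∀ g, s g = 0 → g = 1 := by
  classical
  obtain ⟨f, hf⟩ := exists_injective_nat (ConjClasses O)
  have hc : ∀ g h : O, f (ConjClasses.mk (h * g * h⁻¹)) = f (ConjClasses.mk g) := by
    intro g h
    congr 1
    exact ConjClasses.mk_eq_mk_iff_isConj.2 (isConj_iff.2 ⟨h, rfl⟩).symm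
  have hi : ∀ g h : O, (h * g * h⁻¹)⁻¹ = h * g⁻¹ * h⁻¹ := by
    intro g h
    group
  refine ⟨fun g => if f (ConjClasses.mk g) < f (ConjClasses.mk g⁻¹) then 1 else
    if f (ConjClasses.mk g⁻¹) < f (ConjClasses.mk g) then -1 else 0, ?_, ?_, ?_⟩
  · intro g h
    simp only [hi, hc]
  · intro g
    simp only [inv_inv]
    rcases lt_trichotomy (f (ConjClasses.mk g)) (f (ConjClasses.mk g⁻¹)) with h | h | h
    · rw [if_neg (not_lt.2 h.le), if_pos h, if_pos h]
    · rw [h]
      simp
    · rw [if_pos h, if_neg (not_lt.2 h.le), if_pos h, neg_neg]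
  · intro g hg
    simp only at hg
    rcases lt_trichotomy (f (ConjClasses.mk g)) (f (ConjClasses.mk g⁻¹)) with h | h | h
    · rw [if_pos h] at hg
      exact absurd hg one_ne_zero
    · obtain ⟨c, hc⟩ := isConj_iff.1 (ConjClasses.mk_eq_mk_iff_isConj.1 (hf h))
      exact eq_one_of_conj_inv hO hc
    · rw [if_neg (not_lt.2 h.le), if_pos h] at hg
      norm_num at hg

/-- multiplication of the coefficients by a function -/
noncomputable def Two1_mul (s : O → ℚ) : MonoidAlgebra ℚ O →ₗ[ℚ] MonoidAlgebra ℚ O where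
  toFun z := ofFun fun g => s g * z.coeff g
  map_add' := by
    intro x y
    apply ma_ext
    intro g
    have h1 : (ofFun (fun g => s g * x.coeff g) + ofFun (fun g => s g * y.coeff g) :
      MonoidAlgebra ℚ O).coeff g = (ofFun (fun g => s g * x.coeff g)).coeff g +
        (ofFun (fun g => s g * y.coeff g)).coeff g := rfl
    have h2 : (x + y).coeff g = x.coeff g + y.coeff g := rfl
    rw [h1, ofFun_coeff, ofFun_coeff, ofFun_coeff, h2, mul_add]
  map_smul' := by
    intro c x
    apply ma_ext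
    intro g
    have h1 : (c • ofFun (fun g => s g * x.coeff g) : MonoidAlgebra ℚ O).coeff g =
      c * (ofFun (fun g => s g * x.coeff g)).coeff g := rfl
    have h2 : (c • x).coeff g = c * x.coeff g := rfl
    rw [RingHom.id_apply, h1, ofFun_coeff, ofFun_coeff, h2]
    ring

theorem Two1_mul_coeff (s : O → ℚ) (z : MonoidAlgebra ℚ O) (g : O) :
    (Two1_mul s z).coeff g = s g * z.coeff g := ofFun_coeff _ _

/-- the coefficient at `1` -/
noncomputable def Two1_one : MonoidAlgebra ℚ O →ₗ[ℚ] ℚ where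
  toFun z := z.coeff 1
  map_add' := fun _ _ => rfl
  map_smul' := fun _ _ => rfl

theorem Two1_mem {s : O → ℚ} (h1 : ∀ g h, s (h * g * h⁻¹) = s g) (h2 : ∀ g, s g⁻¹ = - s g)
    {z : MonoidAlgebra ℚ O} (hz : z ∈ Zp O) : Two1_mul s z ∈ Zm O := by
  obtain ⟨hz1, hz2⟩ := hz
  refine ⟨Two1_central_of fun g h => ?_, ?_⟩
  · rw [Two1_mul_coeff, Two1_mul_coeff, h1, Two1_central_coeff hz1]
  · apply ma_ext
    intro g
    have h3 : (-(Two1_mul s z)).coeff g = -(Two1_mul s z).coeff g := rfl
    have h4 : z.coeff g⁻¹ = z.coeff g := by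
      rw [← star'_coeff, hz2]
    rw [star'_coeff, h3, Two1_mul_coeff, Two1_mul_coeff, h2, h4, neg_mul]

instance Two1_fin : Module.Finite ℚ (MonoidAlgebra ℚ O) := by
  refine Module.Finite.of_surjective
    ({ toFun := fun f => ofFun f, map_add' := ?_, map_smul' := ?_ } :
      (O → ℚ) →ₗ[ℚ] MonoidAlgebra ℚ O) ?_
  · intro f f'
    apply ma_ext
    intro g
    have h1 : (ofFun f + ofFun f' : MonoidAlgebra ℚ O).coeff g =
      (ofFun f).coeff g + (ofFun f').coeff g := rfl
    rw [h1, ofFun_coeff, ofFun_coeff, ofFun_coeff]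
    rfl
  · intro c f
    apply ma_ext
    intro g
    have h1 : (c • ofFun f : MonoidAlgebra ℚ O).coeff g = c * (ofFun f).coeff g := rfl
    rw [RingHom.id_apply, h1, ofFun_coeff, ofFun_coeff]
    rfl
  · intro z
    refine ⟨fun g => z.coeff g, ?_⟩
    apply ma_ext
    intro g
    exact ofFun_coeff _ _

end

/-- Choose a linear order on `ConjClasses O` (for instance via an embedding into `Fin _` or a
well-order) and let `s C = 1` if `C < C⁻¹` and `s C = -1` if `C⁻¹ < C` (class of the inverse); by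
`eq_one_of_conj_inv` the classes `C ≠ {1}` satisfy `C ≠ C⁻¹`, so `s (C⁻¹) = - s C` for them.  The map
`z ↦ (s · z, z.coeff 1)` from `Zp` to `Zm × ℚ` (the class function `s · z`, with value `0` at `1`) is
linear and injective. -/
theorem finrank_Zp_le {O : Type u} [Group O] [Fintype O] (hO : Odd (Fintype.card O)) :
    finrank ℚ (Zp O) ≤ finrank ℚ (Zm O) + 1 := by
  obtain ⟨s, h1, h2, h3⟩ := Two1_sign hO
  let L1 : Zp O →ₗ[ℚ] Zm O := ((Two1_mul s).comp (Zp O).subtype).codRestrict (Zm O)
    (fun z => Two1_mem h1 h2 z.2)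
  let L2 : Zp O →ₗ[ℚ] ℚ := Two1_one.comp (Zp O).subtype
  have hinj : Function.Injective (L1.prod L2) := by
    rw [← LinearMap.ker_eq_bot, LinearMap.ker_eq_bot']
    rintro z hz
    have e1 : L1 z = 0 := congrArg Prod.fst hz
    have e2 : L2 z = 0 := congrArg Prod.snd hz
    apply Subtype.ext
    apply ma_ext
    intro g
    have h0 : ((0 : Zp O) : MonoidAlgebra ℚ O).coeff g = 0 := rfl
    rw [h0]
    by_cases hg : g = 1
    · rw [hg]
      exact e2
    · have e3 : Two1_mul s (z : MonoidAlgebra ℚ O) = 0 := congrArg Subtype.val e1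
      have e4 := congrArg (fun t => t.coeff g) e3
      simp only [Two1_mul_coeff] at e4
      have e5 : (0 : MonoidAlgebra ℚ O).coeff g = 0 := rfl
      rw [e5] at e4
      rcases mul_eq_zero.1 e4 with h | h
      · exact absurd (h3 g h) hg
      · exact h
  have h4 := LinearMap.finrank_le_finrank_of_injective hinj
  rw [Module.finrank_prod, Module.finrank_self] at h4
  exact h4

end Pool.MP43e44c.OD
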