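import Pool.Agent.H.MP_43e44c_ag.OD.Two1

/-!
The centers of the nontrivial components have degree at least two.
-/

set_option autoImplicit false

open Finset Module

namespace Pool.MP43e44c.OD

universe u

variable {O : Type u} [Group O] [Fintype O]

/-- A component with `comp i s ≠ 0`, `s = ∑ g`, is one-dimensional: for all `x`,
`comp i x * comp i s = aug x • comp i s` (`mul_sEl`), and `comp i s` is a nonzero scalar with a central
`ζ` (`s` is central: `mul_sEl`, `sEl_mul`), so `comp i x = aug x • 1`. -/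
theorem comp_of_not_NT (W : WD ℚ O) {i : Fin W.m} (hi : ¬ W.NT i) (x : MonoidAlgebra ℚ O) :
    W.comp i x = aug x • (1 : Matrix (Fin (W.r i)) (Fin (W.r i)) (W.D i)) := by
  have hs : ∀ y : MonoidAlgebra ℚ O, sEl ℚ O * y = y * sEl ℚ O := fun y => by
    rw [sEl_mul, mul_sEl]
  obtain ⟨ζ, -, hζ⟩ := W.comp_central i hs
  have hζ0 : ζ ≠ 0 := by
    intro h
    apply hi
    show W.comp i (sEl ℚ O) = 0
    rw [hζ, h]
    exact Matrix.diagonal_zero
  have h1 : W.comp i x * W.comp i (sEl ℚ O) = aug x • W.comp i (sEl ℚ O) := by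
    rw [← map_mul, mul_sEl, map_smul]
  have h2 : W.comp i (sEl ℚ O) * Matrix.diagonal (fun _ => ζ⁻¹) = 1 := by
    rw [hζ, Matrix.diagonal_mul_diagonal]
    simp only [mul_inv_cancel₀ hζ0]
    exact Matrix.diagonal_one
  calc W.comp i x = W.comp i x * (W.comp i (sEl ℚ O) * Matrix.diagonal (fun _ => ζ⁻¹)) := by
        rw [h2, mul_one]
    _ = aug x • (1 : Matrix (Fin (W.r i)) (Fin (W.r i)) (W.D i)) := by
        rw [← mul_assoc, h1, smul_mul_assoc, h2]

/-- There is a component with `comp i s ≠ 0` (as `s ≠ 0`). -/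
theorem exists_not_NT (W : WD ℚ O) : ∃ i, ¬ W.NT i := by
  by_contra hne
  push Not at hne
  have h1 : sEl ℚ O = 0 := W.comp_inj fun i => by
    rw [map_zero]
    exact hne i
  have h2 : (sEl ℚ O).coeff (1 : O) = (0 : MonoidAlgebra ℚ O).coeff 1 := by rw [h1]
  rw [sEl_coeff] at h2
  exact one_ne_zero h2

theorem Two2_e_ne (W : WD ℚ O) (i : Fin W.m) : W.e i ≠ 0 := by
  intro h
  have h1 := W.comp_e_self i
  rw [h, map_zero] at h1
  have : Nonempty (Fin (W.r i)) := ⟨⟨0, Nat.pos_of_ne_zero (NeZero.ne (W.r i))⟩⟩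
  exact zero_ne_one h1

theorem Two2_fin (W : WD ℚ O) : Module.Finite ℚ (MonoidAlgebra ℚ O) :=
  Module.Finite.equiv W.φ.symm.toLinearEquiv

theorem Two2_e_mem (W : WD ℚ O) (i : Fin W.m) : W.e i ∈ Zp O :=
  ⟨fun x => W.e_comm i x, star'_e W i⟩

theorem Two2_mul_mem {w z : MonoidAlgebra ℚ O} (hw : w ∈ Zm O) (hz : z ∈ Zm O) :
    w * z ∈ Zp O := by
  refine ⟨fun x => ?_, ?_⟩
  · rw [mul_assoc, hz.1 x, ← mul_assoc, hw.1 x, mul_assoc]
  · rw [star'_mul, hz.2, hw.2, neg_mul_neg, hw.1 z]

theorem Two2_mul_e_mem (W : WD ℚ O) {z : MonoidAlgebra ℚ O} (hz : z ∈ Zm O) (i : Fin W.m) :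
    z * W.e i ∈ Zm O := by
  refine ⟨fun x => ?_, ?_⟩
  · rw [mul_assoc, W.e_comm i x, ← mul_assoc, hz.1 x, mul_assoc]
  · rw [star'_mul, star'_e, hz.2, mul_neg, hz.1 (W.e i)]

/-- In the nontrivial components there are nonzero antisymmetric central elements.

PROOF. Let `T` be the set of the `i` such that the only `z` in `Zm O` with `z * e i = z` is `0`.
For `i ∉ T` choose such a `w i ≠ 0`, and let `w = ∑ i ∉ T, w i`.  If `z ∈ Zm O`, then
`z = ∑ z * e i`, and `z * e i ∈ Zm O` (`star'_e`, `e_comm`), so `z * e i = 0` for `i ∈ T`.  The map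
`z ↦ w * z` from `Zm O` to `Zp O` is injective: if `w * z = 0`, then for `i ∉ T`
`(w i) * (z * e i) = 0`, and the components `i` of the two factors are scalars in the center of the
division ring `D i` (`comp_central`), so `z * e i = 0`.  The values `y = w * z` satisfy `y * e i = 0` for
all `i ∈ T`, so the subspaces `w * Zm O` and the span of the `e i`, `i ∈ T`, of `Zp O` meet in `0`
(`e i ∈ Zp O`, and the `e i` are linearly independent).  Hence
`finrank (Zm O) + card T ≤ finrank (Zp O) ≤ finrank (Zm O) + 1` (`finrank_Zp_le`), so `card T ≤ 1`.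
The `i₀` with `comp i₀ s ≠ 0` (`exists_not_NT`) is in `T` (`comp_of_not_NT`: if `z * e i₀ = z` then
`z = c • e i₀` and `star' z = z`).  So a component `i` with `comp i s = 0` is not in `T`. -/
theorem exists_antisymm (hO : Odd (Fintype.card O)) (W : WD ℚ O) {i : Fin W.m} (hi : W.NT i) :
    ∃ w ∈ Zm O, w * W.e i = w ∧ w ≠ 0 := by
  classical
  by_contra hne
  push Not at hne
  obtain ⟨i0, hi0⟩ := exists_not_NT W
  have hii : i ≠ i0 := by
    rintro rfl
    exact hi0 hi
  have := Two2_fin W
  -- `i0` also has no antisymmetric elements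
  have hne0 : ∀ w ∈ Zm O, w * W.e i0 = w → w = 0 := by
    intro w hw hwe
    have h1 : star' w = w := by
      have h2 : w = aug w • W.e i0 := by
        apply W.comp_inj
        intro j
        rw [map_smul]
        by_cases hj : j = i0
        · subst hj
          rw [comp_of_not_NT W hi0 w, W.comp_e_self]
        · rw [W.comp_e_ne hj, smul_zero]
          exact (W.mul_e_iff i0 w).1 hwe j hj
      rw [h2, star'_smul, star'_e]
    have h3 := hw.2
    rw [h1] at h3
    have h4 : w + w = 0 := by
      nth_rewrite 1 [h3]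
      exact neg_add_cancel w
    have h5 : (2 : ℚ) • w = 0 := by rw [two_smul]; exact h4
    exact (smul_eq_zero.1 h5).resolve_left (by norm_num)
  -- choose the elements `w j`
  have hch : ∀ j : Fin W.m, ∃ w ∈ Zm O, w * W.e j = w ∧
      (w = 0 → ∀ z ∈ Zm O, z * W.e j = z → z = 0) := by
    intro j
    by_cases h : ∃ w ∈ Zm O, w * W.e j = w ∧ w ≠ 0
    · obtain ⟨w, h1, h2, h3⟩ := h
      exact ⟨w, h1, h2, fun h4 => absurd h4 h3⟩
    · push Not at h
      exact ⟨0, Submodule.zero_mem _, zero_mul _, fun _ => h⟩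
  choose w hwm hwe hw0 using hch
  set ws : MonoidAlgebra ℚ O := ∑ j, w j with hws
  have hwsm : ws ∈ Zm O := Submodule.sum_mem _ fun j _ => hwm j
  have hwse : ∀ j, ws * W.e j = w j := by
    intro j
    rw [hws, sum_mul, sum_eq_single j]
    · exact hwe j
    · intro k _ hk
      rw [← hwe k, mul_assoc, W.e_mul_ne hk, mul_zero]
    · intro h
      exact absurd (mem_univ j) h
  let L : (Zm O × (ℚ × ℚ)) →ₗ[ℚ] Zp O :=
    { toFun := fun q => ⟨ws * q.1.1 + q.2.1 • W.e i + q.2.2 • W.e i0,
        Submodule.add_mem _ (Submodule.add_mem _ (Two2_mul_mem hwsm q.1.2)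
          (Submodule.smul_mem _ _ (Two2_e_mem W i))) (Submodule.smul_mem _ _ (Two2_e_mem W i0))⟩
      map_add' := by
        intro a b
        apply Subtype.ext
        show ws * (a.1.1 + b.1.1) + (a.2.1 + b.2.1) • W.e i + (a.2.2 + b.2.2) • W.e i0 =
          (ws * a.1.1 + a.2.1 • W.e i + a.2.2 • W.e i0) +
          (ws * b.1.1 + b.2.1 • W.e i + b.2.2 • W.e i0)
        rw [mul_add, add_smul, add_smul]
        abel
      map_smul' := by
        intro c a
        apply Subtype.ext
        show ws * (c • a.1.1) + (c * a.2.1) • W.e i + (c * a.2.2) • W.e i0 =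
          c • (ws * a.1.1 + a.2.1 • W.e i + a.2.2 • W.e i0)
        rw [mul_smul_comm, smul_add, smul_add, mul_smul, mul_smul] }
  have hL : Function.Injective L := by
    rw [injective_iff_map_eq_zero]
    rintro ⟨z, a, b⟩ hq
    have h0 : ws * z.1 + a • W.e i + b • W.e i0 = 0 := congrArg Subtype.val hq
    have hzz := z.2
    have hwi : w i = 0 := hne _ (hwm i) (hwe i)
    have hwi0 : w i0 = 0 := hne0 _ (hwm i0) (hwe i0)
    have hmul : ∀ j, ws * z.1 * W.e j = w j * z.1 := by
      intro j
      rw [mul_assoc, ← W.e_comm j, ← mul_assoc, hwse]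
    have ha : a = 0 := by
      have h1 := congrArg (fun y => y * W.e i) h0
      simp only [add_mul, hmul, hwi, zero_mul, smul_mul_assoc, W.e_mul_self,
        W.e_mul_ne hii.symm, smul_zero, add_zero, zero_add] at h1
      exact (smul_eq_zero.1 h1).resolve_right (Two2_e_ne W i)
    have hb : b = 0 := by
      have h1 := congrArg (fun y => y * W.e i0) h0
      simp only [add_mul, hmul, hwi0, zero_mul, smul_mul_assoc, W.e_mul_self,
        W.e_mul_ne hii, smul_zero, add_zero, zero_add] at h1
      exact (smul_eq_zero.1 h1).resolve_right (Two2_e_ne W i0)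
    rw [ha, hb, zero_smul, zero_smul, add_zero, add_zero] at h0
    have hz0 : z.1 = 0 := by
      apply W.comp_inj
      intro j
      rw [map_zero]
      by_cases hj : w j = 0
      · have h1 := hw0 j hj (z.1 * W.e j) (Two2_mul_e_mem W hzz j)
          (by rw [mul_assoc, W.e_mul_self])
        have h2 := congrArg (W.comp j) h1
        rw [map_mul, W.comp_e_self, mul_one, map_zero] at h2
        exact h2
      · have h1 : w j * z.1 = 0 := by rw [← hmul, h0, zero_mul]
        obtain ⟨ζ, -, hζ⟩ := W.comp_central j (hwm j).1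
        obtain ⟨η, -, hη⟩ := W.comp_central j hzz.1
        have hζ0 : ζ ≠ 0 := by
          intro h
          apply hj
          apply W.comp_inj
          intro k
          rw [map_zero]
          by_cases hk : k = j
          · subst hk
            rw [hζ, h]
            exact Matrix.diagonal_zero
          · exact (W.mul_e_iff j (w j)).1 (hwe j) k hk
        have h2 := congrArg (W.comp j) h1
        rw [map_mul, hζ, hη, Matrix.diagonal_mul_diagonal, map_zero] at h2
        have h3 := congrFun (congrFun h2 ⟨0, Nat.pos_of_ne_zero (NeZero.ne (W.r j))⟩)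
          ⟨0, Nat.pos_of_ne_zero (NeZero.ne (W.r j))⟩
        rw [Matrix.diagonal_apply_eq, Matrix.zero_apply] at h3
        have h4 : η = 0 := (mul_eq_zero.1 h3).resolve_left hζ0
        rw [hη, h4]
        exact Matrix.diagonal_zero
    rw [ha, hb]
    exact Prod.ext (Subtype.ext hz0) rfl
  have h1 := LinearMap.finrank_le_finrank_of_injective hL
  have h2 := finrank_Zp_le hO
  rw [Module.finrank_prod, Module.finrank_prod, Module.finrank_self] at h1
  omega

/-- `W.e i` and the `w` of `exists_antisymm` are linearly independent elements of `ctrE i`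
(`star'_e`: if `w = c • e i` then `w = star' w = - w`); `finrank_ctrE`. -/
theorem two_le_f (hO : Odd (Fintype.card O)) (W : WD ℚ O) {i : Fin W.m} (hi : W.NT i) :
    2 ≤ W.f i := by
  have := Two2_fin W
  obtain ⟨w, hw, hwe, hw0⟩ := exists_antisymm hO W hi
  rw [← W.finrank_ctrE i]
  have hem : W.e i ∈ W.ctrE i := ⟨fun x => W.e_comm i x, W.e_mul_self i⟩
  have hwm : w ∈ W.ctrE i := ⟨hw.1, hwe⟩
  let L : (ℚ × ℚ) →ₗ[ℚ] W.ctrE i :=
    { toFun := fun q => ⟨q.1 • W.e i + q.2 • w,
        Submodule.add_mem _ (Submodule.smul_mem _ _ hem) (Submodule.smul_mem _ _ hwm)⟩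
      map_add' := by
        intro a b
        apply Subtype.ext
        show (a.1 + b.1) • W.e i + (a.2 + b.2) • w =
          (a.1 • W.e i + a.2 • w) + (b.1 • W.e i + b.2 • w)
        rw [add_smul, add_smul]
        abel
      map_smul' := by
        intro c a
        apply Subtype.ext
        show (c * a.1) • W.e i + (c * a.2) • w = c • (a.1 • W.e i + a.2 • w)
        rw [smul_add, mul_smul, mul_smul] }
  have hL : Function.Injective L := by
    rw [injective_iff_map_eq_zero]
    rintro ⟨a, b⟩ hq
    have h0 : a • W.e i + b • w = 0 := congrArg Subtype.val hq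
    have hst : star' (0 : MonoidAlgebra ℚ O) = 0 := by
      have := star'_smul (0 : ℚ) (0 : MonoidAlgebra ℚ O)
      rw [zero_smul, zero_smul] at this
      exact this
    have h1 := congrArg star' h0
    rw [star'_add, star'_smul, star'_smul, star'_e, hw.2, hst, smul_neg] at h1
    have h2 : (2 * a) • W.e i = 0 := by
      have h3 : (2 * a) • W.e i = (a • W.e i + b • w) + (a • W.e i + -(b • w)) := by
        rw [two_mul, add_smul]
        abel
      rw [h3, h0, h1, add_zero]
    have ha : a = 0 := by
      have h3 := (smul_eq_zero.1 h2).resolve_right (Two2_e_ne W i)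
      linarith
    rw [ha, zero_smul, zero_add] at h0
    have hb : b = 0 := (smul_eq_zero.1 h0).resolve_right hw0
    rw [ha, hb]
    rfl
  have h1 := LinearMap.finrank_le_finrank_of_injective hL
  rw [Module.finrank_prod, Module.finrank_self] at h1
  exact h1

end Pool.MP43e44c.OD
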