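import Pool.Agent.H.MP_43e44c_ag.OD.Link
import Pool.Agent.H.MP_43e44c_ag.OD.Fp
import Pool.Agent.H.MP_43e44c_ag.OD.Sg

/-!
Exact uniformity modulo two.
-/

set_option autoImplicit false

open Finset Module

namespace Pool.MP43e44c.OD

universe u

variable {O : Type u} [Group O] [Fintype O]

private theorem uni_bij : Function.Bijective (fun v : O → Bool => bEl (ZMod 2) v) := by
  constructor
  · intro v w h
    funext g
    have h1 : (bEl (ZMod 2) v).coeff g = (bEl (ZMod 2) w).coeff g :=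
      congrArg (fun z => z.coeff g) h
    rw [bEl_coeff, bEl_coeff] at h1
    revert h1
    cases v g <;> cases w g <;> simp
  · intro x
    refine ⟨fun g => decide (x.coeff g = 0), ?_⟩
    apply ma_ext
    intro g
    rw [bEl_coeff]
    have h2 : ∀ a : ZMod 2, (if decide (a = 0) = true then (0 : ZMod 2) else 1) = a := by
      decide
    exact h2 _

private theorem uni_sing (P : WD (ZMod 2) O) (j : Fin P.m) :
    (({M : Matrix (Fin (P.r j)) (Fin (P.r j)) (P.D j) | ¬ IsUnit M}.ncard : ℕ) : ℝ)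
      = sg (P.r j) (2 ^ P.f j) * 2 ^ P.a j := by
  have h0 : Finite (P.D j) := finD P j
  have h1 := @sg_card (P.D j) (littleWedderburn (P.D j)) h0 (P.r j)
  rw [cardD] at h1
  rw [a_eq, mul_comm (P.r j ^ 2), pow_mul]
  push_cast at h1
  exact h1

private theorem uni_all (P : WD (ZMod 2) O) (j : Fin P.m) :
    (((Set.univ : Set (Matrix (Fin (P.r j)) (Fin (P.r j)) (P.D j))).ncard : ℕ) : ℝ)
      = 2 ^ P.a j := by
  have h0 : Finite (P.D j) := finD P j
  rw [Set.ncard_univ, a_eq, mul_comm (P.r j ^ 2), pow_mul]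
  have h1 : Nat.card (Matrix (Fin (P.r j)) (Fin (P.r j)) (P.D j))
      = (Nat.card (P.D j)) ^ (P.r j ^ 2) := by
    unfold Matrix
    rw [Nat.card_fun, Nat.card_fun, Nat.card_fin, ← pow_mul, sq]
  rw [h1, cardD]
  push_cast
  rfl

private theorem uni_pi {m : ℕ} (A : Fin m → Type u) [∀ i, Finite (A i)]
    (t : ∀ i, Set (A i)) :
    ({y : ∀ i, A i | ∀ i, y i ∈ t i}).ncard = ∏ i, (t i).ncard := by
  have h1 : ({y : ∀ i, A i | ∀ i, y i ∈ t i}).ncard = Nat.card (∀ i, t i) := by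
    rw [← Nat.card_coe_set_eq]
    refine Nat.card_congr ⟨fun y i => ⟨y.1 i, y.2 i⟩, fun y => ⟨fun i => (y i).1, fun i => (y i).2⟩,
      fun y => rfl, fun y => rfl⟩
  rw [h1, Nat.card_pi]
  exact prod_congr rfl fun i _ => Nat.card_coe_set_eq _

/-- `v ↦ bEl (ZMod 2) v` is a bijection onto the group algebra over `ZMod 2`
(`∑ g, (b_g) g` with `b_g ∈ {0, 1}`), which is the product of the matrix rings by `P.φ`.  The set is
a product set: `∏_{j ∉ S} (all matrices) × ∏_{j ∈ S} (singular matrices)`; `sg_card`, `cardD`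
(`P.D j` is a finite field by `commD`; use `Field` structure from `littleWedderburn` or transport). -/
theorem uni_count (P : WD (ZMod 2) O) (S : Finset (Fin P.m)) :
    (({v : O → Bool | ∀ j ∈ S, ¬ IsUnit (P.comp j (bEl (ZMod 2) v))}.ncard : ℕ) : ℝ)
      = 2 ^ Fintype.card O * ∏ j ∈ S, sg (P.r j) (2 ^ P.f j) := by
  classical
  have hD : ∀ j, Finite (P.D j) := fun j => finD P j
  have hM : ∀ j, Finite (Matrix (Fin (P.r j)) (Fin (P.r j)) (P.D j)) := fun j =>
    inferInstanceAs (Finite (Fin (P.r j) → Fin (P.r j) → P.D j))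
  set t : ∀ j, Set (Matrix (Fin (P.r j)) (Fin (P.r j)) (P.D j)) :=
    fun j => if j ∈ S then {M | ¬ IsUnit M} else Set.univ with ht
  have h1 : ({v : O → Bool | ∀ j ∈ S, ¬ IsUnit (P.comp j (bEl (ZMod 2) v))}).ncard
      = ({y : ∀ j, Matrix (Fin (P.r j)) (Fin (P.r j)) (P.D j) | ∀ j, y j ∈ t j}).ncard := by
    have hb : Function.Bijective (fun v : O → Bool => P.φ (bEl (ZMod 2) v)) :=
      P.φ.bijective.comp uni_bij
    have h2 : ({y : ∀ j, Matrix (Fin (P.r j)) (Fin (P.r j)) (P.D j) | ∀ j, y j ∈ t j})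
        = (fun v : O → Bool => P.φ (bEl (ZMod 2) v)) ''
          {v : O → Bool | ∀ j ∈ S, ¬ IsUnit (P.comp j (bEl (ZMod 2) v))} := by
      ext y
      constructor
      · intro hy
        obtain ⟨v, hv⟩ := hb.2 y
        refine ⟨v, ?_, hv⟩
        intro j hj
        have h3 := hy j
        rw [ht] at h3
        simp only [if_pos hj] at h3
        rw [P.comp_apply]
        have h4 : P.φ (bEl (ZMod 2) v) = y := hv
        rw [h4]
        exact h3
      · rintro ⟨v, hv, rfl⟩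
        intro j
        rw [ht]
        by_cases hj : j ∈ S
        · simp only [if_pos hj]
          exact hv j hj
        · simp only [if_neg hj]
          trivial
    rw [h2, Set.ncard_image_of_injective _ hb.1]
  rw [h1, uni_pi, Nat.cast_prod]
  have h5 : ∀ j, (((t j).ncard : ℕ) : ℝ)
      = 2 ^ P.a j * (if j ∈ S then sg (P.r j) (2 ^ P.f j) else 1) := by
    intro j
    rw [ht]
    by_cases hj : j ∈ S
    · simp only [if_pos hj]
      rw [uni_sing, mul_comm]
    · simp only [if_neg hj]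
      rw [uni_all, mul_one]
  rw [prod_congr rfl fun j _ => h5 j, prod_mul_distrib, prod_pow_eq_pow_sum, P.sum_a]
  congr 1
  rw [prod_ite_mem, univ_inter]

/-- For a nontrivial component `comp i (sgnEl v) = - 2 • comp i (bEl v)` (`sgnEl_eq`). -/
theorem badI_iff_bEl (W : WD ℚ O) {i : Fin W.m} (hi : W.NT i) (v : O → Bool) :
    v ∈ badI W i ↔ ∃ X : Matrix (Fin (W.r i)) (Fin (W.r i)) (W.D i), X ≠ 0 ∧
      X * W.comp i (bEl ℚ v) = 0 := by
  have h1 : W.comp i (sgnEl ℚ v) = (-2 : ℚ) • W.comp i (bEl ℚ v) := by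
    rw [sgnEl_eq, map_sub, map_smul]
    have h2 : W.comp i (sEl ℚ O) = 0 := hi
    rw [h2, zero_sub, neg_smul]
  have h3 : v ∈ badI W i ↔ ∃ X : Matrix (Fin (W.r i)) (Fin (W.r i)) (W.D i), X ≠ 0 ∧
      X * W.comp i (sgnEl ℚ v) = 0 := Iff.rfl
  rw [h3, h1]
  constructor
  · rintro ⟨X, hX, h⟩
    refine ⟨X, hX, ?_⟩
    rw [mul_smul_comm] at h
    rcases smul_eq_zero.1 h with h4 | h4
    · norm_num at h4
    · exact h4
  · rintro ⟨X, hX, h⟩
    exact ⟨X, hX, by rw [mul_smul_comm, h, smul_zero]⟩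

/-- `badI_iff_bEl`, `link` with `b = bEl ℤ v` (`map_bEl`), `uni_count` with `S = J W P i`,
`sg_le`, `not_one_one`, `sum_below_f`. -/
theorem badI_le_A (hO : Odd (Fintype.card O)) (W : WD ℚ O) {i : Fin W.m} (hi : W.NT i) :
    (((badI W i).ncard : ℕ) : ℝ) ≤ (3 / 4 : ℝ) ^ W.f i * 2 ^ Fintype.card O := by
  have hp : ¬ 2 ∣ Fintype.card O := by
    intro h
    exact (Nat.not_even_iff_odd.2 hO) (even_iff_two_dvd.2 h)
  have h0 : (Fintype.card O : ZMod 2) ≠ 0 := by
    intro h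
    exact hp ((ZMod.natCast_eq_zero_iff _ _).1 h)
  obtain ⟨P⟩ := exists_wd (ZMod 2) O h0
  have h1 : badI W i ⊆ {v : O → Bool | ∀ j ∈ J W P i, ¬ IsUnit (P.comp j (bEl (ZMod 2) v))} := by
    intro v hv
    obtain ⟨X, hX, hXb⟩ := (badI_iff_bEl W hi v).1 hv
    intro j hj
    have h2 : toQ (bEl ℤ v) = bEl ℚ v := map_bEl _ v
    have h3 : toP 2 (bEl ℤ v) = bEl (ZMod 2) v := map_bEl _ v
    rw [← h3]
    refine link hp W P (bEl ℤ v) i hX ?_ hj
    rw [h2]
    exact hXb
  have h4 : (badI W i).ncard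
      ≤ ({v : O → Bool | ∀ j ∈ J W P i, ¬ IsUnit (P.comp j (bEl (ZMod 2) v))}).ncard :=
    Set.ncard_le_ncard h1 (Set.toFinite _)
  have h5 : (((badI W i).ncard : ℕ) : ℝ)
      ≤ 2 ^ Fintype.card O * ∏ j ∈ J W P i, sg (P.r j) (2 ^ P.f j) := by
    rw [← uni_count P (J W P i)]
    exact_mod_cast h4
  refine h5.trans ?_
  rw [mul_comm]
  refine mul_le_mul_of_nonneg_right ?_ (by positivity)
  rw [← sum_below_f hp W P i, ← prod_pow_eq_pow_sum]
  refine prod_le_prod (fun j _ => sg_nonneg _ _ (Nat.one_le_two_pow)) fun j hj => ?_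
  exact sg_le _ _ (f_pos' P j) (not_one_one hO W hi hj)

end Pool.MP43e44c.OD
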