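import Pool.Agent.H.MP_43e44c_ag.OD.Def

/-!
Wedderburn decompositions: basic facts.
-/

set_option autoImplicit false

open Finset Module

namespace Pool.MP43e44c.OD

universe u

/-- `IsSemisimpleRing.exists_algEquiv_pi_matrix_divisionRing_finite` (with `R₀ = k`), the group
algebra is semisimple by Maschke (`MonoidAlgebra` instance, `NeZero (Nat.card O : k)`). -/
theorem exists_wd (k : Type) [Field k] (O : Type u) [Group O] [Fintype O]
    (h : (Fintype.card O : k) ≠ 0) : Nonempty (WD k O) := by
  have h0 : NeZero (Nat.card O : k) := ⟨by rwa [Nat.card_eq_fintype_card]⟩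
  have h1 : IsSemisimpleRing (MonoidAlgebra k O) :=
    inferInstanceAs (IsSemisimpleModule (MonoidAlgebra k O) (MonoidAlgebra k O))
  have h2 : Module.Finite k (MonoidAlgebra k O) :=
    Module.Finite.equiv (MonoidAlgebra.coeffLinearEquiv k (S := k) (M := O)).symm
  obtain ⟨n, D, d, h3, h4, h5, h6, ⟨e⟩⟩ :=
    IsSemisimpleRing.exists_algEquiv_pi_matrix_divisionRing_finite k (MonoidAlgebra k O)
  exact ⟨⟨n, D, d, h3, h4, h5, h6, e⟩⟩

/-- A matrix over a ring which commutes with all matrices is a central scalar. -/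
theorem wdB_central {n : ℕ} [NeZero n] {D : Type u} [DivisionRing D]
    (Z : Matrix (Fin n) (Fin n) D) (hZ : ∀ X, Z * X = X * Z) :
    ∃ ζ : D, (∀ d, ζ * d = d * ζ) ∧ Z = Matrix.diagonal fun _ => ζ := by
  have hdiag : ∀ i j, i ≠ j → Z i j = 0 := by
    intro i j hij
    have h := congrFun (congrFun (hZ (Matrix.single j j 1)) i) j
    rw [Matrix.mul_single_apply_same, Matrix.single_mul_apply_of_ne _ _ _ _ _ hij, mul_one] at h
    exact h
  have hcom : ∀ i j d, Z i i * d = d * Z j j := by
    intro i j d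
    have h := congrFun (congrFun (hZ (Matrix.single i j d)) i) j
    rwa [Matrix.mul_single_apply_same, Matrix.single_mul_apply_same] at h
  refine ⟨Z 0 0, fun d => hcom 0 0 d, ?_⟩
  ext i j
  by_cases hij : i = j
  · subst hij
    rw [Matrix.diagonal_apply_eq]
    have h := hcom i 0 1
    rwa [mul_one, one_mul] at h
  · rw [Matrix.diagonal_apply_ne _ hij, hdiag i j hij]

theorem wdB_central' {n : ℕ} {D : Type u} [DivisionRing D] (ζ : D) (hζ : ∀ d, ζ * d = d * ζ)
    (X : Matrix (Fin n) (Fin n) D) :
    (Matrix.diagonal fun _ => ζ) * X = X * Matrix.diagonal fun _ => ζ := by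
  ext i j
  rw [Matrix.diagonal_mul, Matrix.mul_diagonal]
  exact hζ _

namespace WD

variable {k : Type} [Field k] {O : Type u} [Group O] [Fintype O] (W : WD k O)

/-- Compare dimensions: `finrank k (MonoidAlgebra k O) = card O` (it is linearly equivalent to
`O →₀ k`), and the dimension of `Matrix (Fin r) (Fin r) D` over `k` is `r ^ 2 * finrank k D`
(`Module.finrank_matrix`). -/
theorem sum_a : ∑ i, W.a i = Fintype.card O := by
  have h1 : finrank k (MonoidAlgebra k O) = Fintype.card O := by
    rw [LinearEquiv.finrank_eq (MonoidAlgebra.coeffLinearEquiv k (S := k) (M := O)),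
      finrank_finsupp_self]
  have h2 : finrank k (MonoidAlgebra k O) =
      finrank k (Π i, Matrix (Fin (W.r i)) (Fin (W.r i)) (W.D i)) :=
    LinearEquiv.finrank_eq W.φ.toLinearEquiv
  rw [← h1, h2, finrank_pi_fintype]
  refine sum_congr rfl fun i _ => ?_
  rw [finrank_matrix, Fintype.card_fin, a, sq]

theorem comp_e_self (i : Fin W.m) : W.comp i (W.e i) = 1 := by
  rw [comp_apply, e, AlgEquiv.apply_symm_apply, Pi.single_eq_same]

theorem comp_e_ne {i j : Fin W.m} (h : j ≠ i) : W.comp j (W.e i) = 0 := by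
  rw [comp_apply, e, AlgEquiv.apply_symm_apply, Pi.single_eq_of_ne h]

theorem comp_inj {x y : MonoidAlgebra k O} (h : ∀ i, W.comp i x = W.comp i y) : x = y := by
  apply W.φ.injective
  funext i
  exact h i

theorem e_comm (i : Fin W.m) (x : MonoidAlgebra k O) : W.e i * x = x * W.e i := by
  apply W.comp_inj
  intro j
  rw [map_mul, map_mul]
  by_cases h : j = i
  · subst h
    rw [comp_e_self, one_mul, mul_one]
  · rw [comp_e_ne W h, zero_mul, mul_zero]

theorem e_mul_self (i : Fin W.m) : W.e i * W.e i = W.e i := by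
  apply W.comp_inj
  intro j
  rw [map_mul]
  by_cases h : j = i
  · subst h
    rw [comp_e_self, one_mul]
  · rw [comp_e_ne W h, zero_mul]

theorem e_mul_ne {i j : Fin W.m} (h : i ≠ j) : W.e i * W.e j = 0 := by
  apply W.comp_inj
  intro l
  rw [map_mul, map_zero]
  by_cases hl : l = i
  · subst hl
    rw [comp_e_ne W h, mul_zero]
  · rw [comp_e_ne W hl, zero_mul]

theorem sum_e : ∑ i, W.e i = 1 := by
  apply W.comp_inj
  intro j
  rw [map_sum, map_one, sum_eq_single j]
  · exact comp_e_self W j
  · intro i _ hi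
    exact comp_e_ne W hi.symm
  · intro h
    exact absurd (mem_univ j) h

theorem mul_e_iff (i : Fin W.m) (x : MonoidAlgebra k O) :
    x * W.e i = x ↔ ∀ j, j ≠ i → W.comp j x = 0 := by
  constructor
  · intro h j hj
    rw [← h, map_mul, comp_e_ne W hj, mul_zero]
  · intro h
    apply W.comp_inj
    intro j
    rw [map_mul]
    by_cases hj : j = i
    · subst hj
      rw [comp_e_self, mul_one]
    · rw [comp_e_ne W hj, h j hj, mul_zero]

theorem exists_comp (i : Fin W.m) (X : Matrix (Fin (W.r i)) (Fin (W.r i)) (W.D i)) :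
    ∃ x, W.comp i x = X ∧ x * W.e i = x := by
  refine ⟨W.φ.symm (Pi.single i X), ?_, ?_⟩
  · rw [comp_apply, AlgEquiv.apply_symm_apply, Pi.single_eq_same]
  · rw [mul_e_iff]
    intro j hj
    rw [comp_apply, AlgEquiv.apply_symm_apply, Pi.single_eq_of_ne hj]

/-- The components of a central element are central matrices (as `comp i` is surjective), and a
central matrix over a division ring is scalar with a central scalar. -/
theorem comp_central (i : Fin W.m) {z : MonoidAlgebra k O} (hz : ∀ x, z * x = x * z) :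
    ∃ ζ : W.D i, (∀ d, ζ * d = d * ζ) ∧ W.comp i z = Matrix.diagonal fun _ => ζ := by
  apply wdB_central
  intro X
  obtain ⟨x, hx, _⟩ := W.exists_comp i X
  rw [← hx, ← map_mul, ← map_mul, hz]

theorem exists_central (i : Fin W.m) (ζ : W.D i) (hζ : ∀ d, ζ * d = d * ζ) :
    ∃ z : MonoidAlgebra k O, (∀ x, z * x = x * z) ∧ z * W.e i = z ∧
      W.comp i z = Matrix.diagonal fun _ => ζ := by
  obtain ⟨z, hz1, hz2⟩ := W.exists_comp i (Matrix.diagonal fun _ => ζ)
  refine ⟨z, ?_, hz2, hz1⟩
  intro x
  apply W.comp_inj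
  intro j
  rw [map_mul, map_mul]
  by_cases hj : j = i
  · subst hj
    rw [hz1]
    exact wdB_central' ζ hζ _
  · rw [(W.mul_e_iff i z).mp hz2 j hj, zero_mul, mul_zero]

theorem f_pos (i : Fin W.m) : 0 < W.f i := by
  have : Nontrivial (Subalgebra.center k (W.D i)) := inferInstance
  exact finrank_pos

theorem f_le_finrank (i : Fin W.m) : W.f i ≤ finrank k (W.D i) :=
  Submodule.finrank_le (Subalgebra.toSubmodule (Subalgebra.center k (W.D i)))

theorem f_le_a (i : Fin W.m) : W.f i ≤ W.a i := by
  refine (W.f_le_finrank i).trans ?_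
  rw [a]
  exact Nat.le_mul_of_pos_left _ (pow_pos (Nat.pos_of_ne_zero (NeZero.ne (W.r i))) 2)

end WD

end Pool.MP43e44c.OD
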